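import Pool.Agent.P.MP_e794d7_al.Retr

/-! Artin groups with all labels at least three: position systems. -/

set_option autoImplicit false

namespace Pool.Agent.P.MP_e794d7_al.Y

open scoped Classical

noncomputable section

variable {ι : Type}

/-- the two letters span an edge with a finite label -/
def Adj (M : ι → ι → ℕ) (a b : ι) : Prop := a ≠ b ∧ M a b ≠ 0

/-- all labels are at least three -/
structure Big (M : ι → ι → ℕ) : Prop where
  symm : ∀ a b, M a b = M b a
  three : ∀ a b, Adj M a b → 3 ≤ M a b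

/-- the letter number `n` of the alternating word -/
def el (a b : ι) (n : ℕ) : ι := if Even n then a else b

/-- two unordered pairs agree -/
def Same (a b a' b' : ι) : Prop := (a = a' ∧ b = b') ∨ (a = b' ∧ b = a')

/-- chambers, the action of the letters and the colours of the walls -/
structure Pos (ι : Type) where
  X : Type
  Col : Type
  r : ι → X → X
  col : X → ι → Col

namespace Pos

variable (P : Pos ι) (M : ι → ι → ℕ)

/-- walk along the alternating word -/
def go (x : P.X) (a b : ι) : ℕ → P.X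
  | 0 => x
  | n + 1 => P.r (el a b n) (go x a b n)

/-- the colour of the wall number `n` of the walk -/
def cc (x : P.X) (a b : ι) (n : ℕ) : P.Col := P.col (P.go x a b n) (el a b n)

/-- the colour passes through the vertex -/
def Thru (x : P.X) (a b : ι) (c : P.Col) : Prop := ∃ n, P.cc x a b n = c

/-- the chamber `y` contains the vertex -/
def Res (x : P.X) (a b : ι) (y : P.X) : Prop := ∃ n, P.go x a b n = y

/-- two different colours that have no common vertex -/
def NX (c c' : P.Col) : Prop :=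
  c ≠ c' ∧ ∀ x a b, Adj M a b → P.Thru x a b c → P.Thru x a b c' → False

/-- a colour through the vertex `(y; a, b)` that is far from both chambers of the `a`-panel -/
def Deep (y : P.X) (a b : ι) (σ : P.Col) : Prop :=
  ∃ k, 3 ≤ k ∧ k + 3 ≤ M a b ∧ σ = P.cc y a b k

/-- a colour through the vertex `(y; a, b)` that is far from the chamber `y` -/
def Deep1 (y : P.X) (a b : ι) (σ : P.Col) : Prop :=
  ∃ k, 2 ≤ k ∧ k + 3 ≤ M a b ∧ σ = P.cc y a b k

/-- basic properties -/
structure Bas : Prop where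
  big : Big M
  rr : ∀ a x, P.r a (P.r a x) = x
  col_r : ∀ a x, P.col (P.r a x) a = P.col x a
  braid : ∀ x a b, Adj M a b → P.go x a b (M a b) = P.go x b a (M a b)
  per : ∀ x a b, Adj M a b → P.cc x a b (M a b) = P.col x a
  inj : ∀ x a b i j, Adj M a b → i < M a b → j < M a b → P.cc x a b i = P.cc x a b j → i = j
  x2 : ∀ x a b, P.col x a = P.col x b → a = b
  x1 : ∀ x a b a' b' c, Adj M a b → Adj M a' b' → ¬ Same a b a' b' → P.Thru x a b c →
    P.Thru x a' b' c → ∃ g, (g = a ∨ g = b) ∧ (g = a' ∨ g = b') ∧ c = P.col x g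

/-- a panel `[y, a]` at the vertex `(x; s, t)`, other than `[x, s]`, and a further vertex of it -/
structure O1 (x : P.X) (s t : ι) (y : P.X) (a b : ι) : Prop where
  adj : Adj M s t
  res : P.Res x s t y
  mem : a = s ∨ a = t
  ne : ¬ (a = s ∧ (y = x ∨ y = P.r s x))
  bs : b ≠ s
  bt : b ≠ t
  adj' : Adj M a b

/-- no chamber of the panel `[y, a]` touches the wall of `[x, s]` -/
def In1 (x : P.X) (s t : ι) (y : P.X) (a : ι) : Prop :=
  ∀ y', y' = y ∨ y' = P.r a y → ∀ g, g = s ∨ g = t → P.col y' g ≠ P.col x s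

/-- an apex: a vertex `(z; t1, t2)` of a chamber `z` at `(x; s, t)` that touches the wall -/
structure Ap (x : P.X) (s t : ι) (z : P.X) (t1 t2 : ι) : Prop where
  adj : Adj M s t
  res : P.Res x s t z
  mem : t1 = s ∨ t1 = t
  wall : ∃ g, (g = s ∨ g = t) ∧ g ≠ t1 ∧ P.col z g = P.col x s
  ts : t2 ≠ s
  tt : t2 ≠ t
  adj' : Adj M t1 t2

/-- a panel `[y, a]` at the vertex `(z; t1, t2)`, far from `z`, and a further vertex of it -/
structure O2 (z : P.X) (t1 t2 : ι) (y : P.X) (a b : ι) : Prop where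
  res : P.Res z t1 t2 y
  mem : a = t1 ∨ a = t2
  far : ∀ y', y' = y ∨ y' = P.r a y → y' ≠ z ∧ y' ≠ P.r t1 z ∧ y' ≠ P.r t2 z
  b1 : b ≠ t1
  b2 : b ≠ t2
  adj' : Adj M a b

/-- the same panel and the same vertex -/
def SameO (y : P.X) (a b : ι) (y' : P.X) (a' b' : ι) : Prop :=
  a' = a ∧ b' = b ∧ (y' = y ∨ y' = P.r a y)

/-- local geometry, for a relation `N` that says that two walls do not meet -/
structure Geo (N : P.Col → P.Col → Prop) : Prop where
  ncs : ∀ x a b a' b' σ c, Adj M a b → Adj M a' b' → ¬ Same a b a' b' → P.Deep1 M x a b σ →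
    P.Thru x a' b' c → c ≠ P.col x a → c ≠ P.col x b → N σ c
  g11 : ∀ x s t y a b σ t' y' a' b' σ', P.O1 M x s t y a b → P.In1 x s t y a → P.Deep M y a b σ →
    P.O1 M x s t' y' a' b' → P.Deep M y' a' b' σ' → N σ σ' ∨ P.SameO y a b y' a' b'
  g21 : ∀ x s t z t1 t2 y a b σ t' y' a' b' σ', P.Ap M x s t z t1 t2 → P.O2 M z t1 t2 y a b →
    P.Deep M y a b σ → P.O1 M x s t' y' a' b' → P.Deep M y' a' b' σ' →
    N σ σ' ∨ ((y' = z ∨ P.r a' y' = z) ∧ Same a' b' t1 t2)
  g22 : ∀ x s t z t1 t2 y a b σ t' z' t1' t2' y' a' b' σ', P.Ap M x s t z t1 t2 →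
    P.O2 M z t1 t2 y a b → P.Deep M y a b σ → P.Ap M x s t' z' t1' t2' →
    P.O2 M z' t1' t2' y' a' b' → P.Deep M y' a' b' σ' → N σ σ' ∨ P.SameO y a b y' a' b'
  a1 : ∀ x s t y a b σ t' c, P.O1 M x s t y a b → P.In1 x s t y a → P.Deep M y a b σ →
    Adj M s t' → P.Thru x s t' c → c ≠ P.col y a → N σ c
  a2 : ∀ x s t z t1 t2 y a b σ t' c, P.Ap M x s t z t1 t2 → P.O2 M z t1 t2 y a b →
    P.Deep M y a b σ → Adj M s t' → P.Thru x s t' c → c ≠ P.col y a → N σ c
  b1 : ∀ x s t y a b σ t' z' t1' t2' τ, P.O1 M x s t y a b → P.In1 x s t y a → P.Deep M y a b σ →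
    P.Ap M x s t' z' t1' t2' → P.Deep1 M z' t1' t2' τ → N σ τ
  b2 : ∀ x s t z t1 t2 y a b σ t' z' t1' t2' τ, P.Ap M x s t z t1 t2 → P.O2 M z t1 t2 y a b →
    P.Deep M y a b σ → P.Ap M x s t' z' t1' t2' → P.Deep1 M z' t1' t2' τ → τ ≠ P.col y a → N σ τ
  tt : ∀ x s t z t1 t2 τ t' z' t1' t2' τ', P.Ap M x s t z t1 t2 → P.Deep1 M z t1 t2 τ →
    P.Ap M x s t' z' t1' t2' → P.Deep1 M z' t1' t2' τ' → N τ τ' ∨ (z' = z ∧ Same t1 t2 t1' t2')

/-- a side function -/
def Eps (e : P.X → P.Col → Bool) : Prop :=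
  ∀ a x c, e (P.r a x) c = xor (e x c) (decide (P.col x a = c))

/-- the edge `(x, a)` belongs to the chain of the colour `c` -/
def ChE (c : P.Col) (x : P.X) (a : ι) : Prop :=
  P.col x a ≠ c ∧ ∃ b, Adj M a b ∧ P.Thru x a b c

/-- `π` gives the position of an element of the Artin group -/
def IsPos (π : Art M → P.X) : Prop := ∀ g a, π (g * Art.gen M a) = P.r a (π g)

/-- joined by edges of the chain -/
def Ch (c : P.Col) (π : Art M → P.X) : Art M → Art M → Prop :=
  Relation.EqvGen fun g h => ∃ a, P.ChE M c (π g) a ∧ h = g * Art.gen M a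

/-- every labelling of the chain extends to a finite state cocycle -/
def Ext (π : Art M → P.X) : Prop :=
  ∀ (c : P.Col) (Q : Type) [Group Q] (lam : P.X → ι → Q) (g₀ : Art M), ∃ F : Art M → Q,
    (∀ g a, P.Ch M c π g₀ g → P.ChE M c (π g) a → F (g * Art.gen M a) = F g * lam (π g) a) ∧
    (Finite Q → ∃ H : Subgroup (Art M), H.FiniteIndex ∧ ∀ h ∈ H, ∀ g, F (h * g) = F g)

end Pos

/-! ### the reflection representation -/

/-- `2 cos (π / m)`, and `2` for the label infinity -/
def cst (m : ℕ) : ℝ := if m = 0 then 2 else 2 * Real.cos (Real.pi / m)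

/-- the invariant form -/
def Bf [Fintype ι] (M : ι → ι → ℕ) : (ι → ℝ) →ₗ[ℝ] (ι → ℝ) →ₗ[ℝ] ℝ :=
  Matrix.toBilin' (Matrix.of fun a b => if a = b then 2 else -cst (M a b))

/-- the simple roots -/
def al (a : ι) : ι → ℝ := Pi.single a 1

/-- a residually finite group generated by the simple reflections -/
structure Rep [Fintype ι] (M : ι → ι → ℕ) where
  W : Type
  [grp : Group W]
  σ : ι → W
  act : W →* ((ι → ℝ) ≃ₗ[ℝ] (ι → ℝ))
  inj : Function.Injective act
  gen : Subgroup.closure (Set.range σ) = ⊤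
  act_σ : ∀ a v, act (σ a) v = v - Bf M (al a) v • al a
  rf : ∀ w : W, w ≠ 1 → ∃ (K : Type) (_ : Group K) (_ : Finite K) (f : W →* K), f w ≠ 1

attribute [instance] Rep.grp

namespace Rep

variable [Fintype ι] {M : ι → ι → ℕ} (R : Rep M)

/-- the group itself as a position system -/
def pos : Pos ι where
  X := R.W
  Col := R.W
  r a w := w * R.σ a
  col w a := w * R.σ a * w⁻¹

/-- roots -/
def IsRoot (β : ι → ℝ) : Prop := ∃ w a, β = R.act w (al a)

/-- the root number `n` of the walk -/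
def gm (D : R.W) (a b : ι) (n : ℕ) : ι → ℝ := R.act (R.pos.go D a b n) (al (el a b n))

/-- the chamber `g` lies on the negative side of `β` -/
def Ng (g : R.W) (β : ι → ℝ) : Prop := R.act g⁻¹ β ≤ 0

/-- the negative sides are disjoint -/
def Disj (β γ : ι → ℝ) : Prop := ∀ g, ¬ (R.Ng g β ∧ R.Ng g γ)

/-- the negative sides are disjoint and do not cover -/
def SD (β γ : ι → ℝ) : Prop := R.Disj β γ ∧ ∃ g, ¬ R.Ng g β ∧ ¬ R.Ng g γ

/-- the product has infinite order -/
def Free2 (r r' : R.W) : Prop := ∀ n, 1 ≤ n → (r * r') ^ n ≠ 1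

end Rep

end

end Pool.Agent.P.MP_e794d7_al.Y
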