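import Pool.Agent.P.MP_e794d7_al.Y.LDef

/-! Caps in the finite position system. -/

set_option autoImplicit false

namespace Pool.Agent.P.MP_e794d7_al.Y

open scoped Classical

namespace Lk

variable {ι Q : Type} [Group Q] {Z : Lk ι Q}
variable {l l' : Z.W.Wl} {w w' y y' : Z.W.U.X} {a b g g' s s' : ι} {q : Z.C.Pn} {x : Z.C.P.X}
variable {f f' : Z.C.Fl} {L : Z.C.P.X × ι × ι → Z.C.tr.D}

theorem lam_r (L : Z.C.P.X × ι × ι → Z.C.tr.D) (l : Z.W.Wl) (w : Z.W.U.X) (a : ι) :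
    Z.lam L l (Z.W.U.r a w) a = Z.lam L l w a := by
  rw [lam, lam, Z.F.φ_r, Z.C.hB.col_r, Pos.Bas.e_r_col Z.C.he, Z.W.hB.rr]
  cases Z.C.e (Z.F.φ w) (Z.C.P.col (Z.F.φ w) a) <;> rfl

theorem hb_le : Hc ι Z.C.K + Z.C.K ≤ Hm ι Z.C.K := by rw [Hm]; omega

namespace CapW

variable (h : Z.CapW x q f l w y s)
include h

theorem adj : Adj Z.C.M f.1.a f.2 := h.cp.1.1.1

theorem ht : Z.W.ht l w ≤ Hm ι Z.C.K := h.cp.2.1.ht.trans hb_le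

theorem mid : Z.W.U.Mid Z.C.M w f.1.a f.2 (Z.W.gt w f.1.a f.2) := Z.W.gt_mid _ _ _ h.adj

theorem gate : Z.F.ψ (Z.W.gt w f.1.a f.2) = Z.C.gate f := by rw [Z.hgt _ _ _ h.adj, ← h.fl]

theorem nr : Nr Z.W.e (Rd ι Z.C.K) y (Z.W.gt w f.1.a f.2) :=
  nr_thru h.tk.sy h.ht h.adj h.mid.thru

theorem pc : Z.C.pc f.1 = Z.C.P.col (Z.F.φ w) f.1.a := by
  conv_lhs => rw [h.fl, Ctx.pc_pan]

theorem nxc : Z.C.P.NX Z.C.M (Z.C.gate f) Z.C.c := by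
  rw [← h.gate, ← h.tk.pc]
  exact nx h.nr (nr_l h.tk.sy) (h.cp.d5 h.mid)

theorem step (hg : Adj Z.C.M g g') (ht : Z.C.P.Thru x g g' (Z.C.gate f)) : ∃ w' y' s',
    (w' = w ∨ w' = Z.W.U.r f.1.a w) ∧
      Z.CapW (Z.C.P.r g x) (Z.C.mv (Z.C.P.col x g) q) f l w' y' s' := by
  rcases Ctx.mv_cases (Z.C.P.col x g) q with ⟨h1, h2⟩ | ⟨b, h1, h2, h3⟩
  · rw [h2]
    refine ⟨w, y, s, Or.inl rfl, h.cp, h.fl, h.tk, fun b hb e => ?_⟩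
    rw [Pos.Bas.e_r_ne Z.C.he, h.par b hb e]
    rw [h.pc, ← Z.F.ψ_col, ← e, h.tk.gt hb]
    exact h1 b (h.tk.ok.2 hb)
  · have hb := h.tk.ok.1 h1
    have k1 := Wb.gt_lat h.tk.sy.1 hb
    have k2 : Z.W.gt y s b = Z.W.U.col w f.1.a := by
      by_contra k3
      refine (nx h.nr (nr_gt y hb) ⟨fun e => Wb.not_lat_of_nx (h.cp.d5 h.mid) (e ▸ k1),
        fun v u u' hu t1 t2 => k3 (h.cp.d6a h.mid hu t1 t2 k1)⟩).2 x g g' hg ?_ ?_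
      · rwa [h.gate]
      · rw [h.tk.gt hb, ← h2]; exact Pos.thru_col _ _ _
    have k3 : Z.C.pc f.1 = Z.C.P.col x g := by rw [h.pc, ← Z.F.ψ_col, ← k2, h.tk.gt hb, h2]
    rw [h3]
    refine ⟨_, _, _, Or.inr rfl, h.cp.r, by rw [Z.F.φ_r, Ctx.pan_r]; exact h.fl,
      h.tk.gate hb k2.symm, fun _ _ _ => ?_⟩
    have k4 := h.par b hb k2
    rw [Z.F.φ_r]
    conv_lhs => rw [k3, Pos.Bas.e_r_col Z.C.he, ← k3, k4]
    rw [h.pc, Pos.Bas.e_r_col Z.C.he]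

theorem uniq {x' : Z.C.P.X} (h' : Z.CapW x' q f' l' w' y' s') (hg : Adj Z.C.M g g')
    {v : Z.C.P.X} (ht : Z.C.P.Thru v g g' (Z.C.gate f)) (ht' : Z.C.P.Thru v g g' (Z.C.gate f')) :
    f' = f ∧ Z.lam L l' w' f'.1.a = Z.lam L l w f.1.a := by
  obtain ⟨α, k1, k2, k3⟩ := h'.tk.tr h.tk
  have c1 := (k1.cp _ _ _).2 h'.cp
  have m1 := Z.W.gt_mid (α.f w') _ _ h'.adj
  have g1 : Z.F.ψ (Z.W.gt (α.f w') f'.1.a f'.2) = Z.C.gate f' := by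
    rw [Z.hgt _ _ _ h'.adj, k2, ← h'.fl]
  obtain ⟨e1, e2, e3⟩ := h.cp.d6c h.mid c1 m1 fun hn =>
    (nx h.nr (nr_thru k3.sy (by rw [k1.ht]; exact h'.ht) h'.adj m1.thru) hn).2 v g g' hg
      (by rwa [h.gate]) (by rwa [g1])
  have e4 : Z.lam L l' w' f'.1.a = Z.lam L l (α.f w') f'.1.a := by
    rw [lam, lam, k2, lab_tr k1 k2, ← α.f_r, lab_tr k1 k2]
  refine ⟨Prod.ext ?_ e2, ?_⟩
  · rw [h'.fl, h.fl, ← k2, e1]
    rcases e3 with e3 | e3 <;> rw [e3]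
    rw [Z.F.φ_r, Ctx.pan_r]
  · rw [e4, e1]
    rcases e3 with e3 | e3 <;> rw [e3]
    exact lam_r _ _ _ _

theorem lab (hg : Adj Z.C.M g g') (ht : Z.C.P.Thru x g g' (Z.C.gate f)) :
    Z.labX L q x g = if f.1 = Z.C.pan x g then
      dirn (Z.C.e x (Z.C.P.col x g)) (Z.lam L l w f.1.a) else 1 := by
  split_ifs with h1
  · obtain ⟨rfl, h2 | h2⟩ := Ctx.pan_eq_iff.1 (h1.symm.trans h.fl)
    · rw [h2, labX_eq L h.tk h.ht, lam, dirn_ord]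
    · have h3 : Z.Tk q l (Z.W.U.r f.1.a w) y s :=
        ⟨h.tk.pan, h.tk.pc, h.tk.sy.step fun b hb e => by
          have := h.par b hb e.symm
          rw [h2, h.pc, Pos.Bas.e_r_col Z.C.he] at this
          simp at this⟩
      rw [h2, ← Z.F.φ_r, labX_eq L h3 (h.cp.r.2.1.ht.trans hb_le), ← lam_r, lam, dirn_ord]
  · refine labX_one L fun l' w' y' s' e k0 k4 k5 => h1 ?_
    obtain ⟨α, k1, k2, k3⟩ := k0.tr h.tk
    rw [← e, ← k2] at ht ⊢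
    obtain ⟨τ, t1, t2⟩ := Z.F.lift_thru ht
    rw [← inj h.nr (nr_thru k3.sy (by rwa [k1.ht]) hg t1) (h.gate.trans t2)] at t1
    obtain ⟨e1, -, e3⟩ := h.cp.d6b h.mid hg t1 ((k1.act _ _).2 k5)
    rw [h.fl, e1]
    rcases e3 with e3 | e3 <;> rw [e3]
    rw [Z.F.φ_r, Ctx.pan_r]

end CapW

variable {Λ : Q × Q} {t : Z.C.St}

theorem CapL.step (h : Z.CapL t.L t.x t.tl f Λ) (hg : Adj Z.C.M g g')
    (ht : Z.C.P.Thru t.x g g' (Z.C.gate f)) :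
    Z.CapL (Z.C.step g t).L (Z.C.step g t).x (Z.C.step g t).tl f Λ := by
  obtain ⟨l, w, y, s, h1, rfl⟩ := h
  obtain ⟨w', y', s', h2, h3⟩ := h1.step hg ht
  rw [Ctx.step_L_ne fun e => h1.nxc.2 _ _ _ hg ht (e ▸ Pos.thru_col _ _ _)]
  refine ⟨l, w', y', s', h3, ?_⟩
  rcases h2 with rfl | rfl
  exacts [rfl, (lam_r _ _ _ _).symm]

theorem CapL.kap (h : Z.CapL t.L t.x t.tl f Λ) (hg : Adj Z.C.M g g')
    (ht : Z.C.P.Thru t.x g g' (Z.C.gate f)) :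
    Z.kap g t = (t.mem f.1 Λ)⁻¹ * (Z.C.step g t).mem f.1 Λ := by
  obtain ⟨l, w, y, s, h1, rfl⟩ := h
  have ok : Z.C.Ok f := h1.adj
  have hc : Z.capX g t = if Z.C.gate f = Z.C.P.col t.x g then
      (t.mem f.1 (Z.lam t.L l w f.1.a))⁻¹ * t.mem (Z.C.op f).1 (Z.lam t.L l w f.1.a) else 1 := by
    rw [capX]
    split_ifs with h2 h3 h3
    · obtain ⟨f', Λ', ⟨l', w', y', s', h4, rfl⟩, h5, h6⟩ := h2.choose_spec
      obtain ⟨rfl, h7⟩ := h1.uniq (L := t.L) h4 hg ht (h5 ▸ Pos.thru_col _ _ _)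
      rw [h6, h7]
    · obtain ⟨-, f', Λ', ⟨l', w', y', s', h4, -⟩, h5, -⟩ := h2
      obtain ⟨rfl, -⟩ := h1.uniq (L := t.L) h4 hg ht (h5 ▸ Pos.thru_col _ _ _)
      exact (h3 h5).elim
    · exact (h2 ⟨_, f, _, ⟨l, w, y, s, h1, rfl⟩, h3, rfl⟩).elim
    · rfl
  rw [Lk.kap, h1.lab hg ht, hc]
  simp only [Ctx.step]
  by_cases h2 : f.1 = Z.C.pan t.x g
  · rw [if_pos h2, if_pos h2, if_neg fun e => Ctx.gate_ne_pc ok (by rw [e, h2, Ctx.pc_pan])]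
    simp
  rw [if_neg h2, if_neg h2, one_mul]
  split_ifs with h3
  · rw [← h3, Ctx.mv_gate ok]
  · rw [Ctx.mv_ne, inv_mul_cancel]
    intro b hb e
    by_cases h4 : b = f.2
    · exact h3 (by rw [e, h4])
    · exact (Ctx.gate_gate_nx hb ok h4).2 _ _ _ hg (e ▸ Pos.thru_col _ _ _) ht

/-- no cap passes through the vertex -/
def NA (Z : Lk ι Q) (x : Z.C.P.X) (q : Z.C.Pn) (a b : ι) : Prop :=
  ∀ f l w y s, Z.CapW x q f l w y s → ¬ Z.C.P.Thru x a b (Z.C.gate f)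

theorem NA.same (h : Z.NA x q a b) (hab : Adj Z.C.M a b) (hs : Same a b g g') : Z.NA x q g g' :=
  fun f l w y s h1 ht => h f l w y s h1
    (Z.C.hB.thru_same (Z.C.hB.big.adj_same hab hs) hs.symm ht)

theorem NA.step (h : Z.NA x q a b) (hab : Adj Z.C.M a b) :
    Z.NA (Z.C.P.r a x) (Z.C.mv (Z.C.P.col x a) q) a b := by
  intro f l w y s h1 ht
  obtain ⟨w', y', s', -, h2⟩ := h1.step hab ht
  rw [Z.C.hB.rr, Z.C.hB.col_r, Ctx.mv_mv] at h2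
  exact h f l w' y' s' h2 ((Z.C.hB.pl_thru hab (Pos.pl_r x a b)).1 ht)

theorem NA.kap (h : Z.NA t.x t.tl a b) : Z.kap a t = Z.labX t.L t.tl t.x a := by
  rw [Lk.kap, capX, dif_neg, mul_one]
  rintro ⟨-, f, Λ, ⟨l, w, y, s, h1, -⟩, h2, -⟩
  exact h f l w y s h1 (h2 ▸ Pos.thru_col _ _ _)

theorem na_of_c (hab : Adj Z.C.M a b) (ht : Z.C.P.Thru x a b Z.C.c) : Z.NA x q a b :=
  fun _ _ _ _ _ h1 h2 => h1.nxc.2 _ _ _ hab h2 ht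

/-- a cap at the vertex of the lift is a cap of the state -/
theorem NA.no_cp (h : Z.NA (Z.F.φ w) q a b) (hab : Adj Z.C.M a b) (h1 : Z.Tk q l w y s)
    (hw : Z.W.ht l w ≤ Hm ι Z.C.K) {z : Z.W.U.X} (hp : Z.W.U.Pl w a b z g g') :
    ¬ Z.W.Cp l z g g' := by
  intro hc
  obtain ⟨z', p1, c1, e1⟩ : ∃ z', Z.W.U.Pl w a b z' g g' ∧ Z.W.Cp l z' g g' ∧
      Z.W.e z' (Z.W.U.col z' g) = Z.W.e w (Z.W.U.col z' g) := by
    by_cases e : Z.W.e z (Z.W.U.col z g) = Z.W.e w (Z.W.U.col z g)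
    · exact ⟨z, hp, hc, e⟩
    · exact ⟨_, Z.W.hB.pl_r' hab hp, hc.r, by
        rw [Z.W.hB.col_r]; exact bne_of (Z.W.cx.e_flip z g) (Ne.symm e)⟩
  have hg := Z.W.hB.pl_adj hab p1
  have hm := Z.W.gt_mid z' g g' hg
  have s1 : Z.W.Sy l z' y s := ⟨h1.sy.1, fun b' hb' => by
    rw [← h1.sy.2 b' hb']
    by_cases t1 : Z.W.U.Thru w a b (Z.W.gt y s b')
    · rw [c1.d6a hm hab ((Z.W.hB.pl_thru hab p1).1 hm.thru) t1 (Wb.gt_lat h1.sy.1 hb'), e1]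
    · exact Pos.Bas.e_res Z.W.he p1.1 t1⟩
  have n1 := near h1.sy hw
  have n2 := near s1 (c1.2.1.ht.trans hb_le)
  refine h (Z.C.pan (Z.F.φ z') g, g') l z' y s ⟨by simpa using c1, by simp, ⟨h1.pan, h1.pc, s1⟩,
    fun _ _ _ => ?_⟩ ?_
  · rw [Ctx.pc_pan, ← Z.F.ψ_col]
    exact (par (y := y) (nr_col (by omega) g) (by omega) (by omega)).2 e1.symm
  · rw [← Z.hgt _ _ _ hg]
    exact Z.F.push_thru ((Z.W.hB.pl_thru hab p1).1 hm.thru)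

end Lk

end Pool.Agent.P.MP_e794d7_al.Y
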