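import Pool.Agent.P.MP_e794d7_al.Y.MSt

/-! The braid relation for the labels at a vertex of the wall. -/

set_option autoImplicit false

namespace Pool.Agent.P.MP_e794d7_al.Y

namespace MCellU

open Ctx

variable {ι Q : Type} [Group Q] {C : Ctx ι Q}

theorem res_run (s : C.St) (a b : ι) (n : ℕ) : C.P.Res s.x a b (grun C.step s a b n).x := by
  rw [grun_x]; exact Pos.res_go _ _ _ _

theorem thru_run {s : C.St} {a b : ι} (hab : Adj C.M a b) (ht : C.P.Thru s.x a b C.c) (n : ℕ) :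
    C.P.Thru (grun C.step s a b n).x (el a b n) (el a b (n + 1)) C.c :=
  C.hB.thru_same hab (same_el a b n) ((C.hB.thru_res hab (res_run s a b n)).1 ht)

theorem el_ne {t g : ι} (h : t ≠ g) (n : ℕ) : el t g n ≠ el t g (n + 1) := by
  rcases el_cases t g n with ⟨h1, h2⟩ | ⟨h1, h2⟩ <;> rw [h1, h2]
  exacts [h, h.symm]

theorem idx_go' {t g : ι} (h : Adj C.M t g) (x : C.P.X) (n : ℕ) :
    C.idx (x, t, g) (C.P.go x t g n) = n % (2 * C.M t g) := by
  rw [← C.hB.go_mod h x n]
  exact idx_go h x (Nat.mod_lt _ (by have := h.2; omega))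

theorem mod_mod2 (n m : ℕ) : n % (2 * m) % m = n % m := Nat.mod_mod_of_dvd n (dvd_mul_left m 2)

theorem el_mod (t g : ι) (n m : ℕ) : el t g (n % (2 * m)) = el t g n :=
  el_congr _ _ (Nat.mod_mod_of_dvd n (dvd_mul_right 2 m))

/-- the label of a forward edge -/
theorem raw_fw {t g : ι} (h : Adj C.M t g) (x : C.P.X) (d : C.tr.D) (n : ℕ) :
    C.raw d (x, t, g) (C.P.go x t g n) (el t g n) =
      (C.tr.PF (C.M t g) d (n % C.M t g))⁻¹ * C.tr.PF (C.M t g) d (n % C.M t g + 1) := by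
  rw [raw, idx_go' h, if_pos (el_mod t g n _).symm, mod_mod2]

/-- the label of a backward edge -/
theorem raw_bw {t g : ι} (h : Adj C.M t g) (x : C.P.X) (d : C.tr.D) (n : ℕ) :
    C.raw d (x, t, g) (C.P.go x t g (n + 1)) (el t g n) =
      C.tr.PR (C.M t g) d ((n + 1) % C.M t g) *
        (C.tr.PR (C.M t g) d ((n + 1) % C.M t g - 1))⁻¹ := by
  rw [raw, idx_go' h, if_neg, mod_mod2]
  rw [el_mod]
  exact el_ne h.1 n

theorem cc_c {t g : ι} (h : Adj C.M t g) {x : C.P.X} (hc : C.P.col x g = C.c) (n : ℕ) :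
    C.P.cc x t g n = C.c ↔ n % C.M t g = C.M t g - 1 := by
  rw [← hc, ← C.hB.cc_last h x, C.hB.cc_eq_iff h,
    Nat.mod_eq_of_lt (a := C.M t g - 1) (by have := h.2; omega)]

theorem mod_lo {k j m : ℕ} (h : k % m + j < m) : (k + j) % m = k % m + j := by
  rw [← Nat.mod_add_mod, Nat.mod_eq_of_lt h]

theorem mod_hi {k j m : ℕ} (h : m ≤ k % m + j) (h' : k % m + j < 2 * m) :
    (k + j) % m = k % m + j - m := by
  rw [← Nat.mod_add_mod, Nat.mod_eq_sub_mod h, Nat.mod_eq_of_lt (by omega)]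

/-- the labels at a vertex of the wall are read from the data -/
def SU (C : Ctx ι Q) (κ : ι → C.St → Q) (O : C.St → Prop) (a b : ι) : Prop :=
  ∀ s g g', Same a b g g' → O s → O (C.step g s) ∧
    (C.P.col s.x g ≠ C.c → κ g s = C.raw (s.L (C.bs s.x g g')) (C.bs s.x g g') s.x g) ∧
    (C.P.col s.x g = C.c → κ g s = 1 ∧ (C.step g s).L = C.TL s.L)

variable {κ : ι → C.St → Q} {O : C.St → Prop}

theorem SU.same {a b a' b' : ι} (h : SU C κ O a b) (hs : Same a b a' b') : SU C κ O a' b' :=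
  fun s g g' h1 => h s g g' (hs.trans h1)

theorem on_run {a b : ι} (hS : SU C κ O a b) {s : C.St} (ho : O s) : ∀ n,
    O (grun C.step s a b n)
  | 0 => ho
  | n + 1 => (hS _ _ _ (same_el a b n) (on_run hS ho n)).1

/-- one step of a run with all tokens matched -/
theorem step_on {s : C.St} {a b : ι} (hS : SU C κ O a b) (hab : Adj C.M a b)
    (ho : O s) {w : C.P.X × ι × ι}
    (hw : C.bs s.x a b = w) (n : ℕ) {y : C.P.X} {u : ι} (hy : C.P.go s.x a b n = y)
    (hu : el a b n = u) :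
    (C.P.col y u ≠ C.c →
      glab C.step κ s a b (n + 1) =
        glab C.step κ s a b n * C.raw ((grun C.step s a b n).L w) w y u ∧
      (grun C.step s a b (n + 1)).L w = (grun C.step s a b n).L w) ∧
    (C.P.col y u = C.c → glab C.step κ s a b (n + 1) = glab C.step κ s a b n ∧
      (grun C.step s a b (n + 1)).L w = C.tr.T (C.M w.2.1 w.2.2) ((grun C.step s a b n).L w)) := by
  obtain ⟨-, h1, h2⟩ := hS _ _ _ (same_el a b n) (on_run hS ho n)
  rw [bs_congr hab (res_run s a b n) (same_el a b n), hw] at h1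
  rw [← grun_x] at hy
  subst hy hu
  refine ⟨fun h => ⟨?_, ?_⟩, fun h => ⟨?_, ?_⟩⟩
  · rw [glab, h1 h]
  · rw [grun, step_L_ne h]
  · rw [glab, (h2 h).1, mul_one]
  · rw [grun, (h2 h).2]; rfl

theorem forward {s : C.St} {x : C.P.X} {t g : ι} (hS : SU C κ O t g) (h : Adj C.M t g)
    (hc : C.P.col x g = C.c) {k : ℕ} (hx : s.x = C.P.go x t g k)
    (ho : O s)
    (hw : C.bs s.x (el t g k) (el t g (k + 1)) = (x, t, g)) {m : ℕ} (hm : C.M t g = m)
    {d : C.tr.D} (hd : s.L (x, t, g) = d) : ∀ j, j ≤ m →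
    (k % m + j < m → (grun C.step s (el t g k) (el t g (k + 1)) j).L (x, t, g) = d ∧
      glab C.step κ s (el t g k) (el t g (k + 1)) j =
        (C.tr.PF m d (k % m))⁻¹ * C.tr.PF m d (k % m + j)) ∧
    (m ≤ k % m + j → (grun C.step s (el t g k) (el t g (k + 1)) j).L (x, t, g) = C.tr.T m d ∧
      glab C.step κ s (el t g k) (el t g (k + 1)) j =
        (C.tr.PF m d (k % m))⁻¹ * C.tr.PF m d (m - 1) * C.tr.PF m (C.tr.T m d) (k % m + j - m))
  | 0, _ => by
    have hk : k % m < m := Nat.mod_lt _ (by have := h.2; omega)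
    exact ⟨fun _ => ⟨hd, by rw [add_zero, inv_mul_cancel]; rfl⟩, fun h1 => by omega⟩
  | j + 1, hj => by
    have hk : k % m < m := Nat.mod_lt _ (by omega)
    obtain ⟨i1, i2⟩ := forward hS h hc hx ho hw hm hd j (by omega)
    obtain ⟨s1, s2⟩ := step_on (hS.same (same_el t g k)) (C.hB.big.adj_el h k) ho hw j
      (y := C.P.go x t g (k + j)) (by rw [hx, Pos.go_add]) (el_el t g k j)
    have hcc := cc_c h hc (k + j)
    rw [Pos.cc, hm] at hcc
    rw [raw_fw h, hm] at s1
    refine ⟨fun h1 => ?_, fun h1 => ?_⟩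
    · obtain ⟨i3, i4⟩ := i1 (by omega)
      rw [mod_lo (by omega)] at hcc s1
      obtain ⟨s3, s4⟩ := s1 fun e => by have := hcc.1 e; omega
      rw [s3, s4, i3, i4, mul_assoc, mul_inv_cancel_left, add_assoc]
      exact ⟨rfl, rfl⟩
    · rcases lt_or_ge (k % m + j) m with h2 | h2
      · obtain ⟨i3, i4⟩ := i1 h2
        rw [mod_lo h2] at hcc
        obtain ⟨s3, s4⟩ := s2 (hcc.2 (by omega))
        rw [s3, s4, i3, i4, show k % m + (j + 1) - m = 0 by omega, C.tr.PF0, mul_one,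
          show k % m + j = m - 1 by omega, hm]
        exact ⟨rfl, rfl⟩
      · obtain ⟨i3, i4⟩ := i2 h2
        rw [mod_hi h2 (by omega)] at hcc s1
        obtain ⟨s3, s4⟩ := s1 fun e => by have := hcc.1 e; omega
        rw [s3, s4, i3, i4, mul_assoc _ _ (_ * _), mul_inv_cancel_left,
          show k % m + (j + 1) - m = k % m + j - m + 1 by omega]
        exact ⟨rfl, rfl⟩

theorem backward {s : C.St} {x : C.P.X} {t g : ι} (hS : SU C κ O t g) (h : Adj C.M t g)
    (hc : C.P.col x g = C.c) {k : ℕ} (hx : s.x = C.P.go x t g k)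
    (ho : O s)
    (hw : C.bs s.x (el t g (k + 1)) (el t g k) = (x, t, g)) {m : ℕ} (hm : C.M t g = m)
    {d : C.tr.D} (hd : s.L (x, t, g) = d) : ∀ j, j ≤ m →
    (j ≤ k % m → (grun C.step s (el t g (k + 1)) (el t g k) j).L (x, t, g) = d ∧
      glab C.step κ s (el t g (k + 1)) (el t g k) j =
        C.tr.PR m d (k % m) * (C.tr.PR m d (k % m - j))⁻¹) ∧
    (k % m < j → (grun C.step s (el t g (k + 1)) (el t g k) j).L (x, t, g) = C.tr.T m d ∧
      glab C.step κ s (el t g (k + 1)) (el t g k) j = C.tr.PR m d (k % m) *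
        (C.tr.PR m (C.tr.T m d) (m - 1) * (C.tr.PR m (C.tr.T m d) (k % m + m - j))⁻¹))
  | 0, _ => ⟨fun _ => ⟨hd, by rw [Nat.sub_zero, mul_inv_cancel]; rfl⟩, fun h1 => by omega⟩
  | j + 1, hj => by
    have hk : k % m < m := Nat.mod_lt _ (by omega)
    obtain ⟨i1, i2⟩ := backward hS h hc hx ho hw hm hd j (by omega)
    obtain ⟨n, hn⟩ : ∃ n, n + 1 + j = k + 2 * m := ⟨k + 2 * m - j - 1, by omega⟩
    have hy : C.P.go s.x (el t g (k + 1)) (el t g k) j = C.P.go x t g (n + 1) := by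
      have := C.hB.go_back x t g (k + 2 * m) j (by omega)
      rw [el_congr t g (n := k + 2 * m + 1) (n' := k + 1) (by omega), el_add_two_mul,
        show k + 2 * m - j = n + 1 by omega, ← hm, C.hB.go_per h] at this
      rw [hx, this]
    have hu : el (el t g (k + 1)) (el t g k) j = el t g n := by
      rw [← el_add_two t g k, el_el]
      exact el_congr _ _ (by omega)
    obtain ⟨s1, s2⟩ := step_on (hS.same ((same_el t g k).trans (Same.swap _ _)))
      (C.hB.big.adj_symm (C.hB.big.adj_el h k)) ho hw j hy hu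
    have hcc := cc_c h hc n
    rw [← C.hB.col_go_succ, hm] at hcc
    rw [raw_bw h, hm] at s1
    have e1 : (n + 1) % m = (k + (m - j)) % m := by
      rw [show n + 1 = k + (m - j) + m by omega, Nat.add_mod_right]
    have e2 : n % m = (k + (m - j - 1)) % m := by
      rw [show n = k + (m - j - 1) + m by omega, Nat.add_mod_right]
    rw [e1] at s1
    rw [e2] at hcc
    refine ⟨fun h1 => ?_, fun h1 => ?_⟩
    · obtain ⟨i3, i4⟩ := i1 (by omega)
      rw [mod_hi (by omega) (by omega)] at hcc s1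
      obtain ⟨s3, s4⟩ := s1 fun e => by have := hcc.1 e; omega
      rw [s3, s4, i3, i4, show k % m + (m - j) - m = k % m - j by omega, mul_assoc,
        inv_mul_cancel_left, Nat.sub_sub]
      exact ⟨rfl, rfl⟩
    · rcases le_or_gt j (k % m) with h2 | h2
      · obtain ⟨i3, i4⟩ := i1 h2
        rw [mod_lo (by omega)] at hcc
        obtain ⟨s3, s4⟩ := s2 (hcc.2 (by omega))
        rw [s3, s4, i3, i4, show k % m - j = 0 by omega, C.tr.PR0,
          show k % m + m - (j + 1) = m - 1 by omega, mul_inv_cancel, inv_one, hm]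
        exact ⟨rfl, rfl⟩
      · obtain ⟨i3, i4⟩ := i2 h2
        rw [mod_lo (by omega)] at hcc s1
        obtain ⟨s3, s4⟩ := s1 fun e => by have := hcc.1 e; omega
        rw [s3, s4, i3, i4, show k % m + (m - j) = k % m + m - j by omega, mul_assoc, mul_assoc,
          inv_mul_cancel_left, Nat.sub_sub]
        exact ⟨rfl, rfl⟩

end MCellU

open MCellU Ctx in
theorem m_cellu {ι Q : Type} [Group Q] {C : Ctx ι Q} {κ : ι → C.St → Q} {O : C.St → Prop}
    {s : C.St} {a b : ι} (hS : SU C κ O a b) (hab : Adj C.M a b) (ht : C.P.Thru s.x a b C.c)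
    (ho : O s) : glab C.step κ s a b (C.M a b) = glab C.step κ s b a (C.M a b) := by
  have hw' : C.bs s.x b a = C.bs s.x a b := bs_congr hab (Pos.Res.refl _ _ _) (Same.swap _ _)
  obtain ⟨b1, b2, b3⟩ := bs_spec hab ht
  obtain ⟨⟨x, t, g⟩, hw⟩ : ∃ w, C.bs s.x a b = w := ⟨_, rfl⟩
  rw [hw] at b1 b2 b3 hw'
  have h : Adj C.M t g := C.hB.big.adj_same hab b2
  have hm : C.M t g = C.M a b := C.hB.big.M_same b2
  obtain ⟨k, hk⟩ := C.hB.res_same hab b2 (C.hB.res_symm hab b1)
  have h6 := C.hB.big.three a b hab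
  have hk' : k % C.M a b < C.M a b := Nat.mod_lt _ (by omega)
  have hrel := C.tr.rel (C.M a b) (s.L (x, t, g)) (k % C.M a b) (by omega) (C.hK a b) hk'
  have key : ∀ a' b', el t g k = a' → el t g (k + 1) = b' →
      C.bs s.x a' b' = (x, t, g) → C.bs s.x b' a' = (x, t, g) →
      glab C.step κ s a' b' (C.M a b) = glab C.step κ s b' a' (C.M a b) := by
    rintro _ _ rfl rfl w1 w2
    rw [((forward (hS.same b2) h b3 hk.symm ho w1 hm rfl _ le_rfl).2 (by omega)).2,
      ((backward (hS.same b2) h b3 hk.symm ho w2 hm rfl _ le_rfl).2 hk').2, Nat.add_sub_cancel, hrel]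
  rcases b2.trans (same_el t g k) with ⟨e1, e2⟩ | ⟨e1, e2⟩
  · exact key a b e1.symm e2.symm hw hw'
  · exact (key b a e2.symm e1.symm hw' hw).symm

end Pool.Agent.P.MP_e794d7_al.Y
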