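import Pool.Agent.P.MP_e794d7_al.Y.MSt

/-! The machine respects the braid relations: every component of a run is a run of one token. -/

set_option autoImplicit false

namespace Pool.Agent.P.MP_e794d7_al.Y

namespace MRun

variable {ι Q : Type} [Group Q] {C : Ctx ι Q}

open scoped Classical in
theorem tl_L (s : C.St) (a b : ι) : ∀ n,
    ((grun C.step s a b n).tl, (grun C.step s a b n).L) =
      C.trun (fun γ _ L => if γ = C.c then C.TL L else L) s.x a b s.tl s.L n
  | 0 => rfl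
  | n + 1 => by
    rw [Ctx.trun, ← tl_L s a b n, grun]
    simp only [Ctx.step, Ctx.grun_x]
    rfl

theorem pos_mem (s : C.St) (a b : ι) (p : C.Pn) : ∀ n,
    (grun C.step s a b n).mem (C.trun (fun _ β μ => μ * dirn β) s.x a b p (s.mem p) n).1 =
      (C.trun (fun _ β μ => μ * dirn β) s.x a b p (s.mem p) n).2
  | 0 => rfl
  | n + 1 => by
    rw [Ctx.trun, ← pos_mem s a b p n, grun, Pos.cc, ← Ctx.grun_x]
    simp only [Ctx.step, Ctx.mv_mv]
    split_ifs with h h' h'
    · rw [h', Ctx.mv_pan]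
    · exact (h' (Ctx.mv_eq_pan.1 h)).elim
    · exact (h (Ctx.mv_eq_pan.2 h')).elim
    · rfl

theorem pos_surj {Y : Type} (f : C.P.Col → Bool → Y → Y) (x : C.P.X) (a b : ι) : ∀ n q,
    ∃ p, ∀ μ, (C.trun f x a b p μ n).1 = q
  | 0, q => ⟨q, fun _ => rfl⟩
  | n + 1, q => by
    obtain ⟨p, hp⟩ := pos_surj f x a b n (C.mv (C.P.cc x a b n) q)
    exact ⟨p, fun μ => by rw [Ctx.trun, hp, Ctx.mv_mv]⟩

theorem St.ext' {s s' : C.St} (h1 : s.x = s'.x) (h2 : s.tl = s'.tl) (h3 : s.L = s'.L)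
    (h5 : s.mem = s'.mem) : s = s' := by
  cases s; cases s'; cases h1; cases h2; cases h3; cases h5; rfl

end MRun

open MRun in
theorem m_run (hTrun : S_Trun) : S_Run := by
  intro ι Q _ C s a b hab
  have h1 := (tl_L s a b (C.M a b)).trans
    ((hTrun ι Q C _ _ s.x a b s.tl s.L hab).trans (tl_L s b a (C.M a b)).symm)
  refine St.ext' ?_ (congrArg Prod.fst h1) (congrArg Prod.snd h1) (funext fun q => ?_)
  · rw [Ctx.grun_x, Ctx.grun_x]
    exact C.hB.braid s.x a b hab
  · obtain ⟨p, hp⟩ := pos_surj (fun _ β (μ : Q × Q → Q) => μ * dirn β) s.x a b (C.M a b) q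
    have h2 := hTrun ι Q C _ (fun _ β (μ : Q × Q → Q) => μ * dirn β) s.x a b p (s.mem p) hab
    rw [← hp (s.mem p), pos_mem, h2, pos_mem]

end Pool.Agent.P.MP_e794d7_al.Y
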