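import Pool.Agent.P.MP_e794d7_al.Y.LCap
import Pool.Agent.P.MP_e794d7_al.Y.MTrun
import Pool.Agent.P.MP_e794d7_al.Y.MRun
import Pool.Agent.P.MP_e794d7_al.Y.MCellU

/-! The labels respect the braid relations. -/

set_option autoImplicit false

namespace Pool.Agent.P.MP_e794d7_al.Y

theorem run_inv {ι S : Type} (st : ι → S → S) (I : S → Prop) (a b : ι)
    (h : ∀ s g g', Same a b g g' → I s → I (st g s)) (s : S) (hs : I s) :
    ∀ n, I (grun st s a b n)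
  | 0 => hs
  | n + 1 => h _ _ _ (same_el a b n) (run_inv st I a b h s hs n)

theorem glab_pot {ι S Q : Type} [Group Q] (st : ι → S → S) (κ : ι → S → Q) (I : S → Prop)
    (φ : S → Q) (a b : ι) (h : ∀ s g g', Same a b g g' → I s → I (st g s))
    (hk : ∀ s g g', Same a b g g' → I s → κ g s = (φ s)⁻¹ * φ (st g s)) (s : S) (hs : I s) :
    ∀ n, glab st κ s a b n = (φ s)⁻¹ * φ (grun st s a b n)
  | 0 => by simp [glab, grun]
  | n + 1 => by
    rw [glab, glab_pot st κ I φ a b h hk s hs n,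
      hk _ _ _ (same_el a b n) (run_inv st I a b h s hs n), grun]
    group

namespace Lk

variable {ι Q : Type} [Group Q] {Z : Lk ι Q} {a b : ι} {t : Z.C.St}

theorem cell_cap (hab : Adj Z.C.M a b) {f : Z.C.Fl} {Λ : Q × Q} (h : Z.CapL t.L t.x t.tl f Λ)
    (ht : Z.C.P.Thru t.x a b (Z.C.gate f)) :
    glab Z.C.step Z.kap t a b (Z.C.M a b) = glab Z.C.step Z.kap t b a (Z.C.M a b) := by
  have key : ∀ a' b', Same a b a' b' → ∀ n, glab Z.C.step Z.kap t a' b' n =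
      (t.mem f.1 Λ)⁻¹ * (grun Z.C.step t a' b' n).mem f.1 Λ := fun a' b' hs =>
    glab_pot Z.C.step Z.kap
      (fun t => Z.CapL t.L t.x t.tl f Λ ∧ Z.C.P.Thru t.x a b (Z.C.gate f)) (fun t => t.mem f.1 Λ)
      a' b' (fun t g g' h1 h2 => by
        have h3 := hs.trans h1
        have h4 := Z.C.hB.thru_same hab h3 h2.2
        exact ⟨h2.1.step (Z.C.hB.big.adj_same hab h3) h4, (Z.C.hB.pl_thru hab
          ⟨(Z.C.hB.pl_r' hab ⟨Pos.Res.refl _ _ _, h3⟩).1, Same.refl _ _⟩).2 h2.2⟩)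
      (fun t g g' h1 h2 => h2.1.kap (Z.C.hB.big.adj_same hab (hs.trans h1))
        (Z.C.hB.thru_same hab (hs.trans h1) h2.2)) t ⟨h, ht⟩
  rw [key a b (Same.refl _ _), key b a (Same.swap _ _), m_run m_trun ι Q Z.C t a b hab]

theorem na_run (hab : Adj Z.C.M a b) (h : Z.NA t.x t.tl a b) (n : ℕ) :
    Z.NA (grun Z.C.step t a b n).x (grun Z.C.step t a b n).tl (el a b n) (el a b (n + 1)) :=
  (run_inv Z.C.step (fun t => Z.NA t.x t.tl a b) a b (fun _ _ _ h1 h2 =>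
    ((h2.same hab h1).step (Z.C.hB.big.adj_same hab h1)).same (Z.C.hB.big.adj_same hab h1)
      h1.symm) t h n).same hab (same_el a b n)

theorem glab_far (hab : Adj Z.C.M a b) (h : Z.NA t.x t.tl a b)
    (h1 : ¬ Z.SyH (Hc ι Z.C.K + Z.C.K + Z.C.K) t.x t.tl) {n : ℕ} (hn : n ≤ Z.C.K) :
    glab Z.C.step Z.kap t a b n = 1 := by
  have key : ∀ i k, i + k ≤ Hc ι Z.C.K + Z.C.K + Z.C.K →
      Z.SyH k (grun Z.C.step t a b i).x (grun Z.C.step t a b i).tl → False := by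
    intro i
    induction i with
    | zero =>
      rintro k hk ⟨l, w, y, s, h2, h3, h4⟩
      exact h1 ⟨l, w, y, s, h2, h3, by omega⟩
    | succ i ih =>
      intro k hk h2
      have h3 := h2.step (by rw [Hm]; omega) (el a b i)
      rw [grun, ← Ctx.step_tl, ← Ctx.step_x, Ctx.step_step_x, Ctx.step_step_tl] at h3
      exact ih _ (by omega) h3
  rw [glab_pr]
  refine pr_one fun i hi => ?_
  rw [(na_run hab h i).kap]
  exact labX_one _ fun l w y s h2 h3 _ h4 => key i _ (by omega) ⟨l, w, y, s, h2, h3, h4.ht⟩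

variable {l : Z.W.Wl} {w y : Z.W.U.X} {s : ι}

theorem glab_off (ho : Z.W.Off l w a b) (h : Z.NA t.x t.tl a b) (hx : Z.F.φ w = t.x)
    (h1 : Z.Tk t.tl l w y s) (hw : Z.W.ht l w + Z.C.K ≤ Hm ι Z.C.K) (n : ℕ) :
    glab Z.C.step Z.kap t a b n =
      pr (fun i => Z.W.Lab l (Z.bt t.L) (Z.W.U.go w a b i) (el a b i)) n := by
  have hh : ∀ i, Z.W.ht l (Z.W.U.go w a b i) ≤ Hm ι Z.C.K := fun i =>
    (Wb.ht_res' ho.1 (Pos.res_go w a b i)).trans hw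
  have hxi : ∀ i, (grun Z.C.step t a b i).x = Z.F.φ (Z.W.U.go w a b i) := fun i => by
    rw [Ctx.grun_x, Z.F.φ_go, hx]
  have key : ∀ i, (grun Z.C.step t a b i).L = t.L ∧
      ∃ y s, Z.Tk (grun Z.C.step t a b i).tl l (Z.W.U.go w a b i) y s := by
    intro i
    induction i with
    | zero => exact ⟨rfl, y, s, h1⟩
    | succ i ih =>
      obtain ⟨h2, y, s, h3⟩ := ih
      refine ⟨?_, by rw [grun, Ctx.step_tl, hxi]; exact h3.step (hh i) _⟩
      rw [grun, Ctx.step_L_ne, h2]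
      rw [hxi, Ne, h3.col (hh i)]
      exact ho.ne ⟨i, rfl⟩
  rw [glab_pr]
  refine pr_congr fun i _ => ?_
  obtain ⟨h2, y, s, h3⟩ := key i
  rw [(na_run ho.1 h i).kap, h2, hxi, labX_eq _ h3 (hh i)]

theorem rawX_eq {x : Z.C.P.X} (L : Z.C.P.X × ι × ι → Z.C.tr.D) (hab : Adj Z.C.M a b)
    (ht : Z.C.P.Thru x a b Z.C.c) (h : Z.C.P.col x a ≠ Z.C.c) :
    Z.C.rawX L x a = Z.C.raw (L (Z.C.bs x a b)) (Z.C.bs x a b) x a := by
  have h0 : ∃ b, Adj Z.C.M a b ∧ Z.C.P.Thru x a b Z.C.c := ⟨b, hab, ht⟩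
  obtain ⟨h1, h2⟩ := h0.choose_spec
  rw [Ctx.rawX, dif_pos h0]
  by_cases e : b = h0.choose
  · rw [← e]
  · obtain ⟨g, rfl | rfl, h3, h4⟩ := Z.C.hB.x1 x a b a _ _ hab h1
      (Ctx.not_same_of_ne hab.1 e) ht h2
    · exact (h h4.symm).elim
    · exact (h3.elim hab.1.symm e).elim

/-- the label of an edge of the chain -/
theorem kap_chain (hab : Adj Z.C.M a b) (hx : Z.F.φ w = t.x) (h1 : Z.Tk t.tl l w y s)
    (ht : Z.W.U.Thru w a b l.1) (h : Z.C.P.col t.x a ≠ Z.C.c) :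
    Z.kap a t = Z.C.raw (t.L (Z.C.bs t.x a b)) (Z.C.bs t.x a b) t.x a := by
  have hw : Z.W.ht l w ≤ Hm ι Z.C.K := by rw [Wb.ht_thru hab ht]; omega
  have h2 := (h1.thru hw hab).2 ht
  rw [hx] at h2
  rw [(na_of_c hab h2).kap, ← rawX_eq _ hab h2 h, ← hx, labX_eq _ h1 hw,
    Wb.lab_che ⟨fun e => h (hx ▸ (h1.col hw).2 e), b, hab, ht⟩, bt]

theorem su_wall (hab : Adj Z.C.M a b) : MCellU.SU Z.C Z.kap
    (fun t => ∃ w y s, Z.F.φ w = t.x ∧ Z.Tk t.tl l w y s ∧ Z.W.U.Thru w a b l.1) a b := by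
  rintro t g g' hs ⟨w, y, s, hx, h1, ht⟩
  have hg := Z.C.hB.big.adj_same hab hs
  have ht' := Z.W.hB.thru_same hab hs ht
  have hw : Z.W.ht l w ≤ Hm ι Z.C.K := by rw [Wb.ht_thru hab ht]; omega
  refine ⟨?_, kap_chain hg hx h1 ht', fun h => ?_⟩
  · obtain ⟨y', s', h2⟩ := h1.step hw g
    exact ⟨_, y', s', by rw [Z.F.φ_r, hx]; rfl, by rw [Ctx.step_tl, ← hx]; exact h2,
      (Z.W.hB.pl_thru hab ⟨(Z.W.hB.pl_r' hab ⟨Pos.Res.refl _ _ _, hs⟩).1, Same.refl _ _⟩).2 ht⟩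
  · have h2 := (h1.col hw).1 (hx ▸ h)
    have h3 : t.tl = Z.C.pan t.x g := by
      obtain ⟨rfl, h4⟩ := (Wb.sy_self h2).uniq h1.sy
      rw [← h1.pan, ← hx]
      rcases h4 with rfl | rfl
      exacts [rfl, by rw [Z.F.φ_r, Ctx.pan_r]]
    refine ⟨?_, by simp only [Ctx.step, if_pos h3, if_pos h]⟩
    rw [(na_of_c hg (h ▸ Pos.thru_col _ _ _)).kap, ← hx, labX_eq _ h1 hw,
      Wb.lab_one fun h4 => h4.ne h2]

theorem cell (t : Z.C.St) (a b : ι) (hab : Adj Z.C.M a b) :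
    glab Z.C.step Z.kap t a b (Z.C.M a b) = glab Z.C.step Z.kap t b a (Z.C.M a b) := by
  have hba := Z.C.hB.big.adj_symm hab
  by_cases h : Z.NA t.x t.tl a b
  swap
  · simp only [NA, not_forall, not_not] at h
    obtain ⟨f, l, w, y, s, h1, h2⟩ := h
    exact cell_cap hab ⟨l, w, y, s, h1, rfl⟩ h2
  have h' := h.same hab (Same.swap _ _)
  by_cases h1 : Z.SyH (Hc ι Z.C.K + Z.C.K + Z.C.K) t.x t.tl
  swap
  · rw [glab_far hab h h1 (Z.C.hK a b), glab_far hba h' h1 (Z.C.hK a b)]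
  obtain ⟨l, w, y, s, hx, h1, hw⟩ := h1
  have hw' : Z.W.ht l w + Z.C.K ≤ Hm ι Z.C.K := by rw [Hm]; omega
  by_cases ht : Z.W.U.Thru w a b l.1
  · exact m_cellu (su_wall hab) hab (hx ▸ (h1.thru (by omega) hab).2 ht) ⟨w, y, s, hx, h1, ht⟩
  have ho : Z.W.Off l w a b := ⟨hab, ht⟩
  rw [glab_off ho h hx h1 hw', glab_off ho.swap h' hx h1 hw']
  exact Wb.d4 ho fun z g g' hp => NA.no_cp (hx ▸ h) hab h1 (by omega) hp

end Lk

end Pool.Agent.P.MP_e794d7_al.Y
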