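import Pool.Agent.P.MP_e794d7_al.Y.Tk

/-! Basic facts on the machine. -/

set_option autoImplicit false

namespace Pool.Agent.P.MP_e794d7_al.Y

@[simp] theorem dirn_false {Q : Type} (l : Q × Q) : dirn false l = l.1 := rfl

@[simp] theorem dirn_true {Q : Type} (l : Q × Q) : dirn true l = l.2 := rfl

theorem dirn_swap {Q : Type} (β : Bool) (l : Q × Q) : dirn β l.swap = dirn (!β) l := by
  cases β <;> rfl

theorem dirn_ord {Q : Type} (β : Bool) (f r : Q) : dirn β (ord β f r) = f := by cases β <;> rfl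

theorem dirn_ord' {Q : Type} (β : Bool) (f r : Q) : dirn (!β) (ord β f r) = r := by
  cases β <;> rfl

@[simp] theorem dirn_one {Q : Type} [Group Q] (β : Bool) : dirn β (1 : Q × Q) = 1 := by
  cases β <;> rfl

@[simp] theorem ord_one {Q : Type} [Group Q] (β : Bool) : ord β (1 : Q) 1 = 1 := by
  cases β <;> rfl

namespace Ctx

variable {ι Q : Type} [Group Q] {C : Ctx ι Q}

@[simp] theorem step_x (a : ι) (s : C.St) : (C.step a s).x = C.P.r a s.x := rfl

theorem step_tl (a : ι) (s : C.St) : (C.step a s).tl = C.mv (C.P.col s.x a) s.tl := rfl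

theorem step_L_ne {a : ι} {s : C.St} (h : C.P.col s.x a ≠ C.c) : (C.step a s).L = s.L := by
  simp [step, h]

theorem step_step_x (a : ι) (s : C.St) : (C.step a (C.step a s)).x = s.x := C.hB.rr _ _

theorem step_step_tl (a : ι) (s : C.St) : (C.step a (C.step a s)).tl = s.tl := by
  rw [step_tl, step_tl, step_x, C.hB.col_r, mv_mv]

theorem grun_x (s : C.St) (a b : ι) : ∀ n, (grun C.step s a b n).x = C.P.go s.x a b n
  | 0 => rfl
  | n + 1 => by rw [grun, step_x, grun_x s a b n, Pos.go_succ]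

/-! ### bases -/

theorem bs_spec {a b : ι} (_hab : Adj C.M a b) {y : C.P.X} (ht : C.P.Thru y a b C.c) :
    C.IsBs y a b (C.bs y a b) := by
  obtain ⟨n, hn⟩ := ht
  exact @Classical.epsilon_spec _ (C.IsBs y a b)
    ⟨(C.P.go y a b n, el a b (n + 1), el a b n), Pos.res_go _ _ _ _,
      (same_el a b n).trans (Same.swap _ _), hn⟩

theorem bs_congr {a b a' b' : ι} (hab : Adj C.M a b) {y y' : C.P.X} (hr : C.P.Res y a b y')
    (hs : Same a b a' b') : C.bs y' a' b' = C.bs y a b := by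
  have : C.IsBs y' a' b' = C.IsBs y a b := by
    funext w
    refine propext ⟨fun h => ⟨?_, hs.trans h.2.1, h.2.2⟩, fun h => ⟨?_, hs.symm.trans h.2.1, h.2.2⟩⟩
    · exact C.hB.res_trans hab hr (C.hB.res_same (C.hB.big.adj_same hab hs) hs.symm h.1)
    · exact C.hB.res_same hab hs (C.hB.res_trans hab (C.hB.res_symm hab hr) h.1)
  rw [bs, bs, this]

theorem idx_go {t g : ι} (h : Adj C.M t g) (x : C.P.X) {n : ℕ} (hn : n < 2 * C.M t g) :
    C.idx (x, t, g) (C.P.go x t g n) = n := by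
  have := Classical.epsilon_spec
    (p := fun k => k < 2 * C.M t g ∧ C.P.go x t g k = C.P.go x t g n) ⟨n, hn, rfl⟩
  exact C.hB.go_inj C.he h x this.1 hn this.2

end Ctx

/-- an automaton that respects the braid relations gives an action of the Artin group -/
def S_Act : Prop := ∀ (ι : Type) (M : ι → ι → ℕ) (S Q : Type) [Group Q] (st : ι → S → S)
  (κ : ι → S → Q), (∀ a, Function.Bijective (st a)) →
  (∀ s a b, Adj M a b → grun st s a b (M a b) = grun st s b a (M a b) ∧
    glab st κ s a b (M a b) = glab st κ s b a (M a b)) →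
  ∀ (s0 : S) (g0 : Art M), ∃ (σ : Art M → S) (F : Art M → Q), σ g0 = s0 ∧
    (∀ g a, σ (g * Art.gen M a) = st a (σ g) ∧ F (g * Art.gen M a) = F g * κ a (σ g)) ∧
    (Finite S → Finite Q → ∃ H : Subgroup (Art M), H.FiniteIndex ∧ ∀ h ∈ H, ∀ g, F (h * g) = F g)

def S_Bij : Prop := ∀ (ι Q : Type) [Group Q] (C : Ctx ι Q),
  (∀ a, Function.Bijective (C.step a)) ∧ (Finite ι → Finite C.P.X → Finite Q → Finite C.St)

def S_Trun : Prop := ∀ (ι Q : Type) [Group Q] (C : Ctx ι Q) (Y : Type)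
  (f : C.P.Col → Bool → Y → Y) (x : C.P.X) (a b : ι) (q : C.Pn) (μ : Y), Adj C.M a b →
  C.trun f x a b q μ (C.M a b) = C.trun f x b a q μ (C.M a b)

def S_Run : Prop := ∀ (ι Q : Type) [Group Q] (C : Ctx ι Q) (s : C.St) (a b : ι), Adj C.M a b →
  grun C.step s a b (C.M a b) = grun C.step s b a (C.M a b)

/-- every labelling of one side of the wall is given by some data -/
def S_Surj : Prop := ∀ (ι Q : Type) [Group Q] (C : Ctx ι Q) (lam : C.P.X → ι → Q) (β : Bool),
  ∃ L0 : C.P.X × ι × ι → C.tr.D, ∀ x a b, Adj C.M a b → C.P.Thru x a b C.c →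
    C.P.col x a ≠ C.c → C.e x C.c = β → C.raw (L0 (C.bs x a b)) (C.bs x a b) x a = lam x a

end Pool.Agent.P.MP_e794d7_al.Y
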