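import Pool.Agent.P.MP_e794d7_al.Y.PCx

/-! Transfer of the local geometry to a finite quotient. -/

set_option autoImplicit false

namespace Pool.Agent.P.MP_e794d7_al.Y

namespace Cov

variable {ι : Type} {M : ι → ι → ℕ} {U P : Pos ι} {e : U.X → U.Col → Bool} {ρ : ℕ}
variable (F : Cov M U e P ρ)

theorem φ_go (w : U.X) (a b : ι) : ∀ n, F.φ (U.go w a b n) = P.go (F.φ w) a b n
  | 0 => rfl
  | n + 1 => by rw [Pos.go_succ, Pos.go_succ, F.φ_r, φ_go w a b n]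

theorem ψ_cc (w : U.X) (a b : ι) (n : ℕ) : F.ψ (U.cc w a b n) = P.cc (F.φ w) a b n := by
  rw [Pos.cc, Pos.cc, F.ψ_col, F.φ_go]

theorem lift_thru {w : U.X} {a b : ι} {c : P.Col} (hc : P.Thru (F.φ w) a b c) :
    ∃ σ, U.Thru w a b σ ∧ c = F.ψ σ := by
  obtain ⟨n, rfl⟩ := hc
  exact ⟨_, ⟨n, rfl⟩, (F.ψ_cc _ _ _ _).symm⟩

theorem push_thru {w : U.X} {a b : ι} {σ : U.Col} (hc : U.Thru w a b σ) :
    P.Thru (F.φ w) a b (F.ψ σ) := by
  obtain ⟨n, rfl⟩ := hc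
  exact ⟨n, (F.ψ_cc _ _ _ _).symm⟩

end Cov

/-- the wall `σ` touches a chamber at distance at most `n` from `y` -/
def Nr {ι : Type} {U : Pos ι} (e : U.X → U.Col → Bool) (n : ℕ) (y : U.X) (σ : U.Col) : Prop :=
  ∃ u g, dst e y u ≤ n ∧ σ = U.col u g

section
variable {ι : Type} {M : ι → ι → ℕ} {U P : Pos ι} {e : U.X → U.Col → Bool} {ρ : ℕ}

theorem Nr.mono {n n' : ℕ} {y : U.X} {σ : U.Col} (h : Nr e n y σ) (hn : n ≤ n') : Nr e n' y σ := by
  obtain ⟨u, g, h1, h2⟩ := h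
  exact ⟨u, g, h1.trans hn, h2⟩

theorem nr_col {n : ℕ} {y u : U.X} (h : dst e y u ≤ n) (g : ι) : Nr e n y (U.col u g) :=
  ⟨u, g, h, rfl⟩

theorem Cx.nr_thru (hC : Cx M U e) {n K : ℕ} (hK : ∀ a b, M a b ≤ K) {y u : U.X}
    (h : dst e y u ≤ n) {a b : ι} (hab : Adj M a b) {σ : U.Col} (ht : U.Thru u a b σ) :
    Nr e (n + K) y σ := by
  obtain ⟨k, rfl⟩ := ht
  have h1 := hC.dst_tri y u (U.go u a b k)
  have h2 := hC.dst_res hab (Pos.res_go u a b k)
  have h3 := hK a b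
  exact ⟨_, _, by omega, rfl⟩

theorem Cov.inj' (F : Cov M U e P ρ) (hC : Cx M U e) {n : ℕ} (hn : 2 * n ≤ ρ) {y : U.X}
    {σ τ : U.Col} (h1 : Nr e n y σ) (h2 : Nr e n y τ) (h : F.ψ σ = F.ψ τ) : σ = τ := by
  obtain ⟨u, g, k1, rfl⟩ := h1
  obtain ⟨u', g', k2, rfl⟩ := h2
  have h3 := hC.dst_tri u y u'
  rw [dst_comm u y] at h3
  exact F.inj u g u' g' (by omega) h

theorem Cov.nx' (F : Cov M U e P ρ) (hC : Cx M U e) {n : ℕ} (hn : 2 * n ≤ ρ) {y : U.X}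
    {σ τ : U.Col} (h1 : Nr e n y σ) (h2 : Nr e n y τ) (h : U.NX M σ τ) :
    P.NX M (F.ψ σ) (F.ψ τ) := by
  obtain ⟨u, g, k1, rfl⟩ := h1
  obtain ⟨u', g', k2, rfl⟩ := h2
  have h3 := hC.dst_tri u y u'
  rw [dst_comm u y] at h3
  exact F.nx u g u' g' (by omega) h

theorem bas_of (hC : Cx M U e) {K : ℕ} (hK : ∀ a b, M a b ≤ K) (hρ : 2 * K ≤ ρ)
    (hF : ∀ x, ∃ (F : Cov M U e P ρ) (o : U.X), F.φ o = x) : P.Bas M := by
  have hB := hC.hB
  have nt : ∀ {o : U.X} {a b : ι} {σ : U.Col}, Adj M a b → U.Thru o a b σ → Nr e K o σ :=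
    fun hab ht => by simpa using hC.nr_thru hK (dst_self _).le hab ht
  refine ⟨hB.big, fun a x => ?_, fun a x => ?_, fun x a b hab => ?_, fun x a b hab => ?_,
    fun x a b i j hab hi hj e1 => ?_, fun x a b e1 => ?_, fun x a b a' b' c hab hab' hs h1 h2 => ?_⟩
  all_goals obtain ⟨F, o, rfl⟩ := hF x
  · rw [← F.φ_r, ← F.φ_r, hB.rr]
  · rw [← F.φ_r, ← F.ψ_col, ← F.ψ_col, hB.col_r]
  · rw [← F.φ_go, ← F.φ_go, hB.braid o a b hab]
  · rw [← F.ψ_cc, ← F.ψ_col, hB.per o a b hab]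
  · rw [← F.ψ_cc, ← F.ψ_cc] at e1
    exact hB.inj o a b i j hab hi hj (F.inj' hC hρ (nt hab ⟨i, rfl⟩) (nt hab ⟨j, rfl⟩) e1)
  · rw [← F.ψ_col, ← F.ψ_col] at e1
    exact hB.x2 o a b (F.inj o a o b (by rw [dst_self]; omega) e1)
  · obtain ⟨c1, t1, rfl⟩ := F.lift_thru h1
    obtain ⟨c2, t2, e1⟩ := F.lift_thru h2
    obtain rfl := F.inj' hC hρ (nt hab t1) (nt hab' t2) e1
    obtain ⟨g, g1, g2, rfl⟩ := hB.x1 o a b a' b' c1 hab hab' hs t1 t2
    exact ⟨g, g1, g2, F.ψ_col _ _⟩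

theorem Cx.dst_aut (hC : Cx M U e) (α : Aut U) (u u' : U.X) :
    dst e (α.f u) (α.f u') = dst e u u' := by
  rw [dst, dst, ← Set.ncard_image_of_injective {σ | e u' σ ≠ e u σ} α.t.injective]
  congr 1
  ext σ
  obtain ⟨σ, rfl⟩ := α.t.surjective σ
  rw [α.t.injective.mem_set_image]
  exact (hC.aut_e α _ _ σ).not

theorem Cx.ball_fin [Finite ι] (hC : Cx M U e) (o : U.X) : ∀ n, {v | dst e v o ≤ n}.Finite
  | 0 => (Set.finite_singleton o).subset fun _ hv => hC.eq_of_dst (Nat.le_zero.1 hv)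
  | n + 1 => by
    refine ((Set.finite_singleton o).union
      (Set.Finite.image2 U.r Set.finite_univ (ball_fin hC o n))).subset fun v hv => ?_
    by_cases h1 : v = o
    · exact Or.inl h1
    obtain ⟨a, ha⟩ := hC.geo v o h1
    have h2 := hC.dst_sep ha
    have h3 : dst e v o ≤ n + 1 := hv
    exact Or.inr ⟨a, trivial, U.r a v, show dst e (U.r a v) o ≤ n by omega, hC.hB.rr _ _⟩

end

namespace Tr

open scoped Classical

variable {ι : Type} [Fintype ι] {M : ι → ι → ℕ} (R : Rep M)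

theorem exists_fin (T : Set R.W) (hT : T.Finite) :
    ∃ (K : Type) (_ : Group K) (_ : Finite K) (f : R.W →* K), ∀ t ∈ T, t ≠ 1 → f t ≠ 1 := by
  induction T, hT using Set.Finite.induction_on with
  | empty => exact ⟨PUnit, inferInstance, inferInstance, 1, fun t ht => ht.elim⟩
  | @insert t T _ _ ih =>
    obtain ⟨K, _, _, f, hf⟩ := ih
    by_cases h1 : t = 1
    · refine ⟨K, inferInstance, inferInstance, f, ?_⟩
      rintro u (rfl | hu) h
      · exact (h h1).elim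
      · exact hf u hu h
    obtain ⟨K', _, _, f', hf'⟩ := R.rf t h1
    refine ⟨K × K', inferInstance, inferInstance, f.prod f', ?_⟩
    rintro u (rfl | hu) h e
    · exact hf' (congrArg Prod.snd e)
    · exact hf u hu h (congrArg Prod.fst e)

theorem cc_eq (n : ℕ) : ∀ (w : R.W) (a b : ι),
    R.pos.cc w a b n = w * ((R.σ a * R.σ b) ^ n * R.σ a) * w⁻¹ := by
  induction n with
  | zero => intro w a b; rw [Pos.cc_zero, pow_zero, one_mul]; rfl
  | succ n ih =>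
    intro w a b
    rw [Pos.cc_succ', ih]
    change w * R.σ a * ((R.σ b * R.σ a) ^ n * R.σ b) * (w * R.σ a)⁻¹ = _
    rw [mul_inv_rev, σ_inv, mul_pow_mul (R.σ b), pow_succ']
    simp only [mul_assoc]

theorem cc_pow (hB : R.pos.Bas M) {a b : ι} (hab : Adj M a b) (i j : ℕ) :
    (((R.σ a * R.σ b) ^ i * R.σ a) * ((R.σ a * R.σ b) ^ j * R.σ a)) ^ M a b = 1 := by
  have h1 : (R.σ a * R.σ b) ^ M a b = 1 := by
    have h := hB.per (1 : R.W) a b hab
    rw [cc_eq] at h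
    have h' : (1 : R.W) * ((R.σ a * R.σ b) ^ M a b * R.σ a) * 1⁻¹ = 1 * R.σ a * 1⁻¹ := h
    simpa using h'
  have h2 : R.σ a * ((R.σ a * R.σ b) ^ j * R.σ a) = ((R.σ a * R.σ b) ^ j)⁻¹ := by
    rw [mul_pow_mul, ← mul_assoc, Sign.sq, one_mul, ← inv_pow, mul_inv_rev, σ_inv, σ_inv]
  rw [mul_assoc, h2]
  generalize R.σ a * R.σ b = ρ at h1
  rw [Commute.mul_pow ((Commute.refl ρ).pow_pow i j).inv_right, inv_pow, ← pow_mul, ← pow_mul,
    mul_comm i, mul_comm j, pow_mul, pow_mul, h1]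
  simp

variable {K : Type} [Group K] (f : R.W →* K)

/-- the finite position system -/
@[reducible] noncomputable def fp : Pos ι where
  X := K × (K → ZMod 2)
  Col := K
  r a x := (x.1 * f (R.σ a), x.2 + Pi.single (x.1 * f (R.σ a) * x.1⁻¹) 1)
  col x a := x.1 * f (R.σ a) * x.1⁻¹

variable (ν : R.W → R.W →₀ ZMod 2)

/-- the chamber map -/
noncomputable def ph (x : K × (K → ZMod 2)) (w : R.W) : K × (K → ZMod 2) :=
  (x.1 * f w, x.2 + ⇑(Finsupp.mapDomain (fun c => x.1 * f c * x.1⁻¹) (ν w)))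

theorem ps_col (k : K) (w : R.W) (a : ι) :
    k * f (w * R.σ a * w⁻¹) * k⁻¹ = k * f w * f (R.σ a) * (k * f w)⁻¹ := by
  simp only [map_mul, map_inv, mul_inv_rev, mul_assoc]

theorem ph_r (hν : ∀ w s, ν (w * R.σ s) = ν w + Finsupp.single (cl R w s) 1)
    (x : K × (K → ZMod 2)) (a : ι) (w : R.W) :
    ph R f ν x (w * R.σ a) = (fp R f).r a (ph R f ν x w) := by
  refine Prod.ext ?_ ?_
  · simp only [ph, map_mul, mul_assoc]
  · simp only [ph]
    rw [hν, Finsupp.mapDomain_add, Finsupp.mapDomain_single, Finsupp.coe_add, add_assoc, cl,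
      ps_col, Finsupp.single_eq_pi_single]

theorem ph_one (h0 : ν 1 = 0) (x : K × (K → ZMod 2)) : ph R f ν x 1 = x := by
  refine Prod.ext ?_ ?_
  · simp only [ph, map_one, mul_one]
  · simp only [ph, h0, Finsupp.mapDomain_zero, Finsupp.coe_zero, add_zero]

theorem fp_cc (n : ℕ) : ∀ (x : K × (K → ZMod 2)) (a b : ι),
    (fp R f).cc x a b n = x.1 * f ((R.σ a * R.σ b) ^ n * R.σ a) * x.1⁻¹ := by
  induction n with
  | zero => intro w a b; rw [Pos.cc_zero, pow_zero, one_mul]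
  | succ n ih =>
    intro x a b
    rw [Pos.cc_succ', ih]
    have e : (R.σ a * R.σ b) ^ (n + 1) * R.σ a =
        R.σ a * ((R.σ b * R.σ a) ^ n * R.σ b) * (R.σ a)⁻¹ := by
      rw [σ_inv, mul_pow_mul (R.σ b), pow_succ']
      simp only [mul_assoc]
    rw [e]
    simp only [map_mul, map_inv, mul_inv_rev, mul_assoc]

theorem col_sq (w : R.W) (a : ι) : w * R.σ a * w⁻¹ * (w * R.σ a * w⁻¹) = 1 := by
  rw [conj_mul, Sign.sq]; simp

theorem exists_cov (h : Big M) (h4 : ∀ a b, Adj M a b → 4 ≤ M a b) (m₀ ρ : ℕ)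
    (hm : ∀ a b, M a b ≤ m₀) (h0 : ν 1 = 0)
    (hν : ∀ w s, ν (w * R.σ s) = ν w + Finsupp.single (cl R w s) 1)
    (hf : ∀ (v : R.W) g g', dst (U := R.pos) (sd R) v (1 : R.W) ≤ ρ →
      (cl R v g * cl R 1 g' ≠ 1 → f (cl R v g * cl R 1 g') ≠ 1) ∧
        ((cl R v g * cl R 1 g') ^ m₀.factorial ≠ 1 →
          f ((cl R v g * cl R 1 g') ^ m₀.factorial) ≠ 1))
    (x : K × (K → ZMod 2)) :
    ∃ (F : Cov M R.pos (sd R) (fp R f) ρ) (o : R.W), F.φ o = x := by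
  have hC := cx R h h4
  have hf' : ∀ (u : R.W) g (u' : R.W) g', dst (U := R.pos) (sd R) u u' ≤ ρ →
      (cl R u g * cl R u' g' ≠ 1 → f (cl R u g * cl R u' g') ≠ 1) ∧
        ((cl R u g * cl R u' g') ^ m₀.factorial ≠ 1 →
          f ((cl R u g * cl R u' g') ^ m₀.factorial) ≠ 1) := by
    intro u g u' g' hd
    have h1 := hC.dst_aut (lt R u'⁻¹) u u'
    change dst (U := R.pos) (sd R) (u'⁻¹ * u) (u'⁻¹ * u') = _ at h1
    rw [inv_mul_cancel] at h1
    obtain ⟨k1, k2⟩ := hf (u'⁻¹ * u) g g' (h1 ▸ hd)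
    have e1 : cl R u g * cl R u' g' = u' * (cl R (u'⁻¹ * u) g * cl R 1 g') * u'⁻¹ := by
      simp only [cl]; group
    rw [e1, conj_pow]
    refine ⟨fun h2 h3 => k1 (fun h5 => h2 (by rw [h5]; simp)) ?_,
      fun h2 h3 => k2 (fun h5 => h2 (by rw [h5]; simp)) ?_⟩
    · simpa only [map_mul f u', map_mul f (u' * _), map_inv, conj_eq_one_iff] using h3
    · simpa only [map_mul f u', map_mul f (u' * _), map_inv, conj_eq_one_iff] using h3
  have hinj : ∀ (u : R.W) g (u' : R.W) g', dst (U := R.pos) (sd R) u u' ≤ ρ →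
      x.1 * f (cl R u g) * x.1⁻¹ = x.1 * f (cl R u' g') * x.1⁻¹ → cl R u g * cl R u' g' = 1 := by
    intro u g u' g' hd e
    have e1 : f (cl R u g) = f (cl R u' g') := mul_left_cancel (mul_right_cancel e)
    by_contra h1
    exact (hf' u g u' g' hd).1 h1 (by rw [map_mul, e1, ← map_mul, cl, col_sq, map_one])
  refine ⟨⟨ph R f ν x, fun c : R.W => x.1 * f c * x.1⁻¹, fun a w => ph_r R f ν hν x a w,
    fun w a => ps_col R f x.1 w a, fun (u : R.W) g (u' : R.W) g' hd e => ?_,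
    fun (u : R.W) g (u' : R.W) g' hd hN => ⟨fun e => ?_, ?_⟩⟩, (1 : R.W), ph_one R f ν h0 x⟩
  · exact mul_right_cancel (G := R.W) ((hinj u g u' g' hd e).trans (col_sq R u' g').symm)
  · exact free_of_nx R h h4 hN 1 le_rfl (by rw [pow_one]; exact hinj u g u' g' hd e)
  · rintro y a b hab ⟨i, hi⟩ ⟨j, hj⟩
    refine (hf' u g u' g' hd).2 (free_of_nx R h h4 hN _ m₀.factorial_pos) ?_
    rw [fp_cc] at hi hj
    obtain ⟨q, hq⟩ : M a b ∣ m₀.factorial := Nat.dvd_factorial (Nat.pos_of_ne_zero hab.2) (hm a b)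
    have e1 := congrArg₂ (fun u v : K => (u * v) ^ M a b) hi hj
    simp only [conj_mul, conj_pow] at e1
    rw [← map_mul, ← map_pow, cc_pow R hC.hB hab, map_one, ← map_mul, ← map_pow] at e1
    have e2 : f ((cl R u g * cl R u' g') ^ M a b) = 1 := by
      have e3 : x.1 * f ((cl R u g * cl R u' g') ^ M a b) * x.1⁻¹ = 1 := by
        refine e1.symm.trans ?_
        simp
      simpa using e3
    rw [hq, pow_mul, map_pow, e2, one_pow]

end Tr

open scoped Classical in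
/-- a finite position system that is locally the universal complex -/
theorem p_tr (ι : Type) [Fintype ι] (M : ι → ι → ℕ) (R : Rep M) (h : Big M)
    (h4 : ∀ a b, Adj M a b → 4 ≤ M a b) (m₀ ρ : ℕ) (hm : ∀ a b, M a b ≤ m₀) (hρ : 2 * m₀ ≤ ρ) :
    ∃ (P : Pos ι) (e : P.X → P.Col → Bool) (π : Art M → P.X), Finite P.X ∧ P.Bas M ∧ P.Eps e ∧
      P.IsPos M π ∧ ∀ x, ∃ (F : Cov M R.pos (Tr.sd R) P ρ) (o : R.pos.X), F.φ o = x := by
  have hC := Tr.cx R h h4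
  obtain ⟨ν, h0, hν⟩ := Tr.exists_nu R h
  have hN : (Set.image2 (fun (v : R.W) (p : ι × ι) => Tr.cl R v p.1 * Tr.cl R 1 p.2)
      {v : R.W | dst (U := R.pos) (Tr.sd R) v (1 : R.W) ≤ ρ} Set.univ).Finite :=
    Set.Finite.image2 _ (hC.ball_fin (1 : R.W) ρ) Set.finite_univ
  obtain ⟨K, _, _, f, hf⟩ := Tr.exists_fin R _ (hN.union (hN.image fun c => c ^ m₀.factorial))
  have hF := Tr.exists_cov R f ν h h4 m₀ ρ hm h0 hν fun v g g' hd =>
    ⟨hf _ (Or.inl ⟨v, hd, (g, g'), trivial, rfl⟩),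
      hf _ (Or.inr ⟨_, ⟨v, hd, (g, g'), trivial, rfl⟩, rfl⟩)⟩
  have hbr : ∀ a b, alt (R.σ a) (R.σ b) (M a b) = alt (R.σ b) (R.σ a) (M a b) := by
    intro a b
    by_cases e : a = b
    · rw [e]
    by_cases e0 : M a b = 0
    · rw [e0, alt_zero, alt_zero]
    exact Sign.braid R h ⟨e, e0⟩
  refine ⟨Tr.fp R f, fun x c => decide (x.2 c = 1), fun g => Tr.ph R f ν (1, 0) (Art.lift R.σ hbr g),
    inferInstanceAs (Finite (K × (K → ZMod 2))), bas_of hC hm hρ hF, ?_, ?_, hF⟩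
  · intro a x c
    have key : ∀ u : ZMod 2, (u + 1 = 1) ↔ ¬ u = 1 := by decide
    by_cases e : x.1 * f (R.σ a) * x.1⁻¹ = c
    · subst e
      simp only [Pi.add_apply, Pi.single_eq_same, key, decide_true, Bool.xor_true, decide_not]
    · simp only [Pi.add_apply, Pi.single_eq_of_ne (Ne.symm e), add_zero, e, decide_false,
        Bool.xor_false]
  · intro g a
    simp only [map_mul, Art.lift_gen]
    exact Tr.ph_r R f ν hν _ a _

end Pool.Agent.P.MP_e794d7_al.Y
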