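import Pool.Agent.P.MP_e794d7_al.Y.WB9
import Pool.Agent.P.MP_e794d7_al.Y.PTr
import Pool.Agent.P.MP_e794d7_al.Y.MSt

/-! The labels of the machine, read in the universal complex. -/

set_option autoImplicit false

namespace Pool.Agent.P.MP_e794d7_al.Y

open scoped Classical

noncomputable section

/-- the largest height of a lift -/
def Hm (ι : Type) (K : ℕ) : ℕ := Hc ι K + 3 * K

/-- the radius of faithfulness -/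
def Rd (ι : Type) (K : ℕ) : ℕ := Hm ι K + Nat.card ι * K + 1 + K

/-- the machine together with the universal complex -/
structure Lk (ι Q : Type) [Group Q] where
  C : Ctx ι Q
  W : Wb C.M C.K C.P.Col
  F : Cov C.M W.U W.e C.P (2 * Rd ι C.K)
  hlb : W.lb = F.ψ
  hgt : ∀ y s b, Adj C.M s b → F.ψ (W.gt y s b) = C.gate (C.pan (F.φ y) s, b)

namespace Lk

variable {ι Q : Type} [Group Q] (Z : Lk ι Q)

/-- a lift of the token of the wall that is matched with the chamber `w` -/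
structure Tk (q : Z.C.Pn) (l : Z.W.Wl) (w y : Z.W.U.X) (s : ι) : Prop where
  pan : Z.C.pan (Z.F.φ y) s = q
  pc : Z.F.ψ l.1 = Z.C.c
  sy : Z.W.Sy l w y s

/-- the labelling of the chain given by the data -/
def bt (L : Z.C.P.X × ι × ι → Z.C.tr.D) : Z.W.U.X → ι → Q := fun w a => Z.C.rawX L (Z.F.φ w) a

/-- the chamber and the token have a matched lift of height at most `n` -/
def SyH (n : ℕ) (x : Z.C.P.X) (q : Z.C.Pn) : Prop :=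
  ∃ l w y s, Z.F.φ w = x ∧ Z.Tk q l w y s ∧ Z.W.ht l w ≤ n

/-- the label read in the lift -/
def labX (L : Z.C.P.X × ι × ι → Z.C.tr.D) (q : Z.C.Pn) (x : Z.C.P.X) (a : ι) : Q :=
  if h : ∃ v, ∃ l w y s, Z.F.φ w = x ∧ Z.Tk q l w y s ∧ Z.W.ht l w ≤ Hm ι Z.C.K ∧
      v = Z.W.Lab l (Z.bt L) w a then h.choose else 1

/-- the flag `f` is a cap for the token `q` -/
structure CapW (x : Z.C.P.X) (q : Z.C.Pn) (f : Z.C.Fl) (l : Z.W.Wl) (w y : Z.W.U.X) (s : ι) :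
    Prop where
  cp : Z.W.Cp l w f.1.a f.2
  fl : f.1 = Z.C.pan (Z.F.φ w) f.1.a
  tk : Z.Tk q l w y s
  par : ∀ b, Adj Z.C.M s b → Z.W.gt y s b = Z.W.U.col w f.1.a →
    Z.C.e x (Z.C.pc f.1) = Z.C.e (Z.F.φ w) (Z.C.pc f.1)

/-- the two labels of a panel -/
def lam (L : Z.C.P.X × ι × ι → Z.C.tr.D) (l : Z.W.Wl) (w : Z.W.U.X) (a : ι) : Q × Q :=
  ord (Z.C.e (Z.F.φ w) (Z.C.P.col (Z.F.φ w) a)) (Z.W.Lab l (Z.bt L) w a)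
    (Z.W.Lab l (Z.bt L) (Z.W.U.r a w) a)

/-- a cap with its labels -/
def CapL (L : Z.C.P.X × ι × ι → Z.C.tr.D) (x : Z.C.P.X) (q : Z.C.Pn) (f : Z.C.Fl) (Λ : Q × Q) :
    Prop := ∃ l w y s, Z.CapW x q f l w y s ∧ Λ = Z.lam L l w f.1.a

/-- the label of a cap -/
def capX (a : ι) (s : Z.C.St) : Q :=
  if h : ∃ v, ∃ f Λ, Z.CapL s.L s.x s.tl f Λ ∧ Z.C.gate f = Z.C.P.col s.x a ∧
      v = (s.mem f.1 Λ)⁻¹ * s.mem (Z.C.op f).1 Λ then h.choose else 1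

/-- the label of a transition -/
def kap (a : ι) (s : Z.C.St) : Q := Z.labX s.L s.tl s.x a * Z.capX a s

variable {Z}
variable {l l' : Z.W.Wl} {w w' y y' u u' : Z.W.U.X} {a b s s' : ι} {q : Z.C.Pn} {x : Z.C.P.X}
variable {σ τ : Z.W.U.Col}

theorem inj (h1 : Nr Z.W.e (Rd ι Z.C.K) y σ) (h2 : Nr Z.W.e (Rd ι Z.C.K) y τ)
    (h : Z.F.ψ σ = Z.F.ψ τ) : σ = τ := Z.F.inj' Z.W.cx le_rfl h1 h2 h

theorem nx (h1 : Nr Z.W.e (Rd ι Z.C.K) y σ) (h2 : Nr Z.W.e (Rd ι Z.C.K) y τ)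
    (h : Z.W.U.NX Z.C.M σ τ) : Z.C.P.NX Z.C.M (Z.F.ψ σ) (Z.F.ψ τ) := Z.F.nx' Z.W.cx le_rfl h1 h2 h

theorem par1 (hσ : Nr Z.W.e (Rd ι Z.C.K) y σ) (u : Z.W.U.X) : dst Z.W.e u y ≤ Rd ι Z.C.K →
    (Z.C.e (Z.F.φ u) (Z.F.ψ σ) = Z.C.e (Z.F.φ y) (Z.F.ψ σ) ↔ Z.W.e u σ = Z.W.e y σ) := by
  refine Z.W.cx.ind_to y (p := fun u => dst Z.W.e u y ≤ Rd ι Z.C.K →
    (Z.C.e (Z.F.φ u) (Z.F.ψ σ) = Z.C.e (Z.F.φ y) (Z.F.ψ σ) ↔ Z.W.e u σ = Z.W.e y σ))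
    (fun _ => by simp) (fun w a ha ih hw => ?_) u
  have h1 := Z.W.cx.dst_sep ha
  have h2 := ih (by omega)
  rw [Z.F.φ_r] at h2
  by_cases h3 : Z.W.U.col w a = σ
  · subst h3
    rw [Z.F.ψ_col] at h2 ⊢
    rw [Pos.Bas.e_r_col Z.C.he, Pos.Bas.e_r_col Z.W.he] at h2
    revert h2
    cases Z.C.e (Z.F.φ w) (Z.C.P.col (Z.F.φ w) a) <;>
      cases Z.C.e (Z.F.φ y) (Z.C.P.col (Z.F.φ w) a) <;>
      cases Z.W.e w (Z.W.U.col w a) <;> cases Z.W.e y (Z.W.U.col w a) <;> simp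
  · rwa [Pos.Bas.e_r_ne Z.W.he h3, Pos.Bas.e_r_ne Z.C.he fun e => h3
      (inj (nr_col (by rwa [dst_comm]) a) hσ (by rw [Z.F.ψ_col, e]))] at h2

/-- parities near a chamber are faithful -/
theorem par (hσ : Nr Z.W.e (Rd ι Z.C.K) y σ) (h1 : dst Z.W.e y u ≤ Rd ι Z.C.K)
    (h2 : dst Z.W.e y u' ≤ Rd ι Z.C.K) :
    Z.C.e (Z.F.φ u) (Z.F.ψ σ) = Z.C.e (Z.F.φ u') (Z.F.ψ σ) ↔ Z.W.e u σ = Z.W.e u' σ := by
  have k1 := par1 hσ u (by rwa [dst_comm])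
  have k2 := par1 hσ u' (by rwa [dst_comm])
  revert k1 k2
  cases Z.C.e (Z.F.φ u) (Z.F.ψ σ) <;> cases Z.C.e (Z.F.φ u') (Z.F.ψ σ) <;>
    cases Z.C.e (Z.F.φ y) (Z.F.ψ σ) <;> cases Z.W.e u σ <;> cases Z.W.e u' σ <;>
    cases Z.W.e y σ <;> simp

theorem φ_inj (h1 : dst Z.W.e y u ≤ Rd ι Z.C.K) (h2 : dst Z.W.e y u' ≤ Rd ι Z.C.K)
    (h : Z.F.φ u = Z.F.φ u') : u = u' := by
  by_contra h3
  obtain ⟨a, ha⟩ := Z.W.cx.geo u u' h3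
  exact ha ((par (nr_col h1 a) h2 h1).1 (by rw [h]))

theorem near (h : Z.W.Sy l w y s) (hw : Z.W.ht l w ≤ Hm ι Z.C.K) :
    dst Z.W.e y w + Z.C.K ≤ Rd ι Z.C.K := by
  have := h.dst
  rw [dst_comm, Rd]
  omega

theorem nr_w (h : Z.W.Sy l w y s) (hw : Z.W.ht l w ≤ Hm ι Z.C.K) (a : ι) :
    Nr Z.W.e (Rd ι Z.C.K) y (Z.W.U.col w a) := nr_col (by have := near h hw; omega) a

theorem nr_thru (h : Z.W.Sy l w y s) (hw : Z.W.ht l w ≤ Hm ι Z.C.K) (hab : Adj Z.C.M a b)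
    (ht : Z.W.U.Thru w a b σ) : Nr Z.W.e (Rd ι Z.C.K) y σ :=
  (Z.W.cx.nr_thru Z.C.hK le_rfl hab ht).mono (near h hw)

theorem nr_l (h : Z.W.Sy l w y s) : Nr Z.W.e (Rd ι Z.C.K) y l.1 :=
  ⟨y, s, by rw [dst_self]; omega, h.1.symm⟩

theorem nr_gt (y : Z.W.U.X) (hb : Adj Z.C.M s b) : Nr Z.W.e (Rd ι Z.C.K) y (Z.W.gt y s b) :=
  (Z.W.cx.nr_thru Z.C.hK (dst_self y).le hb (Wb.gt_thru hb y)).mono (by rw [Rd]; omega)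

/-- two lifts of the token differ by an automorphism -/
theorem Tk.tr (h : Z.Tk q l w y s) (h' : Z.Tk q l' w' y' s') : ∃ α : Aut Z.W.U,
    Z.W.Eqv α l l' ∧ (∀ u, Z.F.φ (α.f u) = Z.F.φ u) ∧ Z.Tk q l' (α.f w) y' s' := by
  obtain ⟨rfl, h1⟩ := Ctx.pan_eq_iff.1 (h.pan.trans h'.pan.symm)
  obtain ⟨y2, h2, h3⟩ : ∃ y2, (y2 = y' ∨ y2 = Z.W.U.r s y') ∧ Z.F.φ y2 = Z.F.φ y := by
    rcases h1 with h1 | h1
    exacts [⟨y', Or.inl rfl, h1.symm⟩, ⟨_, Or.inr rfl, by rw [Z.F.φ_r, h1]⟩]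
  obtain ⟨α, rfl⟩ := Z.W.cx.hom y y2
  have h4 : ∀ u, Z.F.φ (α.f u) = Z.F.φ u := fun u =>
    Z.W.cx.ind y (p := fun u => Z.F.φ (α.f u) = Z.F.φ u) h3
      (fun u a hu => by rw [α.f_r, Z.F.φ_r, Z.F.φ_r, hu]) u
  have h5 : ∀ u a, Z.W.lb (α.t (Z.W.U.col u a)) = Z.W.lb (Z.W.U.col u a) := fun u a => by
    rw [Z.hlb, α.t_col, Z.F.ψ_col, Z.F.ψ_col, h4]
  have h6 : Z.W.Eqv α l l' := ⟨by
    rw [← h.sy.1, ← h'.sy.1, α.t_col]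
    rcases h2 with h2 | h2 <;> rw [h2]
    exact (Z.W.hB.col_r _ _).symm, h5⟩
  have h7 := h6.sy (fun b hb => Z.W.lb_inj _ _ _ _ _ hb (Wb.gt_thru hb _)
    ((α.thru _ _ _ _).2 (Wb.gt_thru hb y)) (by
      obtain ⟨k, hk⟩ := Wb.gt_thru (D := Z.W) hb y
      rw [← hk, Pos.cc, h5, ← Pos.cc, hk, Z.hlb, Z.hgt _ _ _ hb, Z.hgt _ _ _ hb, h4])) h.sy
  refine ⟨α, h6, h4, h'.pan, h'.pc, ?_⟩
  rcases h2 with h2 | h2
  · rwa [h2] at h7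
  · have h8 := h7.r
    rwa [h2, Z.W.hB.rr] at h8

theorem lab_tr {α : Aut Z.W.U} (h : Z.W.Eqv α l l') (h1 : ∀ u, Z.F.φ (α.f u) = Z.F.φ u)
    (L : Z.C.P.X × ι × ι → Z.C.tr.D) (u : Z.W.U.X) (a : ι) :
    Z.W.Lab l' (Z.bt L) (α.f u) a = Z.W.Lab l (Z.bt L) u a := by
  rw [h.lab]
  congr 1
  funext u a
  rw [bt, bt, h1]

theorem labX_eq (L : Z.C.P.X × ι × ι → Z.C.tr.D) (h : Z.Tk q l w y s)
    (hw : Z.W.ht l w ≤ Hm ι Z.C.K) (a : ι) :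
    Z.labX L q (Z.F.φ w) a = Z.W.Lab l (Z.bt L) w a := by
  have h0 : ∃ v, ∃ l' w' y' s', Z.F.φ w' = Z.F.φ w ∧ Z.Tk q l' w' y' s' ∧
      Z.W.ht l' w' ≤ Hm ι Z.C.K ∧ v = Z.W.Lab l' (Z.bt L) w' a := ⟨_, l, w, y, s, rfl, h, hw, rfl⟩
  rw [labX, dif_pos h0]
  obtain ⟨l', w', y', s', h1, h2, h3, h4⟩ := h0.choose_spec
  obtain ⟨α, k1, k2, k3⟩ := h2.tr h
  have k4 := near k3.sy (by rwa [k1.ht])
  have k5 := near h.sy hw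
  rw [h4, ← lab_tr k1 k2, φ_inj (y := y) (by omega) (by omega) ((k2 w').trans h1)]

theorem labX_one (L : Z.C.P.X × ι × ι → Z.C.tr.D)
    (h : ∀ l w y s, Z.F.φ w = x → Z.Tk q l w y s → Z.W.ht l w ≤ Hm ι Z.C.K → ¬ Z.W.Act l w a) :
    Z.labX L q x a = 1 := by
  rw [labX]
  split_ifs with h0
  · obtain ⟨l', w', y', s', h1, h2, h3, h4⟩ := h0.choose_spec
    rw [h4, Wb.lab_one (h _ _ _ _ h1 h2 h3)]
  · rfl

theorem Tk.ok (h : Z.Tk q l w y s) : Z.C.Ok (q, b) ↔ Adj Z.C.M s b := by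
  rw [← h.pan]; exact Ctx.ok_pan

theorem Tk.gt (h : Z.Tk q l w y s) (hb : Adj Z.C.M s b) :
    Z.F.ψ (Z.W.gt y s b) = Z.C.gate (q, b) := by rw [← h.pan]; exact Z.hgt y s b hb

theorem Tk.gate (h : Z.Tk q l w y s) (hb : Adj Z.C.M s b) (ha : Z.W.U.col w a = Z.W.gt y s b) :
    Z.Tk (Z.C.op (q, b)).1 l (Z.W.U.r a w) (Z.W.U.go y s b (Z.C.M s b)) (el s b (Z.C.M s b)) :=
  ⟨by rw [← h.pan, Ctx.op_pan hb, Z.F.φ_go]; rfl, h.pc, h.sy.gate hb ha⟩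

/-- the lift follows the machine -/
theorem Tk.step (h : Z.Tk q l w y s) (hw : Z.W.ht l w ≤ Hm ι Z.C.K) (a : ι) : ∃ y' s',
    Z.Tk (Z.C.mv (Z.C.P.col (Z.F.φ w) a) q) l (Z.W.U.r a w) y' s' := by
  rcases Ctx.mv_cases (Z.C.P.col (Z.F.φ w) a) q with ⟨h1, h2⟩ | ⟨b, h1, h2, h3⟩
  · rw [h2]
    exact ⟨y, s, h.pan, h.pc, h.sy.step fun b hb e => h1 b (h.ok.2 hb)
      (by rw [← Z.F.ψ_col, e, h.gt hb])⟩
  · rw [h3]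
    have hb := h.ok.1 h1
    exact ⟨_, _, h.gate hb (inj (nr_w h.sy hw a) (nr_gt y hb) (by rw [Z.F.ψ_col, h2, h.gt hb]))⟩

theorem SyH.step {n : ℕ} (h : Z.SyH n x q) (hn : n ≤ Hm ι Z.C.K) (a : ι) :
    Z.SyH (n + 1) (Z.C.P.r a x) (Z.C.mv (Z.C.P.col x a) q) := by
  obtain ⟨l, w, y, s, rfl, h1, h2⟩ := h
  obtain ⟨y', s', h3⟩ := h1.step (h2.trans hn) a
  have := Wb.ht_r_le (l := l) w a
  exact ⟨l, _, y', s', Z.F.φ_r _ _, h3, by omega⟩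

/-- a vertex of the lift lies on the wall when its image has the colour of the wall -/
theorem Tk.thru (h : Z.Tk q l w y s) (hw : Z.W.ht l w ≤ Hm ι Z.C.K) (hab : Adj Z.C.M a b) :
    Z.C.P.Thru (Z.F.φ w) a b Z.C.c ↔ Z.W.U.Thru w a b l.1 := by
  refine ⟨fun ht => ?_, fun ht => h.pc ▸ Z.F.push_thru ht⟩
  obtain ⟨σ, h1, h2⟩ := Z.F.lift_thru ht
  rwa [inj (nr_l h.sy) (nr_thru h.sy hw hab h1) (h.pc.trans h2)]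

theorem Tk.col (h : Z.Tk q l w y s) (hw : Z.W.ht l w ≤ Hm ι Z.C.K) :
    Z.C.P.col (Z.F.φ w) a = Z.C.c ↔ Z.W.U.col w a = l.1 := by
  rw [← Z.F.ψ_col, ← h.pc]
  exact ⟨inj (nr_w h.sy hw a) (nr_l h.sy), fun e => by rw [e]⟩

end Lk

end

end Pool.Agent.P.MP_e794d7_al.Y
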