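import Pool.Agent.P.MP_e794d7_al.Y.MSt

/-! An automaton that respects the braid relations gives an action of the Artin group. -/

set_option autoImplicit false

namespace Pool.Agent.P.MP_e794d7_al.Y

namespace MAct

variable {ι S Q : Type} [Group Q]

/-- the permutation attached to a letter -/
noncomputable def prm (st : ι → S → S) (κ : ι → S → Q) (h : ∀ a, Function.Bijective (st a))
    (a : ι) : Equiv.Perm (S × Q) where
  toFun x := (st a x.1, x.2 * κ a x.1)
  invFun x := ((Equiv.ofBijective _ (h a)).symm x.1,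
    x.2 * (κ a ((Equiv.ofBijective _ (h a)).symm x.1))⁻¹)
  left_inv x := by
    have h1 : (Equiv.ofBijective _ (h a)).symm (st a x.1) = x.1 :=
      (Equiv.ofBijective _ (h a)).symm_apply_apply x.1
    simp only [h1, mul_inv_cancel_right]
  right_inv x := by
    have h1 : st a ((Equiv.ofBijective _ (h a)).symm x.1) = x.1 :=
      (Equiv.ofBijective _ (h a)).apply_symm_apply x.1
    simp only [h1, inv_mul_cancel_right]

theorem prm_apply (st : ι → S → S) (κ : ι → S → Q) (h : ∀ a, Function.Bijective (st a))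
    (a : ι) (x : S × Q) : prm st κ h a x = (st a x.1, x.2 * κ a x.1) := rfl

theorem alt_prm (st : ι → S → S) (κ : ι → S → Q) (h : ∀ a, Function.Bijective (st a))
    (a b : ι) (n : ℕ) (x : S × Q) :
    (alt (MulOpposite.op (prm st κ h a)) (MulOpposite.op (prm st κ h b)) n).unop x =
      (grun st x.1 a b n, x.2 * glab st κ x.1 a b n) := by
  induction n with
  | zero => simp [alt_zero, grun, glab]
  | succ n ih =>
    have h1 : (if Even n then MulOpposite.op (prm st κ h a) else MulOpposite.op (prm st κ h b)) =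
        MulOpposite.op (prm st κ h (el a b n)) := by
      unfold el
      split_ifs <;> rfl
    rw [alt_succ, h1, MulOpposite.unop_mul, MulOpposite.unop_op, Equiv.Perm.mul_apply, ih,
      prm_apply, grun, glab, mul_assoc]

end MAct

theorem m_act : S_Act := by
  intro ι M S Q _ st κ hb hr s0 g0
  let Φ : Art M →* (Equiv.Perm (S × Q))ᵐᵒᵖ :=
    Art.lift (fun a => MulOpposite.op (MAct.prm st κ hb a)) fun a b => by
      by_cases hab : a = b
      · rw [hab]
      by_cases h0 : M a b = 0
      · rw [h0]; rfl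
      apply MulOpposite.unop_injective
      ext1 x
      rw [MAct.alt_prm, MAct.alt_prm, (hr x.1 a b ⟨hab, h0⟩).1, (hr x.1 a b ⟨hab, h0⟩).2]
  have h2 : ∀ a, Φ (Art.gen M a) = MulOpposite.op (MAct.prm st κ hb a) := fun a =>
    Art.lift_gen _ _ _
  refine ⟨fun g => ((Φ (g0⁻¹ * g)).unop (s0, 1)).1, fun g => ((Φ (g0⁻¹ * g)).unop (s0, 1)).2,
    ?_, fun g a => ?_, fun hS hQ => ?_⟩
  · simp
  · beta_reduce
    rw [← mul_assoc, map_mul Φ (g0⁻¹ * g), MulOpposite.unop_mul, Equiv.Perm.mul_apply, h2,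
      MulOpposite.unop_op, MAct.prm_apply]
    exact ⟨rfl, rfl⟩
  · have hf : Finite (Equiv.Perm (S × Q))ᵐᵒᵖ :=
      Finite.of_equiv _ (MulOpposite.opEquiv (α := Equiv.Perm (S × Q)))
    refine ⟨Φ.ker, Subgroup.finiteIndex_ker Φ, fun h hh g => ?_⟩
    have h3 : Φ (g0⁻¹ * (h * g)) = Φ (g0⁻¹ * g) := by
      rw [map_mul, map_mul, MonoidHom.mem_ker.1 hh, one_mul, ← map_mul]
    beta_reduce
    rw [h3]

end Pool.Agent.P.MP_e794d7_al.Y
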