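import Pool.Agent.P.MP_e794d7_al.Y.LCell
import Pool.Agent.P.MP_e794d7_al.Y.MAct
import Pool.Agent.P.MP_e794d7_al.Y.MBij
import Pool.Agent.P.MP_e794d7_al.Y.MSurj
import Pool.Agent.P.MP_e794d7_al.Y.PTrn

/-! Every labelling of a chain extends to a finite state cocycle. -/

set_option autoImplicit false

namespace Pool.Agent.P.MP_e794d7_al.Y

theorem k_le_rd (ι : Type) (K : ℕ) : K ≤ Rd ι K := by rw [Rd]; omega

theorem ex_lk {ι Q : Type} [Finite ι] [Group Q] (C : Ctx ι Q) {U : Pos ι}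
    {e : U.X → U.Col → Bool} (hC : Cx C.M U e) (F : Cov C.M U e C.P (2 * Rd ι C.K)) :
    ∃ Z : Lk ι Q, ∃ h : Z.C = C, ∀ o, ∃ w, h ▸ Z.F.φ w = F.φ o := by
  have h1 : ∀ y s b, ∃ σ, Adj C.M s b → U.Mid C.M y s b σ ∧
      F.ψ σ = C.gate (C.pan (F.φ y) s, b) := by
    intro y s b
    by_cases hb : Adj C.M s b
    · obtain ⟨k, k1, k2, k3⟩ := Ctx.gate_mid_pan hb (F.φ y)
      exact ⟨_, fun _ => ⟨⟨k, k1, k2, rfl⟩, by rw [F.ψ_cc, k3]⟩⟩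
    · exact ⟨U.col y s, fun h => (hb h).elim⟩
  choose gt hgt using h1
  have h2 : ∀ y a b σ τ, Adj C.M a b → U.Thru y a b σ → U.Thru y a b τ → F.ψ σ = F.ψ τ → σ = τ :=
    fun y a b σ τ hab t1 t2 => F.inj' hC le_rfl
      ((hC.nr_thru C.hK (dst_self y).le hab t1).mono (by simpa using k_le_rd ι C.K))
      ((hC.nr_thru C.hK (dst_self y).le hab t2).mono (by simpa using k_le_rd ι C.K))
  refine ⟨⟨C, ⟨U, e, hC, inferInstance, C.hK, F.ψ, h2, gt, fun y s b hb => (hgt y s b hb).1,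
    fun y s b hb => ?_, fun y s b hb => ?_⟩, F, rfl, fun y s b hb => (hgt y s b hb).2⟩, rfl,
    fun o => ⟨o, rfl⟩⟩
  · exact h2 y s b _ _ hb ((hC.hB.pl_thru hb (Pos.pl_r y s b)).1 (hgt _ s b hb).1.thru)
      (hgt y s b hb).1.thru (by rw [(hgt _ s b hb).2, (hgt y s b hb).2, F.φ_r, Ctx.pan_r])
  · have hg := C.hB.big.adj_el hb (C.M s b)
    refine h2 y s b _ _ hb ((hC.hB.pl_thru hb (Pos.pl_go y s b _)).1 (hgt _ _ _ hg).1.thru)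
      (hgt y s b hb).1.thru ?_
    rw [(hgt _ _ _ hg).2, (hgt y s b hb).2, F.φ_go, ← Ctx.gate_op (Ctx.ok_pan.2 hb), Ctx.op_pan hb]
    rfl

namespace Lk

variable {ι Q : Type} [Group Q] {Z : Lk ι Q}

theorem good_step {t : Z.C.St} {a : ι} (ha : Z.C.P.ChE Z.C.M Z.C.c t.x a)
    (h : Z.SyH 0 t.x t.tl) : Z.SyH 0 (Z.C.step a t).x (Z.C.step a t).tl := by
  obtain ⟨l, w, y, s, hx, h1, hw⟩ := h
  obtain ⟨-, b, hab, ht⟩ := ha
  have hw' : Z.W.ht l w ≤ Hm ι Z.C.K := by omega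
  obtain ⟨y', s', h2⟩ := h1.step hw' a
  have h3 := (h1.thru hw' hab).1 (hx ▸ ht)
  exact ⟨l, _, y', s', by rw [Z.F.φ_r, hx]; rfl, by rw [Ctx.step_tl, ← hx]; exact h2,
    (Wb.ht_thru hab ((Z.W.hB.pl_thru hab (Pos.pl_r w a b)).2 h3)).le⟩

theorem good_ex {w : Z.W.U.X} {a : ι} (ha : Z.C.P.ChE Z.C.M Z.C.c (Z.F.φ w) a) :
    ∃ q, Z.SyH 0 (Z.F.φ w) q := by
  obtain ⟨-, b, hab, ht⟩ := ha
  obtain ⟨σ, h1, h2⟩ := Z.F.lift_thru ht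
  obtain ⟨n, hn⟩ := h1
  let l : Z.W.Wl := ⟨σ, _, _, hn⟩
  obtain ⟨y, s, h3⟩ := Wb.sy_ex (l := l) hab ⟨n, hn⟩
  exact ⟨_, l, w, y, s, rfl, ⟨rfl, h2.symm, h3⟩, (Wb.ht_thru (l := l) hab ⟨n, hn⟩).le⟩

theorem ext [Finite ι] (hX : Finite Z.C.P.X) {π : Art Z.C.M → Z.C.P.X} (hπ : Z.C.P.IsPos Z.C.M π)
    (lam : Z.C.P.X → ι → Q) (g₀ : Art Z.C.M) (w : Z.W.U.X) (hw : Z.F.φ w = π g₀) :
    ∃ F : Art Z.C.M → Q, (∀ g a, Z.C.P.Ch Z.C.M Z.C.c π g₀ g → Z.C.P.ChE Z.C.M Z.C.c (π g) a →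
      F (g * Art.gen Z.C.M a) = F g * lam (π g) a) ∧
    (Finite Q → ∃ H : Subgroup (Art Z.C.M), H.FiniteIndex ∧ ∀ h ∈ H, ∀ g, F (h * g) = F g) := by
  have hB := Z.C.hB
  by_cases h0 : ∃ a, Z.C.P.ChE Z.C.M Z.C.c (π g₀) a
  swap
  · refine ⟨fun _ => 1, fun g a hg ha => (h0 ?_).elim, fun _ => ⟨⊤, inferInstance, fun _ _ _ => rfl⟩⟩
    have key : ∀ g h, Z.C.P.Ch Z.C.M Z.C.c π g h → ((∃ a, Z.C.P.ChE Z.C.M Z.C.c (π g) a) ↔
        ∃ a, Z.C.P.ChE Z.C.M Z.C.c (π h) a) := by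
      intro g h hgh
      induction hgh with
      | rel g h hr =>
        obtain ⟨a, h1, rfl⟩ := hr
        exact iff_of_true ⟨a, h1⟩ ⟨a, by rw [hπ]; exact hB.che_r h1⟩
      | refl g => exact Iff.rfl
      | symm g h _ ih => exact ih.symm
      | trans g h k _ _ ih ih' => exact ih.trans ih'
    exact (key _ _ hg).2 ⟨a, ha⟩
  obtain ⟨a0, ha0⟩ := h0
  obtain ⟨q, hq⟩ := good_ex (hw ▸ ha0)
  obtain ⟨L0, hL0⟩ := m_surj ι Q Z.C lam (Z.C.e (π g₀) Z.C.c)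
  obtain ⟨σ, F, h0, hσ, hfin⟩ := m_act ι Z.C.M Z.C.St Q Z.C.step Z.kap (m_bij ι Q Z.C).1
    (fun s a b hab => ⟨m_run m_trun ι Q Z.C s a b hab, cell s a b hab⟩) ⟨π g₀, q, L0, 1⟩ g₀
  have hx : ∀ g, (σ g).x = π g := by
    let S : Subgroup (Art Z.C.M) :=
      { carrier := {k | ∀ g, (σ (g * k)).x = π (g * k) ↔ (σ g).x = π g}
        one_mem' := fun g => by rw [mul_one]
        mul_mem' := fun {k k'} hk hk' g => by rw [← mul_assoc, hk', hk]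
        inv_mem' := fun {k} hk g => by rw [← hk, inv_mul_cancel_right] }
    have hS : S = ⊤ := Art.eq_top fun a g => by
      rw [(hσ g a).1, hπ g a, Ctx.step_x]
      exact (hB.r_inj a).eq_iff
    intro g
    have : g₀⁻¹ * g ∈ S := hS ▸ Subgroup.mem_top _
    have h1 := (this g₀).2 (by rw [h0])
    rwa [mul_inv_cancel_left] at h1
  have hch : ∀ g h, Z.C.P.Ch Z.C.M Z.C.c π g h →
      (((σ g).L = L0 ∧ Z.SyH 0 (σ g).x (σ g).tl ∧ Z.C.e (π g) Z.C.c = Z.C.e (π g₀) Z.C.c) ↔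
      ((σ h).L = L0 ∧ Z.SyH 0 (σ h).x (σ h).tl ∧ Z.C.e (π h) Z.C.c = Z.C.e (π g₀) Z.C.c)) := by
    intro g h hgh
    induction hgh with
    | rel g h hr =>
      obtain ⟨a, h1, rfl⟩ := hr
      have h2 : Z.C.P.ChE Z.C.M Z.C.c (σ g).x a := by rwa [hx]
      rw [(hσ g a).1, hπ g a, Pos.Bas.e_r_ne Z.C.he h1.1, Ctx.step_L_ne h2.1]
      refine and_congr_right fun _ => and_congr_left fun _ => ⟨good_step h2, fun h3 => ?_⟩
      have h4 := good_step (a := a) (hB.che_r h2) h3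
      rwa [Ctx.step_step_x, Ctx.step_step_tl] at h4
    | refl g => exact Iff.rfl
    | symm g h _ ih => exact ih.symm
    | trans g h k _ _ ih ih' => exact ih.trans ih'
  refine ⟨F, fun g a hg ha => ?_, fun hQ => hfin ((m_bij ι Q Z.C).2 inferInstance hX hQ) hQ⟩
  obtain ⟨h1, ⟨l, w', y, s, k1, k2, k3⟩, h2⟩ := (hch _ _ hg).1 ⟨by rw [h0], by rw [h0, ← hw]; exact hq, rfl⟩
  obtain ⟨h3, b, hab, ht⟩ := ha
  rw [← hx] at h2 h3 ht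
  rw [(hσ g a).2, kap_chain hab k1 k2 ((k2.thru (by omega) hab).1 (k1 ▸ ht)) h3, h1,
    hL0 _ a b hab ht h3 h2, hx]

end Lk

theorem m_ext {ι : Type} [Finite ι] {M : ι → ι → ℕ} {U P : Pos ι} {e : U.X → U.Col → Bool}
    (hC : Cx M U e) {K : ℕ} (hK : ∀ a b, M a b ≤ K) (hK2 : 2 ≤ K) {eP : P.X → P.Col → Bool}
    {π : Art M → P.X} (hX : Finite P.X) (hB : P.Bas M) (he : P.Eps eP) (hπ : P.IsPos M π)
    (hF : ∀ x, ∃ (F : Cov M U e P (2 * Rd ι K)) (o : U.X), F.φ o = x) : P.Ext M π := by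
  intro c Q _ lam g₀
  obtain ⟨tr⟩ := p_trn Q K
  let C : Ctx ι Q := ⟨M, P, eP, c, K, tr, hB, hC.four, fun y a b b' σ γ hab hab' hne h1 h2 h3 => by
    obtain ⟨F, o, rfl⟩ := hF y
    obtain ⟨k, k1, k2, rfl⟩ := h1
    obtain ⟨τ, t1, rfl⟩ := F.lift_thru h2
    rw [← F.ψ_cc]
    exact F.nx' hC le_rfl
      ((hC.nr_thru hK (dst_self o).le hab ⟨k, rfl⟩).mono (by simpa using k_le_rd ι K))
      ((hC.nr_thru hK (dst_self o).le hab' t1).mono (by simpa using k_le_rd ι K))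
      (hC.mid_nx hab hab' hne ⟨k, k1, k2, rfl⟩ t1 fun e1 => h3 (by rw [e1, F.ψ_col])), he, hK, hK2⟩
  obtain ⟨F, o, ho⟩ := hF (π g₀)
  obtain ⟨⟨C', W, F', h1, h2⟩, h3, h4⟩ := ex_lk C hC F
  obtain rfl : C' = C := h3
  obtain ⟨w, hw⟩ := h4 o
  exact Lk.ext (Z := ⟨C, W, F', h1, h2⟩) hX hπ lam g₀ w (hw.trans ho)

end Pool.Agent.P.MP_e794d7_al.Y
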