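import Pool.Agent.P.MP_e794d7_al.Y.BasX

/-! The token machine: definitions. -/

set_option autoImplicit false

namespace Pool.Agent.P.MP_e794d7_al.Y

open scoped Classical

noncomputable section

/-- a colour through the vertex `(y; a, b)` that touches no chamber of the `a`-panel -/
def Pos.Mid {ι : Type} (P : Pos ι) (M : ι → ι → ℕ) (y : P.X) (a b : ι) (σ : P.Col) : Prop :=
  ∃ k, 2 ≤ k ∧ k + 2 ≤ M a b ∧ σ = P.cc y a b k

/-- the data of the construction; `c` is the colour of the wall -/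
structure Ctx (ι : Type) (Q : Type) [Group Q] where
  M : ι → ι → ℕ
  P : Pos ι
  e : P.X → P.Col → Bool
  c : P.Col
  K : ℕ
  tr : Trn Q K
  hB : P.Bas M
  four : ∀ a b, Adj M a b → 4 ≤ M a b
  gnx : ∀ y a b b' σ γ, Adj M a b → Adj M a b' → b ≠ b' → P.Mid M y a b σ → P.Thru y a b' γ →
    γ ≠ P.col y a → P.NX M σ γ
  he : P.Eps e
  hK : ∀ a b, M a b ≤ K
  hK2 : 2 ≤ K

/-- one of the two components -/
def dirn {Q : Type} (β : Bool) : Q × Q → Q := fun l => if β then l.2 else l.1

/-- the pair whose component `β` is `f` -/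
def ord {Q : Type} (β : Bool) (f r : Q) : Q × Q := if β then (r, f) else (f, r)

/-- the states along the alternating word -/
def grun {ι S : Type} (st : ι → S → S) (s : S) (a b : ι) : ℕ → S
  | 0 => s
  | n + 1 => st (el a b n) (grun st s a b n)

/-- the product of the labels along the alternating word -/
def glab {ι S Q : Type} [Group Q] (st : ι → S → S) (κ : ι → S → Q) (s : S) (a b : ι) : ℕ → Q
  | 0 => 1
  | n + 1 => glab st κ s a b n * κ (el a b n) (grun st s a b n)

namespace Ctx

variable {ι Q : Type} [Group Q] (C : Ctx ι Q)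

/-- a panel, given by its chamber on the side `false` and its letter -/
structure Pn where
  z : C.P.X
  a : ι
  nrm : C.e z (C.P.col z a) = false

/-- the panel of the chamber `y` with letter `a` -/
def pan (y : C.P.X) (a : ι) : C.Pn :=
  if h : C.e y (C.P.col y a) = false then ⟨y, a, h⟩
  else ⟨C.P.r a y, a, by
    rw [C.hB.col_r, Pos.Bas.e_r_col C.he]
    simpa using h⟩

/-- the colour of a panel -/
def pc (p : C.Pn) : C.P.Col := C.P.col p.z p.a

/-- a flag: a panel and a second letter, that is a vertex of the panel -/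
abbrev Fl : Type := C.Pn × ι

/-- the label of the flag is finite -/
def Ok (φ : C.Fl) : Prop := Adj C.M φ.1.a φ.2

/-- the opposite flag at the same vertex -/
def op (φ : C.Fl) : C.Fl :=
  (C.pan (C.P.go φ.1.z φ.1.a φ.2 (C.M φ.1.a φ.2)) (el φ.1.a φ.2 (C.M φ.1.a φ.2)),
    el φ.1.a φ.2 (C.M φ.1.a φ.2 + 1))

/-- a pair of opposite flags; the names of the tokens -/
def tok (φ : C.Fl) : Set C.Fl := {φ, C.op φ}

/-- a chosen flag of the pair -/
def rep (φ : C.Fl) : C.Fl := @Classical.epsilon _ ⟨φ⟩ fun ψ => ψ ∈ C.tok φ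

/-- the gate: a colour through the vertex that separates the two opposite panels -/
def gate (φ : C.Fl) : C.P.Col := C.P.cc (C.rep φ).1.z (C.rep φ).1.a (C.rep φ).2 2

/-- the move of a token when the colour `γ` is crossed -/
def mv (γ : C.P.Col) (p : C.Pn) : C.Pn :=
  if h : ∃ b, C.Ok (p, b) ∧ γ = C.gate (p, b) then (C.op (p, h.choose)).1 else p

/-- the token at `q` is matched with the chamber `y` at the vertex of `φ` -/
def Mt (y : C.P.X) (q : C.Pn) (φ : C.Fl) : Prop :=
  (q = φ.1 ∨ q = (C.op φ).1) ∧ C.e y (C.gate φ) = C.e q.z (C.gate φ)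

/-- the flag lies at the vertex `(y; a, b)` -/
def At (φ : C.Fl) (y : C.P.X) (a b : ι) : Prop := C.P.Res y a b φ.1.z ∧ Same a b φ.1.a φ.2

/-- the flag number `n` of the walk -/
def wf (y : C.P.X) (a b : ι) (n : ℕ) : C.Fl := (C.pan (C.P.go y a b n) (el a b n), el a b (n + 1))

/-- one token with a memory: position and memory along the alternating word -/
def trun {Y : Type} (f : C.P.Col → Bool → Y → Y) (x : C.P.X) (a b : ι) (q : C.Pn) (μ : Y) :
    ℕ → C.Pn × Y
  | 0 => (q, μ)
  | n + 1 => (C.mv (C.P.cc x a b n) (trun f x a b q μ n).1,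
      if (trun f x a b q μ n).1 = C.pan (C.P.go x a b n) (el a b n) then
        f (C.P.cc x a b n) (C.e (C.P.go x a b n) (C.P.cc x a b n)) (trun f x a b q μ n).2
      else (trun f x a b q μ n).2)

/-- the states: chamber, token of the wall, labelling data, and a memory on every panel -/
structure St where
  x : C.P.X
  tl : C.Pn
  L : C.P.X × ι × ι → C.tr.D
  mem : C.Pn → (Q × Q → Q)

/-- transport of all labelling data -/
def TL (L : C.P.X × ι × ι → C.tr.D) : C.P.X × ι × ι → C.tr.D :=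
  fun w => C.tr.T (C.M w.2.1 w.2.2) (L w)

/-- the transition by the letter `a` -/
def step (a : ι) (s : C.St) : C.St where
  x := C.P.r a s.x
  tl := C.mv (C.P.col s.x a) s.tl
  L := if s.tl = C.pan s.x a then (if C.P.col s.x a = C.c then C.TL s.L else s.L) else s.L
  mem := fun p => if p = C.pan s.x a then s.mem p * dirn (C.e s.x (C.P.col s.x a))
    else s.mem (C.mv (C.P.col s.x a) p)

/-- `(x, t, g)` is a base of the vertex `(y; a, b)`: the panel `[x, g]` has the colour `c` -/
def IsBs (y : C.P.X) (a b : ι) (w : C.P.X × ι × ι) : Prop :=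
  C.P.Res y a b w.1 ∧ Same a b w.2.1 w.2.2 ∧ C.P.col w.1 w.2.2 = C.c

/-- a chosen base -/
def bs (y : C.P.X) (a b : ι) : C.P.X × ι × ι := @Classical.epsilon _ ⟨(y, a, b)⟩ (C.IsBs y a b)

/-- the number of a chamber in the walk from the base -/
def idx (w : C.P.X × ι × ι) (y : C.P.X) : ℕ :=
  Classical.epsilon fun n => n < 2 * C.M w.2.1 w.2.2 ∧ C.P.go w.1 w.2.1 w.2.2 n = y

/-- the label of the edge `(y, a)` read from the data `d` -/
def raw (d : C.tr.D) (w : C.P.X × ι × ι) (y : C.P.X) (a : ι) : Q :=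
  if a = el w.2.1 w.2.2 (C.idx w y) then
    (C.tr.PF (C.M w.2.1 w.2.2) d (C.idx w y % C.M w.2.1 w.2.2))⁻¹ *
      C.tr.PF (C.M w.2.1 w.2.2) d (C.idx w y % C.M w.2.1 w.2.2 + 1)
  else C.tr.PR (C.M w.2.1 w.2.2) d (C.idx w y % C.M w.2.1 w.2.2) *
      (C.tr.PR (C.M w.2.1 w.2.2) d (C.idx w y % C.M w.2.1 w.2.2 - 1))⁻¹

/-- the label of an edge of the chain -/
def rawX (L : C.P.X × ι × ι → C.tr.D) (x : C.P.X) (a : ι) : Q :=
  if h : ∃ b, Adj C.M a b ∧ C.P.Thru x a b C.c then
    C.raw (L (C.bs x a h.choose)) (C.bs x a h.choose) x a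
  else 1

end Ctx

end

end Pool.Agent.P.MP_e794d7_al.Y
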