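import Pool.Agent.P.MP_e794d7_al.Y.BasX

/-! Goodness from the family statement for a subgroup of finite index. -/

set_option autoImplicit false

namespace Pool.Agent.P.MP_e794d7_al.Y

theorem p_fggood : S_FGgood := by
  intro G _ N Y _ hN hY hsub hFG X _ hX hne A _ hA n N1 hN1 z hz hinv
  rcases n with _ | n
  · obtain ⟨N', h1, c, h2, h3⟩ := deg_one hne hA N1 z hz fun g hg => hinv g trivial hg
    exact ⟨N', h1, c, h2, fun g _ hg => h3 g hg⟩
  obtain ⟨y0⟩ := hY
  have hX' : Free N X := fun g x h => Subtype.ext (hX (g : G) x h)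
  obtain ⟨N', hN', -, c, hc, hc'⟩ := hFG n X hX' hne A hA (N1.comap N.subtype)
    (fi_comap N.subtype N1) (fun _ => z) (fun _ => hz)
    (fun g hg _ x => hinv (g : G) trivial hg x)
  refine ⟨N'.map N.subtype, ⟨?_⟩, c y0, hc y0, ?_⟩
  · rw [Subgroup.index_map_subtype]
    exact mul_ne_zero hN'.1 hN.1
  · rintro _ _ ⟨g, hg, rfl⟩ x
    have h1 := hc' g hg y0 x
    rw [Subsingleton.elim (g • y0) y0] at h1
    exact h1

end Pool.Agent.P.MP_e794d7_al.Y
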