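import Pool.Agent.P.MP_e794d7_al.Y.BasX

set_option autoImplicit false

namespace Pool.Agent.P.MP_e794d7_al.Y

namespace Full

open scoped Classical

variable {G X : Type} [Group G]

/-- cross the edge with label `s` that starts at position `x` -/
noncomputable def tau (π : G → X) (E : Set G) (x : X) (s g : G) : G :=
  if π g = x ∧ g ∈ E then g * s else if π (g * s⁻¹) = x ∧ g * s⁻¹ ∈ E then g * s⁻¹ else g

theorem tau_tau {π : G → X} {E : Set G} {x : X} {s : G} (h : ∀ g, π g = x → π (g * s) ≠ x)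
    (g : G) : tau π E x s (tau π E x s g) = g := by
  by_cases h1 : π g = x ∧ g ∈ E
  · have e : tau π E x s g = g * s := if_pos h1
    rw [e, tau, if_neg fun h2 => h g h1.1 h2.1, mul_inv_cancel_right, if_pos h1]
  · by_cases h2 : π (g * s⁻¹) = x ∧ g * s⁻¹ ∈ E
    · have e : tau π E x s g = g * s⁻¹ := by rw [tau, if_neg h1, if_pos h2]
      rw [e, tau, if_pos h2, inv_mul_cancel_right]
    · have e : tau π E x s g = g := by rw [tau, if_neg h1, if_neg h2]
      rw [e, e]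

theorem tau_mem {π : G → X} {E V : Set G} {x : X} {s : G} (h : ∀ g ∈ E, g ∈ V ∧ g * s ∈ V)
    {g : G} (hg : g ∈ V) : tau π E x s g ∈ V := by
  unfold tau
  split_ifs with h1 h2
  exacts [(h g h1.2).2, (h _ h2.2).1, hg]

theorem tau_mul {π : G → X} {E : Set G} {x : X} {s k : G} (h1 : ∀ g, π (k * g) = π g)
    (h2 : ∀ g, k * g ∈ E ↔ g ∈ E) (g : G) : tau π E x s (k * g) = k * tau π E x s g := by
  unfold tau
  rw [mul_assoc k g s⁻¹, h1, h1, h2, h2]
  split_ifs
  exacts [mul_assoc _ _ _, rfl, rfl]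

/-- orbits of a subgroup on a set of group elements -/
def orb (K : Subgroup G) (V : Set G) : Setoid V where
  r u v := ∃ k ∈ K, (v : G) = k * u
  iseqv :=
    { refl := fun u => ⟨1, K.one_mem, (one_mul _).symm⟩
      symm := by
        rintro u v ⟨k, hk, e⟩
        exact ⟨k⁻¹, K.inv_mem hk, by rw [e, inv_mul_cancel_left]⟩
      trans := by
        rintro u v w ⟨k, hk, e⟩ ⟨l, hl, e'⟩
        exact ⟨l * k, K.mul_mem hl hk, by rw [e', e, mul_assoc]⟩ }

theorem orb_finite (H : Subgroup G) (K : Subgroup H) [K.FiniteIndex] (V : Set G)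
    (hV : ∀ h ∈ H, ∀ g ∈ V, h * g ∈ V) {g₀ : G} (h0 : g₀ ∈ V) (S : Set G) (hS : S.Finite)
    (hc : ∀ g ∈ V, ∃ h ∈ H, ∃ s ∈ S, g = h * s) :
    Finite (Quotient (orb (K.map H.subtype) V)) := by
  haveI : Finite S := hS
  haveI : Finite (Quotient (QuotientGroup.rightRel K)) :=
    Finite.of_equiv _ (QuotientGroup.quotientRightRelEquivQuotientLeftRel K).symm
  refine Finite.of_surjective (fun p : Quotient (QuotientGroup.rightRel K) × S =>
    if h : ((p.1.out : H) : G) * p.2 ∈ V then Quotient.mk _ ⟨_, h⟩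
    else Quotient.mk (orb (K.map H.subtype) V) ⟨g₀, h0⟩) fun q => ?_
  induction q using Quotient.inductionOn with
  | h u =>
    obtain ⟨h, hh, s, hs, e⟩ := hc u u.2
    set t : H := (Quotient.mk (QuotientGroup.rightRel K) ⟨h, hh⟩).out with ht
    have h1 : (⟨h, hh⟩ : H) * t⁻¹ ∈ K :=
      QuotientGroup.rightRel_apply.1 (Quotient.exact (Quotient.out_eq _))
    have h2 : (t : G) * s ∈ V := by
      have := hV _ (H.mul_mem t.2 (H.inv_mem hh)) _ u.2
      rwa [e, mul_assoc, inv_mul_cancel_left] at this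
    refine ⟨(Quotient.mk _ ⟨h, hh⟩, ⟨s, hs⟩), ?_⟩
    simp only [← ht, dif_pos h2]
    exact Quotient.sound ⟨_, ⟨_, h1, rfl⟩, by simp [e, mul_assoc]⟩

/-- an equivariant involution acts on the orbits -/
def permOf (K : Subgroup G) (V : Set G) (t : G → G) (h1 : ∀ g, t (t g) = g)
    (h2 : ∀ g ∈ V, t g ∈ V) (h3 : ∀ k ∈ K, ∀ g, t (k * g) = k * t g) :
    Equiv.Perm (Quotient (orb K V)) :=
  Function.Involutive.toPerm
    (Quotient.map (fun u : V => (⟨t u, h2 u u.2⟩ : V)) (by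
      rintro u v ⟨k, hk, e⟩
      exact ⟨k, hk, by simp only [e, h3 k hk]⟩))
    (fun q => by
      induction q using Quotient.inductionOn with
      | h u => exact congrArg (Quotient.mk _) (Subtype.ext (h1 u)))

theorem permOf_mk (K : Subgroup G) (V : Set G) (t : G → G) (h1 : ∀ g, t (t g) = g)
    (h2 : ∀ g ∈ V, t g ∈ V) (h3 : ∀ k ∈ K, ∀ g, t (k * g) = k * t g) (u : V) :
    permOf K V t h1 h2 h3 (Quotient.mk _ u) = Quotient.mk _ ⟨t u, h2 u u.2⟩ := rfl

end Full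

theorem p_full : S_Full := by
  intro ι M P e π he hπ hE c H V E hH hV hEH hEV ⟨g₀, h0⟩ hcon ⟨S, hS, hc⟩ K hK
  have hfin := Full.orb_finite H K V hV h0 S hS hc
  have hKH : ∀ k ∈ K.map H.subtype, k ∈ H := by
    rintro _ ⟨k, -, rfl⟩
    exact k.2
  let T : P.X → ι → Art M → Art M := fun x a =>
    Full.tau π {g | (g, a) ∈ E} x (Art.gen M a)
  have t1 : ∀ x a g, T x a (T x a g) = g := fun x a =>
    Full.tau_tau fun g hg => by rw [hπ, hg]; exact Pos.Bas.r_ne he a x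
  have t2 : ∀ x a, ∀ g ∈ V, T x a g ∈ V := fun x a g hg =>
    Full.tau_mem (fun u hu => (hEV u a hu).2) hg
  have t3 : ∀ x a, ∀ k ∈ K.map H.subtype, ∀ g, T x a (k * g) = k * T x a g := fun x a k hk =>
    Full.tau_mul (hH k (hKH k hk)) fun g => ⟨fun h => by
      have := hEH _ (H.inv_mem (hKH k hk)) _ a h
      rwa [inv_mul_cancel_left] at this, hEH k (hKH k hk) g a⟩
  obtain ⟨F, hF, hN⟩ := hE c (Equiv.Perm (Quotient (Full.orb (K.map H.subtype) V)))ᵐᵒᵖ
    (fun x a => MulOpposite.op (Full.permOf _ V (T x a) (t1 x a) (t2 x a) (t3 x a))) g₀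
  obtain ⟨N, hN1, hN2⟩ := hN (Finite.of_equiv _ MulOpposite.opEquiv)
  set p := (F g₀).unop⁻¹ (Quotient.mk _ ⟨g₀, h0⟩) with hp
  have key : ∀ u v, Relation.EqvGen (fun u v => ∃ a, (u, a) ∈ E ∧ v = u * Art.gen M a) u v →
      ((P.Ch M c π g₀ u ∧ ∃ hu : u ∈ V, (F u).unop p = Quotient.mk _ ⟨u, hu⟩) ↔
        (P.Ch M c π g₀ v ∧ ∃ hv : v ∈ V, (F v).unop p = Quotient.mk _ ⟨v, hv⟩)) := by
    intro u v huv
    induction huv with
    | rel u v hr =>
      obtain ⟨a, ha, rfl⟩ := hr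
      obtain ⟨h1, h2, h3⟩ := hEV u a ha
      have h4 : P.Ch M c π u (u * Art.gen M a) := Relation.EqvGen.rel _ _ ⟨a, h1, rfl⟩
      have h5 : Full.permOf _ V (T (π u) a) (t1 _ a) (t2 _ a) (t3 _ a) (Quotient.mk _ ⟨u, h2⟩) =
          Quotient.mk _ ⟨u * Art.gen M a, h3⟩ := by
        rw [Full.permOf_mk]
        exact congrArg (Quotient.mk _) (Subtype.ext (if_pos ⟨rfl, ha⟩))
      have h6 : P.Ch M c π g₀ u → (F (u * Art.gen M a)).unop p =
          Full.permOf _ V (T (π u) a) (t1 _ a) (t2 _ a) (t3 _ a) ((F u).unop p) := fun h => by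
        rw [hF u a h h1]
        rfl
      constructor
      · rintro ⟨h7, _, h8⟩
        exact ⟨h7.trans _ _ _ h4, h3, by rw [h6 h7, h8, h5]⟩
      · rintro ⟨h7, _, h8⟩
        have h9 := h7.trans _ _ _ (h4.symm _ _)
        refine ⟨h9, h2, ?_⟩
        rw [h6 h9, ← h5] at h8
        exact Equiv.injective _ h8
    | refl u => exact Iff.rfl
    | symm u v _ ih => exact ih.symm
    | trans u v w _ _ ih1 ih2 => exact ih1.trans ih2
  refine ⟨N, hN1, fun h hh => ?_⟩
  have h1 := hV _ h.2 _ h0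
  obtain ⟨-, _, h2⟩ := (key _ _ (hcon _ h0 _ h1)).1 ⟨Relation.EqvGen.refl _, h0, by simp [hp]⟩
  rw [hN2 (h : Art M) hh, hp] at h2
  have h3 : Quotient.mk (Full.orb (K.map H.subtype) V) ⟨g₀, h0⟩ = Quotient.mk _ ⟨_, h1⟩ := by
    rw [← h2]; simp
  obtain ⟨_, ⟨k, hk, rfl⟩, e1⟩ := Quotient.exact h3
  have : h = k := Subtype.ext (mul_right_cancel e1)
  rwa [this]

end Pool.Agent.P.MP_e794d7_al.Y
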