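import Pool.Agent.P.MP_e794d7_al.Y.PHier1

/-! The hierarchy, part two: pieces, walls and chains. -/

set_option autoImplicit false

namespace Pool.Agent.P.MP_e794d7_al.Y

namespace Hier

open scoped Classical
open MulAction

noncomputable section

/-- the action on a quotient by an invariant relation -/
@[reducible] def quotAct {G Y : Type} [Group G] [MulAction G Y] (r : Y → Y → Prop)
    (hr : ∀ (g : G) x y, r x y → r (g • x) (g • y)) : MulAction G (Quot r) where
  smul g := Quot.map (fun x => g • x) (hr g)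
  one_smul := by rintro ⟨x⟩; exact congrArg (Quot.mk r) (one_smul G x)
  mul_smul g h := by rintro ⟨x⟩; exact congrArg (Quot.mk r) (mul_smul g h x)

variable {ι : Type} {M : ι → ι → ℕ} {P : Pos ι}

/-- edges of the Cayley graph -/
structure AE (M : ι → ι → ℕ) where
  g : Art M
  a : ι

instance {X : Type} (π : Art M → X) : MulAction (N0 π) (AE M) where
  smul n e := ⟨n.1 * e.g, e.a⟩
  one_smul e := by change AE.mk (1 * e.g) e.a = e; rw [one_mul]
  mul_smul n n' e := by
    change AE.mk (n.1 * n'.1 * e.g) e.a = AE.mk (n.1 * (n'.1 * e.g)) e.a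
    rw [mul_assoc]

theorem smul_AE {X : Type} {π : Art M → X} (n : N0 π) (g : Art M) (a : ι) :
    n • (AE.mk g a : AE M) = AE.mk (n.1 * g) a := rfl

theorem smul_A {X : Type} {π : Art M → X} (n : N0 π) (g : Art M) : n • g = n.1 * g := rfl

variable (π : Art M → P.X) (C : Set P.Col) (c : P.Col)

/-- edges with a colour outside `C` -/
def rV (g h : Art M) : Prop := ∃ a, P.col (π g) a ∉ C ∧ h = g * Art.gen M a

/-- the pieces -/
def V : Type := Quot (rV π C)

instance : MulAction (N0 π) (V π C) := quotAct _ (by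
  rintro n g _ ⟨a, h, rfl⟩
  exact ⟨a, by rw [smul_A, n.2]; exact h, by rw [smul_A, smul_A, mul_assoc]⟩)

/-- the piece of a vertex -/
def mkV (g : Art M) : V π C := Quot.mk _ g

theorem smul_mkV (n : N0 π) (g : Art M) : n • mkV π C g = mkV π C (n.1 * g) := rfl

/-- opposite edges of the colour `c` in a cell without colours in `C` -/
def rE (e e' : AE M) : Prop := ∃ g a b n, Adj M a b ∧ Cfree π C g a b ∧ n < M a b ∧
  P.cc (π g) a b n = c ∧ e = ⟨wk g a b n, el a b n⟩ ∧
  e' = ⟨wk g b a (M a b - 1 - n), el b a (M a b - 1 - n)⟩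

/-- classes of edges -/
def Q : Type := Quot (rE π C c)

theorem cfree_mul {π : Art M → P.X} {C : Set P.Col} {n : Art M} (hn : n ∈ N0 π) {g : Art M}
    {a b : ι} (h : Cfree π C g a b) : Cfree π C (n * g) a b := fun k => by
  rw [hn g]; exact h k

instance : MulAction (N0 π) (Q π C c) := quotAct _ (by
  rintro n _ _ ⟨g, a, b, k, h1, h2, h3, h4, rfl, rfl⟩
  exact ⟨n.1 * g, a, b, k, h1, cfree_mul n.2 h2, h3, by rw [n.2]; exact h4,
    by rw [smul_AE, wk_mul], by rw [smul_AE, wk_mul]⟩)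

/-- the class of an edge -/
def mkQ (g : Art M) (a : ι) : Q π C c := Quot.mk _ ⟨g, a⟩

theorem smul_mkQ (n : N0 π) (g : Art M) (a : ι) :
    n • mkQ π C c g a = mkQ π C c (n.1 * g) a := rfl

/-- the walls of the colour `c` -/
def W : SubMulAction (N0 π) (Q π C c) where
  carrier := {w | ∃ g a, P.col (π g) a = c ∧ mkQ π C c g a = w}
  smul_mem' := by
    rintro n _ ⟨g, a, h, rfl⟩
    exact ⟨n.1 * g, a, by rw [n.2]; exact h, rfl⟩

/-- the wall passes through the edge number `n` of the cell -/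
structure Wit (w : Q π C c) (g : Art M) (a b : ι) (n : ℕ) : Prop where
  adj : Adj M a b
  fr : Cfree π C g a b
  lt : n < M a b
  cc : P.cc (π g) a b n = c
  eq : mkQ π C c (wk g a b n) (el a b n) = w

/-- vertices of the chain -/
def VIn (w : Q π C c) (g : Art M) : Prop :=
  (∃ a, P.col (π g) a = c ∧ mkQ π C c g a = w) ∨
    ∃ g0 a b n j, Wit π C c w g0 a b n ∧ j ≤ n ∧ g = wk g0 a b j

/-- edges of the chain -/
def EIn (w : Q π C c) (g : Art M) (a' : ι) : Prop :=
  ∃ g0 a b n j, Wit π C c w g0 a b n ∧ j < n ∧ g = wk g0 a b j ∧ a' = el a b j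

variable {π C c}

theorem Wit.smul {w : Q π C c} {g : Art M} {a b : ι} {n : ℕ} (h : Wit π C c w g a b n)
    (u : N0 π) : Wit π C c (u • w) (u.1 * g) a b n :=
  ⟨h.adj, cfree_mul u.2 h.fr, h.lt, by rw [u.2]; exact h.cc, by
    rw [← h.eq, smul_mkQ, wk_mul]⟩

theorem VIn.smul {w : Q π C c} {g : Art M} (h : VIn π C c w g) (u : N0 π) :
    VIn π C c (u • w) (u.1 * g) := by
  rcases h with ⟨a, h, rfl⟩ | ⟨g0, a, b, n, j, h, hj, rfl⟩
  · exact Or.inl ⟨a, by rw [u.2]; exact h, rfl⟩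
  · exact Or.inr ⟨_, a, b, n, j, h.smul u, hj, by rw [wk_mul]⟩

theorem EIn.smul {w : Q π C c} {g : Art M} {a' : ι} (h : EIn π C c w g a') (u : N0 π) :
    EIn π C c (u • w) (u.1 * g) a' := by
  obtain ⟨g0, a, b, n, j, h, hj, rfl, rfl⟩ := h
  exact ⟨_, a, b, n, j, h.smul u, hj, by rw [wk_mul], rfl⟩

theorem EIn.src {w : Q π C c} {g : Art M} {a' : ι} (h : EIn π C c w g a') : VIn π C c w g := by
  obtain ⟨g0, a, b, n, j, h, hj, rfl, rfl⟩ := h
  exact Or.inr ⟨_, a, b, n, j, h, hj.le, rfl⟩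

theorem EIn.tgt {w : Q π C c} {g : Art M} {a' : ι} (h : EIn π C c w g a') :
    VIn π C c w (g * Art.gen M a') := by
  obtain ⟨g0, a, b, n, j, h, hj, rfl, rfl⟩ := h
  exact Or.inr ⟨_, a, b, n, j + 1, h, hj, rfl⟩

theorem EIn.chE (hB : P.Bas M) (hπ : P.IsPos M π) {w : Q π C c} {g : Art M} {a' : ι}
    (h : EIn π C c w g a') : P.ChE M c (π g) a' := by
  obtain ⟨g0, a, b, n, j, h, hj, rfl, rfl⟩ := h
  refine chE_wk hB hπ h.adj ⟨n, h.cc⟩ j fun e => ?_
  have := hB.inj _ a b j n h.adj (hj.trans h.lt) h.lt (e.trans h.cc.symm)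
  omega

variable (π C c)

/-- adjacency in the chain -/
def RC (w : Q π C c) (u v : Art M) : Prop := ∃ a, EIn π C c w u a ∧ v = u * Art.gen M a

variable {π C c}

theorem Wit.conn {w : Q π C c} {g : Art M} {a b : ι} {n : ℕ} (h : Wit π C c w g a b n) :
    ∀ j, j ≤ n → Relation.EqvGen (RC π C c w) g (wk g a b j)
  | 0, _ => Relation.EqvGen.refl _
  | j + 1, hj => Relation.EqvGen.trans _ _ _ (h.conn j (by omega))
      (Relation.EqvGen.rel _ _ ⟨el a b j, ⟨g, a, b, n, j, h, hj, rfl, rfl⟩, rfl⟩)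

theorem cc_opp (hB : P.Bas M) {x : P.X} {a b : ι} (hab : Adj M a b) {n : ℕ} (hn : n < M a b) :
    P.cc x b a (M a b - 1 - n) = P.cc x a b n := by
  rw [hB.cc_rev hab x _ (by omega)]
  congr 1
  omega

theorem src_conn (hB : P.Bas M) {e e' : AE M} (h : Relation.EqvGen (rE π C c) e e') :
    ∀ w : Q π C c, mkQ π C c e.g e.a = w → Relation.EqvGen (RC π C c w) e.g e'.g := by
  induction h with
  | rel x y h =>
    intro w hw
    have h0 : mkQ π C c y.g y.a = w := (Quot.sound h).symm.trans hw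
    obtain ⟨g, a, b, n, h1, h2, h3, h4, rfl, rfl⟩ := h
    have w1 : Wit π C c w g a b n := ⟨h1, h2, h3, h4, hw⟩
    have w2 : Wit π C c w g b a (M a b - 1 - n) :=
      ⟨hB.big.adj_symm h1, h2.swap hB h1, by rw [hB.big.symm b a]; omega,
        by rw [cc_opp hB h1 h3, h4], h0⟩
    exact Relation.EqvGen.trans _ _ _ (Relation.EqvGen.symm _ _ (w1.conn _ le_rfl))
      (w2.conn _ le_rfl)
  | refl x => intro w _; exact Relation.EqvGen.refl _
  | symm x y h ih =>
    intro w hw
    exact Relation.EqvGen.symm _ _ (ih w ((Quot.eqvGen_sound h).trans hw))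
  | trans x y z h1 _ ih1 ih2 =>
    intro w hw
    exact Relation.EqvGen.trans _ _ _ (ih1 w hw) (ih2 w ((Quot.eqvGen_sound h1).symm.trans hw))

theorem VIn.conn (hB : P.Bas M) {w : Q π C c} {g g' : Art M} (h : VIn π C c w g)
    (h' : VIn π C c w g') : Relation.EqvGen (RC π C c w) g g' := by
  have key : ∀ {g : Art M}, VIn π C c w g → ∃ g1 a, mkQ π C c g1 a = w ∧
      Relation.EqvGen (RC π C c w) g g1 := by
    rintro g (⟨a, -, h⟩ | ⟨g0, a, b, n, j, h, hj, rfl⟩)
    · exact ⟨g, a, h, Relation.EqvGen.refl _⟩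
    · exact ⟨_, _, h.eq, Relation.EqvGen.trans _ _ _ (Relation.EqvGen.symm _ _ (h.conn j hj))
        (h.conn n le_rfl)⟩
  obtain ⟨g1, a1, e1, c1⟩ := key h
  obtain ⟨g2, a2, e2, c2⟩ := key h'
  have := src_conn hB (e := ⟨g1, a1⟩) (e' := ⟨g2, a2⟩) (Quot.eqvGen_exact (e1.trans e2.symm)) w e1
  exact Relation.EqvGen.trans _ _ _ c1
    (Relation.EqvGen.trans _ _ _ this (Relation.EqvGen.symm _ _ c2))

variable (π C c)

/-- all vertices of chains -/
def V' : SubMulAction (N0 π) (W π C c × Art M) where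
  carrier := {x | VIn π C c x.1.1 x.2}
  smul_mem' := fun n _ h => VIn.smul h n

/-- all edges of chains -/
def E' : SubMulAction (N0 π) (W π C c × AE M) where
  carrier := {x | EIn π C c x.1.1 x.2.g x.2.a}
  smul_mem' := fun n _ h => EIn.smul h n

variable {π C c}

theorem fg_W_succ (hFGfree : S_FGfree) (hFGtree : S_FGtree) (hForest : S_Forest) (hB : P.Bas M)
    (hπ : P.IsPos M π) (hE : P.Ext M π) (n : ℕ) : FG (N0 π) (W π C c) (n + 1) := by
  refine hFGtree (N0 π) (V' π C c) (E' π C c) (W π C c)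
    (fun e => ⟨(e.1.1, e.1.2.g), EIn.src e.2⟩)
    (fun e => ⟨(e.1.1, e.1.2.g * Art.gen M e.1.2.a), EIn.tgt e.2⟩) (fun v => v.1.1)
    (fun g e => rfl) (fun g e => Subtype.ext (Prod.ext rfl (mul_assoc _ _ _))) (fun g v => rfl)
    ?_ (fun e => rfl) ?_ ?_ n (hFGfree _ _ ?_ _) (hFGfree _ _ ?_ _)
  · rintro ⟨w, g, a, h1, h2⟩
    exact ⟨⟨(⟨w, g, a, h1, h2⟩, g), Or.inl ⟨a, h1, h2⟩⟩, rfl⟩
  · rintro A f hf ⟨⟨w, g⟩, hg⟩ ⟨⟨w', g'⟩, hg'⟩ hw
    obtain rfl : w = w' := hw
    let F : Art M → Option A := fun u => if h : VIn π C c w.1 u then some (f ⟨(w, u), h⟩) else none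
    have key : ∀ u v, Relation.EqvGen (RC π C c w.1) u v → F u = F v := by
      intro u v h
      induction h with
      | rel x y h =>
        obtain ⟨a, h, rfl⟩ := h
        simp only [F, dif_pos h.src, dif_pos h.tgt]
        exact congrArg some (hf ⟨(w, ⟨x, a⟩), h⟩).symm
      | refl x => rfl
      | symm x y _ ih => exact ih.symm
      | trans x y z _ _ ih1 ih2 => exact ih1.trans ih2
    have h1 : VIn π C c w.1 g := hg
    have h2 : VIn π C c w.1 g' := hg'
    have := key g g' (VIn.conn hB h1 h2)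
    simp only [F, dif_pos h1, dif_pos h2] at this
    exact Option.some.inj this
  · intro A _ b
    have := fun w : W π C c => hForest ι M P π hE c A fun g a =>
      if h : EIn π C c w.1 g a then b ⟨(w, ⟨g, a⟩), h⟩ else 0
    choose α hα using this
    refine ⟨fun v => α v.1.1 v.1.2, ?_⟩
    rintro ⟨⟨w, ⟨g, a⟩⟩, h⟩
    have h1 : EIn π C c w.1 g a := h
    exact (hα w g a (h1.chE hB hπ)).trans (dif_pos h1)
  · intro g x h
    have h1 : g.1 * x.1.2 = x.1.2 := congrArg (fun y : V' π C c => y.1.2) h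
    exact Subtype.ext (mul_eq_right.mp h1)
  · intro g x h
    have h1 : g.1 * x.1.2.g = x.1.2.g := congrArg (fun y : E' π C c => y.1.2.g) h
    exact Subtype.ext (mul_eq_right.mp h1)

theorem fin_W [Fintype ι] (hX : Finite P.X) (hB : P.Bas M) (hπ : P.IsPos M π) :
    Finite (orbitRel.Quotient (N0 π) (W π C c)) := by
  have h : ∀ w : W π C c, ∃ g a, mkQ π C c g a = w.1 := fun w => by
    obtain ⟨g, a, -, h⟩ := w.2
    exact ⟨g, a, h⟩
  choose g a h using h
  refine Finite.of_injective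
    (fun q : orbitRel.Quotient (N0 π) (W π C c) => (π (g q.out), a q.out)) fun q q' e => ?_
  have e1 : π (g q.out) = π (g q'.out) := congrArg Prod.fst e
  have e2 : a q.out = a q'.out := congrArg Prod.snd e
  rw [← Quotient.out_eq q, ← Quotient.out_eq q']
  refine Quotient.sound ⟨⟨_, mem_N0 hB hπ e1⟩, Subtype.ext ?_⟩
  change (⟨_, mem_N0 hB hπ e1⟩ : N0 π) • q'.out.1 = q.out.1
  rw [← h, ← h, smul_mkQ, e2]
  simp

theorem VIn.near [Fintype ι] : ∃ U : Set (Art M), U.Finite ∧ ∀ (w : Q π C c) g,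
    VIn π C c w g → ∃ u ∈ U, ∃ a, mkQ π C c (g * u) a = w := by
  let L := Finset.univ.sup fun p : ι × ι => M p.1 p.2
  let f : ι × ι × Fin (L + 1) × Fin (L + 1) → Art M := fun x =>
    (wk 1 x.1 x.2.1 x.2.2.1)⁻¹ * wk 1 x.1 x.2.1 x.2.2.2
  refine ⟨insert 1 (Set.range f), (Set.finite_range f).insert 1, ?_⟩
  rintro w g (⟨a, -, h⟩ | ⟨g0, a, b, n, j, h, hj, rfl⟩)
  · exact ⟨1, Or.inl rfl, a, by rw [mul_one]; exact h⟩
  · have h1 : M a b ≤ L := Finset.le_sup (f := fun p : ι × ι => M p.1 p.2) (Finset.mem_univ (a, b))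
    have h2 := h.lt
    refine ⟨_, Or.inr ⟨(a, b, ⟨j, by omega⟩, ⟨n, by omega⟩), rfl⟩, el a b n, ?_⟩
    rw [← h.eq]
    congr 1
    simp only [f, wk_eq]
    group

theorem fg_W_zero [Fintype ι] (hFGzero : S_FGzero) (hFull : S_Full) (hX : Finite P.X)
    (hB : P.Bas M) {e : P.X → P.Col → Bool} (he : P.Eps e) (hπ : P.IsPos M π) (hE : P.Ext M π) :
    FG (N0 π) (W π C c) 0 := by
  refine hFGzero _ _ (fin_W hX hB hπ) fun w => ?_
  let φ := (N0 π).subtype.comp (stabilizer (N0 π) w).subtype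
  have hφ : ∀ h ∈ φ.range, ∃ n : N0 π, n • w.1 = w.1 ∧ n.1 = h := by
    rintro _ ⟨n, rfl⟩
    exact ⟨n.1, congrArg Subtype.val (mem_stabilizer_iff.mp n.2), rfl⟩
  have h1 : Full φ.range.subtype := by
    refine hFull ι M P e π he hπ hE c φ.range {g | VIn π C c w.1 g}
      {x | EIn π C c w.1 x.1 x.2} ?_ ?_ ?_ ?_ ?_ ?_ ?_
    · intro h hh
      obtain ⟨n, -, rfl⟩ := hφ h hh
      exact n.2
    · intro h hh g hg
      obtain ⟨n, hn, rfl⟩ := hφ h hh
      have := VIn.smul hg n
      rwa [hn] at this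
    · intro h hh g a hg
      obtain ⟨n, hn, rfl⟩ := hφ h hh
      have := EIn.smul hg n
      rwa [hn] at this
    · intro g a h
      have h' : EIn π C c w.1 g a := h
      exact ⟨h'.chE hB hπ, h'.src, h'.tgt⟩
    · obtain ⟨g, a, h⟩ := w.2
      exact ⟨g, Or.inl ⟨a, h⟩⟩
    · intro g hg g' hg'
      exact VIn.conn hB hg hg'
    · obtain ⟨U, hU, hU'⟩ := VIn.near (π := π) (C := C) (c := c)
      have : Finite U := hU
      let T : P.X × U × ι → Art M → Prop := fun t g =>
        π g = t.1 ∧ mkQ π C c (g * t.2.1.1) t.2.2 = w.1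
      let s : P.X × U × ι → Art M := fun t => if h : ∃ g, T t g then h.choose else 1
      refine ⟨Set.range s, Set.finite_range s, fun g hg => ?_⟩
      obtain ⟨u, hu, a, h⟩ := hU' w.1 g hg
      let t : P.X × U × ι := (π g, ⟨u, hu⟩, a)
      have h2 : ∃ g, T t g := ⟨g, rfl, h⟩
      have h3 : T t (s t) := by
        simp only [s, dif_pos h2]
        exact h2.choose_spec
      have h4 := mem_N0 hB hπ (g := g) (g' := s t) h3.1.symm
      refine ⟨g * (s t)⁻¹, ⟨⟨⟨_, h4⟩, ?_⟩, rfl⟩, s t, ⟨t, rfl⟩, by simp⟩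
      rw [mem_stabilizer_iff]
      apply Subtype.ext
      change (⟨_, h4⟩ : N0 π) • w.1 = w.1
      conv_lhs => rw [← h3.2]
      rw [smul_mkQ, ← h]
      simp [t, mul_assoc]
  have h2 : Full φ.rangeRestrict := by
    have : φ.rangeRestrict.range.FiniteIndex := by
      rw [MonoidHom.range_eq_top.mpr φ.rangeRestrict_surjective]
      infer_instance
    refine full_of_range _ fun x y h => ?_
    have h' : φ x = φ y := congrArg (fun z : φ.range => z.1) h
    exact Subtype.ext (Subtype.ext h')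
  exact Full.of_comp (ψ := (N0 π).subtype) (h2.comp h1)

theorem mkV_wk (hπ : P.IsPos M π) {D : Set P.Col} (g : Art M) (a b : ι) (i : ℕ) : ∀ k,
    (∀ j, i ≤ j → j < i + k → P.cc (π g) a b j ∉ D) →
    mkV π D (wk g a b (i + k)) = mkV π D (wk g a b i)
  | 0, _ => rfl
  | k + 1, h => by
    rw [← mkV_wk hπ g a b i k fun j h1 h2 => h j h1 (by omega)]
    exact (Quot.sound ⟨el a b (i + k), by rw [col_wk hπ]; exact h _ (by omega) (by omega), rfl⟩).symm

theorem side (hB : P.Bas M) (hπ : P.IsPos M π) {g : Art M} {a b : ι} {n : ℕ} (h1 : Adj M a b)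
    (h2 : Cfree π C g a b) (h3 : n < M a b) (h4 : P.cc (π g) a b n = c) :
    mkV π (insert c C) (wk g a b n) = mkV π (insert c C) g ∧
      mkV π (insert c C) (wk g a b (n + 1)) = mkV π (insert c C) (wk g a b (M a b)) := by
  have key : ∀ j, j < M a b → j ≠ n → P.cc (π g) a b j ∉ insert c C := by
    rintro j hj hn (h | h)
    · exact hn (hB.inj _ a b j n h1 hj h3 (h.trans h4.symm))
    · exact h2 j h
  constructor
  · have := mkV_wk hπ g a b 0 n fun j _ hj => key j (by omega) (by omega)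
    rwa [zero_add] at this
  · have := mkV_wk hπ g a b (n + 1) (M a b - (n + 1)) fun j _ hj => key j (by omega) (by omega)
    rw [show n + 1 + (M a b - (n + 1)) = M a b by omega] at this
    exact this.symm

theorem side_rel (hB : P.Bas M) (hπ : P.IsPos M π) {e e' : AE M} (h : rE π C c e e') :
    mkV π (insert c C) e.g = mkV π (insert c C) e'.g ∧
      mkV π (insert c C) (e.g * Art.gen M e.a) = mkV π (insert c C) (e'.g * Art.gen M e'.a) := by
  obtain ⟨g, a, b, n, h1, h2, h3, h4, rfl, rfl⟩ := h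
  have s1 := side hB hπ h1 h2 h3 h4
  have s2 := side hB hπ (hB.big.adj_symm h1) (h2.swap hB h1) (n := M a b - 1 - n)
    (by rw [hB.big.symm b a]; omega) (by rw [cc_opp hB h1 h3, h4])
  refine ⟨s1.1.trans s2.1.symm, s1.2.trans (Eq.trans ?_ s2.2.symm)⟩
  rw [wk_rel, hB.big.symm b a]

theorem fg_step (hFGtree : S_FGtree) (hB : P.Bas M) (hπ : P.IsPos M π) (hS : SC π C) (hc : c ∉ C)
    (n : ℕ) (h1 : FG (N0 π) (V π (insert c C)) (n + 1)) (h2 : FG (N0 π) (W π C c) n) :
    FG (N0 π) (V π C) (n + 1) := by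
  let o : Q π C c → V π (insert c C) :=
    Quot.lift (fun e => mkV π _ e.g) fun _ _ h => (side_rel hB hπ h).1
  let t : Q π C c → V π (insert c C) :=
    Quot.lift (fun e => mkV π _ (e.g * Art.gen M e.a)) fun _ _ h => (side_rel hB hπ h).2
  let p : V π (insert c C) → V π C := Quot.map id (by
    rintro g _ ⟨a, h, rfl⟩
    exact ⟨a, fun h' => h (Or.inr h'), rfl⟩)
  refine hFGtree (N0 π) (V π (insert c C)) (W π C c) (V π C) (fun w => o w.1) (fun w => t w.1) p
    ?_ ?_ ?_ ?_ ?_ ?_ ?_ n h1 h2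
  · rintro g ⟨⟨e⟩, h⟩
    rfl
  · rintro g ⟨⟨e⟩, h⟩
    exact congrArg (mkV π _) (mul_assoc _ _ _)
  · rintro g ⟨v⟩
    rfl
  · rintro ⟨g⟩
    exact ⟨mkV π _ g, rfl⟩
  · rintro ⟨_, g, a, h, rfl⟩
    exact Quot.sound ⟨a, fun h' => hc (h ▸ h'), rfl⟩
  · intro A f hf
    let F : V π C → A := Quot.lift (fun g => f (mkV π _ g)) (by
      rintro g _ ⟨a, h, rfl⟩
      by_cases h' : P.col (π g) a = c
      · exact (hf ⟨_, g, a, h', rfl⟩).symm
      · exact congrArg f (Quot.sound ⟨a, fun h'' => h''.elim h' h, rfl⟩))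
    rintro ⟨v⟩ ⟨v'⟩ h
    exact congrArg F h
  · intro A _ b
    let β : Art M → ι → A := fun g a =>
      if h : P.col (π g) a = c then b ⟨_, g, a, h, rfl⟩ else 0
    obtain ⟨α, hα⟩ := hS A β fun g a a' h1 h2 => by
      rw [sm, sm, ← Finset.sum_range_reflect (fun i => β (wk g a' a i) (el a' a i))]
      refine Finset.sum_congr rfl fun i hi => ?_
      have hi' := Finset.mem_range.mp hi
      have e1 := col_wk hπ g a a' i
      have e2 := (col_wk hπ g a' a (M a a' - 1 - i)).trans (cc_opp hB h1 hi')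
      by_cases h : P.cc (π g) a a' i = c
      · simp only [β, dif_pos (e1.trans h), dif_pos (e2.trans h)]
        exact congrArg b (Subtype.ext (Quot.sound ⟨g, a, a', i, h1, h2, hi', h, rfl, rfl⟩))
      · simp only [β, dif_neg (e1 ▸ h : ¬ P.col (π (wk g a a' i)) (el a a' i) = c),
          dif_neg (e2 ▸ h : ¬ P.col (π (wk g a' a (M a a' - 1 - i))) (el a' a (M a a' - 1 - i)) = c)]
    refine ⟨Quot.lift α ?_, ?_⟩
    · rintro g _ ⟨a, h, rfl⟩
      have := hα g a fun h' => h (Or.inr h')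
      rw [show β g a = 0 from dif_neg fun h' => h (Or.inl h')] at this
      exact (sub_eq_zero.mp this).symm
    · rintro ⟨_, g, a, h, rfl⟩
      exact (hα g a (by rw [h]; exact hc)).trans (dif_pos h)

theorem free_V (h : ∀ x a, P.col x a ∈ C) : Free (N0 π) (V π C) := by
  rintro n ⟨g⟩ e
  let F : V π C → Art M := Quot.lift id (by
    rintro g _ ⟨a, h', rfl⟩
    exact (h' (h _ _)).elim)
  have h1 : n.1 * g = g := congrArg F e
  exact Subtype.ext (mul_eq_right.mp h1)

theorem subsingleton_V : Subsingleton (V π ∅) := by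
  have key : ∀ g : Art M, mkV π ∅ g = mkV π ∅ 1 := by
    intro u
    have hu : u ∈ Subgroup.closure (Set.range (Art.gen M)) := by
      rw [Art.closure_gen]; trivial
    induction hu using Subgroup.closure_induction_right with
    | one => rfl
    | mul_right x _ y hy ih =>
      obtain ⟨a, rfl⟩ := hy
      exact (Quot.sound ⟨a, fun h => h, rfl⟩).symm.trans ih
    | mul_inv_cancel x _ y hy ih =>
      obtain ⟨a, rfl⟩ := hy
      exact (Quot.sound ⟨a, fun h => h, by simp⟩).trans ih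
  constructor
  rintro ⟨g⟩ ⟨g'⟩
  exact (key g).trans (key g').symm

end

end Hier

open Hier in
theorem p_hier (hFGfree : S_FGfree) (hFGtree : S_FGtree) (hFGzero : S_FGzero)
    (hFGgood : S_FGgood) (hForest : S_Forest) (hFull : S_Full) : S_Hier := by
  intro ι _ M P e π hX hB he hπ hE
  have key : ∀ S : Set P.Col, S.Finite → ∀ C : Set P.Col, C.Finite →
      (∀ x a, P.col x a ∈ C ∨ P.col x a ∈ S) → ∀ n, FG (N0 π) (V π C) (n + 1) := by
    intro S hS
    induction S, hS using Set.Finite.induction_on with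
    | empty =>
      intro C _ h n
      exact hFGfree _ _ (free_V fun x a => (h x a).resolve_right fun h' => h') _
    | @insert c S _ _ ih =>
      intro C hC h n
      by_cases hc : c ∈ C
      · refine ih C hC (fun x a => ?_) n
        rcases h x a with h | h | h
        exacts [Or.inl h, Or.inl (h ▸ hc), Or.inr h]
      · refine fg_step hFGtree hB hπ (sc_finite hForest hB hπ hE hC) hc n
          (ih _ (hC.insert c) (fun x a => ?_) n) ?_
        · rcases h x a with h | h | h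
          exacts [Or.inl (Or.inr h), Or.inl (Or.inl h), Or.inr h]
        · rcases n with _ | n
          · exact fg_W_zero hFGzero hFull hX hB he hπ hE
          · exact fg_W_succ hFGfree hFGtree hForest hB hπ hE n
  exact hFGgood (Art M) (N0 π) (V π ∅) (N0_fi hX hB hπ) ⟨mkV π ∅ 1⟩ subsingleton_V
    (key (Set.range fun p : P.X × ι => P.col p.1 p.2) (Set.finite_range _) ∅ Set.finite_empty
      fun x a => Or.inr ⟨(x, a), rfl⟩)

end Pool.Agent.P.MP_e794d7_al.Y
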