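import Pool.Agent.P.MP_e794d7_al.Y.PRep
import Pool.Agent.P.MP_e794d7_al.Y.PFGfree
import Pool.Agent.P.MP_e794d7_al.Y.PFGtree
import Pool.Agent.P.MP_e794d7_al.Y.PFGzero
import Pool.Agent.P.MP_e794d7_al.Y.PFGgood
import Pool.Agent.P.MP_e794d7_al.Y.PForest
import Pool.Agent.P.MP_e794d7_al.Y.PFull
import Pool.Agent.P.MP_e794d7_al.Y.PHier
import Pool.Agent.P.MP_e794d7_al.Y.LExt

/-! Artin groups with all labels at least four are good. -/

set_option autoImplicit false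

namespace Pool.Agent.P.MP_e794d7_al.Y

theorem good_xl (ι : Type) [Fintype ι] (M : ι → ι → ℕ) (hs : ∀ a b, M a b = M b a)
    (h4 : ∀ a b, Adj M a b → 4 ≤ M a b) : Good (Art M) := by
  have hM : Big M := ⟨hs, fun a b h => by have := h4 a b h; omega⟩
  obtain ⟨R⟩ := p_rep ι M hM
  obtain ⟨K, hK, hK2⟩ : ∃ K, (∀ a b, M a b ≤ K) ∧ 2 ≤ K :=
    ⟨Finset.univ.sup (fun p : ι × ι => M p.1 p.2) + 2, fun a b =>
      (Finset.le_sup (f := fun p : ι × ι => M p.1 p.2) (Finset.mem_univ (a, b))).trans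
        (Nat.le_add_right _ _), by omega⟩
  obtain ⟨P, e, π, hX, hB, he, hπ, hF⟩ := p_tr ι M R hM h4 K (2 * Rd ι K) hK
    (by have := k_le_rd ι K; omega)
  exact p_hier p_fgfree p_fgtree p_fgzero p_fggood p_forest p_full ι M P e π hX hB he hπ
    (m_ext (Tr.cx R hM h4) hK hK2 hX hB he hπ hF)

end Pool.Agent.P.MP_e794d7_al.Y
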