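import Pool.Agent.P.MP_e794d7_al.Y.BasX

/-! Basic properties of the reflection group as a position system. -/

set_option autoImplicit false

namespace Pool.Agent.P.MP_e794d7_al.Y

namespace PBas

open scoped Classical

theorem sin_U (θ : ℝ) : ∀ n : ℕ, Real.sin θ * U (2 * Real.cos θ) n = Real.sin (n * θ)
  | 0 => by simp [U]
  | 1 => by simp [U]
  | n + 2 => by
    have h1 := sin_U θ (n + 1)
    have h2 := sin_U θ n
    have e1 : ((n + 2 : ℕ) : ℝ) * θ = ((n + 1 : ℕ) : ℝ) * θ + θ := by push_cast; ring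
    have e2 : (n : ℝ) * θ = ((n + 1 : ℕ) : ℝ) * θ - θ := by push_cast; ring
    rw [e2, Real.sin_sub] at h2
    rw [U, e1, Real.sin_add]
    linear_combination (2 * Real.cos θ) * h1 - h2

theorem cst_eq {m : ℕ} (hm : 2 ≤ m) : cst m = 2 * Real.cos (Real.pi / m) :=
  if_neg (by omega)

theorem sin_pos {m : ℕ} (hm : 2 ≤ m) : 0 < Real.sin (Real.pi / m) := by
  have h : (1 : ℝ) < m := by exact_mod_cast hm
  exact Real.sin_pos_of_pos_of_lt_pi (div_pos Real.pi_pos (by linarith))
    (div_lt_self Real.pi_pos h)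

theorem U_top {m : ℕ} (hm : 2 ≤ m) : U (cst m) m = 0 := by
  have h : (m : ℝ) ≠ 0 := by exact_mod_cast (by omega : m ≠ 0)
  apply mul_left_cancel₀ (sin_pos hm).ne'
  rw [cst_eq hm, sin_U, mul_div_cancel₀ _ h, Real.sin_pi, mul_zero]

theorem U_top' {m : ℕ} (hm : 2 ≤ m) : U (cst m) (m + 1) = -1 := by
  have h : (m : ℝ) ≠ 0 := by exact_mod_cast (by omega : m ≠ 0)
  apply mul_left_cancel₀ (sin_pos hm).ne'
  have e : ((m + 1 : ℕ) : ℝ) * (Real.pi / m) = Real.pi / m + Real.pi := by
    push_cast; field_simp; ring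
  rw [cst_eq hm, sin_U, e, Real.sin_add_pi]
  ring

theorem U_pair {m : ℕ} (hm : 2 ≤ m) (k : ℕ) :
    2 * U (cst m) (k + 1) - cst m * U (cst m) k = 2 * Real.cos (k * (Real.pi / m)) := by
  apply mul_left_cancel₀ (sin_pos hm).ne'
  have h1 := sin_U (Real.pi / m) (k + 1)
  have h2 := sin_U (Real.pi / m) k
  have e : ((k + 1 : ℕ) : ℝ) * (Real.pi / m) = k * (Real.pi / m) + Real.pi / m := by
    push_cast; ring
  rw [e, Real.sin_add] at h1
  rw [cst_eq hm]
  linear_combination 2 * h1 - 2 * Real.cos (Real.pi / m) * h2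

theorem cos_sq_lt {m k : ℕ} (h0 : 0 < k) (hk : k < m) :
    Real.cos (k * (Real.pi / m)) ^ 2 < 1 := by
  have h1 : (0 : ℝ) < k := by exact_mod_cast h0
  have h2 : (k : ℝ) < m := by exact_mod_cast hk
  have h3 : (0 : ℝ) < m := by linarith
  have h4 : 0 < Real.sin (k * (Real.pi / m)) := by
    refine Real.sin_pos_of_pos_of_lt_pi (mul_pos h1 (div_pos Real.pi_pos h3)) ?_
    rw [← mul_div_assoc, div_lt_iff₀ h3, mul_comm]
    exact mul_lt_mul_of_pos_left h2 Real.pi_pos
  nlinarith [Real.sin_sq_add_cos_sq (k * (Real.pi / m))]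

variable {ι : Type} [Fintype ι] {M : ι → ι → ℕ}

theorem B_al (a b : ι) : Bf M (al a) (al b) = if a = b then 2 else -cst (M a b) :=
  Matrix.toBilin'_single _ a b

theorem B_aa (a : ι) : Bf M (al a) (al a) = 2 := by rw [B_al, if_pos rfl]

theorem B_symm (h : Big M) (x y : ι → ℝ) : Bf M x y = Bf M y x := by
  simp only [Bf, Matrix.toBilin'_apply, Matrix.of_apply]
  rw [Finset.sum_comm]
  refine Finset.sum_congr rfl fun a _ => Finset.sum_congr rfl fun b _ => ?_
  by_cases e : a = b
  · subst e; ring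
  · rw [if_neg e, if_neg (Ne.symm e), h.symm]; ring

omit [Fintype ι] in
theorem al_self (a : ι) : al a a = 1 := Pi.single_eq_same _ _

omit [Fintype ι] in
theorem al_ne {a b : ι} (h : b ≠ a) : al a b = 0 := Pi.single_eq_of_ne h _

variable (R : Rep M)

theorem sq_one (a : ι) : R.σ a * R.σ a = 1 := by
  apply R.inj
  ext1 v
  rw [map_mul, map_one, LinearEquiv.mul_apply, R.act_σ, R.act_σ, map_sub, map_smul, B_aa]
  simp only [smul_eq_mul, LinearEquiv.coe_one, id_eq]
  module

theorem act_inv (w : R.W) (v : ι → ℝ) : R.act w (R.act w⁻¹ v) = v := by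
  rw [← LinearEquiv.mul_apply, ← map_mul, mul_inv_cancel, map_one]
  rfl

theorem B_act (h : Big M) (w : R.W) (x y : ι → ℝ) :
    Bf M (R.act w x) (R.act w y) = Bf M x y := by
  have hw : w ∈ Subgroup.closure (Set.range R.σ) := by rw [R.gen]; trivial
  induction hw using Subgroup.closure_induction generalizing x y with
  | mem w hw =>
    obtain ⟨a, rfl⟩ := hw
    simp only [R.act_σ, map_sub, map_smul, LinearMap.sub_apply, LinearMap.smul_apply,
      smul_eq_mul, B_aa, B_symm h x (al a)]
    ring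
  | one => rw [map_one]; rfl
  | mul w w' _ _ ih ih' => rw [map_mul, LinearEquiv.mul_apply, LinearEquiv.mul_apply, ih, ih']
  | inv w _ ih => rw [← ih, act_inv, act_inv]

theorem rk (h : Big M) {a b : ι} (hab : a ≠ b) :
    Rk2 (Bf M) (cst (M a b)) (al a) (al b) (R.act (R.σ a)) (R.act (R.σ b)) :=
  ⟨B_aa a, B_aa b, by rw [B_al, if_neg hab], by rw [B_al, if_neg hab.symm, h.symm],
    R.act_σ a, R.act_σ b⟩

theorem go_eq (D : R.W) (a b : ι) (n : ℕ) :
    R.pos.go D a b n = D * alt (R.σ a) (R.σ b) n := by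
  induction n with
  | zero => exact (mul_one D).symm
  | succ n ih =>
    rw [Pos.go_succ, ih, alt_succ, ← mul_assoc, el, ← apply_ite R.σ]
    rfl

theorem gm_eq (h : Big M) (D : R.W) {a b : ι} (hab : a ≠ b) (n : ℕ) :
    R.gm D a b n = R.act D (U (cst (M a b)) (n + 1) • al a + U (cst (M a b)) n • al b) := by
  rw [Rep.gm, go_eq, map_mul, LinearEquiv.mul_apply, map_alt, el, apply_ite al, (rk R h hab).root]

theorem act_col (h : Big M) (w : R.W) (a : ι) (v : ι → ℝ) :
    R.act (R.pos.col w a) v = v - Bf M (R.act w (al a)) v • R.act w (al a) := by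
  change R.act (w * R.σ a * w⁻¹) v = _
  rw [map_mul, map_mul, LinearEquiv.mul_apply, LinearEquiv.mul_apply, R.act_σ, map_sub, map_smul,
    act_inv, ← B_act R h w, act_inv]

/-- two reflections agree if and only if the roots agree up to sign -/
theorem col_eq_iff (h : Big M) (w w' : R.W) (a a' : ι) :
    R.pos.col w a = R.pos.col w' a' ↔
      ∃ s : ℝ, s ^ 2 = 1 ∧ R.act w (al a) = s • R.act w' (al a') := by
  constructor
  · intro e
    have h1 := act_col R h w a (R.act w (al a))
    rw [e, act_col R h, B_act R h w, B_aa, sub_right_inj] at h1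
    have h2 : R.act w (al a) =
        (Bf M (R.act w' (al a')) (R.act w (al a)) / 2) • R.act w' (al a') := by
      rw [div_eq_inv_mul, mul_smul, h1, smul_smul]
      norm_num
    refine ⟨_, ?_, h2⟩
    generalize Bf M (R.act w' (al a')) (R.act w (al a)) / 2 = s at h2
    have h3 := B_act R h w (al a) (al a)
    rw [h2, B_aa] at h3
    simp only [map_smul, LinearMap.smul_apply, smul_eq_mul, B_act R h, B_aa] at h3
    linear_combination h3 / 2
  · rintro ⟨s, hs, e⟩
    apply R.inj
    ext1 v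
    rw [act_col R h, act_col R h, e, map_smul, LinearMap.smul_apply, smul_smul, smul_eq_mul,
      show ∀ t : ℝ, s * t * s = s ^ 2 * t from fun t => by ring, hs, one_mul]

theorem cc_eq_col (h : Big M) (x : R.W) (a b : ι) (n : ℕ) (w : R.W) (g : ι) :
    R.pos.cc x a b n = R.pos.col w g ↔ ∃ s : ℝ, s ^ 2 = 1 ∧ R.gm x a b n = s • R.act w (al g) :=
  col_eq_iff R h _ _ _ _

theorem cc_ne (h : Big M) (x : R.W) {a b : ι} (hab : Adj M a b) (i k : ℕ) (h0 : 0 < k)
    (hk : k < M a b) : R.pos.cc x a b i ≠ R.pos.cc x a b (i + k) := by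
  intro e
  obtain ⟨s, hs, e⟩ := (cc_eq_col R h x a b i _ _).1 e
  have h1 := (rk R h hab.1).pair k i
  have h2 := B_act R h (R.pos.go x a b (i + k)) (al (el a b (i + k))) (al (el a b (i + k)))
  rw [U_pair (by omega), ← B_act R h x, ← gm_eq R h x hab.1, ← gm_eq R h x hab.1, e, map_smul,
    LinearMap.smul_apply, Rep.gm, h2, B_aa, smul_eq_mul] at h1
  have h3 := cos_sq_lt h0 hk
  rw [show Real.cos (k * (Real.pi / M a b)) = s by linarith, hs] at h3
  exact lt_irrefl _ h3

/-- a wall through two vertices of a chamber -/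
theorem two_vert (h : Big M) (x : R.W) {a b a' b' : ι} (hab : a ≠ b) (hab' : a' ≠ b') {p q : ℝ}
    {n' : ℕ} {w : R.W} {g : ι} (hw : R.act w (al g) = R.act x (p • al a + q • al b))
    (e : R.pos.cc x a' b' n' = R.pos.col w g) (h1 : a ≠ a') (h2 : a ≠ b') :
    (b = a' ∨ b = b') ∧ R.pos.col w g = R.pos.col x b := by
  obtain ⟨s, hs, e⟩ := (cc_eq_col R h x a' b' n' _ _).1 e
  rw [gm_eq R h x hab', hw, ← map_smul] at e
  replace e := (R.act x).injective e
  have hs0 : s ≠ 0 := by rintro rfl; norm_num at hs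
  have e1 := congrFun e a
  simp only [Pi.add_apply, Pi.smul_apply, smul_eq_mul, al_self, al_ne hab, al_ne h1, al_ne h2,
    mul_zero, add_zero, mul_one] at e1
  have hp : p = 0 := (mul_eq_zero.1 e1.symm).resolve_left hs0
  rw [hp, zero_smul, zero_add, map_smul] at hw
  have hq : q ^ 2 = 1 := by
    have h3 := B_act R h w (al g) (al g)
    rw [hw, B_aa] at h3
    simp only [map_smul, LinearMap.smul_apply, smul_eq_mul, B_act R h, B_aa] at h3
    linear_combination h3 / 2
  refine ⟨?_, (col_eq_iff R h _ _ _ _).2 ⟨q, hq, hw⟩⟩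
  by_contra hb
  rw [not_or] at hb
  have e2 := congrFun e b
  simp only [Pi.add_apply, Pi.smul_apply, smul_eq_mul, al_self, al_ne hab.symm, al_ne hb.1,
    al_ne hb.2, mul_zero, add_zero, zero_add, mul_one] at e2
  rw [(mul_eq_zero.1 e2.symm).resolve_left hs0] at hq
  norm_num at hq

end PBas

open PBas in
theorem p_bas (_hSign : S_Sign) : S_Bas := fun _ _ M R h =>
  { big := h
    rr := fun a (x : R.W) => by
      change x * R.σ a * R.σ a = x
      rw [mul_assoc, sq_one, mul_one]
    col_r := fun a (x : R.W) => by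
      change x * R.σ a * R.σ a * (x * R.σ a)⁻¹ = x * R.σ a * x⁻¹
      group
    braid := fun x a b hab => by
      rw [go_eq, go_eq]
      congr 1
      apply R.inj
      rw [map_alt, map_alt]
      exact (rk R h hab.1).braid (U_top (by have := h.three a b hab; omega))
    per := fun x a b hab => by
      have hm : 2 ≤ M a b := by have := h.three a b hab; omega
      refine (cc_eq_col R h x a b _ _ _).2 ⟨-1, by norm_num, ?_⟩
      rw [gm_eq R h x hab.1, U_top hm, U_top' hm, zero_smul, add_zero, map_smul]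
    inj := fun x a b i j hab hi hj e => by
      rcases lt_trichotomy i j with h1 | h1 | h1
      · refine (cc_ne R h x hab i (j - i) (by omega) (by omega) ?_).elim
        rwa [show i + (j - i) = j by omega]
      · exact h1
      · refine (cc_ne R h x hab j (i - j) (by omega) (by omega) ?_).elim
        rw [show j + (i - j) = i by omega, e]
    x2 := fun x a b e => by
      obtain ⟨s, -, e⟩ := (col_eq_iff R h x x a b).1 e
      rw [← map_smul] at e
      by_contra hab
      have e1 := congrFun ((R.act x).injective e) a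
      rw [al_self, Pi.smul_apply, al_ne hab, smul_zero] at e1
      exact one_ne_zero e1
    x1 := fun x a b a' b' c hab hab' hs ⟨n, hn⟩ ⟨n', hn'⟩ => by
      have hw := gm_eq R h x hab.1 n
      have e : R.pos.cc x a' b' n' = R.pos.col (R.pos.go x a b n) (el a b n) := hn'.trans hn.symm
      by_cases h1 : a = a' ∨ a = b'
      · have h2 : b ≠ a' ∧ b ≠ b' := by
          constructor <;> intro h2 <;> rcases h1 with h1 | h1
          exacts [hab.1 (h1.trans h2.symm), hs (Or.inr ⟨h1, h2⟩), hs (Or.inl ⟨h1, h2⟩),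
            hab.1 (h1.trans h2.symm)]
        rw [add_comm] at hw
        exact ⟨a, Or.inl rfl, h1,
          hn.symm.trans (two_vert R h x hab.1.symm hab'.1 hw e h2.1 h2.2).2⟩
      · rw [not_or] at h1
        obtain ⟨h2, h3⟩ := two_vert R h x hab.1 hab'.1 hw e h1.1 h1.2
        exact ⟨b, Or.inr rfl, h2, hn.symm.trans h3⟩ }

end Pool.Agent.P.MP_e794d7_al.Y
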