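import Pool.Agent.P.MP_e794d7_al.Y.BasX

/-! Walls at two different vertices of one chamber do not cross. -/

set_option autoImplicit false

namespace Pool.Agent.P.MP_e794d7_al.Y

namespace NC

theorem U_sin (θ : ℝ) : ∀ n : ℕ, U (2 * Real.cos θ) n * Real.sin θ = Real.sin (n * θ)
  | 0 => by simp [U]
  | 1 => by simp [U]
  | n + 2 => by
    have h1 := U_sin θ (n + 1)
    have h2 := U_sin θ n
    have e1 : ((n + 2 : ℕ) : ℝ) * θ = ((n + 1 : ℕ) : ℝ) * θ + θ := by push_cast; ring
    have e2 : (n : ℝ) * θ = ((n + 1 : ℕ) : ℝ) * θ - θ := by push_cast; ring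
    rw [e2, Real.sin_sub] at h2
    rw [U, e1, Real.sin_add]
    linear_combination 2 * Real.cos θ * h1 - h2

theorem sin_le {θ x : ℝ} (h0 : 0 ≤ θ) (h1 : θ ≤ x) (h2 : x ≤ Real.pi - θ) :
    Real.sin θ ≤ Real.sin x := by
  have hp := Real.pi_pos
  rcases le_total x (Real.pi / 2) with h | h
  · exact Real.sin_le_sin_of_le_of_le_pi_div_two (by linarith) h h1
  · rw [← Real.sin_pi_sub x]
    exact Real.sin_le_sin_of_le_of_le_pi_div_two (by linarith) (by linarith) (by linarith)

theorem U_ge_one {m n : ℕ} (h1 : 1 ≤ n) (h2 : n < m) : 1 ≤ U (cst m) n := by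
  have hm : m ≠ 0 := by omega
  have hm' : (2 : ℝ) ≤ m := by exact_mod_cast (by omega : 2 ≤ m)
  have hp := Real.pi_pos
  have hθ : 0 < Real.pi / m := by positivity
  have hθ' : Real.pi / m < Real.pi := div_lt_self hp (by linarith)
  have hs := Real.sin_pos_of_pos_of_lt_pi hθ hθ'
  have e : (m : ℝ) * (Real.pi / m) = Real.pi := by field_simp
  have n1 : (1 : ℝ) ≤ n := by exact_mod_cast h1
  have n2 : (n : ℝ) + 1 ≤ m := by exact_mod_cast h2
  have key : Real.sin (Real.pi / m) ≤ Real.sin (n * (Real.pi / m)) :=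
    sin_le hθ.le (by nlinarith) (by nlinarith)
  rw [cst, if_neg hm]
  rw [← U_sin] at key
  by_contra hlt
  rw [not_le] at hlt
  nlinarith

theorem U_nonneg {m n : ℕ} (hm : 2 ≤ m) (h2 : n ≤ m) : 0 ≤ U (cst m) n := by
  rcases Nat.eq_zero_or_pos n with rfl | h0
  · exact le_rfl
  rcases h2.lt_or_eq with h | rfl
  · exact zero_le_one.trans (U_ge_one h0 h)
  have hm' : (2 : ℝ) ≤ n := by exact_mod_cast hm
  have hp := Real.pi_pos
  have hθ : 0 < Real.pi / n := by positivity
  have hθ' : Real.pi / n < Real.pi := div_lt_self hp (by linarith)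
  have hs := Real.sin_pos_of_pos_of_lt_pi hθ hθ'
  have e : (n : ℝ) * (Real.pi / n) = Real.pi := by field_simp
  have key := U_sin (Real.pi / n) n
  rw [e, Real.sin_pi] at key
  rw [cst, if_neg h0.ne']
  exact ((mul_eq_zero.mp key).resolve_right hs.ne').ge

variable {ι : Type} {M : ι → ι → ℕ}

theorem cst_ge_one (h : Big M) {a b : ι} (hab : a ≠ b) : 1 ≤ cst (M a b) := by
  by_cases h0 : M a b = 0
  · rw [cst, if_pos h0]; norm_num
  · have := U_ge_one (n := 2) (m := M a b) (by norm_num) (by have := h.three a b ⟨hab, h0⟩; omega)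
    simpa [U] using this

variable [Fintype ι]

open Classical in
theorem Bf_al (a b : ι) : Bf M (al a) (al b) = if a = b then 2 else -cst (M a b) :=
  Matrix.toBilin'_single _ a b

theorem Bf_self (a : ι) : Bf M (al a) (al a) = 2 := by rw [Bf_al, if_pos rfl]

theorem Bf_ne {a b : ι} (hab : a ≠ b) : Bf M (al a) (al b) = -cst (M a b) := by
  rw [Bf_al, if_neg hab]

omit [Fintype ι] in
theorem al_nonneg (a : ι) : 0 ≤ al a := by
  intro i
  by_cases h : i = a
  · subst h; simp [al]
  · simp [al, h]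

variable (R : Rep M)

theorem go_eq (D : R.W) (a b : ι) (n : ℕ) :
    R.pos.go D a b n = D * alt (R.σ a) (R.σ b) n := by
  induction n with
  | zero => exact (mul_one D).symm
  | succ n ih =>
    rw [Pos.go_succ, ih, alt_succ, ← mul_assoc, el, ← apply_ite R.σ]
    rfl

theorem gm_eq (h : Big M) (D : R.W) {a b : ι} (hab : a ≠ b) (n : ℕ) :
    R.gm D a b n = R.act D (U (cst (M a b)) (n + 1) • al a + U (cst (M a b)) n • al b) := by
  have rk : Rk2 (Bf M) (cst (M a b)) (al a) (al b) (R.act (R.σ a)) (R.act (R.σ b)) :=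
    ⟨Bf_self a, Bf_self b, Bf_ne hab, by rw [Bf_ne hab.symm, h.symm], R.act_σ a, R.act_σ b⟩
  rw [Rep.gm, go_eq, map_mul, map_alt, LinearEquiv.mul_apply, ← rk.root n, el, apply_ite al]

theorem ng_act (D g : R.W) (β : ι → ℝ) : R.Ng g (R.act D β) ↔ R.Ng (D⁻¹ * g) β := by
  rw [Rep.Ng, Rep.Ng, mul_inv_rev, inv_inv, map_mul, LinearEquiv.mul_apply]

theorem sd_act (D : R.W) {β γ : ι → ℝ} (h : R.SD β γ) : R.SD (R.act D β) (R.act D γ) := by
  obtain ⟨h1, g, h2, h3⟩ := h
  refine ⟨fun g' => ?_, D * g, ?_, ?_⟩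
  · rw [ng_act, ng_act]; exact h1 _
  · rwa [ng_act, inv_mul_cancel_left]
  · rwa [ng_act, inv_mul_cancel_left]

theorem root (h : Big M) {a b : ι} (hab : a ≠ b) (n : ℕ) :
    R.IsRoot (U (cst (M a b)) (n + 1) • al a + U (cst (M a b)) n • al b) := by
  have := gm_eq R h 1 hab n
  rw [map_one, LinearEquiv.coe_one, id] at this
  exact ⟨_, _, this.symm⟩

omit [Fintype ι] in
theorem pos (h : Big M) {a b : ι} (hab : Adj M a b) {n : ℕ} (hn : n < M a b) :
    0 ≤ U (cst (M a b)) (n + 1) • al a + U (cst (M a b)) n • al b := by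
  have := h.three a b hab
  exact add_nonneg (smul_nonneg (U_nonneg (by omega) hn) (al_nonneg a))
    (smul_nonneg (U_nonneg (by omega) hn.le) (al_nonneg b))

end NC

open NC in
theorem p_nc (hBSD : S_BSD) : S_NC := by
  intro ι _ M R h
  have key := (hBSD ι M R h).1
  refine ⟨fun D a b b' n n' hab hab' hbb n1 n2 n3 n4 x1 x2 => ?_,
    fun D a b a' b' n n' hab hab' e1 e2 e3 e4 n1 n2 n3 => ?_, fun D a b hab h0 => ?_⟩
  · rw [gm_eq R h D hab.1, gm_eq R h D hab'.1]
    refine sd_act R D (key _ _ (root R h hab.1 n) (root R h hab'.1 n') (pos h hab n2)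
      (pos h hab' n4) ?_)
    have s1 := h.three a b hab
    have s2 := h.three a b' hab'
    obtain ⟨n, rfl⟩ : ∃ k, n = k + 1 := ⟨n - 1, by omega⟩
    obtain ⟨n', rfl⟩ : ∃ k, n' = k + 1 := ⟨n' - 1, by omega⟩
    have hc := cst_ge_one h hbb
    have p1 : 1 ≤ U (cst (M a b)) (n + 1) := U_ge_one n1 n2
    have p2 : 1 ≤ U (cst (M a b')) (n' + 1) := U_ge_one n3 n4
    have q1 : 0 ≤ U (cst (M a b)) n := U_nonneg (by omega) (by omega)
    have q2 : 0 ≤ U (cst (M a b)) (n + 2) := U_nonneg (by omega) (by omega)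
    have q3 : 0 ≤ U (cst (M a b')) n' := U_nonneg (by omega) (by omega)
    have q4 : 0 ≤ U (cst (M a b')) (n' + 2) := U_nonneg (by omega) (by omega)
    have t1 : 1 ≤ U (cst (M a b)) n * U (cst (M a b')) (n' + 2) +
        U (cst (M a b)) (n + 2) * U (cst (M a b')) n' := by
      by_cases hx : 1 ≤ n ∧ n' + 2 < M a b'
      · have := one_le_mul_of_one_le_of_one_le (U_ge_one (m := M a b) hx.1 (by omega))
          (U_ge_one (by omega) hx.2)
        have := mul_nonneg q2 q3
        linarith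
      · have := one_le_mul_of_one_le_of_one_le
          (U_ge_one (m := M a b) (n := n + 2) (by omega) (by omega))
          (U_ge_one (m := M a b') (n := n') (by omega) (by omega))
        have := mul_nonneg q1 q4
        linarith
    have t2 : 1 ≤ cst (M b b') * (U (cst (M a b)) (n + 1) * U (cst (M a b')) (n' + 1)) :=
      one_le_mul_of_one_le_of_one_le hc (one_le_mul_of_one_le_of_one_le p1 p2)
    have u1 : U (cst (M a b)) (n + 2) = cst (M a b) * U (cst (M a b)) (n + 1) -
      U (cst (M a b)) n := rfl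
    have u2 : U (cst (M a b')) (n' + 2) = cst (M a b') * U (cst (M a b')) (n' + 1) -
      U (cst (M a b')) n' := rfl
    simp only [map_add, map_smul, LinearMap.add_apply, LinearMap.smul_apply, smul_eq_mul, Bf_self,
      Bf_ne hab'.1, Bf_ne hab.1.symm, Bf_ne hbb, h.symm b a]
    change U _ (n' + 2) * (U _ (n + 2) * _ + _) + U _ (n' + 1) * (U _ (n + 2) * _ + _) ≤ _
    linear_combination t1 + t2 + U (cst (M a b')) (n' + 2) * u1 + U (cst (M a b)) (n + 2) * u2
  · rw [gm_eq R h D hab.1, gm_eq R h D hab'.1]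
    refine sd_act R D (key _ _ (root R h hab.1 n) (root R h hab'.1 n') (pos h hab (by omega))
      (pos h hab' n3) ?_)
    have s2 := h.three a' b' hab'
    have p1 : 1 ≤ U (cst (M a b)) (n + 1) := U_ge_one (by omega) (by omega)
    have p2 : 1 ≤ U (cst (M a b)) n := U_ge_one n1 (by omega)
    have q1 : 0 ≤ U (cst (M a' b')) (n' + 1) := U_nonneg (by omega) (by omega)
    have q2 : 0 ≤ U (cst (M a' b')) n' := U_nonneg (by omega) (by omega)
    have t : 1 ≤ U (cst (M a' b')) (n' + 1) + U (cst (M a' b')) n' := by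
      rcases Nat.eq_zero_or_pos n' with rfl | h0
      · simp [U]
      · have := U_ge_one h0 n3
        linarith
    have c1 := one_le_mul_of_one_le_of_one_le p1 (cst_ge_one h e1)
    have c2 := one_le_mul_of_one_le_of_one_le p1 (cst_ge_one h e2)
    have c3 := one_le_mul_of_one_le_of_one_le p2 (cst_ge_one h e3)
    have c4 := one_le_mul_of_one_le_of_one_le p2 (cst_ge_one h e4)
    simp only [map_add, map_smul, LinearMap.add_apply, LinearMap.smul_apply, smul_eq_mul,
      Bf_ne e1, Bf_ne e2, Bf_ne e3, Bf_ne e4]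
    nlinarith [mul_le_mul_of_nonneg_left c1 q1, mul_le_mul_of_nonneg_left c2 q2,
      mul_le_mul_of_nonneg_left c3 q1, mul_le_mul_of_nonneg_left c4 q2]
  · refine sd_act R D (key _ _ ⟨1, a, by simp⟩ ⟨1, b, by simp⟩ (al_nonneg a) (al_nonneg b) ?_)
    rw [Bf_ne hab, h0, cst, if_pos rfl]

end Pool.Agent.P.MP_e794d7_al.Y
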