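import Pool.Agent.P.MP_e794d7_al.Y.WB0
import Pool.Agent.P.MP_e794d7_al.Y.PTr1
import Pool.Agent.P.MP_e794d7_al.Y.PBas
import Pool.Agent.P.MP_e794d7_al.Y.PBSD
import Pool.Agent.P.MP_e794d7_al.Y.PNC

/-! The reflection group gives a universal complex. -/

set_option autoImplicit false

namespace Pool.Agent.P.MP_e794d7_al.Y

namespace Tr

open scoped Classical

variable {ι : Type} [Fintype ι] {M : ι → ι → ℕ} (R : Rep M)

/-- the side function -/
noncomputable def sd (w c : R.W) : Bool := decide (Sep R w c)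

theorem sd_eps (h : Big M) : R.pos.Eps (sd R) := by
  intro a (x : R.W) (c : R.W)
  change sd R (x * R.σ a) c = xor (sd R x c) (decide (cl R x a = c))
  by_cases e : cl R x a = c
  · subst e
    simp only [sd, sep_flip R h, decide_true, Bool.xor_true, decide_not]
  · simp only [sd, sep_ne R h x c a e, e, decide_false, Bool.xor_false]

theorem sep_iff (h : Big M) (y D : R.W) (a : ι) : Sep R D (cl R y a) ↔
    (R.Ng D (R.act y (al a)) ↔ ¬ R.act y (al a) ≤ 0) := by
  have r0 := root_ne R h y a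
  have r1 : R.act D⁻¹ (R.act y (al a)) ≠ 0 := by rw [← act_mul]; exact root_ne R h _ a
  have s0 := p_sign ι M R h _ ⟨y, a, rfl⟩
  have s1 : 0 ≤ R.act D⁻¹ (R.act y (al a)) ∨ R.act D⁻¹ (R.act y (al a)) ≤ 0 := by
    rw [← act_mul]; exact p_sign ι M R h _ ⟨_, a, rfl⟩
  rw [Rep.Ng]
  constructor
  · rintro ⟨u, a', e, h1, h2⟩
    rcases root_pm R h e with e2 | e2
    · rw [← e2] at h1 h2
      exact iff_of_true h2 fun h3 => r0 (le_antisymm h3 h1)
    · rw [← neg_eq_iff_eq_neg] at e2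
      rw [← e2] at h1 h2
      rw [map_neg, neg_nonpos] at h2
      exact iff_of_false (fun h3 => r1 (le_antisymm h3 h2)) (not_not.2 (neg_nonneg.1 h1))
  · intro h1
    by_cases h2 : R.act y (al a) ≤ 0
    · refine ⟨y * R.σ a, a, (cl_rσ R y a).symm, by rw [act_rσ]; exact neg_nonneg.2 h2, ?_⟩
      rw [act_rσ, map_neg, neg_nonpos]
      exact s1.resolve_right fun h3 => h1.1 h3 h2
    · exact ⟨y, a, rfl, s0.resolve_right h2, h1.2 h2⟩

theorem sd_ne (h : Big M) (y D : R.W) (a : ι) :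
    sd R D (cl R y a) ≠ sd R y (cl R y a) ↔ R.Ng D (R.act y (al a)) := by
  simp only [sd, ne_eq, decide_eq_decide, sep_self R h]
  rw [sep_iff R h]
  tauto

theorem go_eq (w : R.W) (a b : ι) : ∀ n, R.pos.go w a b n = Sign.wk R w a b n
  | 0 => rfl
  | n + 1 => by rw [Pos.go_succ, go_eq w a b n]; rfl

theorem cone (h : Big M) {a b : ι} (hab : Adj M a b) (z D : R.W)
    (ha : ¬ R.Ng D (R.act z (al a))) (hb : ¬ R.Ng D (R.act z (al b))) {n : ℕ} (hn : n < M a b) :
    ¬ R.Ng D (R.gm z a b n) := by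
  have s1 : ∀ a, ¬ R.Ng D (R.act z (al a)) → 0 ≤ R.act D⁻¹ (R.act z (al a)) := fun a ha => by
    rw [Rep.Ng, ← act_mul] at ha
    rw [← act_mul]
    exact (p_sign ι M R h _ ⟨_, a, rfl⟩).resolve_right ha
  have hm := h.three a b hab
  have hr := (Sign.rk R h hab.1).root n
  rw [← apply_ite al, ← map_alt R.act] at hr
  intro h1
  have h2 : 0 ≤ R.act D⁻¹ (R.gm z a b n) := by
    rw [Rep.gm, go_eq, Sign.wk_alt, act_mul, el, hr, map_add, map_add, map_smul, map_smul,
      map_smul, map_smul]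
    exact add_nonneg (smul_nonneg (Sign.U_nonneg (by omega) hn) (s1 a ha))
      (smul_nonneg (Sign.U_nonneg (by omega) hn.le) (s1 b hb))
  refine root_ne R h (D⁻¹ * Sign.wk R z a b n) (el a b n) ?_
  rw [act_mul, ← go_eq]
  exact le_antisymm h1 h2

theorem sd_fin (h : Big M) (y D : R.W) : {σ | sd R D σ ≠ sd R y σ}.Finite := by
  have key : ∀ w, {σ | sd R (y * w) σ ≠ sd R y σ}.Finite := by
    refine ind R (by simp) fun w a ih => (ih.insert (cl R (y * w) a)).subset fun σ hσ => ?_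
    by_cases e : cl R (y * w) a = σ
    · exact Or.inl e.symm
    · refine Or.inr ?_
      rwa [Set.mem_ofPred_eq, ← mul_assoc, sd, decide_eq_decide.2 (sep_ne R h _ _ _ e)] at hσ
  simpa using key (y⁻¹ * D)

/-- left translations -/
def lt (g : R.W) : Aut R.pos where
  f := (Equiv.mulLeft g : R.W ≃ R.W)
  t := ((MulAut.conj g).toEquiv : R.W ≃ R.W)
  f_r a (w : R.W) := (mul_assoc g w (R.σ a)).symm
  t_col (w : R.W) a := by
    change g * (w * R.σ a * w⁻¹) * g⁻¹ = g * w * R.σ a * (g * w)⁻¹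
    group

theorem cx (h : Big M) (h4 : ∀ a b, Adj M a b → 4 ≤ M a b) : Cx M R.pos (sd R) := by
  have hB := p_bas p_sign ι M R h
  have he := sd_eps R h
  obtain ⟨n1, -, n3⟩ := p_nc (p_bsd p_sign) ι M R h
  have far : ∀ (y D : R.W) a b n, Adj M a b → n < M a b →
      (sd R D (R.pos.cc y a b n) ≠ sd R y (R.pos.cc y a b n) ↔ R.Ng D (R.gm y a b n)) := by
    intro y D a b n hab hn
    rw [← hB.e_go_le he hab y hn le_rfl]
    exact sd_ne R h _ D _
  refine ⟨hB, he, h4, fun y a b b' n n' D hn => ?_, fun y a b D hab h0 => ?_,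
    fun D y a b hab => ?_, fun (y : R.W) (D : R.W) hne => ?_, sd_fin R h,
    fun (u : R.W) (u' : R.W) => ⟨lt R (u' * u⁻¹), inv_mul_cancel_right u' u⟩⟩
  · by_contra h1
    push Not at h1
    exact (n1 y a b b' n n' hn.ab hn.ab' hn.ne hn.n1 hn.nm hn.n1' hn.nm' hn.fst hn.lst).1 D
      ⟨(far y D a b n hn.ab hn.nm).1 h1.1, (far y D a b' n' hn.ab' hn.nm').1 h1.2⟩
  · by_contra h1
    push Not at h1
    exact (n3 y a b hab h0).1 D ⟨(sd_ne R h y D a).1 h1.1, (sd_ne R h y D b).1 h1.2⟩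
  · have key : ∀ n (z : R.W), {σ | sd R D σ ≠ sd R z σ}.ncard = n → R.pos.Res y a b z →
        ∃ z, R.pos.Res y a b z ∧ ∀ σ, R.pos.Thru y a b σ → sd R D σ = sd R z σ := by
      intro n
      induction n using Nat.strong_induction_on with
      | _ n ih =>
      intro z hn hz
      by_cases h1 : ∃ g, (g = a ∨ g = b) ∧ sd R D (cl R z g) ≠ sd R z (cl R z g)
      · obtain ⟨g, hg, h2⟩ := h1
        refine ih _ ?_ (R.pos.r g z) rfl (hB.res_trans hab hz (hB.res_r hab hg z))
        rw [← hn]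
        have h3 : sd R D (cl R z g) = sd R (R.pos.r g z) (cl R z g) :=
          bne_of h2 (by
            have := Pos.Bas.e_r_col he g z
            change sd R (R.pos.r g z) (cl R z g) = !sd R z (cl R z g) at this
            rw [this]; cases sd R z (cl R z g) <;> simp)
        refine Set.ncard_lt_ncard ⟨fun σ hσ => ?_, fun hs => hs h2 h3⟩ (sd_fin R h z D)
        by_cases e : cl R z g = σ
        · exact (hσ (e ▸ h3)).elim
        · rwa [Set.mem_ofPred_eq, Pos.Bas.e_r_ne he e] at hσ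
      · push Not at h1
        refine ⟨z, hz, fun σ ht => ?_⟩
        obtain ⟨k, hk, rfl⟩ := hB.thru_lt hab ((hB.thru_res hab hz).1 ht)
        by_contra h2
        exact cone R h hab z D (fun h3 => (sd_ne R h z D a).2 h3 (h1 a (Or.inl rfl)))
          (fun h3 => (sd_ne R h z D b).2 h3 (h1 b (Or.inr rfl))) hk ((far z D a b k hab hk).1 h2)
    exact key _ y rfl (Pos.Res.refl _ _ _)
  · rcases Sign.len_cases R (D⁻¹ * y) with h1 | ⟨t, ht⟩
    · exact (hne (inv_mul_eq_one.1 h1).symm).elim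
    · refine ⟨t, (sd_ne R h y D t).2 ?_⟩
      have h2 := Sign.pos_of_asc R h _ (D⁻¹ * y * R.σ t) le_rfl t (by
        rw [mul_assoc (D⁻¹ * y), Sign.sq, mul_one]; omega)
      rw [act_rσ, neg_nonneg, act_mul] at h2
      exact h2

theorem free_of_nx (h : Big M) (h4 : ∀ a b, Adj M a b → 4 ≤ M a b) {u u' : R.W} {g g' : ι}
    (hn : R.pos.NX M (R.pos.col u g) (R.pos.col u' g')) :
    R.Free2 (R.pos.col u g) (R.pos.col u' g') := by
  have hC := cx R h h4
  obtain ⟨w, w', hw, hw', h1, h2⟩ := hC.empty_quad hn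
  have e1 : R.pos.col w g = R.pos.col u g := by
    rcases hw with rfl | rfl
    exacts [rfl, hC.hB.col_r _ _]
  have e2 : R.pos.col w' g' = R.pos.col u' g' := by
    rcases hw' with rfl | rfl
    exacts [rfl, hC.hB.col_r _ _]
  rw [← e1, ← e2] at h2 ⊢
  rw [← e2] at h1
  refine (p_bsd p_sign ι M R h).2 w g w' g' ⟨fun D hD => ?_, w, fun h3 => ?_, fun h3 => ?_⟩
  · exact (h2 D).elim ((sd_ne R h w D g).2 hD.1) ((sd_ne R h w' D g').2 hD.2)
  · exact (sd_ne R h w w g).2 h3 rfl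
  · exact (sd_ne R h w' w g').2 h3 h1

end Tr

end Pool.Agent.P.MP_e794d7_al.Y
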