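import Pool.Agent.P.MP_e794d7_al.Y.BasX

/-! The reflection group is residually finite. -/

set_option autoImplicit false

namespace Pool.Agent.P.MP_e794d7_al.Y

open scoped Classical

noncomputable section

namespace PRep

variable {ι : Type} [Fintype ι] (M : ι → ι → ℕ)

theorem Bf_al (a b : ι) : Bf M (al a) (al b) = if a = b then 2 else -cst (M a b) := by
  rw [Bf, al, al, Matrix.toBilin'_single, Matrix.of_apply]

/-- the simple reflections -/
def sr (a : ι) : (ι → ℝ) ≃ₗ[ℝ] (ι → ℝ) :=
  Module.reflection (x := al a) (f := Bf M (al a)) (by rw [Bf_al, if_pos rfl])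

theorem sr_apply (a : ι) (v : ι → ℝ) : sr M a v = v - Bf M (al a) v • al a :=
  Module.reflection_apply _ _

/-- the ring of entries -/
def A : Subalgebra ℤ ℝ := Algebra.adjoin ℤ (Set.range fun p : ι × ι => cst (M p.1 p.2))

theorem cst_int (m : ℕ) : IsIntegral ℤ (cst m) := by
  unfold cst
  split_ifs
  · exact_mod_cast (isIntegral_algebraMap : IsIntegral ℤ (algebraMap ℤ ℝ 2))
  · have := Real.isIntegral_two_mul_cos_rat_mul_pi (1 / m)
    rwa [show ((1 / m : ℚ) : ℝ) * Real.pi = Real.pi / m by push_cast; ring] at this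

instance : Module.Finite ℤ (A M) :=
  Algebra.finite_adjoin_of_finite_of_isIntegral (Set.finite_range _) (by
    rintro _ ⟨p, rfl⟩
    exact cst_int _)

theorem sep {x : A M} (hx : x ≠ 0) : ∃ I : Ideal (A M), Finite (A M ⧸ I) ∧ x ∉ I := by
  let b := Module.Free.chooseBasis ℤ (A M)
  obtain ⟨i, hi⟩ : ∃ i, b.repr x i ≠ 0 := by
    by_contra hc
    exact hx (b.repr.map_eq_zero_iff.1 (Finsupp.ext fun i => not_not.1 fun h => hc ⟨i, h⟩))
  have hq : (0 : ℤ) < |b.repr x i| + 1 := by positivity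
  refine ⟨Ideal.span {((|b.repr x i| + 1 : ℤ) : A M)}, Ideal.finiteQuotientOfFreeOfNeBot _ ?_,
    fun h => ?_⟩
  · rw [Ne, Ideal.span_singleton_eq_bot]
    exact Int.cast_ne_zero.2 hq.ne'
  · obtain ⟨y, hy⟩ := Ideal.mem_span_singleton.1 h
    have h1 : b.repr x i = (|b.repr x i| + 1) * b.repr y i := by
      conv_lhs => rw [hy, ← zsmul_eq_mul, map_smul, Finsupp.smul_apply, smul_eq_mul]
    have h2 := Int.le_of_dvd (abs_pos.2 hi) ((dvd_abs _ _).2 ⟨_, h1⟩)
    omega

/-- the matrix of an element -/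
def mat : ((ι → ℝ) ≃ₗ[ℝ] (ι → ℝ)) →* Matrix ι ι ℝ :=
  (LinearMap.toMatrixAlgEquiv' (R := ℝ) (n := ι)).toMonoidHom.comp
    LinearEquiv.automorphismGroup.toLinearMapMonoidHom

theorem mat_apply (w : (ι → ℝ) ≃ₗ[ℝ] (ι → ℝ)) (i j : ι) : mat w i j = w (al j) i :=
  LinearMap.toMatrixAlgEquiv'_apply _ _ _

theorem mem_A {w : (ι → ℝ) ≃ₗ[ℝ] (ι → ℝ)} (hw : w ∈ Subgroup.closure (Set.range (sr M))) (i j : ι) :
    mat w i j ∈ A M := by
  have h1 : ∀ a i j, mat (sr M a) i j ∈ A M := fun a i j => by
    have h2 : ∀ a i : ι, al a i ∈ A M := fun a i => by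
      rw [al, Pi.single_apply]
      split_ifs
      exacts [one_mem _, zero_mem _]
    rw [mat_apply, sr_apply, Bf_al, Pi.sub_apply, Pi.smul_apply, smul_eq_mul]
    refine sub_mem (h2 _ _) (mul_mem ?_ (h2 _ _))
    split_ifs
    · exact_mod_cast natCast_mem (A M) 2
    · exact neg_mem (Algebra.subset_adjoin ⟨(a, j), rfl⟩)
  induction hw using Subgroup.closure_induction'' generalizing i j with
  | one =>
    rw [map_one, Matrix.one_apply]
    split_ifs
    exacts [one_mem _, zero_mem _]
  | mem w hw =>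
    obtain ⟨a, rfl⟩ := hw
    exact h1 a i j
  | inv_mem w hw =>
    obtain ⟨a, rfl⟩ := hw
    exact h1 a i j
  | mul w w' _ _ h h' =>
    rw [map_mul, Matrix.mul_apply]
    exact sum_mem fun k _ => mul_mem (h _ _) (h' _ _)

/-- the matrix over the ring of entries -/
def matA : Subgroup.closure (Set.range (sr M)) →* Matrix ι ι (A M) where
  toFun w := Matrix.of fun i j => ⟨mat w.1 i j, mem_A M w.2 i j⟩
  map_one' := by
    ext i j
    simp only [Matrix.of_apply, OneMemClass.coe_one, map_one, Matrix.one_apply]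
    split_ifs <;> rfl
  map_mul' w w' := by
    ext i j
    simp [Matrix.mul_apply]

end PRep

open PRep

theorem p_rep : S_Rep := fun ι _ M _ => ⟨
  { W := Subgroup.closure (Set.range (sr M))
    σ := fun a => ⟨sr M a, Subgroup.subset_closure ⟨a, rfl⟩⟩
    act := Subgroup.subtype _
    inj := Subtype.val_injective
    gen := by
      rw [← Subgroup.closure_closure_coe_preimage (k := Set.range (sr M))]
      congr 1
      ext w
      exact ⟨fun ⟨a, h⟩ => ⟨a, congrArg Subtype.val h⟩, fun ⟨a, h⟩ => ⟨a, Subtype.ext h⟩⟩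
    act_σ := sr_apply M
    rf := fun w hw => by
      obtain ⟨i, j, h⟩ : ∃ i j, matA M w i j - (1 : Matrix ι ι (A M)) i j ≠ 0 := by
        by_contra hc
        refine hw (Subtype.ext (LinearEquiv.toLinearMap_injective ((Pi.basisFun ℝ ι).ext fun j =>
          funext fun i => ?_)))
        have h1 : matA M w i j = matA M 1 i j := by
          rw [map_one]
          exact sub_eq_zero.1 (not_not.1 fun h => hc ⟨i, j, h⟩)
        have h2 : mat w.1 i j = mat 1 i j := congrArg Subtype.val h1
        rw [mat_apply, mat_apply] at h2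
        simpa [al] using h2
      obtain ⟨I, hI, hx⟩ := sep M h
      refine ⟨(Matrix ι ι (A M ⧸ I))ˣ, inferInstance, inferInstance,
        (((Ideal.Quotient.mk I).mapMatrix.toMonoidHom.comp (matA M))).toHomUnits, fun e => hx ?_⟩
      have h1 : (Ideal.Quotient.mk I).mapMatrix (matA M w) = (Ideal.Quotient.mk I).mapMatrix 1 := by
        rw [map_one]
        exact congrArg Units.val e
      exact Ideal.Quotient.eq.1 (congrFun (congrFun h1 i) j) }⟩

end

end Pool.Agent.P.MP_e794d7_al.Y
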