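import Pool.Agent.P.MP_e794d7_al.Y.Def

/-! Interface statements. Each is proved in its own file of this folder. -/

set_option autoImplicit false

namespace Pool.Agent.P.MP_e794d7_al.Y

/-! ### geometry -/

def S_Rep : Prop := ∀ (ι : Type) [Fintype ι] (M : ι → ι → ℕ), Big M → Nonempty (Rep M)

def S_Sign : Prop := ∀ (ι : Type) [Fintype ι] (M : ι → ι → ℕ) (R : Rep M), Big M →
  ∀ β, R.IsRoot β → 0 ≤ β ∨ β ≤ 0

def S_Bas : Prop := ∀ (ι : Type) [Fintype ι] (M : ι → ι → ℕ) (R : Rep M), Big M → R.pos.Bas M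

def S_BSD : Prop := ∀ (ι : Type) [Fintype ι] (M : ι → ι → ℕ) (R : Rep M), Big M →
  (∀ β γ, R.IsRoot β → R.IsRoot γ → 0 ≤ β → 0 ≤ γ → Bf M β γ ≤ -2 → R.SD β γ) ∧
  ∀ w a w' a', R.SD (R.act w (al a)) (R.act w' (al a')) →
    R.Free2 (R.pos.col w a) (R.pos.col w' a')

def S_NC : Prop := ∀ (ι : Type) [Fintype ι] (M : ι → ι → ℕ) (R : Rep M), Big M →
  (∀ D a b b' n n', Adj M a b → Adj M a b' → b ≠ b' → 1 ≤ n → n < M a b → 1 ≤ n' → n' < M a b' →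
    ¬ (n = 1 ∧ n' = 1) → ¬ (n + 1 = M a b ∧ n' + 1 = M a b') →
    R.SD (R.gm D a b n) (R.gm D a b' n')) ∧
  (∀ D a b a' b' n n', Adj M a b → Adj M a' b' → a ≠ a' → a ≠ b' → b ≠ a' → b ≠ b' → 1 ≤ n →
    n + 2 ≤ M a b → n' < M a' b' → R.SD (R.gm D a b n) (R.gm D a' b' n')) ∧
  ∀ D a b, a ≠ b → M a b = 0 → R.SD (R.act D (al a)) (R.act D (al b))

def S_Geo : Prop := ∀ (ι : Type) [Fintype ι] (M : ι → ι → ℕ) (R : Rep M), Big M →
  R.pos.Geo M R.Free2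

/-- transfer to a finite quotient -/
def S_Tr : Prop := ∀ (ι : Type) [Fintype ι] (M : ι → ι → ℕ) (R : Rep M), R.pos.Bas M →
  R.pos.Geo M R.Free2 → ∃ (P : Pos ι) (e : P.X → P.Col → Bool) (π : Art M → P.X),
    Finite P.X ∧ P.Bas M ∧ P.Geo M (P.NX M) ∧ P.Eps e ∧ P.IsPos M π

/-! ### cohomology of families -/

/-- equivariant families of cocycles of degree `n + 1` are virtually coboundaries -/
def FG (G Y : Type) [Group G] [MulAction G Y] (n : ℕ) : Prop :=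
  ∀ (X : Type) [MulAction G X], Free G X → Nonempty X →
    ∀ (A : Type) [AddCommGroup A], Finite A → ∀ N : Subgroup G, N.FiniteIndex →
      ∀ z : Y → (Fin (n + 2) → X) → A, (∀ y, D (z y) = 0) →
        (∀ g ∈ N, ∀ y x, z (g • y) (g • x) = z y x) →
        ∃ N' : Subgroup G, N'.FiniteIndex ∧ N' ≤ N ∧ ∃ c : Y → (Fin (n + 1) → X) → A,
          (∀ y, D (c y) = z y) ∧ ∀ g ∈ N', ∀ y x, c (g • y) (g • x) = c y x

def S_FGfree : Prop := ∀ (G Y : Type) [Group G] [MulAction G Y], Free G Y → ∀ n, FG G Y n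

def S_FGtree : Prop := ∀ (G V E Y : Type) [Group G] [MulAction G V] [MulAction G E]
  [MulAction G Y] (o t : E → V) (p : V → Y), (∀ (g : G) e, o (g • e) = g • o e) →
  (∀ (g : G) e, t (g • e) = g • t e) → (∀ (g : G) v, p (g • v) = g • p v) →
  Function.Surjective p → (∀ e, p (o e) = p (t e)) →
  (∀ (A : Type) (a : V → A), (∀ e, a (t e) = a (o e)) → ∀ v v', p v = p v' → a v = a v') →
  (∀ (A : Type) [AddCommGroup A] (b : E → A), ∃ a : V → A, ∀ e, a (t e) - a (o e) = b e) →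
  ∀ n, FG G V (n + 1) → FG G E n → FG G Y (n + 1)

def S_FGzero : Prop := ∀ (G Y : Type) [Group G] [MulAction G Y],
  Finite (MulAction.orbitRel.Quotient G Y) →
  (∀ y : Y, Full (MulAction.stabilizer G y).subtype) → FG G Y 0

def S_FGgood : Prop := ∀ (G : Type) [Group G] (N : Subgroup G) (Y : Type) [MulAction N Y],
  N.FiniteIndex → Nonempty Y → Subsingleton Y → (∀ n, FG N Y (n + 1)) → Good G

/-! ### the hierarchy -/

def S_Forest : Prop := ∀ (ι : Type) (M : ι → ι → ℕ) (P : Pos ι) (π : Art M → P.X),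
  P.Ext M π → ∀ (c : P.Col) (A : Type) [AddCommGroup A] (β : Art M → ι → A),
    ∃ α : Art M → A, ∀ g a, P.ChE M c (π g) a → α (g * Art.gen M a) - α g = β g a

def S_Full : Prop := ∀ (ι : Type) (M : ι → ι → ℕ) (P : Pos ι) (e : P.X → P.Col → Bool)
  (π : Art M → P.X), P.Eps e → P.IsPos M π → P.Ext M π →
  ∀ (c : P.Col) (H : Subgroup (Art M)) (V : Set (Art M)) (E : Set (Art M × ι)),
    (∀ h ∈ H, ∀ g, π (h * g) = π g) → (∀ h ∈ H, ∀ g ∈ V, h * g ∈ V) →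
    (∀ h ∈ H, ∀ g a, (g, a) ∈ E → (h * g, a) ∈ E) →
    (∀ g a, (g, a) ∈ E → P.ChE M c (π g) a ∧ g ∈ V ∧ g * Art.gen M a ∈ V) → V.Nonempty →
    (∀ g ∈ V, ∀ g' ∈ V,
      Relation.EqvGen (fun u v => ∃ a, (u, a) ∈ E ∧ v = u * Art.gen M a) g g') →
    (∃ S : Set (Art M), S.Finite ∧ ∀ g ∈ V, ∃ h ∈ H, ∃ s ∈ S, g = h * s) → Full H.subtype

def S_Hier : Prop := ∀ (ι : Type) [Fintype ι] (M : ι → ι → ℕ) (P : Pos ι)
  (e : P.X → P.Col → Bool) (π : Art M → P.X), Finite P.X → P.Bas M → P.Eps e → P.IsPos M π →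
  P.Ext M π → Good (Art M)

/-! ### transport of labellings through the wall -/

/-- data for the labellings of a chain of bigons, given by two potentials -/
structure Trn (Q : Type) [Group Q] (K : ℕ) where
  D : Type
  T : ℕ → D ≃ D
  PF : ℕ → D → ℕ → Q
  PR : ℕ → D → ℕ → Q
  fin : Finite Q → Finite D
  PF0 : ∀ m d, PF m d 0 = 1
  PR0 : ∀ m d, PR m d 0 = 1
  rel : ∀ m d k, 2 ≤ m → m ≤ K → k < m → (PF m d k)⁻¹ * PF m d (m - 1) * PF m (T m d) k =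
    PR m d k * (PR m (T m d) (m - 1) * (PR m (T m d) k)⁻¹)
  surj : ∀ m, 2 ≤ m → m ≤ K → ∀ f r : ℕ → Q, ∃ d, ∀ i, i + 1 < m →
    (PF m d i)⁻¹ * PF m d (i + 1) = f i ∧ PR m d (i + 1) * (PR m d i)⁻¹ = r i

def S_Trn : Prop := ∀ (Q : Type) [Group Q] (K : ℕ), Nonempty (Trn Q K)

def S_Ext : Prop := ∀ (ι : Type) [Fintype ι] [LinearOrder ι] (M : ι → ι → ℕ) (P : Pos ι)
  (e : P.X → P.Col → Bool) (π : Art M → P.X), Finite P.X → P.Bas M → P.Geo M (P.NX M) →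
  P.Eps e → P.IsPos M π → P.Ext M π

end Pool.Agent.P.MP_e794d7_al.Y
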