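import Pool.Agent.P.MP_e794d7_al.Y.MDef

/-! Panels, flags, gates and tokens. -/

set_option autoImplicit false

namespace Pool.Agent.P.MP_e794d7_al.Y

namespace Ctx

variable {ι Q : Type} [Group Q] {C : Ctx ι Q}

theorem Pn.ext' {p q : C.Pn} (hz : p.z = q.z) (ha : p.a = q.a) : p = q := by
  cases p; cases q; cases hz; cases ha; rfl

@[simp] theorem pan_a (y : C.P.X) (a : ι) : (C.pan y a).a = a := by
  unfold pan; split_ifs <;> rfl

theorem pan_z_false {y : C.P.X} {a : ι} (h : C.e y (C.P.col y a) = false) : (C.pan y a).z = y := by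
  unfold pan; rw [dif_pos h]

theorem pan_z_true {y : C.P.X} {a : ι} (h : C.e y (C.P.col y a) = true) :
    (C.pan y a).z = C.P.r a y := by
  unfold pan; rw [dif_neg (by simp [h])]

theorem pan_z (y : C.P.X) (a : ι) : (C.pan y a).z = y ∨ (C.pan y a).z = C.P.r a y := by
  cases h : C.e y (C.P.col y a)
  exacts [Or.inl (pan_z_false h), Or.inr (pan_z_true h)]

theorem pan_z' (y : C.P.X) (a : ι) : y = (C.pan y a).z ∨ y = C.P.r a (C.pan y a).z := by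
  rcases pan_z y a with h | h <;> rw [h]
  exacts [Or.inl rfl, Or.inr (C.hB.rr _ _).symm]

theorem pan_self (p : C.Pn) : C.pan p.z p.a = p := Pn.ext' (pan_z_false p.nrm) (pan_a _ _)

theorem pan_r (y : C.P.X) (a : ι) : C.pan (C.P.r a y) a = C.pan y a := by
  refine Pn.ext' ?_ (by simp)
  have h1 := Pos.Bas.e_r_col C.he a y
  cases h : C.e y (C.P.col y a)
  · rw [pan_z_false h, pan_z_true (by rw [C.hB.col_r, h1, h]; rfl), C.hB.rr]
  · rw [pan_z_true h, pan_z_false (by rw [C.hB.col_r, h1, h]; rfl)]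

theorem pan_eq_iff {y y' : C.P.X} {a a' : ι} :
    C.pan y' a' = C.pan y a ↔ a' = a ∧ (y' = y ∨ y' = C.P.r a y) := by
  constructor
  · intro h
    have ha : a' = a := by simpa using congrArg Pn.a h
    subst ha
    refine ⟨rfl, ?_⟩
    have hz := congrArg Pn.z h
    rcases pan_z y a' with h1 | h1 <;> rcases pan_z y' a' with h2 | h2 <;> rw [h1, h2] at hz
    · exact Or.inl hz
    · exact Or.inr (by rw [← hz, C.hB.rr])
    · exact Or.inr hz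
    · exact Or.inl (C.hB.r_inj _ hz)
  · rintro ⟨rfl, rfl | rfl⟩
    exacts [rfl, pan_r _ _]

theorem eq_pan_iff {p : C.Pn} {y : C.P.X} {a : ι} :
    p = C.pan y a ↔ p.a = a ∧ (p.z = y ∨ p.z = C.P.r a y) := by
  rw [← pan_eq_iff, pan_self]

theorem pc_pan (y : C.P.X) (a : ι) : C.pc (C.pan y a) = C.P.col y a := by
  rw [pc, pan_a]
  rcases pan_z y a with h | h <;> rw [h]
  exact C.hB.col_r _ _

theorem res_pan {a b g : ι} (hab : Adj C.M a b) (hg : g = a ∨ g = b) (y : C.P.X) :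
    C.P.Res y a b (C.pan y g).z := by
  rcases pan_z y g with h | h <;> rw [h]
  exacts [Pos.Res.refl _ _ _, C.hB.res_r hab hg y]

theorem thru_pan {a b : ι} (hab : Adj C.M a b) (y : C.P.X) {γ : C.P.Col} :
    C.P.Thru (C.pan y a).z a b γ ↔ C.P.Thru y a b γ :=
  (C.hB.thru_res hab (res_pan hab (Or.inl rfl) y)).symm

theorem ok_pan {a b : ι} {y : C.P.X} : C.Ok (C.pan y a, b) ↔ Adj C.M a b := by simp [Ok]

theorem at_pan {a b : ι} (hab : Adj C.M a b) (y : C.P.X) : C.At (C.pan y a, b) y a b :=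
  ⟨res_pan hab (Or.inl rfl) y, by simpa using Same.refl a b⟩

theorem at_self (φ : C.Fl) : C.At φ φ.1.z φ.1.a φ.2 := ⟨Pos.Res.refl _ _ _, Same.refl _ _⟩

theorem At.ok {φ : C.Fl} {y : C.P.X} {a b : ι} (h : C.At φ y a b) (hab : Adj C.M a b) : C.Ok φ :=
  C.hB.big.adj_same hab h.2

/-- change of the description of the vertex -/
theorem At.congr {φ : C.Fl} {y y' : C.P.X} {a b a' b' : ι} (h : C.At φ y a b) (hab : Adj C.M a b)
    (hr : C.P.Res y a b y') (hs : Same a b a' b') : C.At φ y' a' b' :=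
  ⟨C.hB.res_same hab hs (C.hB.res_trans hab (C.hB.res_symm hab hr) h.1), hs.symm.trans h.2⟩

theorem At.thru {φ : C.Fl} {y : C.P.X} {a b : ι} (h : C.At φ y a b) (hab : Adj C.M a b)
    {γ : C.P.Col} : C.P.Thru φ.1.z φ.1.a φ.2 γ ↔ C.P.Thru y a b γ := by
  rw [C.hB.thru_res hab h.1]
  exact ⟨C.hB.thru_same (h.ok hab) h.2.symm, C.hB.thru_same hab h.2⟩

theorem At.thru_pc {φ : C.Fl} {y : C.P.X} {a b : ι} (h : C.At φ y a b) (hab : Adj C.M a b) :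
    C.P.Thru y a b (C.pc φ.1) := (h.thru hab).1 (Pos.thru_col _ _ _)

theorem At.eq {φ ψ : C.Fl} {y : C.P.X} {a b : ι} (h : C.At φ y a b) (h' : C.At ψ y a b)
    (hab : Adj C.M a b) (e1 : ψ.1 = φ.1) : ψ = φ := by
  refine Prod.ext e1 ?_
  have h1 := h.2.symm.trans h'.2
  rw [e1] at h1
  rcases h1 with ⟨-, h2⟩ | ⟨h2, h3⟩
  · exact h2.symm
  · exact ((h.ok hab).1 h3.symm).elim

/-! ### flags along a walk -/

theorem wf_zero (y : C.P.X) (a b : ι) : C.wf y a b 0 = (C.pan y a, b) := by simp [wf]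

theorem wf_self (φ : C.Fl) : C.wf φ.1.z φ.1.a φ.2 0 = φ := by rw [wf_zero, pan_self]

theorem wf_add (y : C.P.X) (a b : ι) (j n : ℕ) :
    C.wf y a b (j + n) = C.wf (C.P.go y a b j) (el a b j) (el a b (j + 1)) n := by
  rw [wf, wf, ← Pos.go_add, el_el, el_el, add_assoc]

theorem wf_fst' (y : C.P.X) (a b : ι) (n : ℕ) :
    (C.wf y a b n).1 = C.pan (C.P.go y a b (n + 1)) (el a b n) := by
  rw [Pos.go_succ, pan_r]; rfl

theorem wf_z (y : C.P.X) (a b : ι) (n : ℕ) :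
    (C.wf y a b n).1.z = C.P.go y a b n ∨ (C.wf y a b n).1.z = C.P.go y a b (n + 1) :=
  pan_z _ _

@[simp] theorem wf_a (y : C.P.X) (a b : ι) (n : ℕ) : (C.wf y a b n).1.a = el a b n := pan_a _ _

@[simp] theorem wf_snd (y : C.P.X) (a b : ι) (n : ℕ) : (C.wf y a b n).2 = el a b (n + 1) := rfl

theorem pc_wf (y : C.P.X) (a b : ι) (n : ℕ) : C.pc (C.wf y a b n).1 = C.P.cc y a b n := pc_pan _ _

theorem at_wf {a b : ι} (y : C.P.X) (n : ℕ) : C.At (C.wf y a b n) y a b := by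
  refine ⟨?_, by simpa using same_el a b n⟩
  rcases wf_z y a b n with h | h <;> rw [h] <;> exact Pos.res_go _ _ _ _

theorem ok_wf {a b : ι} (hab : Adj C.M a b) (y : C.P.X) (n : ℕ) : C.Ok (C.wf y a b n) :=
  (at_wf y n).ok hab

theorem wf_per {a b : ι} (hab : Adj C.M a b) (y : C.P.X) (n : ℕ) :
    C.wf y a b (n + 2 * C.M a b) = C.wf y a b n := by
  rw [wf, wf, C.hB.go_per hab, el_add_two_mul, el_congr a b (n := n + 2 * C.M a b + 1) (n' := n + 1)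
    (by omega)]

theorem wf_rev {a b : ι} (hab : Adj C.M a b) (y : C.P.X) {n : ℕ} (hn : n < 2 * C.M a b) :
    C.wf y b a n = C.wf y a b (2 * C.M a b - 1 - n) := by
  refine Prod.ext ?_ ?_
  · rw [wf_fst' y a b, show 2 * C.M a b - 1 - n + 1 = 2 * C.M a b - n by omega,
      ← C.hB.go_rev hab y n hn.le, el_congr' a b (n' := n) (by omega)]
    rfl
  · rw [wf_snd, wf_snd]; exact el_congr' _ _ (by omega)

theorem At.idx {φ : C.Fl} {y : C.P.X} {a b : ι} (h : C.At φ y a b) (hab : Adj C.M a b) :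
    ∃ n, n < 2 * C.M a b ∧ φ = C.wf y a b n := by
  have hg : φ.1.a = a ∨ φ.1.a = b := by
    rcases h.2 with ⟨h1, -⟩ | ⟨-, h1⟩
    exacts [Or.inl h1.symm, Or.inr h1.symm]
  obtain ⟨n, hn, h1, h2⟩ := C.hB.panel_idx hab h.1 hg
  refine ⟨n, hn, (at_wf y n).eq h hab ?_⟩
  rw [wf, eq_pan_iff]
  exact ⟨h1, h2⟩

theorem el_ne {a b : ι} (hab : a ≠ b) {n n' : ℕ} (h : n % 2 ≠ n' % 2) : el a b n ≠ el a b n' := by
  rw [el_congr' a b h]
  rcases el_cases a b n' with ⟨h1, h2⟩ | ⟨h1, h2⟩ <;> rw [← el_succ, h1, h2]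
  exacts [hab.symm, hab]

theorem wf_inj {a b : ι} (hab : Adj C.M a b) (y : C.P.X) {n n' : ℕ} (hn : n < 2 * C.M a b)
    (hn' : n' < 2 * C.M a b) (h : (C.wf y a b n').1 = (C.wf y a b n).1) : n' = n := by
  obtain ⟨h1, h2 | h2⟩ := pan_eq_iff.1 h
  · exact C.hB.go_inj C.he hab y hn' hn h2
  · have h3 : n' % 2 = n % 2 := by
      by_contra h3
      exact el_ne hab.1 h3 h1
    rw [← Pos.go_succ, ← C.hB.go_mod hab y (n + 1)] at h2
    have h4 := C.hB.go_inj C.he hab y hn' (Nat.mod_lt _ (by omega)) h2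
    rcases Nat.lt_or_ge (n + 1) (2 * C.M a b) with h5 | h5
    · rw [Nat.mod_eq_of_lt h5] at h4; omega
    · rw [show n + 1 = 2 * C.M a b by omega, Nat.mod_self] at h4; omega

theorem op_pan {a b : ι} (hab : Adj C.M a b) (y : C.P.X) :
    C.op (C.pan y a, b) = C.wf y a b (C.M a b) := by
  have hm := C.hB.big.three a b hab
  simp only [op, pan_a, wf]
  rcases pan_z y a with h | h <;> rw [h]
  congr 1
  obtain ⟨k, hk⟩ : ∃ k, C.M a b = k + 1 := ⟨C.M a b - 1, by omega⟩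
  rw [C.hB.braid y a b hab, hk, Pos.go_succ', C.hB.rr, Pos.go_succ, el_succ, pan_r]

theorem op_wf {a b : ι} (hab : Adj C.M a b) (y : C.P.X) (n : ℕ) :
    C.op (C.wf y a b n) = C.wf y a b (n + C.M a b) := by
  rw [wf_add, ← C.hB.big.M_el a b n, ← op_pan (C.hB.big.adj_el hab n)]
  rfl

theorem op_eq {φ : C.Fl} (_h : C.Ok φ) : C.op φ = C.wf φ.1.z φ.1.a φ.2 (C.M φ.1.a φ.2) := rfl

theorem op_op {φ : C.Fl} (h : C.Ok φ) : C.op (C.op φ) = φ := by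
  rw [op_eq h, op_wf h, ← two_mul, ← zero_add (2 * _), wf_per h, wf_self]

theorem at_op (φ : C.Fl) : C.At (C.op φ) φ.1.z φ.1.a φ.2 := at_wf _ _

theorem ok_op {φ : C.Fl} (h : C.Ok φ) : C.Ok (C.op φ) := (at_op φ).ok h

theorem At.op {φ : C.Fl} {y : C.P.X} {a b : ι} (h : C.At φ y a b) (hab : Adj C.M a b) :
    C.At (C.op φ) y a b :=
  (at_op φ).congr (h.ok hab) (C.hB.res_same hab h.2 (C.hB.res_symm hab h.1)) h.2.symm

theorem pc_op {φ : C.Fl} (h : C.Ok φ) : C.pc (C.op φ).1 = C.pc φ.1 := by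
  rw [op_eq h, pc_wf, C.hB.per _ _ _ h, pc]

theorem op_ne {φ : C.Fl} (h : C.Ok φ) : (C.op φ).1 ≠ φ.1 := fun e1 => by
  have hm := C.hB.big.three _ _ h
  rw [op_eq h] at e1
  conv_rhs at e1 => rw [← wf_self φ]
  have := wf_inj h _ (by omega) (by omega) e1
  omega

theorem mem_tok {φ ψ : C.Fl} : ψ ∈ C.tok φ ↔ ψ = φ ∨ ψ = C.op φ := by simp [tok]

theorem self_mem_tok (φ : C.Fl) : φ ∈ C.tok φ := mem_tok.2 (Or.inl rfl)

theorem tok_op {φ : C.Fl} (h : C.Ok φ) : C.tok (C.op φ) = C.tok φ := by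
  rw [tok, op_op h, tok, Set.pair_comm]

theorem tok_of_mem {φ ψ : C.Fl} (h : C.Ok φ) (hm : ψ ∈ C.tok φ) : C.tok ψ = C.tok φ := by
  rcases mem_tok.1 hm with rfl | rfl
  exacts [rfl, tok_op h]

theorem mem_of_tok {φ ψ : C.Fl} (h : C.tok ψ = C.tok φ) : ψ ∈ C.tok φ := h ▸ self_mem_tok ψ

theorem ok_of_mem {φ ψ : C.Fl} (h : C.Ok φ) (hm : ψ ∈ C.tok φ) : C.Ok ψ := by
  rcases mem_tok.1 hm with rfl | rfl
  exacts [h, ok_op h]

theorem pc_of_mem {φ ψ : C.Fl} (h : C.Ok φ) (hm : ψ ∈ C.tok φ) : C.pc ψ.1 = C.pc φ.1 := by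
  rcases mem_tok.1 hm with rfl | rfl
  exacts [rfl, pc_op h]

theorem At.of_mem {φ ψ : C.Fl} {y : C.P.X} {a b : ι} (h : C.At φ y a b) (hab : Adj C.M a b)
    (hm : ψ ∈ C.tok φ) : C.At ψ y a b := by
  rcases mem_tok.1 hm with rfl | rfl
  exacts [h, h.op hab]

/-- two flags of one colour at one vertex belong to the same token -/
theorem At.mem_tok {φ ψ : C.Fl} {y : C.P.X} {a b : ι} (h : C.At φ y a b) (h' : C.At ψ y a b)
    (hab : Adj C.M a b) (e1 : C.pc ψ.1 = C.pc φ.1) : ψ ∈ C.tok φ := by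
  have hk := h.ok hab
  obtain ⟨n, hn, rfl⟩ := (h'.congr hab h.1 h.2).idx hk
  have hm := C.hB.big.three _ _ hk
  rw [pc_wf, pc, ← Pos.cc_zero φ.1.z φ.1.a φ.2, C.hB.cc_eq_iff hk, Nat.zero_mod] at e1
  rw [Ctx.mem_tok, op_eq hk]
  rcases Nat.lt_or_ge n (C.M φ.1.a φ.2) with h1 | h1
  · rw [Nat.mod_eq_of_lt h1] at e1
    rw [e1, wf_self]; exact Or.inl rfl
  · rw [Nat.mod_eq_sub_mod h1, Nat.mod_eq_of_lt (by omega)] at e1
    rw [show n = C.M φ.1.a φ.2 by omega]; exact Or.inr rfl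

/-! ### gates -/

theorem rep_mem (φ : C.Fl) : C.rep φ ∈ C.tok φ :=
  Classical.epsilon_spec (p := fun ψ => ψ ∈ C.tok φ) ⟨φ, self_mem_tok φ⟩

theorem gate_of_tok {φ ψ : C.Fl} (h : C.tok ψ = C.tok φ) : C.gate ψ = C.gate φ := by
  have : C.rep ψ = C.rep φ := by rw [rep, rep, h]
  rw [gate, gate, this]

theorem gate_op {φ : C.Fl} (h : C.Ok φ) : C.gate (C.op φ) = C.gate φ := gate_of_tok (tok_op h)

theorem gate_of_mem {φ ψ : C.Fl} (h : C.Ok φ) (hm : ψ ∈ C.tok φ) : C.gate ψ = C.gate φ :=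
  gate_of_tok (tok_of_mem h hm)

theorem mid_r {a b : ι} (hab : Adj C.M a b) {y : C.P.X} {σ : C.P.Col} (hd : C.P.Mid C.M y a b σ) :
    C.P.Mid C.M (C.P.r a y) a b σ := by
  obtain ⟨k, h1, h2, rfl⟩ := hd
  exact ⟨C.M a b - k, by omega, by omega, by
    rw [C.hB.cc_r hab y _ (by omega)]; congr 1; omega⟩

theorem mid_pan {a b : ι} (hab : Adj C.M a b) {y : C.P.X} {σ : C.P.Col} :
    C.P.Mid C.M (C.pan y a).z a b σ ↔ C.P.Mid C.M y a b σ := by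
  rcases pan_z y a with h | h <;> rw [h]
  exact ⟨fun h1 => by simpa only [C.hB.rr] using mid_r hab h1, mid_r hab⟩

theorem gate_mid {φ : C.Fl} (h : C.Ok φ) : C.P.Mid C.M φ.1.z φ.1.a φ.2 (C.gate φ) := by
  have hr := ok_of_mem h (rep_mem φ)
  have h0 : C.P.Mid C.M (C.rep φ).1.z (C.rep φ).1.a (C.rep φ).2 (C.gate φ) :=
    ⟨2, le_rfl, C.four _ _ hr, rfl⟩
  rcases mem_tok.1 (rep_mem φ) with h1 | h1 <;> rw [h1] at h0
  · exact h0
  · rw [op_eq h, wf_a, wf_snd, wf, mid_pan (C.hB.big.adj_el h _)] at h0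
    obtain ⟨k, h2, h3, h4⟩ := h0
    rw [C.hB.big.M_el] at h3
    exact ⟨k, h2, h3, by rw [h4, ← Pos.cc_add, add_comm, C.hB.cc_per h]⟩

theorem gate_mid_pan {a b : ι} (hab : Adj C.M a b) (y : C.P.X) :
    C.P.Mid C.M y a b (C.gate (C.pan y a, b)) := by
  have := gate_mid (ok_pan (y := y) |>.2 hab)
  simp only [pan_a] at this
  exact (mid_pan hab).1 this

theorem gate_thru {φ : C.Fl} (h : C.Ok φ) : C.P.Thru φ.1.z φ.1.a φ.2 (C.gate φ) := by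
  obtain ⟨k, -, -, h3⟩ := gate_mid h
  exact ⟨k, h3.symm⟩

theorem At.thru_gate {φ : C.Fl} {y : C.P.X} {a b : ι} (h : C.At φ y a b) (hab : Adj C.M a b) :
    C.P.Thru y a b (C.gate φ) := (h.thru hab).1 (gate_thru (h.ok hab))

theorem gate_ne_pc {φ : C.Fl} (h : C.Ok φ) : C.gate φ ≠ C.pc φ.1 := by
  obtain ⟨k, h1, h2, h3⟩ := gate_mid h
  rw [h3, pc, ← Pos.cc_zero φ.1.z φ.1.a φ.2]
  intro e1
  have := C.hB.inj _ _ _ _ _ h (by omega) (by omega) e1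
  omega

theorem e_pan_gate {a b : ι} (hab : Adj C.M a b) (y : C.P.X) :
    C.e (C.pan y a).z (C.gate (C.pan y a, b)) = C.e y (C.gate (C.pan y a, b)) := by
  rcases pan_z y a with h | h <;> rw [h]
  refine Pos.Bas.e_r_ne C.he fun e1 => gate_ne_pc (ok_pan (y := y) |>.2 hab) ?_
  rw [← e1, pc_pan]

theorem gate_sep {φ : C.Fl} (h : C.Ok φ) :
    C.e (C.op φ).1.z (C.gate φ) = !C.e φ.1.z (C.gate φ) := by
  obtain ⟨k, h1, h2, h3⟩ := gate_mid h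
  rw [h3, op_eq h]
  rcases wf_z φ.1.z φ.1.a φ.2 (C.M φ.1.a φ.2) with h4 | h4 <;> rw [h4] <;>
    exact C.hB.e_go_mid C.he h _ (by omega) (by omega) (by omega)

theorem not_same_of_ne {a b b' : ι} (hab : a ≠ b) (h : b ≠ b') : ¬ Same a b a b' := by
  rintro (⟨-, h1⟩ | ⟨-, h1⟩)
  exacts [h h1, hab h1.symm]

theorem gate_nx {p : C.Pn} {b b' : ι} (h : C.Ok (p, b)) (h' : C.Ok (p, b')) (hne : b ≠ b')
    {γ : C.P.Col} (ht : C.P.Thru p.z p.a b' γ) (hγ : γ ≠ C.pc p) :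
    C.P.NX C.M (C.gate (p, b)) γ :=
  C.gnx p.z p.a b b' _ γ h h' hne (gate_mid h) ht hγ

theorem gate_not_thru {p : C.Pn} {b b' : ι} (h : C.Ok (p, b)) (h' : C.Ok (p, b')) (hne : b ≠ b') :
    ¬ C.P.Thru p.z p.a b' (C.gate (p, b)) := fun ht =>
  (gate_nx h h' hne ht (gate_ne_pc h)).1 rfl

theorem gate_gate_nx {p : C.Pn} {b b' : ι} (h : C.Ok (p, b)) (h' : C.Ok (p, b')) (hne : b ≠ b') :
    C.P.NX C.M (C.gate (p, b)) (C.gate (p, b')) :=
  gate_nx h h' hne (gate_thru h') (gate_ne_pc h')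

/-! ### moves -/

theorem mv_gate {φ : C.Fl} (h : C.Ok φ) : C.mv (C.gate φ) φ.1 = (C.op φ).1 := by
  have h0 : ∃ b, C.Ok (φ.1, b) ∧ C.gate φ = C.gate (φ.1, b) := ⟨φ.2, h, rfl⟩
  rw [mv, dif_pos h0]
  obtain ⟨h1, h2⟩ := h0.choose_spec
  by_cases h3 : φ.2 = h0.choose
  · rw [← h3]
  · exact ((gate_gate_nx (p := φ.1) h h1 h3).1 h2).elim

theorem mv_ne {γ : C.P.Col} {p : C.Pn} (h : ∀ b, C.Ok (p, b) → γ ≠ C.gate (p, b)) :
    C.mv γ p = p := by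
  rw [mv, dif_neg]
  rintro ⟨b, h1, h2⟩
  exact h b h1 h2

theorem mv_cases (γ : C.P.Col) (p : C.Pn) : ((∀ b, C.Ok (p, b) → γ ≠ C.gate (p, b)) ∧ C.mv γ p = p) ∨
    ∃ b, C.Ok (p, b) ∧ γ = C.gate (p, b) ∧ C.mv γ p = (C.op (p, b)).1 := by
  by_cases h : ∀ b, C.Ok (p, b) → γ ≠ C.gate (p, b)
  · exact Or.inl ⟨h, mv_ne h⟩
  · push Not at h
    obtain ⟨b, h1, rfl⟩ := h
    exact Or.inr ⟨b, h1, rfl, mv_gate h1⟩

theorem mv_mv (γ : C.P.Col) (p : C.Pn) : C.mv γ (C.mv γ p) = p := by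
  rcases mv_cases γ p with ⟨-, h⟩ | ⟨b, h1, rfl, h2⟩
  · rw [h, h]
  · rw [h2, ← gate_op h1, mv_gate (ok_op h1), op_op h1]

theorem mv_eq_iff {γ : C.P.Col} {p q : C.Pn} : C.mv γ p = q ↔ p = C.mv γ q :=
  ⟨fun h => by rw [← h, mv_mv], fun h => by rw [h, mv_mv]⟩

theorem pc_mv (γ : C.P.Col) (p : C.Pn) : C.pc (C.mv γ p) = C.pc p := by
  rcases mv_cases γ p with ⟨-, h⟩ | ⟨b, h1, -, h2⟩
  · rw [h]
  · rw [h2, pc_op h1]

theorem mv_pc (p : C.Pn) : C.mv (C.pc p) p = p := mv_ne fun _ h => (gate_ne_pc h).symm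

theorem mv_pan (x : C.P.X) (a : ι) : C.mv (C.P.col x a) (C.pan x a) = C.pan x a := by
  rw [← pc_pan, mv_pc]

theorem mv_eq_pan {x : C.P.X} {a : ι} {q : C.Pn} :
    C.mv (C.P.col x a) q = C.pan x a ↔ q = C.pan x a := by rw [mv_eq_iff, mv_pan]

/-! ### matched tokens -/

theorem mt_op {φ : C.Fl} (h : C.Ok φ) {y : C.P.X} {q : C.Pn} :
    C.Mt y q (C.op φ) ↔ C.Mt y q φ := by
  rw [Mt, Mt, op_op h, gate_op h, or_comm]

theorem mt_of_mem {φ ψ : C.Fl} (h : C.Ok φ) (hm : ψ ∈ C.tok φ) {y : C.P.X} {q : C.Pn} :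
    C.Mt y q ψ ↔ C.Mt y q φ := by
  rcases mem_tok.1 hm with rfl | rfl
  exacts [Iff.rfl, mt_op h]

/-- the flag of the token at its present position -/
theorem Mt.flag {φ : C.Fl} {y : C.P.X} {q : C.Pn} (hm : C.Mt y q φ) : ∃ b, (q, b) ∈ C.tok φ := by
  rcases hm.1 with rfl | rfl
  exacts [⟨φ.2, self_mem_tok φ⟩, ⟨(C.op φ).2, mem_tok.2 (Or.inr rfl)⟩]

theorem Mt.pc {φ : C.Fl} (h : C.Ok φ) {y : C.P.X} {q : C.Pn} (hm : C.Mt y q φ) :
    C.pc q = C.pc φ.1 := by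
  obtain ⟨b, hb⟩ := hm.flag
  exact pc_of_mem h hb

theorem mt_self {φ : C.Fl} {y : C.P.X} (h : C.e y (C.gate φ) = C.e φ.1.z (C.gate φ)) :
    C.Mt y φ.1 φ := ⟨Or.inl rfl, h⟩

theorem Mt.eq {φ : C.Fl} (h : C.Ok φ) {y : C.P.X} {q : C.Pn} (hm : C.Mt y q φ)
    (he : C.e y (C.gate φ) = C.e φ.1.z (C.gate φ)) : q = φ.1 := by
  rcases hm with ⟨h1 | rfl, h2⟩
  · exact h1
  · rw [gate_sep h, he] at h2
    simp at h2

theorem mt_loc {a b : ι} (hab : Adj C.M a b) (y : C.P.X) :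
    C.Mt y (C.pan y a) (C.pan y a, b) := mt_self (φ := (C.pan y a, b)) (e_pan_gate hab y).symm

theorem Mt.hit {a b : ι} (hab : Adj C.M a b) {y : C.P.X} {q : C.Pn}
    (hm : C.Mt y q (C.pan y a, b)) : q = C.pan y a :=
  hm.eq (ok_pan.2 hab) (e_pan_gate hab y).symm

theorem mt_ex {φ : C.Fl} (h : C.Ok φ) (y : C.P.X) : ∃ q, C.Mt y q φ := by
  by_cases h1 : C.e y (C.gate φ) = C.e φ.1.z (C.gate φ)
  · exact ⟨_, mt_self h1⟩
  · refine ⟨_, Or.inr rfl, ?_⟩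
    rw [gate_sep h]
    revert h1
    cases C.e y (C.gate φ) <;> cases C.e φ.1.z (C.gate φ) <;> simp

/-- only the gates at the other vertices of the present panel destroy a matching -/
theorem Mt.step {φ : C.Fl} (h : C.Ok φ) {y : C.P.X} {q : C.Pn} (hm : C.Mt y q φ) {a : ι}
    (hγ : ∀ b0 b, (q, b0) ∈ C.tok φ → C.Ok (q, b) → b ≠ b0 → C.P.col y a ≠ C.gate (q, b)) :
    C.Mt (C.P.r a y) (C.mv (C.P.col y a) q) φ := by
  obtain ⟨b0, hb0⟩ := hm.flag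
  have hk := ok_of_mem h hb0
  rw [← mt_of_mem h hb0] at hm ⊢
  by_cases h1 : C.P.col y a = C.gate (q, b0)
  · rw [h1, mv_gate hk]
    refine ⟨Or.inr rfl, ?_⟩
    rw [gate_sep hk, ← hm.2, ← h1]
    exact Pos.Bas.e_r_col C.he a y
  · rw [mv_ne]
    · exact ⟨hm.1, by rw [Pos.Bas.e_r_ne C.he h1]; exact hm.2⟩
    · intro b hb
      by_cases h2 : b = b0
      · rw [h2]; exact h1
      · exact hγ b0 b hb0 hb h2

/-- a matching is kept when a colour through the vertex of the flag is crossed -/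
theorem Mt.cell {φ : C.Fl} (h : C.Ok φ) {y : C.P.X} {q : C.Pn} (hm : C.Mt y q φ) {a : ι}
    (ht : C.P.Thru φ.1.z φ.1.a φ.2 (C.P.col y a)) :
    C.Mt (C.P.r a y) (C.mv (C.P.col y a) q) φ := by
  refine hm.step h fun b0 b hb0 hb hne e1 => gate_not_thru hb (ok_of_mem h hb0) hne ?_
  rw [← e1]
  exact (((at_self φ).of_mem h hb0).thru h).2 ht

end Ctx

end Pool.Agent.P.MP_e794d7_al.Y
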