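import Pool.Agent.P.MP_e794d7_al.Y.WBas

/-! Distances and walls in the universal complex. -/

set_option autoImplicit false

namespace Pool.Agent.P.MP_e794d7_al.Y

variable {ι : Type} {M : ι → ι → ℕ} {U : Pos ι} {e : U.X → U.Col → Bool}

theorem bne_of {x y z : Bool} (h1 : x ≠ y) (h2 : z ≠ y) : x = z := by
  revert h1 h2
  cases x <;> cases y <;> cases z <;> simp

theorem dst_self (y : U.X) : dst e y y = 0 := by simp [dst]

theorem dst_comm (y D : U.X) : dst e y D = dst e D y := by simp only [dst, ne_comm]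

namespace Cx

variable (h : Cx M U e)
include h

theorem e_flip (w : U.X) (a : ι) : e (U.r a w) (U.col w a) ≠ e w (U.col w a) := by
  rw [Pos.Bas.e_r_col h.he]
  cases e w (U.col w a) <;> simp

theorem dst_tri (x y z : U.X) : dst e x z ≤ dst e x y + dst e y z := by
  refine le_trans (Set.ncard_le_ncard (t := {σ | e y σ ≠ e x σ} ∪ {σ | e z σ ≠ e y σ}) ?_
    ((h.fin x y).union (h.fin y z))) (Set.ncard_union_le _ _)
  intro σ hσ
  by_cases h1 : e y σ = e x σ
  · exact Or.inr (by rw [Set.mem_ofPred_eq, h1]; exact hσ)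
  · exact Or.inl h1

theorem dst_sep {y D : U.X} {a : ι} (ha : e D (U.col y a) ≠ e y (U.col y a)) :
    dst e (U.r a y) D + 1 = dst e y D := by
  have : {σ | e D σ ≠ e (U.r a y) σ} = {σ | e D σ ≠ e y σ} \ {U.col y a} := by
    ext σ
    by_cases h1 : U.col y a = σ
    · subst h1
      simp only [Set.mem_ofPred_eq, Set.mem_sdiff, Set.mem_singleton_iff, not_true, and_false,
        iff_false, not_not]
      exact bne_of ha (h.e_flip y a)
    · simp only [Set.mem_ofPred_eq, Set.mem_sdiff, Set.mem_singleton_iff,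
        Pos.Bas.e_r_ne h.he h1, Ne.symm h1, not_false_iff, and_true]
  rw [dst, dst, this]
  exact Set.ncard_sdiff_singleton_add_one ha (h.fin y D)

theorem dst_r (y : U.X) (a : ι) : dst e y (U.r a y) = 1 := by
  rw [← h.dst_sep (h.e_flip y a), dst_self]

theorem dst_r_le (y D : U.X) (a : ι) : dst e y (U.r a D) ≤ dst e y D + 1 := by
  rw [← h.dst_r D a]; exact h.dst_tri _ _ _

theorem dst_go (y : U.X) (a b : ι) : ∀ n, dst e y (U.go y a b n) ≤ n
  | 0 => (dst_self y).le
  | n + 1 => (h.dst_r_le _ _ _).trans (Nat.succ_le_succ (dst_go y a b n))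

theorem dst_res {y z : U.X} {a b : ι} (hab : Adj M a b) (hr : U.Res y a b z) :
    dst e y z ≤ M a b := by
  obtain ⟨n, hn, rfl⟩ := h.hB.res_lt hab hr
  rcases le_or_gt n (M a b) with h1 | h1
  · exact (h.dst_go y a b n).trans h1
  · have := h.hB.go_rev hab y (2 * M a b - n) (by omega)
    rw [show 2 * M a b - (2 * M a b - n) = n by omega] at this
    rw [← this]
    exact (h.dst_go y b a _).trans (by omega)

theorem eq_of_dst {y D : U.X} (h0 : dst e y D = 0) : y = D := by
  by_contra h1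
  obtain ⟨a, ha⟩ := h.geo y D h1
  have := h.dst_sep ha
  omega

/-- induction along geodesics that end at `D` -/
theorem ind_to (D : U.X) {p : U.X → Prop} (h0 : p D)
    (h1 : ∀ w a, e D (U.col w a) ≠ e w (U.col w a) → p (U.r a w) → p w) (w : U.X) : p w := by
  induction hn : dst e w D generalizing w with
  | zero => rw [h.eq_of_dst hn]; exact h0
  | succ n ih =>
    obtain ⟨a, ha⟩ := h.geo w D fun e1 => by rw [e1, dst_self] at hn; omega
    exact h1 w a ha (ih _ (by have := h.dst_sep ha; omega))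

theorem ind (D : U.X) {p : U.X → Prop} (h0 : p D) (h1 : ∀ w a, p w → p (U.r a w)) (w : U.X) :
    p w :=
  h.ind_to D h0 (fun w a _ hp => by simpa only [h.hB.rr] using h1 _ a hp) w

/-- the walls through a vertex seen from the chamber number `m + 1` -/
theorem e_op {y : U.X} {a b : ι} (hab : Adj M a b) {σ : U.Col} (ht : U.Thru y a b σ)
    (hσ : σ ≠ U.col y a) : e (U.go y a b (M a b + 1)) σ ≠ e y σ := by
  obtain ⟨n, hn, rfl⟩ := h.hB.thru_lt hab ht
  have h0 : n ≠ 0 := fun e1 => hσ (by rw [e1, Pos.cc_zero])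
  rw [h.hB.e_go_mid h.he hab y hn (by omega) (by omega)]
  cases e y (U.cc y a b n) <;> simp

theorem e_op' {y : U.X} {a b : ι} (hab : Adj M a b) {σ : U.Col}
    (hσ : ¬ U.Thru y a b σ ∨ σ = U.col y a) : e (U.go y a b (M a b + 1)) σ = e y σ := by
  rcases hσ with hσ | rfl
  · exact Pos.Bas.e_res h.he (Pos.res_go _ _ _ _) hσ
  · have hm := h.four a b hab
    have := h.hB.e_go_hi h.he hab y (j := 0) (n := M a b + 1) (by omega) (by omega) (by omega)
    rwa [Pos.cc_zero] at this

theorem e_M {y : U.X} {a b : ι} (hab : Adj M a b) {σ : U.Col} (ht : U.Thru y a b σ) :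
    e (U.go y a b (M a b)) σ ≠ e y σ := by
  obtain ⟨n, hn, rfl⟩ := h.hB.thru_lt hab ht
  rw [h.hB.e_go_mid h.he hab y hn (by omega) (by omega)]
  cases e y (U.cc y a b n) <;> simp

/-- walls are connected -/
theorem conn {y y' : U.X} {a a' : ι} (hc : U.col y a = U.col y' a')
    (hs : e y (U.col y a) = e y' (U.col y a)) : Rch M U e y' a' y a := by
  induction hn : dst e y y' using Nat.strong_induction_on generalizing y a with
  | _ n ih =>
  by_cases hy : y = y'
  · subst hy
    rw [h.hB.x2 _ _ _ hc]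
    exact .base
  obtain ⟨b, hb⟩ := h.geo y y' hy
  have hab0 : a ≠ b := fun e1 => hb (by rw [← e1, hs])
  have hne : U.col y' a' ≠ U.col y b := fun e1 => hab0 (h.hB.x2 _ _ _ (hc.trans e1))
  have hD : e (U.r a' y') (U.col y a) ≠ e y (U.col y a) := by
    rw [hs, hc]; exact h.e_flip _ _
  have hab : Adj M a b := ⟨hab0, fun e1 => by
    rcases h.nc3 y a b (U.r a' y') hab0 e1 with h1 | h1
    · exact hD h1
    · rw [Pos.Bas.e_r_ne h.he hne] at h1
      exact hb h1⟩
  have hm := h.four a b hab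
  have hl : U.cc y a b (M a b - 1) = U.col y b := h.hB.cc_last hab y
  have key : ∀ σ, U.Thru y a b σ → σ ≠ U.col y a → e y' σ ≠ e y σ := by
    intro σ ht hσ
    obtain ⟨z, hz, hp⟩ := h.prj (U.r a' y') y a b hab
    obtain ⟨k, hk, rfl⟩ := h.hB.res_lt hab hz
    have h1 := hp _ (Pos.thru_col y a b)
    have h2 := hp _ (h.hB.thru_col' hab y)
    rw [Pos.Bas.e_r_ne h.he hne] at h2
    have k1 : k ≤ M a b := by
      by_contra h3
      have := h.hB.e_go_hi h.he hab y (j := 0) (n := k) (by omega) (by omega) (by omega)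
      rw [Pos.cc_zero] at this
      exact hD (h1.trans this)
    have k2 : M a b ≤ k := by
      by_contra h3
      have := h.hB.e_go_le h.he hab y (j := M a b - 1) (n := k) (by omega) (by omega)
      rw [hl] at this
      exact hb (h2.trans this)
    have h3 := hp σ ht
    rw [Pos.Bas.e_r_ne h.he (by rw [← hc]; exact hσ.symm), le_antisymm k1 k2] at h3
    rw [h3]
    exact h.e_M hab ht
  refine .step y a b hab key (ih (dst e (U.go y a b (M a b + 1)) y') ?_
    ((h.hB.col_go_M' hab y).trans hc) ?_ rfl)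
  · rw [← hn]
    refine Set.ncard_lt_ncard ⟨fun σ hσ => ?_, fun hs1 => ?_⟩ (h.fin y y')
    · by_cases h1 : ¬ U.Thru y a b σ ∨ σ = U.col y a
      · rw [Set.mem_ofPred_eq, h.e_op' hab h1] at hσ
        exact hσ
      · push Not at h1
        exact key σ h1.1 h1.2
    · have h1 : U.col y b ≠ U.col y a := fun e1 => hab0 (h.hB.x2 _ _ _ e1).symm
      exact hs1 hb (bne_of hb (h.e_op hab (h.hB.thru_col' hab y) h1))
  · rw [h.hB.col_go_M' hab, h.e_op' hab (Or.inr rfl), hs]

omit h in
theorem rch_col (hB : U.Bas M) {y y' : U.X} {a a' : ι} (hr : Rch M U e y' a' y a) :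
    U.col y a = U.col y' a' := by
  induction hr with
  | base => rfl
  | step y a b hab _ _ ih => rw [← ih, hB.col_go_M' hab]

/-- after a step the walls of the vertex do not separate from the target -/
theorem rch_back {y y' : U.X} {a b : ι} (hab : Adj M a b)
    (hs : ∀ σ, U.Thru y a b σ → σ ≠ U.col y a → e y' σ ≠ e y σ) {σ : U.Col}
    (ht : U.Thru y a b σ) (hσ : σ ≠ U.col y a) : e y' σ = e (U.go y a b (M a b + 1)) σ :=
  bne_of (hs σ ht hσ) (h.e_op hab ht hσ)

/-- chambers that touch a wall lie on one side of a wall that does not meet it -/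
theorem side {y y' : U.X} {a a' : ι} {σ : U.Col} (hn : U.NX M σ (U.col y a))
    (hc : U.col y' a' = U.col y a) : e y' σ = e y σ := by
  have key : ∀ y' a', Rch M U e y a y' a' → e y' σ = e y σ := by
    intro y' a' hr
    induction hr with
    | base => rfl
    | step y' a' b hab _ hr ih =>
      rw [← ih, h.e_op' hab (Or.inl fun ht => hn.2 y' a' b hab ht ?_)]
      rw [← rch_col h.hB hr, h.hB.col_go_M' hab]
      exact Pos.thru_col _ _ _
  by_cases h1 : e y' (U.col y' a') = e y (U.col y' a')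
  · exact key _ _ (h.conn hc h1)
  · rw [← Pos.Bas.e_r_ne h.he (a := a') (x := y') (by rw [hc]; exact hn.1.symm)]
    refine key _ a' (h.conn (by rw [h.hB.col_r, hc]) ?_)
    rw [h.hB.col_r]
    exact bne_of (h.e_flip y' a') (Ne.symm h1)

/-- two walls through a vertex have four quadrants -/
theorem quad {x : U.X} {a b : ι} (hab : Adj M a b) {σ τ : U.Col} (h1 : U.Thru x a b σ)
    (h2 : U.Thru x a b τ) (hne : σ ≠ τ) (p q : Bool) :
    ∃ z g, U.Res x a b z ∧ (g = a ∨ g = b) ∧ U.col z g = σ ∧ e z σ = p ∧ e z τ = q := by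
  obtain ⟨n, rfl⟩ := h1
  have hp := Pos.pl_go x a b n
  have hab' := h.hB.pl_adj hab hp
  have h3 := (h.hB.pl_thru hab hp).2 h2
  have key : ∃ z g, U.Res x a b z ∧ U.Thru x a b (U.col z g) ∧ (g = a ∨ g = b) ∧
      U.col z g = U.cc x a b n ∧ e z τ = q := by
    by_cases h4 : e (U.go x a b n) τ = q
    · exact ⟨_, _, hp.1, ⟨n, rfl⟩, el_mem _ _ _, rfl, h4⟩
    · have hq := h.hB.pl_trans hab hp (Pos.pl_go _ _ _ (M (el a b n) (el a b (n + 1))))
      refine ⟨_, _, hq.1, h.hB.pl_col hab hq, ?_, h.hB.col_go_M hab' _,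
        bne_of (h.e_M hab' h3) (Ne.symm h4)⟩
      rw [el_el]; exact el_mem _ _ _
  obtain ⟨z, g, k1, k2, k3, k4, k5⟩ := key
  by_cases h4 : e z (U.cc x a b n) = p
  · exact ⟨z, g, k1, k3, k4, h4, k5⟩
  · refine ⟨U.r g z, g, h.hB.res_trans hab k1 (h.hB.res_r hab k3 z), k3,
      by rw [h.hB.col_r, k4], ?_,
      by rw [Pos.Bas.e_r_ne h.he (by rw [k4]; exact hne), k5]⟩
    rw [← k4] at h4 ⊢
    exact bne_of (h.e_flip z g) (Ne.symm h4)

theorem nx_of {y u u' : U.X} {g g' : ι}
    (hd : ∀ D, e D (U.col u g) = e y (U.col u g) ∨ e D (U.col u' g') = e y (U.col u' g')) :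
    U.NX M (U.col u g) (U.col u' g') := by
  have hne : U.col u g ≠ U.col u' g' := fun e1 => by
    rw [← e1] at hd
    exact h.e_flip u g (((hd _).elim id id).trans ((hd _).elim id id).symm)
  refine ⟨hne, fun x a b hab h1 h2 => ?_⟩
  obtain ⟨z, -, -, -, -, h3, h4⟩ := h.quad hab h1 h2 hne (!e y (U.col u g)) (!e y (U.col u' g'))
  rcases hd z with h5 | h5
  · rw [h5] at h3; simp at h3
  · rw [h5] at h4; simp at h4

theorem k0 (y : U.X) {a b b' : ι} {n n' : ℕ} (hn : NC M a b b' n n') :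
    U.NX M (U.cc y a b n) (U.cc y a b' n') := h.nx_of fun D => h.nc1 y a b b' n n' D hn

theorem k0' (y : U.X) {a b : ι} (hab : a ≠ b) (h0 : M a b = 0) :
    U.NX M (U.col y a) (U.col y b) := h.nx_of fun D => h.nc3 y a b D hab h0

/-- two walls that do not meet have an empty quadrant -/
theorem empty_quad {u u' : U.X} {g g' : ι} (hn : U.NX M (U.col u g) (U.col u' g')) :
    ∃ w w', (w = u ∨ w = U.r g u) ∧ (w' = u' ∨ w' = U.r g' u') ∧
      e w (U.col u' g') = e w' (U.col u' g') ∧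
      ∀ D, e D (U.col u g) = e w (U.col u g) ∨ e D (U.col u' g') = e w' (U.col u' g') := by
  have ex : ∀ (u : U.X) (g : ι) (v : U.X), ∃ w, (w = u ∨ w = U.r g u) ∧
      e w (U.col u g) = e v (U.col u g) := by
    intro u g v
    by_cases h1 : e u (U.col u g) = e v (U.col u g)
    · exact ⟨u, Or.inl rfl, h1⟩
    · exact ⟨_, Or.inr rfl, bne_of (h.e_flip u g) (Ne.symm h1)⟩
  obtain ⟨w, hw, h1⟩ := ex u g u'
  obtain ⟨w', hw', h2⟩ := ex u' g' u
  have hc : U.col w g = U.col u g := by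
    rcases hw with rfl | rfl
    exacts [rfl, h.hB.col_r _ _]
  refine ⟨w, w', hw, hw', by rw [h2]; exact h.side hn.symm hc, fun D => ?_⟩
  refine h.ind_to w (p := fun D => e D (U.col u g) = e w (U.col u g) ∨
    e D (U.col u' g') = e w' (U.col u' g')) (Or.inl rfl) (fun D a _ ih => ?_) D
  by_cases k1 : U.col D a = U.col u g
  · exact Or.inr (by rw [h2]; exact h.side hn.symm k1)
  by_cases k2 : U.col D a = U.col u' g'
  · exact Or.inl (by rw [h1]; exact h.side hn k2)
  rwa [Pos.Bas.e_r_ne h.he k1, Pos.Bas.e_r_ne h.he k2] at ih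

theorem aut_e (α : Aut U) (w w' : U.X) (σ : U.Col) :
    e (α.f w) (α.t σ) = e (α.f w') (α.t σ) ↔ e w σ = e w' σ := by
  refine h.ind w' (p := fun w => e (α.f w) (α.t σ) = e (α.f w') (α.t σ) ↔ e w σ = e w' σ)
    (by simp) (fun w a ih => ?_) w
  rw [α.f_r]
  by_cases h1 : U.col w a = σ
  · subst h1
    rw [α.t_col] at ih ⊢
    rw [Pos.Bas.e_r_col h.he, Pos.Bas.e_r_col h.he]
    revert ih
    cases e (α.f w) (U.col (α.f w) a) <;> cases e (α.f w') (U.col (α.f w) a) <;>
      cases e w (U.col w a) <;> cases e w' (U.col w a) <;> simp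
  · rw [Pos.Bas.e_r_ne h.he h1, Pos.Bas.e_r_ne h.he (by rw [← α.t_col]; exact α.t.injective.ne h1)]
    exact ih

/-- a middle wall meets no wall through another vertex of the panel -/
theorem mid_nx {y : U.X} {a b b' : ι} (hab : Adj M a b) (hab' : Adj M a b') (hne : b ≠ b')
    {σ γ : U.Col} (hσ : U.Mid M y a b σ) (hγ : U.Thru y a b' γ) (h1 : γ ≠ U.col y a) :
    U.NX M σ γ := by
  obtain ⟨k, k1, k2, rfl⟩ := hσ
  obtain ⟨n, hn, rfl⟩ := h.hB.thru_lt hab' hγ
  have h0 : n ≠ 0 := fun e1 => h1 (by rw [e1, Pos.cc_zero])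
  exact h.k0 y ⟨hab, hab', hne, by omega, by omega, by omega, hn, by omega, by omega⟩

/-- the far sides of a middle wall and of a wall through another vertex of the panel -/
theorem mid_far {y : U.X} {a b b' : ι} (hab : Adj M a b) (hab' : Adj M a b') (hne : b ≠ b')
    {σ γ : U.Col} (hσ : U.Mid M y a b σ) (hγ : U.Thru y a b' γ) (h1 : γ ≠ U.col y a) (D : U.X) :
    e D σ = e y σ ∨ e D γ = e y γ := by
  obtain ⟨k, k1, k2, rfl⟩ := hσ
  obtain ⟨n, hn, rfl⟩ := h.hB.thru_lt hab' hγ
  have h0 : n ≠ 0 := fun e1 => h1 (by rw [e1, Pos.cc_zero])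
  exact h.nc1 y a b b' _ _ D ⟨hab, hab', hne, by omega, by omega, by omega, hn, by omega, by omega⟩

end Cx

end Pool.Agent.P.MP_e794d7_al.Y
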