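import Pool.Agent.P.MP_e794d7_al.Y.WB0

/-! Heights, and positions at a vertex. -/

set_option autoImplicit false

namespace Pool.Agent.P.MP_e794d7_al.Y

namespace Wb

variable {ι : Type} {M : ι → ι → ℕ} {K : ℕ} {T : Type} {D : Wb M K T} {l : D.Wl}

theorem Lat.both {σ : D.U.Col} (h : D.Lat l σ) (p q : Bool) :
    ∃ y s, D.U.col y s = l.1 ∧ D.e y l.1 = p ∧ D.e y σ = q := by
  obtain ⟨h1, x, a, b, hab, h2, h3⟩ := h
  obtain ⟨z, g, -, -, k⟩ := D.cx.quad hab h2 h3 h1.symm p q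
  exact ⟨z, g, k⟩

theorem low_l (w : D.U.X) : D.Low l l.1 w := by
  obtain ⟨y, s, h⟩ := ex_tch l
  by_cases h1 : D.e y l.1 = D.e w l.1
  · refine ⟨D.U.r s y, ⟨s, by rw [D.hB.col_r, h]⟩, ?_⟩
    rw [← h1, ← h]
    exact D.cx.e_flip y s
  · exact ⟨y, ⟨s, h⟩, h1⟩

theorem Lat.low {σ : D.U.Col} (h : D.Lat l σ) (w : D.U.X) : D.Low l σ w := by
  obtain ⟨y, s, h1, -, h2⟩ := h.both true (!D.e w σ)
  exact ⟨y, ⟨s, h1⟩, by rw [h2]; cases D.e w σ <;> simp⟩

theorem Sep.ne {σ : D.U.Col} {w : D.U.X} (h : D.Sep l σ w) : σ ≠ l.1 := by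
  rintro rfl
  obtain ⟨y, s, h1⟩ := ex_tch l
  have h2 := bne_of (h (D.U.r s y) ⟨s, by rw [D.hB.col_r, h1]⟩) (h y ⟨s, h1⟩)
  rw [← h1] at h2
  exact D.cx.e_flip y s h2

theorem Sep.not_lat {σ : D.U.Col} {w : D.U.X} (h : D.Sep l σ w) : ¬ D.Lat l σ := fun h1 => by
  obtain ⟨y, s, h2, -, h3⟩ := h1.both true (D.e w σ)
  exact h y ⟨s, h2⟩ h3

theorem nx_l {σ : D.U.Col} (h1 : σ ≠ l.1) (h2 : ¬ D.Lat l σ) : D.U.NX M σ l.1 :=
  ⟨h1, fun x a b hab k1 k2 => h2 ⟨h1, x, a, b, hab, k2, k1⟩⟩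

theorem not_lat_of_nx {σ : D.U.Col} (h : D.U.NX M σ l.1) : ¬ D.Lat l σ := by
  rintro ⟨-, x, a, b, hab, k1, k2⟩
  exact h.2 x a b hab k2 k1

theorem Low.sep {σ : D.U.Col} {w : D.U.X} (h : D.Low l σ w) (h1 : σ ≠ l.1) (h2 : ¬ D.Lat l σ) :
    D.Sep l σ w := by
  obtain ⟨y, ⟨s, hs⟩, h3⟩ := h
  rintro y' ⟨s', hs'⟩
  rw [D.cx.side (y := y) (a := s) (by rw [hs]; exact nx_l h1 h2) (hs'.trans hs.symm)]
  exact h3

theorem low_iff {σ : D.U.Col} {w : D.U.X} :
    D.Low l σ w ↔ σ = l.1 ∨ D.Lat l σ ∨ D.Sep l σ w := by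
  constructor
  · intro h
    by_cases h1 : σ = l.1
    · exact Or.inl h1
    by_cases h2 : D.Lat l σ
    · exact Or.inr (Or.inl h2)
    exact Or.inr (Or.inr (h.sep h1 h2))
  · rintro (rfl | h | h)
    exacts [low_l w, h.low w, h.low]

theorem four_cases (w : D.U.X) (a : ι) :
    D.U.col w a = l.1 ∨ D.La l w a ∨ D.Dn l w a ∨ D.Up l w a := by
  by_cases h : D.Up l w a
  · exact Or.inr (Or.inr (Or.inr h))
  · rcases low_iff.1 (not_not.1 h) with h1 | h1 | h1
    exacts [Or.inl h1, Or.inr (Or.inl h1), Or.inr (Or.inr (Or.inl h1))]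

theorem Up.ne {w : D.U.X} {a : ι} (h : D.Up l w a) : D.U.col w a ≠ l.1 := fun e =>
  h (e ▸ low_l w)

theorem Up.not_la {w : D.U.X} {a : ι} (h : D.Up l w a) : ¬ D.La l w a := fun e => h (e.low w)

theorem Dn.not_la {w : D.U.X} {a : ι} (h : D.Dn l w a) : ¬ D.La l w a := Sep.not_lat h

/-- the vertices of a panel that is not lateral are not on `l` -/
theorem off_of_not_la {w : D.U.X} {a b : ι} (hab : Adj M a b) (h1 : D.U.col w a ≠ l.1)
    (h2 : ¬ D.La l w a) : D.Off l w a b :=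
  ⟨hab, fun ht => h2 ⟨h1, w, a, b, hab, ht, Pos.thru_col _ _ _⟩⟩

theorem Up.off {w : D.U.X} {a b : ι} (h : D.Up l w a) (hab : Adj M a b) : D.Off l w a b :=
  off_of_not_la hab h.ne h.not_la

theorem Dn.off {w : D.U.X} {a b : ι} (h : D.Dn l w a) (hab : Adj M a b) : D.Off l w a b :=
  off_of_not_la hab (Sep.ne h) h.not_la

theorem Off.ne {w : D.U.X} {a b : ι} (h : D.Off l w a b) {σ : D.U.Col} (ht : D.U.Thru w a b σ) :
    σ ≠ l.1 := fun e => h.2 (e ▸ ht)

theorem Off.swap {w : D.U.X} {a b : ι} (h : D.Off l w a b) : D.Off l w b a :=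
  h.pl (Pos.Pl.swap _ _ _)

theorem k1 (y : D.U.X) {a b b' : ι} {n n' : ℕ} (hn : NC M a b b' n n')
    (h : D.Sep l (D.U.cc y a b n) y) : ¬ D.Low l (D.U.cc y a b' n') y := by
  rintro ⟨z, hz, h1⟩
  exact (D.cx.nc1 y a b b' n n' z hn).elim (h z hz) h1

theorem k3 {y : D.U.X} {a b : ι} (hab : a ≠ b) (h0 : M a b = 0) (h : D.Dn l y a) :
    D.Up l y b := by
  rintro ⟨z, hz, h1⟩
  exact (D.cx.nc3 y a b z hab h0).elim (h z hz) h1

/-- a lateral letter at a chamber that touches `l` gives an edge of the chain -/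
theorem che_of_tch {y : D.U.X} {a : ι} (h : D.Tch l y) (ha : D.La l y a) :
    D.U.ChE M l.1 y a := by
  obtain ⟨s, hs⟩ := h
  have h1 : a ≠ s := fun e => ha.1 (by rw [e, hs])
  have h2 : Adj M a s := ⟨h1, fun e => not_lat_of_nx (hs ▸ D.cx.k0' y h1 e) ha⟩
  exact ⟨ha.1, s, h2, hs ▸ D.hB.thru_col' h2 y⟩

/-! ### heights -/

theorem sep_fin (w : D.U.X) : {σ | D.Sep l σ w}.Finite := by
  obtain ⟨y, hy⟩ := ex_tch l
  exact (D.cx.fin w y).subset fun σ hσ => hσ y hy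

theorem ht_dn {w : D.U.X} {a : ι} (h : D.Dn l w a) : D.ht l (D.U.r a w) + 1 = D.ht l w := by
  have : {σ | D.Sep l σ (D.U.r a w)} = {σ | D.Sep l σ w} \ {D.U.col w a} := by
    ext σ
    by_cases h1 : D.U.col w a = σ
    · subst h1
      simp only [Set.mem_ofPred_eq, Set.mem_sdiff, Set.mem_singleton_iff, not_true, and_false,
        iff_false]
      rw [sep_flip (e_r_ne' w a), not_not]
      exact h.low
    · simp only [Set.mem_ofPred_eq, Set.mem_sdiff, Set.mem_singleton_iff, sep_r h1, Ne.symm h1,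
        not_false_iff, and_true]
  rw [ht, ht, this]
  exact Set.ncard_sdiff_singleton_add_one h (sep_fin w)

theorem ht_up {w : D.U.X} {a : ι} (h : D.Up l w a) : D.ht l (D.U.r a w) = D.ht l w + 1 := by
  rw [← ht_dn (dn_r.2 h), D.hB.rr]

theorem ht_congr {w w' : D.U.X} (h : ∀ σ, σ ≠ l.1 → ¬ D.Lat l σ → D.e w σ = D.e w' σ) :
    D.ht l w = D.ht l w' := by
  rw [ht, ht]
  congr 1
  ext σ
  exact ⟨fun h1 => (sep_congr (h σ h1.ne h1.not_lat)).1 h1,
    fun h1 => (sep_congr (h σ h1.ne h1.not_lat)).2 h1⟩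

theorem ht_la {w : D.U.X} {a : ι} (h : D.La l w a ∨ D.U.col w a = l.1) :
    D.ht l (D.U.r a w) = D.ht l w :=
  ht_congr fun _ h1 h2 => Pos.Bas.e_r_ne D.he fun e => by
    subst e
    exact h.elim h2 h1

theorem ht_r_le (w : D.U.X) (a : ι) : D.ht l (D.U.r a w) ≤ D.ht l w + 1 := by
  rcases four_cases (l := l) w a with h | h | h | h
  · rw [ht_la (Or.inr h)]; omega
  · rw [ht_la (Or.inl h)]; omega
  · have := ht_dn h; omega
  · rw [ht_up h]

theorem ht_le_r (w : D.U.X) (a : ι) : D.ht l w ≤ D.ht l (D.U.r a w) + 1 := by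
  have := ht_r_le (l := l) (D.U.r a w) a
  rwa [D.hB.rr] at this

theorem ht_dst (w w' : D.U.X) : D.ht l w ≤ D.ht l w' + dst D.e w w' := by
  refine D.cx.ind_to w' (p := fun w => D.ht l w ≤ D.ht l w' + dst D.e w w') (by omega)
    (fun w a ha ih => ?_) w
  have h1 := D.cx.dst_sep ha
  have h2 := ht_le_r (l := l) w a
  omega

theorem ht_res {y z : D.U.X} {a b : ι} (hab : Adj M a b) (h : D.U.Res y a b z) :
    D.ht l y ≤ D.ht l z + K := by
  have h1 := ht_dst (l := l) y z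
  have h2 := D.cx.dst_res hab h
  have h3 := D.hK a b
  omega

theorem ht_res' {y z : D.U.X} {a b : ι} (hab : Adj M a b) (h : D.U.Res y a b z) :
    D.ht l z ≤ D.ht l y + K := ht_res hab (D.hB.res_symm hab h)

theorem ht_zero {w : D.U.X} : D.ht l w = 0 ↔ ∀ σ, ¬ D.Sep l σ w := by
  rw [ht, Set.ncard_eq_zero (sep_fin w), Set.eq_empty_iff_forall_notMem]
  rfl

theorem Tch.ht {w : D.U.X} (h : D.Tch l w) : D.ht l w = 0 :=
  ht_zero.2 fun _ h1 => h1 w h rfl

theorem ht_thru {w : D.U.X} {a b : ι} (hab : Adj M a b) (h : D.U.Thru w a b l.1) :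
    D.ht l w = 0 := by
  obtain ⟨n, hn⟩ := h
  rw [← Tch.ht (l := l) (w := D.U.go w a b n) ⟨_, hn⟩]
  exact ht_congr fun σ h1 h2 => (Pos.Bas.e_res D.he (Pos.res_go _ _ _ _) fun ht =>
    h2 ⟨h1, w, a, b, hab, ⟨n, hn⟩, ht⟩).symm

theorem ht_che {w : D.U.X} {a : ι} (h : D.U.ChE M l.1 w a) : D.ht l w = 0 := by
  obtain ⟨-, b, hab, ht⟩ := h
  exact ht_thru hab ht

theorem off_of_ht {w : D.U.X} {a b : ι} (hab : Adj M a b) (h : 0 < D.ht l w) : D.Off l w a b :=
  ⟨hab, fun ht => by have := ht_thru hab ht; omega⟩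

theorem bot_of_ht {w : D.U.X} (h : D.ht l w = 0) (a b : ι) : D.Bot l w a b :=
  fun σ _ => ht_zero.1 h σ

/-- the lowest chambers of a vertex have the same height -/
theorem bot_ht {y z : D.U.X} {a b : ι} (hab : Adj M a b) (hr : D.U.Res y a b z)
    (hy : D.Bot l y a b) (hz : D.Bot l z a b) : D.ht l y = D.ht l z := by
  refine ht_congr fun σ h1 h2 => ?_
  by_cases ht : D.U.Thru y a b σ
  · by_contra h3
    refine hy σ ht ((sep_flip h3).2 fun h4 => ?_)
    exact hz σ ((D.hB.thru_res hab hr).1 ht) (h4.sep h1 h2)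
  · exact (Pos.Bas.e_res D.he hr ht).symm

theorem bot_le {y z : D.U.X} {a b : ι} (hr : D.U.Res y a b z)
    (hy : D.Bot l y a b) : D.ht l y ≤ D.ht l z :=
  Set.ncard_le_ncard (fun σ hσ => (sep_congr (Pos.Bas.e_res D.he hr fun ht => hy σ ht hσ)).2 hσ)
    (sep_fin z)

/-! ### positions -/

namespace Ps

variable {F : D.U.X} {c a : ι} {j k : ℕ} (h : D.Ps l F c a j k)
include h

theorem adj : Adj M c a := h.off.1

theorem low {n : ℕ} (hn : n < M c a) : D.Low l (D.U.cc F c a n) F ↔ n < j + k := by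
  rw [low_iff, h.sep n hn, h.lat n hn]
  have := h.off.ne ⟨n, rfl⟩
  simp only [this, false_or]
  omega

theorem uniq {j' k' : ℕ} (h' : D.Ps l F c a j' k') : j = j' ∧ k = k' := by
  have h1 := h.le
  have h2 := h'.le
  have a1 : ∀ n, n < M c a → (n < j ↔ n < j') := fun n hn => (h.sep n hn).symm.trans (h'.sep n hn)
  have a2 : ∀ n, n < M c a → (n < j + k ↔ n < j' + k') := fun n hn =>
    (h.low hn).symm.trans (h'.low hn)
  have b1 := a1 j
  have b2 := a1 j'
  have b3 := a2 (j + k)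
  have b4 := a2 (j' + k')
  omega

theorem dn : D.Dn l F c ↔ 1 ≤ j := by
  have := h.sep 0 (Nat.pos_of_ne_zero h.adj.2)
  rwa [Pos.cc_zero] at this

theorem la : D.La l F c ↔ j = 0 ∧ 1 ≤ k := by
  have := h.lat 0 (Nat.pos_of_ne_zero h.adj.2)
  rw [Pos.cc_zero] at this
  rw [La, this]; omega

theorem up : D.Up l F c ↔ j + k = 0 := by
  have := h.low (Nat.pos_of_ne_zero h.adj.2)
  rw [Pos.cc_zero] at this
  rw [Up, this]; omega

theorem dn' : D.Dn l F a ↔ j = M c a := by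
  have hm := D.cx.four _ _ h.adj
  have := h.sep (M c a - 1) (by omega)
  have h1 := h.le
  rw [D.hB.cc_last h.adj] at this
  rw [Dn, this]; omega

theorem la' : D.La l F a ↔ j + k = M c a ∧ 1 ≤ k := by
  have hm := D.cx.four _ _ h.adj
  have := h.lat (M c a - 1) (by omega)
  have h1 := h.le
  rw [D.hB.cc_last h.adj] at this
  rw [La, this]; omega

theorem up' : D.Up l F a ↔ j + k < M c a := by
  have hm := D.cx.four _ _ h.adj
  have := h.low (n := M c a - 1) (by omega)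
  have h1 := h.le
  rw [D.hB.cc_last h.adj] at this
  rw [Up, this]; omega

theorem bot : D.Bot l F c a ↔ j = 0 := by
  constructor
  · intro hb
    by_contra h1
    exact hb _ (Pos.thru_col _ _ _) (h.dn.2 (by omega))
  · intro h0 σ ht
    obtain ⟨n, hn, rfl⟩ := D.hB.thru_lt h.adj ht
    rw [h.sep n hn]; omega

theorem top : D.Top l F c a ↔ j + k = M c a := by
  constructor
  · intro hb
    by_contra h1
    exact h.up'.2 (lt_of_le_of_ne h.le h1) (hb _ (D.hB.thru_col' h.adj F))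
  · intro h0 σ ht
    obtain ⟨n, hn, rfl⟩ := D.hB.thru_lt h.adj ht
    rw [h.low hn]; omega

theorem cc_ne {n : ℕ} (h1 : 1 ≤ n) (hn : n < M c a) : D.U.col F c ≠ D.U.cc F c a n := fun e => by
  rw [← Pos.cc_zero F c a] at e
  have := D.hB.inj F c a _ _ h.adj (by omega) hn e
  omega

/-- one step down -/
theorem down (hj : 1 ≤ j) : D.Ps l (D.U.r c F) a c (j - 1) k := by
  have hm := D.hB.big.symm a c
  have h1 := h.le
  have key : ∀ n, n < M a c → n + 1 < M c a ∨ D.U.cc (D.U.r c F) a c n = D.U.col F c ∧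
      n + 1 = M c a := fun n hn => by
    rcases Nat.lt_or_ge (n + 1) (M c a) with h2 | h2
    · exact Or.inl h2
    · exact Or.inr ⟨by rw [← Pos.cc_succ', show n + 1 = M c a by omega, D.hB.per _ _ _ h.adj],
        by omega⟩
  refine ⟨h.off.pl (D.hB.pl_swap' h.adj (Pos.pl_r _ _ _)), by omega, fun n hn => ?_,
    fun n hn => ?_⟩
  · rcases key n hn with h2 | ⟨h2, h3⟩
    · rw [← Pos.cc_succ', sep_r (h.cc_ne (by omega) h2), h.sep _ h2]; omega
    · rw [h2, sep_flip (e_r_ne' F c)]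
      exact ⟨fun h4 => (h4 (h.dn.2 hj).low).elim, fun h4 => by omega⟩
  · rcases key n hn with h2 | ⟨h2, h3⟩
    · rw [← Pos.cc_succ', h.lat _ h2]; omega
    · rw [h2]
      exact ⟨fun h4 => ((h.dn.2 hj).not_la h4).elim, fun h4 => by omega⟩

/-- one step up -/
theorem upw (hj : j + k < M c a) : D.Ps l (D.U.r a F) a c (j + 1) k := by
  have hm := D.hB.big.symm a c
  have ha := D.hB.big.adj_symm h.adj
  have hu := h.up'.2 hj
  have e0 : ∀ n, D.U.cc (D.U.r a F) a c (n + 1) = D.U.cc F c a n := fun n => by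
    rw [Pos.cc_succ', D.hB.rr]
  have e1 : D.U.cc (D.U.r a F) a c 0 = D.U.col F a := by rw [Pos.cc_zero, D.hB.col_r]
  refine ⟨h.off.swap.pl (Pos.pl_r _ _ _), by omega, fun n hn => ?_, fun n hn => ?_⟩
  · rcases n with _ | n
    · rw [e1, sep_flip (e_r_ne' F a)]
      exact ⟨fun _ => by omega, fun _ => hu⟩
    · rw [e0, sep_r, h.sep n (by omega)]
      · omega
      · rw [← D.hB.cc_last h.adj]
        intro e2
        have := D.hB.inj F c a _ _ h.adj (by omega) (by omega) e2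
        omega
  · rcases n with _ | n
    · rw [e1]
      exact ⟨fun h4 => (hu.not_la h4).elim, fun h4 => by omega⟩
    · rw [e0, h.lat n (by omega)]; omega

/-- two positions with the same first letter -/
theorem k13 {a' : ι} {j' k' : ℕ} (h' : D.Ps l F c a' j' k') (hne : a ≠ a') (hj : 3 ≤ j) :
    j' + k' ≤ 1 := by
  have hm := D.cx.four _ _ h.adj
  have hm' := D.cx.four _ _ h'.adj
  by_contra h1
  exact k1 F ⟨h.adj, h'.adj, hne, by omega, by omega, le_rfl, by omega, by omega, by omega⟩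
    ((h.sep 2 (by omega)).2 (by omega)) ((h'.low (n := 1) (by omega)).2 (by omega))

theorem k12 {a' : ι} {j' k' : ℕ} (h' : D.Ps l F c a' j' k') (hne : a ≠ a') (hj : 2 ≤ j) :
    j' + k' ≤ 2 := by
  have hm := D.cx.four _ _ h.adj
  have hm' := D.cx.four _ _ h'.adj
  by_contra h1
  exact k1 F ⟨h.adj, h'.adj, hne, le_rfl, by omega, by omega, by omega, by omega, by omega⟩
    ((h.sep 1 (by omega)).2 (by omega)) ((h'.low (n := 2) (by omega)).2 (by omega))

end Ps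

end Wb

end Pool.Agent.P.MP_e794d7_al.Y
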