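import Pool.Agent.P.MP_e794d7_al.Y.WB1

/-! Lateral walls and the normal form of a vertex. -/

set_option autoImplicit false

namespace Pool.Agent.P.MP_e794d7_al.Y

namespace Wb

variable {ι : Type} {M : ι → ι → ℕ} {K : ℕ} {T : Type} {D : Wb M K T} {l : D.Wl}

/-- at a further vertex of an edge of the chain only walls that touch the panel are lateral -/
theorem che_lat {y : D.U.X} {a b : ι} (h : D.U.ChE M l.1 y a) (ho : D.Off l y a b) {n : ℕ}
    (h1 : 1 ≤ n) (hn : n < M a b) (hl : D.Lat l (D.U.cc y a b n)) :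
    (n = 1 ∧ D.Tch l (D.U.r a y)) ∨ (n + 1 = M a b ∧ D.Tch l y) := by
  obtain ⟨h2, b', hab', ht⟩ := h
  have hne : b ≠ b' := fun e => ho.2 (e ▸ ht)
  obtain ⟨n', hn', e1⟩ := D.hB.thru_lt hab' ht
  have h0 : n' ≠ 0 := fun e => h2 (by rw [← e1, e, Pos.cc_zero])
  by_cases k1 : n = 1 ∧ n' = 1
  · exact Or.inl ⟨k1.1, b', by rw [← e1, k1.2, Pos.Bas.cc_one]⟩
  by_cases k2 : n + 1 = M a b ∧ n' + 1 = M a b'
  · exact Or.inr ⟨k2.1, b', by rw [← e1, ← D.hB.cc_last hab']; congr 1; omega⟩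
  exact (not_lat_of_nx (e1 ▸ D.cx.k0 y ⟨ho.1, hab', hne, h1, hn, by omega, hn', k1, k2⟩) hl).elim

theorem lat_aux {y' : D.U.X} {a' : ι} (hc : D.U.ChE M l.1 y' a') {y : D.U.X} {a : ι}
    (hr : Rch M D.U D.e y' a' y a) : D.U.ChE M l.1 y a ∨ ∃ b, D.Off l y a b ∧
      (∀ σ, D.U.Thru y a b σ → σ ≠ D.U.col y a → D.e y' σ ≠ D.e y σ) ∧ D.Top l y a b ∧
      ∀ σ, D.U.Mid M y a b σ → D.Sep l σ y := by
  induction hr with
  | base => exact Or.inl hc
  | step y a b hab hs hr ih =>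
    by_cases h0 : D.U.ChE M l.1 y a
    · exact Or.inl h0
    have hla : D.La l y a := by
      rw [La, ← D.hB.col_go_M' hab, Cx.rch_col D.hB hr]; exact che_la hc
    have ho : D.Off l y a b := ⟨hab, fun ht => h0 ⟨hla.1, b, hab, ht⟩⟩
    have hp := Pos.pl_go' y a b (M a b)
    have hab1 := D.hB.pl_adj hab hp
    have hcol := D.hB.col_go_M' hab y
    have far : ∀ σ, D.U.Thru y a b σ → σ ≠ D.U.col y a → ¬ D.Lat l σ → D.Sep l σ y := by
      intro σ ht hσ hl
      obtain ⟨-, b', hab', ht'⟩ := hc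
      obtain ⟨n, hn⟩ := ht'
      refine Low.sep ⟨D.U.go y' a' b' n, ⟨_, hn⟩, ?_⟩ (ho.ne ht) hl
      rw [Pos.Bas.e_res D.he (Pos.res_go _ _ _ _) fun h1 =>
        hl ⟨ho.ne ht, y', a', b', hab', ⟨n, hn⟩, h1⟩]
      exact hs σ ht hσ
    have top : D.Top l y a b := fun σ ht => by
      by_cases h1 : σ = D.U.col y a
      · rw [h1]; exact hla.low _
      by_cases h2 : D.Lat l σ
      · exact h2.low _
      exact (far σ ht h1 h2).low
    refine Or.inr ⟨b, ho, hs, top, fun σ hσ => far σ hσ.thru (D.hB.mid_ne hab hσ (Or.inl rfl))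
      fun hl => ?_⟩
    obtain ⟨k, k1, k2, rfl⟩ := hσ
    have hM := D.hB.pl_M hp
    have e1 : D.U.cc y a b k = D.U.cc (D.U.go y a b (M a b + 1)) (el a b (M a b))
        (el a b (M a b + 1)) (M a b - k) := by
      rw [Pos.go_succ, D.hB.cc_r hab1 _ _ (by omega), hM, ← Pos.cc_add,
        show M a b + (M a b - (M a b - k)) = k + M a b by omega, D.hB.cc_per hab]
    rw [e1] at hl
    rcases ih with h1 | ⟨b1, o1, s1, -, m1⟩
    · rcases che_lat h1 (ho.pl hp) (by omega) (by omega) hl with h2 | h2 <;> omega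
    · have hne : b1 ≠ el a b (M a b + 1) := by
        rintro rfl
        have t1 := D.hB.thru_col' hab1 (D.U.go y a b (M a b + 1))
        have n1 : D.U.col (D.U.go y a b (M a b + 1)) (el a b (M a b + 1)) ≠
            D.U.col (D.U.go y a b (M a b + 1)) (el a b (M a b)) := fun e =>
          hab1.1 (D.hB.x2 _ _ _ e).symm
        exact s1 _ t1 n1 (D.cx.rch_back hab hs ((D.hB.pl_thru hab hp).1 t1) (hcol ▸ n1))
      have hm1 := D.cx.four _ _ o1.1
      exact k1' hm1 o1.1 hab1 hne (m1 _ ⟨2, le_rfl, hm1, rfl⟩) (by omega) (by omega) (hl.low _)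
where
  k1' {y : D.U.X} {a b b' : ι} {n : ℕ} (hm : 4 ≤ M a b) (hab : Adj M a b) (hab' : Adj M a b')
      (hne : b ≠ b') (h : D.Sep l (D.U.cc y a b 2) y) (h1 : 1 ≤ n) (hn : n < M a b') :
      ¬ D.Low l (D.U.cc y a b' n) y :=
    k1 y ⟨hab, hab', hne, by omega, by omega, h1, hn, by omega, by omega⟩ h

/-- a lateral panel outside the chain is a top panel of one of its vertices -/
theorem lat_top {y : D.U.X} {a : ι} (h : D.La l y a) (h0 : ¬ D.U.ChE M l.1 y a) :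
    ∃ b, D.Off l y a b ∧ D.Top l y a b ∧ ∀ σ, D.U.Mid M y a b σ → D.Sep l σ y := by
  obtain ⟨h1, x, u, v, huv, t1, t2⟩ := h
  obtain ⟨z, g, hz, hm, hg, k1, -⟩ := D.cx.quad huv t2 t1 h1 (D.e y (D.U.col y a)) true
  have hc : D.U.ChE M l.1 z g := by
    have t3 := (D.hB.thru_res huv hz).1 t1
    rcases hm with rfl | rfl
    · exact ⟨by rwa [hg], v, huv, t3⟩
    · exact ⟨by rwa [hg], u, D.hB.big.adj_symm huv, D.hB.thru_swap huv t3⟩
  rcases lat_aux hc (D.cx.conn hg.symm k1.symm) with h2 | ⟨b, o1, -, h2, h3⟩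
  exacts [(h0 h2).elim, ⟨b, o1, h2, h3⟩]

theorem mid_far' {y : D.U.X} {a b b' : ι} (hab : Adj M a b) (hab' : Adj M a b') (hne : b ≠ b')
    (h : ∀ σ, D.U.Mid M y a b σ → D.Sep l σ y) {γ : D.U.Col} (ht : D.U.Thru y a b' γ)
    (h1 : γ ≠ D.U.col y a) : ¬ D.Low l γ y := by
  rintro ⟨z, hz, h2⟩
  have hm : D.U.Mid M y a b (D.U.cc y a b 2) := ⟨2, le_rfl, D.cx.four _ _ hab, rfl⟩
  exact (D.cx.mid_far hab hab' hne hm ht h1 z).elim (h _ hm z hz) h2

/-- two lateral walls meet outside `l` only at a chamber that touches `l` -/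
theorem apex {y : D.U.X} {a b : ι} (ho : D.Off l y a b) {σ τ : D.U.Col} (h1 : D.U.Thru y a b σ)
    (h2 : D.U.Thru y a b τ) (l1 : D.Lat l σ) (l2 : D.Lat l τ) (hne : σ ≠ τ) :
    ∃ z g g', D.U.Pl y a b z g g' ∧ D.Tch l z ∧ σ = D.U.col z g ∧ τ = D.U.col z g' := by
  have hab := ho.1
  have key : ∀ z g g', D.U.Pl y a b z g g' → D.U.col z g = σ → D.U.ChE M l.1 z g →
      ∃ z g g', D.U.Pl y a b z g g' ∧ D.Tch l z ∧ σ = D.U.col z g ∧ τ = D.U.col z g' := by
    intro z g g' hp hc hch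
    have hg := D.hB.pl_adj hab hp
    obtain ⟨n, hn, rfl⟩ := D.hB.thru_lt hg ((D.hB.pl_thru hab hp).2 h2)
    have h0 : n ≠ 0 := fun e => hne (by rw [e, Pos.cc_zero, hc])
    rcases che_lat hch (ho.pl hp) (by omega) hn l2 with ⟨rfl, h3⟩ | ⟨h4, h3⟩
    · exact ⟨_, g, g', D.hB.pl_r' hab hp, h3, by rw [D.hB.col_r, hc], Pos.Bas.cc_one _ _ _⟩
    · exact ⟨z, g, g', hp, h3, hc.symm, by rw [← D.hB.cc_last hg]; congr 1; omega⟩
  have key2 : ∀ z g g', D.U.Pl y a b z g g' → D.U.col z g = σ → ¬ D.U.ChE M l.1 z g →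
      ∀ ρ, D.U.Mid M z g g' ρ → D.Sep l ρ z := by
    intro z g g' hp hc hch
    obtain ⟨b1, o1, -, m1⟩ := lat_top (show D.La l z g by rw [La, hc]; exact l1) hch
    by_cases e : b1 = g'
    · exact e ▸ m1
    · exact (mid_far' o1.1 (D.hB.pl_adj hab hp) e m1 ((D.hB.pl_thru hab hp).2 h2)
        (by rw [hc]; exact hne.symm) (l2.low _)).elim
  obtain ⟨z, g, g', hp, hc⟩ : ∃ z g g', D.U.Pl y a b z g g' ∧ D.U.col z g = σ := by
    obtain ⟨n, hn⟩ := h1
    exact ⟨_, _, _, Pos.pl_go y a b n, hn⟩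
  have hg := D.hB.pl_adj hab hp
  have hm := D.cx.four _ _ hg
  have hq := Pos.pl_go z g g' (M g g')
  have hc' := (D.hB.col_go_M hg z).trans hc
  by_cases c1 : D.U.ChE M l.1 z g
  · exact key _ _ _ hp hc c1
  by_cases c2 : D.U.ChE M l.1 (D.U.go z g g' (M g g')) (el g g' (M g g'))
  · exact key _ _ _ (D.hB.pl_trans hab hp hq) hc' c2
  have s1 := key2 _ _ _ hp hc c1 _ ⟨2, le_rfl, hm, rfl⟩
  have s2 := key2 _ _ _ (D.hB.pl_trans hab hp hq) hc' c2 (D.U.cc z g g' 2)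
    ⟨2, le_rfl, by rw [D.hB.pl_M hq]; exact hm, by
      rw [← Pos.cc_add, add_comm, D.hB.cc_per hg]⟩
  exact ((sep_flip (D.cx.e_M hg ⟨2, rfl⟩)).1 s2 s1.low).elim

theorem ps_of {z : D.U.X} {g g' : ι} {k : ℕ} (ho : D.Off l z g g') (hb : D.Bot l z g g')
    (hk : k ≤ M g g') (hl : ∀ n, n < M g g' → (D.Lat l (D.U.cc z g g' n) ↔ n < k)) :
    D.Ps l z g g' 0 k :=
  ⟨ho, by omega, fun n _ => ⟨fun h => (hb _ ⟨n, rfl⟩ h).elim, fun h => by omega⟩,
    fun n hn => by rw [hl n hn]; omega⟩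

/-- the normal form of a vertex -/
theorem nf {y : D.U.X} {a b : ι} (ho : D.Off l y a b) : ∃ z g g' k, D.U.Pl y a b z g g' ∧
    D.Ps l z g g' 0 k ∧ k ≤ 2 ∧ (k = 2 → D.Tch l (D.U.r g z)) := by
  have hab := ho.1
  have hm := D.cx.four _ _ hab
  by_cases h2 : ∃ σ τ, D.U.Thru y a b σ ∧ D.U.Thru y a b τ ∧ D.Lat l σ ∧ D.Lat l τ ∧ σ ≠ τ
  · obtain ⟨σ, τ, t1, t2, l1, l2, hne⟩ := h2
    obtain ⟨z, g, g', hp, ht, rfl, rfl⟩ := apex ho t1 t2 l1 l2 hne
    have hg := D.hB.pl_adj hab hp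
    have hM := D.hB.pl_M hp
    have hp' := D.hB.pl_r' hab hp
    refine ⟨_, g, g', 2, hp', ps_of (ho.pl hp') (bot_of_ht (by rw [ht_la (Or.inl l1), ht.ht]) _ _)
      (by omega) fun n hn => ⟨fun hl => ?_, fun h => ?_⟩, le_rfl, fun _ => by rwa [D.hB.rr]⟩
    · by_contra h3
      rw [D.hB.cc_r hg _ _ hn.le] at hl
      rcases che_lat (che_of_tch ht l1) (ho.pl hp) (by omega) (by omega) hl with h4 | h4
      · have hs := D.hB.big.symm g' g
        rw [show M g g' - n = M g g' - 1 - (n - 1) by omega, ← D.hB.cc_rev hg _ _ (by omega)] at hl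
        rcases che_lat (che_of_tch ht l2) (ho.pl hp).swap (by omega) (by omega) hl with h5 | h5 <;>
          omega
      · omega
    · rcases n with _ | _ | n
      · rwa [Pos.cc_zero, D.hB.col_r]
      · rwa [zero_add, Pos.Bas.cc_one, D.hB.rr]
      · omega
  obtain ⟨y0, hy0⟩ := ex_tch l
  obtain ⟨z, hz, hp⟩ := D.cx.prj y0 y a b hab
  have hb : D.Bot l z a b := fun σ ht h => h y0 hy0 (hp σ ((D.hB.thru_res hab hz).2 ht))
  have pz : D.U.Pl y a b z a b := ⟨hz, Same.refl _ _⟩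
  have one : ∀ g g', D.U.Pl y a b z g g' → D.La l z g → D.Ps l z g g' 0 1 := by
    intro g g' hp1 hl
    have hg := D.hB.pl_adj hab hp1
    have hM := D.hB.pl_M hp1
    refine ps_of (ho.pl hp1) ((bot_same hab hp1.2).2 hb) (by omega) fun n hn =>
      ⟨fun h => ?_, fun h => by rwa [show n = 0 by omega, Pos.cc_zero]⟩
    by_contra h3
    refine h2 ⟨_, _, D.hB.pl_col hab hp1, (D.hB.pl_thru hab hp1).1 ⟨n, rfl⟩, hl, h, fun e => ?_⟩
    rw [← Pos.cc_zero z g g'] at e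
    have := D.hB.inj z g g' _ _ hg (by omega) hn e
    omega
  by_cases la : D.La l z a
  · exact ⟨z, a, b, 1, pz, one _ _ pz la, by omega, by omega⟩
  by_cases lb : D.La l z b
  · exact ⟨z, b, a, 1, D.hB.pl_swap' hab pz, one _ _ (D.hB.pl_swap' hab pz) lb, by omega, by omega⟩
  refine ⟨z, a, b, 0, pz, ps_of (ho.pl pz) hb (by omega) fun n hn =>
    ⟨fun h => ?_, fun h => by omega⟩, by omega, by omega⟩
  exfalso
  obtain ⟨y1, s, h3, -, h4⟩ := h.both true (!D.e z (D.U.cc z a b n))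
  obtain ⟨z1, hz1, hp1⟩ := D.cx.prj y1 z a b hab
  obtain ⟨i, hi, rfl⟩ := D.hB.res_lt hab hz1
  have same : ∀ σ, D.U.Thru z a b σ → ¬ D.Lat l σ → D.e (D.U.go z a b i) σ = D.e z σ := by
    intro σ ht hl
    rw [← hp1 σ ht]
    by_contra h5
    exact hb σ ht (Low.sep ⟨y1, ⟨s, h3⟩, h5⟩ ((ho.pl pz).ne ht) hl)
  have k1 := same _ (Pos.thru_col _ _ _) la
  have k2 := same _ (D.hB.thru_col' hab z) lb
  have i0 : i = 0 := by
    by_contra h5
    rcases le_or_gt i (M a b) with h6 | h6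
    · have := D.hB.e_go_mid D.he hab z (j := 0) (n := i) (by omega) (by omega) (by omega)
      rw [Pos.cc_zero, k1] at this
      simp at this
    · have := D.hB.e_go_mid D.he hab z (j := M a b - 1) (n := i) (by omega) (by omega) (by omega)
      rw [D.hB.cc_last hab, k2] at this
      simp at this
  have := hp1 _ ⟨n, rfl⟩
  rw [h4, i0] at this
  simp at this

namespace Ps

variable {F : D.U.X} {c a : ι} {j k : ℕ}

/-- several steps up -/
theorem climb (h : D.Ps l F c a j k) : ∀ i, j + k + i ≤ M c a →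
    D.Ps l (D.U.go F a c i) (el a c (i + 1)) (el a c i) (j + i) k
  | 0, _ => by simpa using h
  | i + 1, hi => by
    have h1 := (climb h i (by omega)).upw (by
      rw [D.hB.big.symm, D.hB.big.M_el, D.hB.big.symm]; omega)
    rw [el_add_two]
    exact h1

/-- several steps down -/
theorem desc (h : D.Ps l F c a j k) : ∀ i, i ≤ j →
    D.Ps l (D.U.go F c a i) (el c a i) (el c a (i + 1)) (j - i) k
  | 0, _ => by simpa using h
  | i + 1, hi => by
    have h1 := (desc h i (by omega)).down (by omega)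
    rw [el_add_two]
    exact h1

variable {z : D.U.X} {g g' : ι} (h : D.Ps l z g g' 0 k)
include h

theorem nf_sep {i n : ℕ} (hi : i < M g g') (hn : n ≤ 2 * M g g') :
    D.Sep l (D.U.cc z g g' i) (D.U.go z g g' n) ↔ k ≤ i ∧ i < n ∧ n ≤ i + M g g' := by
  by_cases h1 : i < n ∧ n ≤ i + M g g'
  · rw [sep_flip (w := z), h.low hi]
    · omega
    · rw [D.hB.e_go_mid D.he h.adj z hi h1.1 h1.2]
      cases D.e z (D.U.cc z g g' i) <;> simp
  · rw [sep_congr (w' := z), h.sep i hi]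
    · omega
    · rcases le_or_gt n i with h2 | h2
      exacts [D.hB.e_go_le D.he h.adj z hi h2, D.hB.e_go_hi D.he h.adj z hi (by omega) hn]

theorem nf_low {i n : ℕ} (hi : i < M g g') (hn : n ≤ 2 * M g g') :
    D.Low l (D.U.cc z g g' i) (D.U.go z g g' n) ↔ i < k ∨ (i < n ∧ n ≤ i + M g g') := by
  rw [low_iff, h.nf_sep hi hn, h.lat i hi]
  have := h.off.ne ⟨i, rfl⟩
  simp only [this, false_or]
  omega

theorem nf_thru (n : ℕ) {u u' : ι} (hs : Same g g' u u') {p : D.U.Col → Prop} :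
    (∀ σ, D.U.Thru (D.U.go z g g' n) u u' σ → p σ) ↔ ∀ i, i < M g g' → p (D.U.cc z g g' i) := by
  simp only [D.hB.pl_thru h.adj (⟨Pos.res_go _ _ _ _, hs⟩ : D.U.Pl z g g' (D.U.go z g g' n) u u')]
  refine ⟨fun h1 i _ => h1 _ ⟨i, rfl⟩, fun h1 σ ht => ?_⟩
  obtain ⟨i, hi, rfl⟩ := D.hB.thru_lt h.adj ht
  exact h1 i hi

theorem nf_bot (hk : k ≤ 2) {n : ℕ} (hn : n ≤ 2 * M g g') {u u' : ι} (hs : Same g g' u u') :
    D.Bot l (D.U.go z g g' n) u u' ↔ n ≤ k ∨ n = 2 * M g g' := by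
  have hm := D.cx.four _ _ h.adj
  rw [Bot, h.nf_thru n hs]
  constructor
  · intro h1
    have h2 := h1 k (by omega)
    have h3 := h1 (M g g' - 1) (by omega)
    rw [h.nf_sep (by omega) hn] at h2 h3
    omega
  · intro h1 i hi
    rw [h.nf_sep hi hn]; omega

theorem nf_top (hk : k ≤ 2) {n : ℕ} (hn : n ≤ 2 * M g g') {u u' : ι} (hs : Same g g' u u') :
    D.Top l (D.U.go z g g' n) u u' ↔ M g g' ≤ n ∧ n ≤ M g g' + k := by
  have hm := D.cx.four _ _ h.adj
  rw [Top, h.nf_thru n hs]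
  constructor
  · intro h1
    have h2 := h1 k (by omega)
    have h3 := h1 (M g g' - 1) (by omega)
    rw [h.nf_low (by omega) hn] at h2 h3
    omega
  · intro h1 i hi
    rw [h.nf_low hi hn]; omega

theorem nf_in (hk : k ≤ 2) {n : ℕ} (hn : n < 2 * M g g') :
    D.In l (D.U.go z g g' n) (el g g' n) (el g g' (n + 1)) ↔ n ≤ k ∨ n + 1 = 2 * M g g' := by
  have hm := D.cx.four _ _ h.adj
  rw [In, ← Pos.go_succ, h.nf_bot hk hn.le (same_el _ _ _), h.nf_bot hk hn (same_el _ _ _)]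
  have := h.off.pl (Pos.pl_go z g g' n)
  simp only [this, true_and]
  omega

theorem nf_out (hk : k ≤ 2) {n : ℕ} (hn : n < 2 * M g g') :
    D.Out l (D.U.go z g g' n) (el g g' n) (el g g' (n + 1)) ↔
      M g g' ≤ n + 1 ∧ n ≤ M g g' + k := by
  have hm := D.cx.four _ _ h.adj
  rw [Out, ← Pos.go_succ, h.nf_top hk hn.le (same_el _ _ _), h.nf_top hk hn (same_el _ _ _)]
  have := h.off.pl (Pos.pl_go z g g' n)
  simp only [this, true_and]
  omega

/-- the normal form seen from the other lowest end -/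
theorem nf_back (hk : k ≤ 2) :
    D.Ps l (D.U.go z g g' k) (el g g' (k + 1)) (el g g' k) 0 k := by
  have hm := D.cx.four _ _ h.adj
  have hp := Pos.pl_go z g g' k
  have hM := D.hB.pl_M hp
  have hs := D.hB.big.symm (el g g' (k + 1)) (el g g' k)
  refine ps_of (h.off.pl hp).swap ((h.nf_bot hk (by omega) (D.hB.pl_swap' h.adj hp).2).2
    (Or.inl le_rfl)) (by omega) fun i hi => ?_
  rw [D.hB.cc_rev (D.hB.pl_adj h.adj hp) _ _ (by omega), ← Pos.cc_add, hM]
  rcases Nat.lt_or_ge i k with h1 | h1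
  · rw [show k + (M g g' - 1 - i) = k - 1 - i + M g g' by omega, D.hB.cc_per h.adj,
      h.lat _ (by omega)]
    omega
  · rw [h.lat _ (by omega)]; omega

/-- positions on the ascending side -/
theorem nf_ps1 (hk : k ≤ 2) {n : ℕ} (h1 : k ≤ n) (h2 : n ≤ M g g') :
    D.Ps l (D.U.go z g g' n) (el g g' (n + 1)) (el g g' n) (n - k) k := by
  have := (h.nf_back hk).climb (n - k) (by
    rw [D.hB.big.symm, D.hB.big.M_el]; omega)
  rwa [← Pos.go_add, el_el, el_el, ← add_assoc, show k + (n - k) = n by omega, zero_add] at this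

/-- positions on the descending side -/
theorem nf_ps2 {n : ℕ} (h1 : M g g' + k ≤ n) (h2 : n ≤ 2 * M g g') :
    D.Ps l (D.U.go z g g' n) (el g g' n) (el g g' (n + 1)) (2 * M g g' - n) k := by
  have := h.climb (2 * M g g' - n) (by omega)
  rwa [D.hB.go_rev h.adj z _ (by omega), show 2 * M g g' - (2 * M g g' - n) = n by omega,
    zero_add, el_congr' g' g (n' := n) (by omega), el_congr' g' g (n' := n + 1) (by omega)] at this

end Ps

/-- the position of a chamber with a descent -/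
theorem pos {F : D.U.X} {c a : ι} (hca : Adj M c a) (h : D.Dn l F c) :
    ∃ j k, D.Ps l F c a j k ∧ 1 ≤ j ∧ k ≤ 2 ∧ (k = 2 → D.ht l F ≤ K) := by
  obtain ⟨z, g, g', k, hp, hn, hk, h2⟩ := nf (h.off hca)
  have hg := hn.adj
  have hq := D.hB.pl_symm hca hp
  have h3 : k = 2 → D.ht l F ≤ K := fun e => by
    have h4 := ht_res (l := l) hca (D.hB.pl_r' hca hp).1
    rw [(h2 e).ht] at h4
    omega
  obtain ⟨n, h4, rfl, rfl, rfl | rfl⟩ := D.hB.pl_idx hg hq
  · have h5 : M g g' + k ≤ n := by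
      rcases Nat.lt_or_ge n (M g g') with h6 | h6
      · have := (hn.nf_sep h6 h4.le).1 h
        omega
      · have h7 : D.Sep l (D.U.cc z g g' (n - M g g' + M g g')) (D.U.go z g g' n) := by
          rw [show n - M g g' + M g g' = n by omega]; exact h
        rw [D.hB.cc_per hg, hn.nf_sep (by omega) h4.le] at h7
        omega
    exact ⟨_, k, hn.nf_ps2 h5 h4.le, by omega, hk, h3⟩
  · rw [Dn, D.hB.col_go_succ] at h
    have h5 : k ≤ n ∧ n < M g g' := by
      rcases Nat.lt_or_ge n (M g g') with h6 | h6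
      · have := (hn.nf_sep h6 h4).1 h
        omega
      · rw [show n = n - M g g' + M g g' by omega, D.hB.cc_per hg,
          hn.nf_sep (by omega) (by omega)] at h
        omega
    have := hn.nf_ps1 hk (n := n + 1) (by omega) (by omega)
    rw [el_add_two] at this
    exact ⟨_, k, this, by omega, hk, h3⟩

end Wb

end Pool.Agent.P.MP_e794d7_al.Y
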