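import Pool.Agent.P.MP_e794d7_al.Y.WB2

/-! The roles of the panels at a vertex. -/

set_option autoImplicit false

namespace Pool.Agent.P.MP_e794d7_al.Y

namespace Wb

variable {ι : Type} {M : ι → ι → ℕ} {K : ℕ} {T : Type} {D : Wb M K T} {l : D.Wl}
variable {F y : D.U.X} {a b c : ι}

/-- two descents -/
theorem two (hb : D.Dn l F b) (hc : D.Dn l F c) (hne : b ≠ c) : D.Ps l F b c (M b c) 0 := by
  have hbc : Adj M b c := ⟨hne, fun e => hc.not_up (k3 hne e hb)⟩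
  obtain ⟨j, k, h, -⟩ := pos hbc hb
  have h1 := h.dn'.1 hc
  have h2 := h.le
  rwa [h1, show k = 0 by omega] at h

theorem x21 (hb : D.Dn l F b) (hc : D.Dn l F c) (hne : b ≠ c) (hac : a ≠ c) (hba : Adj M b a) :
    D.Ps l F b a 1 0 := by
  obtain ⟨j, k, h, h1, -⟩ := pos hba hb
  have h2 := two hb hc hne
  have h3 := D.cx.four _ _ h2.adj
  have h4 := h2.k13 h hac.symm (by omega)
  rwa [show j = 1 by omega, show k = 0 by omega] at h

/-- away from the position `(1, 0)` the descent is unique -/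
theorem Ps.only {j k : ℕ} (h : D.Ps l F c a j k) (hj : 1 ≤ j) (h2 : 2 ≤ j + k)
    (h3 : j < M c a) {g : ι} (hg : D.Dn l F g) : g = c := by
  by_contra hne
  have := h.uniq (x21 (h.dn.2 hj) hg (Ne.symm hne) (fun e => by
    have := h.dn'.1 (e ▸ hg); omega) h.adj)
  omega

theorem Ps.k_le {j k : ℕ} (h : D.Ps l F c a j k) (hj : 1 ≤ j) :
    k ≤ 2 ∧ (K < D.ht l F → k ≤ 1) := by
  obtain ⟨j', k', h', -, h1, h2⟩ := pos h.adj (h.dn.2 hj)
  have := h.uniq h'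
  omega

/-- the position of the lower chamber of an ascent -/
theorem Up.ps (h : D.Up l F a) (hab : Adj M a b) :
    ∃ j k, D.Ps l F b a j k ∧ j + k < M a b ∧ k ≤ 2 := by
  obtain ⟨j, k, hp, h1, h2, -⟩ := pos hab (dn_r.2 h)
  have h3 := hp.down h1
  have h4 := hp.le
  rw [D.hB.rr] at h3
  exact ⟨_, k, h3, by omega, h2⟩

theorem Ps.out_iff {j k : ℕ} (h : D.Ps l F c a j k) (hu : D.Up l F a) :
    D.Out l F a c ↔ j + k + 1 = M c a := by
  have h1 := h.up'.1 hu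
  have h2 := h.upw h1
  have hs := D.hB.big.symm a c
  rw [Out, h2.top, top_same h.adj (Same.swap _ _), h.top]
  have := h.off.swap
  simp only [this, true_and]
  omega

theorem Ps.in_iff {j k : ℕ} (h : D.Ps l F c a j k) (hu : D.Up l F a) :
    D.In l F a c ↔ j = 0 := by
  have h2 := h.upw (h.up'.1 hu)
  rw [In, h2.bot, bot_same h.adj (Same.swap _ _), h.bot]
  have := h.off.swap
  simp only [this, true_and]
  omega

theorem in_iff (h : D.Up l F a) (hab : Adj M a b) : D.In l F a b ↔ ¬ D.Dn l F b := by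
  obtain ⟨j, k, hp, -⟩ := h.ps hab
  rw [hp.in_iff h, hp.dn]; omega

theorem ox (ho : D.Out l F a c) (h : D.Up l F a) : D.Dn l F c ∧ ∀ g, D.Dn l F g → g = c := by
  obtain ⟨j, k, hp, h1, h2⟩ := h.ps ho.1.1
  have h3 := (hp.out_iff h).1 ho
  have hm := D.cx.four _ _ hp.adj
  exact ⟨hp.dn.2 (by omega), fun g => hp.only (by omega) (by omega) (by omega)⟩

theorem bot_ant (hab : Adj M a b) : D.Bot l y a b ↔
    D.Top l (D.U.go y a b (M a b)) (el a b (M a b)) (el a b (M a b + 1)) := by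
  simp only [Bot, Top, D.hB.pl_thru hab (Pos.pl_go y a b (M a b))]
  exact forall_congr' fun σ => imp_congr_right fun ht => by
    rw [sep_flip (D.cx.e_M hab ht).symm, not_not]

theorem top_ant (hab : Adj M a b) : D.Top l y a b ↔
    D.Bot l (D.U.go y a b (M a b)) (el a b (M a b)) (el a b (M a b + 1)) := by
  simp only [Bot, Top, D.hB.pl_thru hab (Pos.pl_go y a b (M a b))]
  exact forall_congr' fun σ => imp_congr_right fun ht => by
    rw [sep_flip (D.cx.e_M hab ht), not_not]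

theorem in_ant (hab : Adj M a b) : D.In l y a b ↔
    D.Out l (D.U.go y a b (M a b)) (el a b (M a b)) (el a b (M a b + 1)) := by
  rw [In, Out, off_pl hab (Pos.pl_go y a b (M a b)), bot_ant hab, bot_ant hab, D.hB.go_r_M hab,
    Pos.go_succ]

theorem out_ant (hab : Adj M a b) : D.Out l y a b ↔
    D.In l (D.U.go y a b (M a b)) (el a b (M a b)) (el a b (M a b + 1)) := by
  rw [In, Out, off_pl hab (Pos.pl_go y a b (M a b)), top_ant hab, top_ant hab, D.hB.go_r_M hab,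
    Pos.go_succ]

theorem defT_ant (hab : Adj M a b) : D.DefT l y a b ↔
    D.DefT l (D.U.go y a b (M a b)) (el a b (M a b)) (el a b (M a b + 1)) :=
  ⟨fun h => (h.pl (Pos.pl_go _ _ _ _)).2 (D.hB.col_go_M hab y), fun h =>
    (h.pl (D.hB.pl_symm hab (Pos.pl_go _ _ _ _))).2 (D.hB.col_go_M hab y).symm⟩

theorem ip_ant (hab : Adj M a b) : D.Ip l y a b ↔
    D.DefO l (D.U.go y a b (M a b)) (el a b (M a b)) (el a b (M a b + 1)) := by
  rw [Ip, DefO, in_ant hab, defT_ant hab]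

theorem defO_ant (hab : Adj M a b) : D.DefO l y a b ↔
    D.Ip l (D.U.go y a b (M a b)) (el a b (M a b)) (el a b (M a b + 1)) := by
  rw [Ip, DefO, out_ant hab, defT_ant hab]

/-- a property of panels can be checked on the panels of a walk -/
theorem pl_ind {p : D.U.X → ι → ι → Prop} (hr : ∀ y a b, p (D.U.r a y) a b ↔ p y a b)
    (hab : Adj M a b) {z : D.U.X} {g g' : ι} (hp : D.U.Pl y a b z g g') :
    ∃ n, n < 2 * M a b ∧ g = el a b n ∧ g' = el a b (n + 1) ∧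
      (z = D.U.go y a b n ∨ z = D.U.go y a b (n + 1)) ∧ D.U.col z g = D.U.cc y a b n ∧
      (p z g g' ↔ p (D.U.go y a b n) (el a b n) (el a b (n + 1))) := by
  obtain ⟨n, hn, rfl, rfl, rfl | rfl⟩ := D.hB.pl_idx hab hp
  · exact ⟨n, hn, rfl, rfl, Or.inl rfl, rfl, Iff.rfl⟩
  · exact ⟨n, hn, rfl, rfl, Or.inr rfl, D.hB.col_go_succ _ _ _ _, hr _ _ _⟩

theorem In.not_out (h : D.In l y a b) : ¬ D.Out l y a b := fun h' => by
  obtain ⟨z, g, g', k, hp, hn, hk, -⟩ := nf h.1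
  have hm := D.cx.four _ _ hn.adj
  obtain ⟨n, h1, -, -, -, -, h2⟩ := pl_ind (p := fun y a b => D.In l y a b ∧ D.Out l y a b)
    (fun _ _ _ => by rw [in_r, out_r]) hn.adj (D.hB.pl_symm h.1.1 hp)
  have := h2.1 ⟨h, h'⟩
  rw [hn.nf_in hk h1, hn.nf_out hk h1] at this
  omega

theorem Ps.apx {j k : ℕ} (h : D.Ps l F c a j k) : D.Apx l F c a → 2 ≤ k := by
  rintro ⟨z, hz, h1, h2⟩
  obtain ⟨n, hn, e1⟩ := D.hB.thru_lt h.adj (D.hB.thru_of_res h.adj hz (Or.inl rfl))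
  obtain ⟨n', hn', e2⟩ := D.hB.thru_lt h.adj (D.hB.thru_of_res h.adj hz (Or.inr rfl))
  rw [La, ← e1, h.lat n hn] at h1
  rw [La, ← e2, h.lat n' hn'] at h2
  have : n ≠ n' := fun e => h.adj.1 (D.hB.x2 z _ _ (by rw [← e1, ← e2, e]))
  omega

theorem Ps.apx_of {k : ℕ} (h : D.Ps l F c a 0 k) (hk : 2 ≤ k) : D.Apx l F c a := by
  have hm := D.cx.four _ _ h.adj
  refine ⟨D.U.r c F, (Pos.pl_r _ _ _).1, la_r.2 (h.la.2 (by omega)), ?_⟩
  rw [La, ← Pos.Bas.cc_one, h.lat 1 (by omega)]; omega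

theorem Apx.tch (h : D.Apx l y a b) (ho : D.Off l y a b) : ∃ z, D.U.Res y a b z ∧ D.Tch l z := by
  obtain ⟨z, hz, h1, h2⟩ := h
  obtain ⟨z', g, g', hp, ht, -⟩ := apex ho (D.hB.thru_of_res ho.1 hz (Or.inl rfl))
    (D.hB.thru_of_res ho.1 hz (Or.inr rfl)) h1 h2 fun e => ho.1.1 (D.hB.x2 z _ _ e)
  exact ⟨z', hp.1, ht⟩

theorem Apx.ht (h : D.Apx l y a b) (ho : D.Off l y a b) : D.ht l y ≤ K := by
  obtain ⟨z, hz, ht⟩ := h.tch ho
  have := ht_res (l := l) ho.1 hz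
  rw [ht.ht] at this
  omega

theorem adm_of {z : D.U.X} {g g' : ι} {k j : ℕ} (hn : D.Ps l z g g' 0 k) (hk : k ≤ 2)
    (h1 : k + 1 ≤ j) (h2 : j + 2 ≤ M g g')
    (h3 : k = 0 → j = 1 → ∀ c, D.Dn l (D.U.r g z) c → c = g)
    (h4 : k = 0 → j + 2 = M g g' → ∀ c, D.Dn l (D.U.r g' z) c → c = g') :
    D.Adm l z g g' (D.U.cc z g g' j) := by
  have hg := hn.adj
  refine ⟨⟨j, rfl⟩, by rw [hn.lat j (by omega)]; omega, Or.inr fun x u u' hp hc => ?_⟩
  obtain ⟨n, m1, rfl, rfl, m2, m3, m4⟩ := pl_ind (p := D.In l) (fun _ _ _ => in_r) hg hp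
  rw [m3, D.hB.cc_eq_iff hg, Nat.mod_eq_of_lt (show j < M g g' by omega)] at hc
  have m5 : n = j ∨ n = j + M g g' := by
    rcases Nat.lt_or_ge n (M g g') with h | h
    · rw [Nat.mod_eq_of_lt h] at hc; omega
    · rw [Nat.mod_eq_sub_mod h, Nat.mod_eq_of_lt (by omega)] at hc; omega
  refine ⟨by rw [m4, hn.nf_in hk m1]; omega, fun hu c hc => ?_⟩
  rw [Up, m3] at hu
  have hM := D.hB.big.M_el g g' n
  have hs := D.hB.big.symm (el g g' n) (el g g' (n + 1))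
  rcases m5 with rfl | rfl
  · rcases m2 with rfl | rfl
    · by_cases h5 : k = 0 ∧ n = 1
      · obtain ⟨rfl, rfl⟩ := h5
        simpa [el] using h3 rfl rfl c (by simpa using hc)
      · exact (hn.nf_ps1 hk (n := n) (by omega) (by omega)).only (by omega) (by omega) (by omega) hc
    · rw [hn.nf_low (by omega) (by omega)] at hu; omega
  · rw [D.hB.cc_per hg] at hu
    rcases m2 with rfl | rfl
    · rw [hn.nf_low (by omega) (by omega)] at hu; omega
    · by_cases h5 : k = 0 ∧ j + 2 = M g g'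
      · have e1 := D.hB.go_rev hg z 1 (by omega)
        rw [show 2 * M g g' - 1 = j + M g g' + 1 by omega, Pos.go_one] at e1
        rw [← e1] at hc
        rw [h4 h5.1 h5.2 c hc, el_congr g g' (n' := 1) (by omega), el_one]
      · have hM' := D.hB.big.M_el g g' (j + M g g' + 1)
        exact (hn.nf_ps2 (n := j + M g g' + 1) (by omega) (by omega)).only (by omega) (by omega)
          (by omega) hc

/-- every vertex has a wall that may carry the correction -/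
theorem adm_ex (ho : D.Off l y a b) : ∃ τ, D.Adm l y a b τ := by
  obtain ⟨z, g, g', k, hp, hn, hk, -⟩ := nf ho
  simp only [← adm_pl ho.1 hp]
  have hg := hn.adj
  have hm := D.cx.four _ _ hg
  by_cases h1 : k = 2 ∧ M g g' = 4
  · exact ⟨_, ⟨2, rfl⟩, by rw [hn.lat 2 (by omega)]; omega, Or.inl ⟨h1.2, hn.apx_of (by omega)⟩⟩
  by_cases h2 : 1 ≤ k
  · exact ⟨_, adm_of hn hk le_rfl (by omega) (by omega) (by omega)⟩
  by_cases h3 : 5 ≤ M g g'
  · exact ⟨_, adm_of (j := 2) hn hk (by omega) (by omega) (by omega) (by omega)⟩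
  by_cases h4 : ∀ c, D.Dn l (D.U.r g z) c → c = g
  · exact ⟨_, adm_of (j := 1) hn hk (by omega) (by omega) (fun _ _ => h4) (by omega)⟩
  refine ⟨_, adm_of (j := 2) hn hk (by omega) (by omega) (by omega) fun _ _ d hd => ?_⟩
  by_contra h5
  push Not at h4
  obtain ⟨c, hc, h6⟩ := h4
  have u1 : D.Up l z g := hn.up.2 (by omega)
  have u2 : D.Up l z g' := hn.up'.2 (by omega)
  have p1 := two (dn_r.2 u1) hc h6.symm
  have p2 := two (dn_r.2 u2) hd (Ne.symm h5)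
  have m1 := D.cx.four _ _ p1.adj
  have m2 := D.cx.four _ _ p2.adj
  have q1 := p1.down (by omega)
  have q2 := p2.down (by omega)
  rw [D.hB.rr] at q1 q2
  have s1 := D.hB.big.symm g c
  obtain rfl := q1.only (by omega) (by omega) (by omega) (q2.dn.2 (by omega))
  have := q1.k13 q2 hg.1 (by omega)
  omega

theorem defT_ex (ho : D.Off l y a b) : ∃ n, n < M a b ∧
    D.DefT l (D.U.go y a b n) (el a b n) (el a b (n + 1)) := by
  obtain ⟨τ, h1, h2⟩ : ∃ τ, D.Adm l y a b τ ∧ D.lb τ = D.tn l y a b :=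
    Classical.epsilon_spec (p := fun t => ∃ τ, D.Adm l y a b τ ∧ D.lb τ = t)
      (by obtain ⟨τ, h⟩ := adm_ex ho; exact ⟨_, τ, h, rfl⟩)
  obtain ⟨n, hn, rfl⟩ := D.hB.thru_lt ho.1 h1.1
  have hp := Pos.pl_go y a b n
  exact ⟨n, hn, ho.pl hp, (adm_pl ho.1 hp).2 h1, by rw [tn_pl ho.1 hp]; exact h2⟩

theorem apx_up (hu : D.Up l F a) (h0 : D.ht l F = 0) (hab : Adj M a b) (h : D.Apx l F a b) :
    D.La l F b ∧ D.Tch l (D.U.r b F) := by
  obtain ⟨z, g, g', k, hp, hn, hk, h2⟩ := nf (hu.off hab)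
  have hg := hn.adj
  have hm := D.cx.four _ _ hg
  obtain rfl : k = 2 := le_antisymm hk (hn.apx (h.pl hab hp))
  have h3 := h2 rfl
  have l0 : D.La l z g := hn.la.2 (by omega)
  have l1 : D.La l (D.U.r g z) g' := by
    rw [La, ← Pos.Bas.cc_one, hn.lat 1 (by omega)]; omega
  obtain ⟨n, m1, rfl⟩ := D.hB.res_lt hg (D.hB.pl_symm hab hp).1
  have hb := (hn.nf_bot hk m1.le (Same.refl _ _)).1 (bot_of_ht h0 _ _)
  have hs := hp.2
  obtain rfl | rfl | rfl : n = 0 ∨ n = 1 ∨ n = 2 := by omega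
  · rcases hs with ⟨rfl, rfl⟩ | ⟨rfl, rfl⟩
    exacts [(hu.not_la l0).elim, ⟨l0, h3⟩]
  · rw [Pos.go_one] at hu
    rcases hs with ⟨rfl, rfl⟩ | ⟨rfl, rfl⟩
    exacts [(hu.not_la (la_r.2 l0)).elim, (hu.not_la l1).elim]
  · rw [Pos.go_succ, Pos.go_one, el_one] at hu ⊢
    rcases hs with ⟨rfl, rfl⟩ | ⟨rfl, rfl⟩
    · exact ⟨la_r.2 l1, by rwa [D.hB.rr]⟩
    · exact (hu.not_la (la_r.2 l1)).elim

theorem ap2 {b' : ι} (hu : D.Up l F a) (h0 : D.ht l F = 0) (hab : Adj M a b) (hab' : Adj M a b')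
    (h : D.Apx l F a b) (h' : D.Apx l F a b') : b = b' := by
  have key : ∀ b, Adj M a b → D.Apx l F a b →
      ∃ s, Adj M b s ∧ D.U.cc F b s 1 = l.1 ∧ D.U.col F b ≠ l.1 := by
    intro b hab h
    obtain ⟨h1, s, h2⟩ := apx_up hu h0 hab h
    have h3 : b ≠ s := fun e => h1.1 (by rw [← h2, ← e, D.hB.col_r])
    exact ⟨s, ⟨h3, fun e => not_lat_of_nx (h2 ▸ D.cx.k0' _ h3 e) (la_r.2 h1)⟩,
      by rw [Pos.Bas.cc_one, h2], h1.1⟩
  obtain ⟨s, h1, h2, h3⟩ := key b hab h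
  obtain ⟨s', h1', h2', h3'⟩ := key b' hab' h'
  have hm := D.cx.four _ _ h1
  by_cases hs : Same b s b' s'
  · rcases hs with ⟨h4, -⟩ | ⟨rfl, rfl⟩
    · exact h4
    · rw [D.hB.cc_rev h1 F 1 (by omega), ← h2] at h2'
      have := D.hB.inj F _ _ _ _ h1 (by omega) (by omega) h2'
      omega
  · obtain ⟨g, rfl | rfl, -, h4⟩ := D.hB.x1 F b s b' s' _ h1 h1' hs ⟨1, h2⟩ ⟨1, h2'⟩
    · exact (h3 h4.symm).elim
    · rw [← h2, ← D.hB.cc_last h1] at h4
      have := D.hB.inj F _ _ _ _ h1 (by omega) (by omega) h4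
      omega

/-- the vertex that defines a panel -/
def Df (D : Wb M K T) (l : D.Wl) (y : D.U.X) (a b : ι) : Prop := D.DefT l y a b ∨ D.DefO l y a b

theorem Df.off (h : D.Df l y a b) : D.Off l y a b := h.elim (fun h => h.1) fun h => h.1.1

theorem df_r : D.Df l (D.U.r a y) a b ↔ D.Df l y a b := by rw [Df, Df, defT_r, defO_r]

theorem Df.not_ip (h : D.Df l y a b) : ¬ D.Ip l y a b := fun h1 =>
  h.elim h1.2 fun h2 => h1.1.not_out h2.1

theorem Df.up (h : D.Df l F a b) (hu : D.Up l F a) :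
    (D.Dn l F b ∧ ∀ g, D.Dn l F g → g = b) ∨ (D.ht l F = 0 ∧ D.Apx l F a b) := by
  have hab := h.off.1
  rcases h with ⟨ho, ⟨-, -, ⟨-, h1⟩ | h1⟩, -⟩ | h
  · obtain ⟨j, k, hp, h2, -⟩ := hu.ps hab
    have h3 := hp.apx (h1.pl hab (Pos.Pl.swap _ _ _))
    have hs := D.hB.big.symm a b
    rcases Nat.eq_zero_or_pos j with rfl | h4
    · obtain ⟨z, hz, ht⟩ := h1.tch ho
      have := bot_le hz ((bot_same hab (Same.swap _ _)).1 (hp.bot.2 rfl))
      rw [ht.ht] at this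
      exact Or.inr ⟨by omega, h1⟩
    · exact Or.inl ⟨hp.dn.2 h4, fun g => hp.only h4 (by omega) (by omega)⟩
  · obtain ⟨h2, h3⟩ := h1 F a b (Pos.Pl.refl _ _ _) rfl
    exact Or.inl ⟨not_not.1 (mt (in_iff hu hab).2 h2), h3 hu⟩
  · exact Or.inl (ox h.1 hu)

theorem che_in (h : D.U.ChE M l.1 y a) (ho : D.Off l y a b) : D.Ip l y a b :=
  ⟨⟨ho, Or.inl (bot_of_ht (ht_che h) _ _)⟩, fun h1 => h1.not_la (che_la h)⟩

theorem Df.not_che (h : D.Df l y a b) : ¬ D.U.ChE M l.1 y a := fun h1 =>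
  h.not_ip (che_in h1 h.off)

/-- the roles of a lateral panel outside the chain -/
theorem la_role (h : D.La l y a) (h0 : ¬ D.U.ChE M l.1 y a) : ∃ b, D.DefO l y a b ∧
    D.Top l y a b ∧ (∀ σ, D.U.Mid M y a b σ → D.Sep l σ y) ∧
    ∀ b', Adj M a b' → b' ≠ b → D.Ip l y a b' ∧ D.Up l y b' := by
  obtain ⟨b, ho, ht, hm⟩ := lat_top h h0
  refine ⟨b, ⟨⟨ho, Or.inl ht⟩, fun h1 => h1.not_la h⟩, ht, hm, fun b' hb' hne =>
    ⟨⟨⟨⟨hb', fun h1 => h0 ⟨h.1, b', hb', h1⟩⟩, Or.inl fun σ h1 h2 => ?_⟩,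
      fun h1 => h1.not_la h⟩, mid_far' ho.1 hb' hne.symm hm (D.hB.thru_col' hb' y)
        fun e => hb'.1 (D.hB.x2 _ _ _ e).symm⟩⟩
  by_cases h3 : σ = D.U.col y a
  · exact h2.not_lat (h3 ▸ h)
  · exact mid_far' ho.1 hb' hne.symm hm h1 h3 h2.low

theorem Df.uniq {b' : ι} (h : D.Df l y a b) (h' : D.Df l y a b') : b = b' := by
  have key : ∀ F, D.Up l F a → D.Df l F a b → D.Df l F a b' → b = b' := by
    intro F hu h h'
    rcases h.up hu with h1 | h1 <;> rcases h'.up hu with h2 | h2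
    · exact h2.2 _ h1.1
    · exact (ht_zero.1 h2.1 _ h1.1).elim
    · exact (ht_zero.1 h1.1 _ h2.1).elim
    · exact ap2 hu h1.1 h.off.1 h'.off.1 h1.2 h2.2
  rcases four_cases (l := l) y a with h1 | h1 | h1 | h1
  · exact (h.off.ne (Pos.thru_col _ _ _) h1).elim
  · obtain ⟨b0, -, -, -, h2⟩ := la_role h1 h.not_che
    have k1 : b = b0 := by_contra fun e => h.not_ip (h2 b h.off.1 e).1
    have k2 : b' = b0 := by_contra fun e => h'.not_ip (h2 b' h'.off.1 e).1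
    rw [k1, k2]
  · exact key _ (up_r.2 h1) (df_r.2 h) (df_r.2 h')
  · exact key _ h1 h h'

theorem Act.df (h : D.Act l y a) : D.U.ChE M l.1 y a ∨ ∃ b, D.Df l y a b := by
  rcases h.cases with h1 | ⟨b, h1, -⟩ | ⟨b, h1, -⟩
  exacts [Or.inl h1, Or.inr ⟨b, Or.inl h1⟩, Or.inr ⟨b, Or.inr h1⟩]

/-- an active panel is an input or is defined at the vertex -/
theorem Act.role (h : D.Act l y a) (ho : D.Off l y a b) : D.Ip l y a b ∨ D.Df l y a b := by
  have key : ∀ F, D.Up l F a → D.Act l F a → D.Ip l F a b ∨ D.Df l F a b := by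
    intro F hu h
    by_cases h1 : D.Dn l F b
    · rcases h.df with h2 | ⟨b', h2⟩
      · exact (hu.not_la (che_la h2)).elim
      · rcases h2.up hu with h3 | h3
        · exact Or.inr (h3.2 b h1 ▸ h2)
        · exact (ht_zero.1 h3.1 _ h1).elim
    · by_cases h2 : D.DefT l F a b
      exacts [Or.inr (Or.inl h2), Or.inl ⟨(in_iff hu ho.1).2 h1, h2⟩]
  rcases four_cases (l := l) y a with h1 | h1 | h1 | h1
  · exact (h.ne h1).elim
  · by_cases h2 : D.U.ChE M l.1 y a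
    · exact Or.inl (che_in h2 ho)
    · obtain ⟨b0, h3, -, -, h4⟩ := la_role h1 h2
      by_cases e : b = b0
      exacts [Or.inr (Or.inr (e ▸ h3)), Or.inl (h4 b ho.1 e).1]
  · rw [← ip_r, ← df_r]; exact key _ (up_r.2 h1) h.r
  · exact key _ h1 h

theorem Act.inv_t (h : D.Act l y a) (h1 : D.DefT l y a b) : D.Mu l y a b := by
  rcases h.cases with h2 | ⟨b', h2, h3⟩ | ⟨b', h2, -⟩
  · exact (Df.not_che (Or.inl h1) h2).elim
  · rwa [Df.uniq (Or.inl h1) (Or.inl h2)]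
  · exact (h2.2 (Df.uniq (Or.inl h1) (Or.inr h2) ▸ h1)).elim

theorem Act.inv_o (h : D.Act l y a) (h1 : D.DefO l y a b) :
    D.Lo l y a b ∧ D.Act l (D.U.go y a b (M a b)) (el a b (M a b)) := by
  rcases h.cases with h2 | ⟨b', h2, -⟩ | ⟨b', h2, h3⟩
  · exact (Df.not_che (Or.inr h1) h2).elim
  · exact (h1.2 (Df.uniq (Or.inl h2) (Or.inr h1) ▸ h2)).elim
  · rwa [Df.uniq (Or.inr h1) (Or.inr h2)]

end Wb

end Pool.Agent.P.MP_e794d7_al.Y
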