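import Pool.Agent.P.MP_e794d7_al.Y.WB3

/-! Active panels at high chambers. -/

set_option autoImplicit false

namespace Pool.Agent.P.MP_e794d7_al.Y

namespace Wb

variable {ι : Type} {M : ι → ι → ℕ} {K : ℕ} {T : Type} {D : Wb M K T} {l : D.Wl}
variable {F y z : D.U.X} {a b c g g' : ι} {j k : ℕ}

theorem go_last (hg : Adj M g g') (z : D.U.X) :
    D.U.go z g g' (2 * M g g' - 1) = D.U.r g' z ∧ el g g' (2 * M g g' - 1) = g' := by
  have hm := D.cx.four _ _ hg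
  exact ⟨by rw [← D.hB.go_rev hg z 1 (by omega), Pos.go_one],
    by rw [el_congr g g' (n' := 1) (by omega), el_one]⟩

theorem Ps.mu_nf (h : D.Ps l z g g' 0 k) (hk : k ≤ 2) (hm : D.Mu l z g g') : ∃ n n', n ≠ n' ∧
    (n ≤ k ∨ n = 2 * M g g' - 1) ∧ (n' ≤ k ∨ n' = 2 * M g g' - 1) ∧
    D.Act l (D.U.go z g g' n) (el g g' n) ∧ D.Act l (D.U.go z g g' n') (el g g' n') := by
  obtain ⟨x, u, u', x', v, v', h1, h2, h3, h4, h5, h6, h7⟩ := hm
  obtain ⟨n, m1, -, -, -, m2, m3⟩ := pl_ind (p := fun y a b => D.In l y a b ∧ D.Act l y a)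
    (fun _ _ _ => by rw [in_r, act_r]) h.adj h1
  obtain ⟨n', m1', -, -, -, m2', m3'⟩ := pl_ind (p := fun y a b => D.In l y a b ∧ D.Act l y a)
    (fun _ _ _ => by rw [in_r, act_r]) h.adj h2
  obtain ⟨k1, k2⟩ := m3.1 ⟨h3.1, h6⟩
  obtain ⟨k1', k2'⟩ := m3'.1 ⟨h4.1, h7⟩
  rw [h.nf_in hk m1] at k1
  rw [h.nf_in hk m1'] at k1'
  exact ⟨n, n', fun e => h5 (by rw [m2, m2', e]), by omega, by omega, k2, k2'⟩

theorem Ps.mu0 (h : D.Ps l z g g' 0 0) (hm : D.Mu l z g g') : D.Act l z g ∧ D.Act l z g' := by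
  obtain ⟨n, n', h0, h1, h2, h3, h4⟩ := h.mu_nf (by omega) hm
  obtain ⟨e1, e2⟩ := go_last h.adj z
  simp only [Nat.le_zero] at h1 h2
  rcases h1 with rfl | rfl <;> rcases h2 with rfl | rfl
  · exact (h0 rfl).elim
  · rw [e1, e2, act_r] at h4; exact ⟨by simpa using h3, h4⟩
  · rw [e1, e2, act_r] at h3; exact ⟨by simpa using h4, h3⟩
  · exact (h0 rfl).elim

theorem Ps.mu1 (h : D.Ps l z g g' 0 1) (hm : D.Mu l z g g') :
    (D.Act l z g' ∧ D.Act l z g) ∨ (D.Act l z g' ∧ D.Act l (D.U.r g z) g') ∨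
      (D.Act l z g ∧ D.Act l (D.U.r g z) g') := by
  obtain ⟨n, n', h0, h1, h2, h3, h4⟩ := h.mu_nf (by omega) hm
  obtain ⟨e1, e2⟩ := go_last h.adj z
  have key : ∀ n, (n ≤ 1 ∨ n = 2 * M g g' - 1) → D.Act l (D.U.go z g g' n) (el g g' n) →
      (n = 0 ∧ D.Act l z g) ∨ (n = 1 ∧ D.Act l (D.U.r g z) g') ∨
        (n = 2 * M g g' - 1 ∧ D.Act l z g') := by
    rintro n (h1 | rfl) h3
    · obtain rfl | rfl : n = 0 ∨ n = 1 := by omega
      · exact Or.inl ⟨rfl, by simpa using h3⟩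
      · exact Or.inr (Or.inl ⟨rfl, by simpa using h3⟩)
    · rw [e1, e2, act_r] at h3
      exact Or.inr (Or.inr ⟨rfl, h3⟩)
  rcases key n h1 h3 with ⟨rfl, k1⟩ | ⟨rfl, k1⟩ | ⟨rfl, k1⟩ <;>
    rcases key n' h2 h4 with ⟨rfl, k2⟩ | ⟨rfl, k2⟩ | ⟨rfl, k2⟩ <;> tauto

/-! ### the measure -/

theorem bot_lt (hab : Adj M a b) (hr : D.U.Res y a b z) (hy : D.Bot l y a b)
    (hz : ¬ D.Bot l z a b) : D.ht l y < D.ht l z := by
  refine Set.ncard_lt_ncard ⟨fun σ hσ =>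
    (sep_congr (Pos.Bas.e_res D.he hr fun ht => hy σ ht hσ)).2 hσ, fun hs => hz ?_⟩ (sep_fin z)
  exact fun σ ht h1 => hy σ ((D.hB.thru_res hab hr).2 ht) (hs h1)

theorem In.bot (h : D.In l y a b) : ∃ x, (x = y ∨ x = D.U.r a y) ∧ D.U.Pl y a b x a b ∧
    D.Bot l x a b := by
  rcases h.2 with h1 | h1
  exacts [⟨y, Or.inl rfl, Pos.Pl.refl _ _ _, h1⟩, ⟨_, Or.inr rfl, Pos.pl_r _ _ _, h1⟩]

theorem ms_lt (ho : D.Off l y a b) (h1 : ¬ D.In l y a b) (hp : D.U.Pl y a b z g g')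
    (h2 : D.In l z g g') : D.ms l z g < D.ms l y a := by
  obtain ⟨x, hx, px, bx⟩ := h2.bot
  have q := D.hB.pl_symm ho.1 (D.hB.pl_trans ho.1 hp px)
  have hg := h2.1.1
  have k1 := bot_lt hg q.1 bx fun h => h1 ⟨ho, Or.inl ((bot_same hg q.2).2 h)⟩
  have k2 := bot_lt hg (D.hB.pl_r' hg q).1 bx fun h => h1 ⟨ho, Or.inr ((bot_same hg q.2).2 h)⟩
  have k3 : min (D.ht l z) (D.ht l (D.U.r g z)) ≤ D.ht l x := by
    rcases hx with rfl | rfl <;> omega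
  simp only [ms]
  split_ifs <;> omega

theorem ms_t (h : D.DefT l y a b) (hp : D.U.Pl y a b z g g') (h2 : D.Ip l z g g') :
    D.ms l z g < D.ms l y a := by
  by_cases h1 : D.In l y a b
  swap
  · exact ms_lt h.1 h1 hp h2.1
  have hx : D.Apx l y a b := by
    rcases h.2.1.2.2 with h3 | h3
    exacts [h3.2, ((h3 y a b (Pos.Pl.refl _ _ _) rfl).1 h1).elim]
  have hg := h2.1.1.1
  obtain ⟨x, ex, px, bx⟩ := h2.1.bot
  have ax := (hx.pl h.1.1 hp).pl hg px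
  obtain ⟨w, hw, ht⟩ := ax.tch (h2.1.1.pl px)
  have h0 := bot_le hw bx
  rw [ht.ht] at h0
  have k3 : min (D.ht l z) (D.ht l (D.U.r g z)) = 0 := by
    rcases ex with rfl | rfl <;> omega
  have k4 : ¬ ∃ b', D.DefT l z g b' := by
    rintro ⟨b', h3⟩
    have h4 : D.DefT l x g b' := by
      rcases ex with rfl | rfl
      exacts [h3, h3.r]
    have h5 : ¬ D.DefT l x g g' := by
      rcases ex with rfl | rfl
      exacts [h2.2, fun h6 => h2.2 (defT_r.1 h6)]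
    have hu : D.Up l x g := by
      rcases four_cases (l := l) x g with h6 | h6 | h6 | h6
      · exact (h4.1.ne (Pos.thru_col _ _ _) h6).elim
      · exact (h4.not_la h6).elim
      · exact (bx _ (Pos.thru_col _ _ _) h6).elim
      · exact h6
    rcases Df.up (Or.inl h4) hu with h6 | h6
    · exact ht_zero.1 (by omega) _ h6.1
    · exact h5 (ap2 hu h6.1 h4.1.1 hg h6.2 ax ▸ h4)
  rw [ms, ms, k3, if_neg k4, if_pos ⟨b, h⟩]
  omega

theorem ms_o (h : D.DefO l y a b) :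
    D.ms l (D.U.go y a b (M a b)) (el a b (M a b)) < D.ms l y a :=
  ms_lt h.1.1 (fun h1 => h1.not_out h.1) (Pos.pl_go _ _ _ _) ((out_ant h.1.1.1).1 h.1)

/-! ### types -/

theorem J.not_dn (h : D.J l F a) : ¬ D.Dn l F a := fun h1 =>
  h.elim h1.not_la fun h2 => h1.not_up h2.1

theorem typ (hF : K < D.ht l F) (hJ : D.J l F a) : ∃ c j k, D.Ps l F c a j k ∧ 1 ≤ j ∧
    (∀ g, D.Dn l F g → g = c) ∧ ((D.La l F a ∧ j + 1 = M c a ∧ k = 1) ∨
      (D.Up l F a ∧ D.Act l F a ∧ D.DefO l F a c ∧ j + k + 1 = M c a) ∨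
      (D.Up l F a ∧ D.Act l F a ∧ D.DefT l F a c ∧ j + k + 2 ≤ M c a)) := by
  have h0 : ¬ D.U.ChE M l.1 F a := fun h => by have := ht_che h; omega
  rcases hJ with h | ⟨hu, h⟩
  · obtain ⟨b, ho, ht, -⟩ := lat_top h h0
    have hd : D.Dn l F b := Low.sep (ht _ (D.hB.thru_col' ho.1 F))
      (ho.ne (D.hB.thru_col' ho.1 F)) fun h1 => by
        have := Apx.ht ⟨F, Pos.Res.refl _ _ _, h, h1⟩ ho
        omega
    obtain ⟨j, k, hp, h1, h2, h3⟩ := pos ho.swap.1 hd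
    have h4 := hp.la'.1 h
    have hm := D.cx.four _ _ hp.adj
    exact ⟨b, j, k, hp, h1, fun g => hp.only h1 (by omega) (by omega),
      Or.inl ⟨h, by omega, by omega⟩⟩
  · obtain ⟨c, hc⟩ := h.df.resolve_left h0
    obtain ⟨hd, h1⟩ := (hc.up hu).resolve_right fun h2 => by omega
    obtain ⟨j, k, hp, h2, -⟩ := pos hc.off.swap.1 hd
    refine ⟨c, j, k, hp, h2, h1, Or.inr ?_⟩
    rcases hc with hc | hc
    · refine Or.inr ⟨hu, h, hc, ?_⟩
      have h3 := hp.up'.1 hu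
      have h4 : ¬ D.Out l F a c := by
        rcases hc.2.1.2.2 with h5 | h5
        · have := h5.2.ht hc.1
          omega
        · rw [out_ant hc.1.1]
          exact (h5 _ _ _ (Pos.pl_go _ _ _ _) (D.hB.col_go_M hc.1.1 F)).1
      rw [hp.out_iff hu] at h4
      omega
    · exact Or.inl ⟨hu, h, hc, (hp.out_iff hu).1 hc.1⟩

theorem typ_ex (hF : K < D.ht l F) (hJ : D.J l F a) (hc : D.Dn l F c) :
    ∃ j k, D.Ps l F c a j k ∧ 1 ≤ j := by
  obtain ⟨c', j, k, hp, h1, h2, -⟩ := typ hF hJ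
  exact ⟨j, k, h2 c hc ▸ hp, h1⟩

theorem Ps.typ (hp : D.Ps l F c a j k) (hj : 1 ≤ j) (hF : K < D.ht l F) (hJ : D.J l F a) :
    (∀ g, D.Dn l F g → g = c) ∧ ((D.La l F a ∧ j + 1 = M c a ∧ k = 1) ∨
      (D.Up l F a ∧ D.Act l F a ∧ D.DefO l F a c ∧ j + k + 1 = M c a) ∨
      (D.Up l F a ∧ D.Act l F a ∧ D.DefT l F a c ∧ j + k + 2 ≤ M c a)) := by
  obtain ⟨c', j', k', hp', -, h2, h3⟩ := Wb.typ hF hJ
  obtain rfl := h2 c (hp.dn.2 hj)
  obtain ⟨rfl, rfl⟩ := hp.uniq hp'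
  exact ⟨h2, h3⟩

/-- small positions of active letters are on the chosen wall -/
theorem Ps.typ_t (hp : D.Ps l F c a j k) (hj : 1 ≤ j) (hF : K < D.ht l F) (hJ : D.J l F a)
    (h : j + k + 2 ≤ M c a) : D.Act l F a ∧ D.DefT l F a c := by
  rcases (hp.typ hj hF hJ).2 with h1 | h1 | h1
  · omega
  · omega
  · exact ⟨h1.2.1, h1.2.2.1⟩

theorem Ps.la_down (hp : D.Ps l F c a 1 1) : D.La l (D.U.r c F) a :=
  (hp.down le_rfl).la.2 (by omega)

theorem Ps.ht_down (hp : D.Ps l F c a j k) (hj : 1 ≤ j) : D.ht l (D.U.r c F) + 1 = D.ht l F :=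
  ht_dn (hp.dn.2 hj)

/-- a large position forces the position `(1, 0)` at the other vertices -/
theorem Ps.al {j' k' : ℕ} (hp : D.Ps l F c a j k) (hF : K + 1 < D.ht l F) (hj : 1 ≤ j)
    (h3 : 3 ≤ j + k) (hq : D.Ps l F c g j' k') (hne : g ≠ a) : j' = 1 ∧ k' = 0 := by
  have h1 := (hp.k_le hj).2 (by omega)
  have h2 := hq.dn.1 (hp.dn.2 hj)
  have h4 := hp.k12 hq hne.symm (by omega)
  have h5 : j' = 1 := by
    by_contra h6
    have := hq.k12 hp hne (by omega)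
    omega
  refine ⟨h5, by_contra fun h6 => ?_⟩
  have h7 : j = 2 := by
    by_contra h8
    have := hp.k13 hq hne.symm (by omega)
    omega
  obtain rfl : k' = 1 := by omega
  subst h5 h7
  have q1 := hp.down hj
  have h8 := hp.ht_down hj
  obtain ⟨j2, k2, q2, h9⟩ := typ_ex (by omega) (Or.inl hq.la_down) (q1.dn.2 (by omega))
  have hm := D.cx.four _ _ q2.adj
  have k4 := q2.la'.1 hq.la_down
  have k5 := (q2.k_le h9).2 (by omega)
  have := q2.k13 q1 hq.adj.1.symm (by omega)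
  omega

theorem Ps.mu_down (_hp : D.Ps l F c a j k) (h1 : D.Act l F a) (h2 : D.DefT l F a c) :
    D.Mu l (D.U.r c F) a c :=
  (mu_pl h2.1.1 ⟨D.hB.res_r h2.1.1 (Or.inr rfl) F, Same.refl _ _⟩).2 (h1.inv_t h2)

theorem Ps.t10 (hp : D.Ps l F c a 1 0) (h1 : D.Act l F a) (h2 : D.DefT l F a c) :
    D.Act l (D.U.r c F) c ∧ D.J l (D.U.r c F) a := by
  have q := hp.down le_rfl
  obtain ⟨k1, k2⟩ := q.mu0 (hp.mu_down h1 h2)
  exact ⟨k2, Or.inr ⟨q.up.2 rfl, k1⟩⟩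

theorem Ps.tmid (hp : D.Ps l F c a j k) (hF : K + 1 < D.ht l F) (hj : 2 ≤ j)
    (hu : j + k < M c a) (h2 : D.DefT l F a c) : ¬ D.Act l (D.U.r c F) c := fun h => by
  have q := hp.down (by omega)
  have h3 := hp.ht_down (by omega)
  have hs := D.hB.big.symm a c
  have h4 := (q.typ_t (by omega) (by omega) (Or.inr ⟨up_r.2 (hp.dn.2 (by omega)), h⟩) (by omega)).2
  have h5 := (h2.pl ⟨D.hB.res_r h2.1.1 (Or.inr rfl) F, Same.swap _ _⟩).1 h4
  rw [D.hB.col_r] at h5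
  exact hp.adj.1 (D.hB.x2 _ _ _ h5)

theorem Ps.big0 {a' : ι} (hp : D.Ps l F c a j k) (hF : K + 1 < D.ht l F) (hj : 1 ≤ j)
    (h3 : 3 ≤ j + k) (hJ : D.J l F a) (hJ' : D.J l F a') (hne : a' ≠ a) :
    (∀ g, D.J l F g → g ≠ a → D.J l (D.U.r c F) g) ∧ D.Act l (D.U.r c F) c ∧
      ¬ D.DefT l F a c := by
  have key : ∀ g, D.J l F g → g ≠ a → D.Act l (D.U.r c F) c ∧ D.J l (D.U.r c F) g := by
    intro g hg hne
    obtain ⟨j', k', q, -⟩ := typ_ex (by omega) hg (hp.dn.2 hj)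
    obtain ⟨rfl, rfl⟩ := hp.al hF hj h3 q hne
    have hm := D.cx.four _ _ q.adj
    obtain ⟨k1, k2⟩ := q.typ_t le_rfl (by omega) hg (by omega)
    exact q.t10 k1 k2
  refine ⟨fun g hg hne => (key g hg hne).2, (key a' hJ' hne).1, fun h => ?_⟩
  have h1 := (hp.k_le hj).2 (by omega)
  refine hp.tmid hF (by omega) (hp.up'.1 ?_) h (key a' hJ' hne).1
  exact (hJ.resolve_left h.not_la).1

theorem Ps.big {a' : ι} (hp : D.Ps l F c a j k) (hF : K + 2 < D.ht l F) (hj : 1 ≤ j)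
    (h3 : 3 ≤ j + k) (hJ : D.J l F a) (hJ' : D.J l F a') (hne : a' ≠ a) (hl : ¬ D.La l F a) :
    D.DefO l F a c ∧ M c a = 4 ∧ j + k = 3 ∧ D.DefT l (D.U.r c F) c a := by
  obtain ⟨h1, h2, h4⟩ := hp.big0 (by omega) hj h3 hJ hJ' hne
  have h5 := (hp.k_le hj).2 (by omega)
  rcases (hp.typ hj (by omega) hJ).2 with h6 | h6 | h6
  · exact (hl h6.1).elim
  swap
  · exact (h4 h6.2.2.1).elim
  have q := hp.down hj
  have h7 := hp.ht_down hj
  have hs := D.hB.big.symm a c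
  have hm := D.cx.four _ _ hp.adj
  have hc : D.J l (D.U.r c F) c := Or.inr ⟨up_r.2 (hp.dn.2 hj), h2⟩
  have h8 := (q.typ_t (by omega) (by omega) hc (by omega)).2
  have h9 : M c a = 4 := by
    by_contra h9
    exact (q.big0 (by omega) (by omega) (by omega) hc (h1 a' hJ' hne)
      fun e => hJ'.not_dn (e ▸ hp.dn.2 hj)).2.2 h8
  exact ⟨h6.2.2.1, h9, by omega, h8⟩

end Wb

end Pool.Agent.P.MP_e794d7_al.Y
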