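import Pool.Agent.P.MP_e794d7_al.Y.WB4

/-! Above a bounded height active panels do not meet. -/

set_option autoImplicit false

namespace Pool.Agent.P.MP_e794d7_al.Y

namespace Wb

variable {ι : Type} {M : ι → ι → ℕ} {K : ℕ} {T : Type} {D : Wb M K T} {l : D.Wl}
variable {F y z : D.U.X} {a a' b c g g' : ι} {j k : ℕ}

/-- a high chamber has at most one lateral letter -/
theorem la_la (hF : K + 1 < D.ht l F) (h1 : D.La l F a) (h2 : D.La l F a') : a' = a := by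
  by_contra hne
  obtain ⟨c, j, k, hp, hj, -⟩ := typ (by omega) (Or.inl h1 : D.J l F a)
  obtain ⟨j', k', hq, -⟩ := typ_ex (by omega) (Or.inl h2 : D.J l F a') (hp.dn.2 hj)
  have hm := D.cx.four _ _ hp.adj
  have h3 := hp.la'.1 h1
  have h4 := hq.la'.1 h2
  have := hp.al hF hj (by omega) hq hne
  omega

/-- the number of letters in `J` -/
noncomputable def nJ (D : Wb M K T) (l : D.Wl) (F : D.U.X) : ℕ := {a | D.J l F a}.ncard

/-- a letter of `J` with a large position -/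
def Bg (D : Wb M K T) (l : D.Wl) (F : D.U.X) : Prop :=
  ∃ a c j k, D.J l F a ∧ D.Ps l F c a j k ∧ 1 ≤ j ∧ 3 ≤ j + k

theorem two_of (h : 2 ≤ D.nJ l F) (a : ι) : ∃ a', D.J l F a' ∧ a' ≠ a := by
  have := D.fin
  obtain ⟨u, hu, v, hv, huv⟩ := (Set.one_lt_ncard (Set.toFinite _)).1 h
  by_cases e : u = a
  exacts [⟨v, hv, fun e1 => huv (e.trans e1.symm)⟩, ⟨u, hu, e⟩]

theorem nJ_big (hp : D.Ps l F c a j k) (hF : K + 1 < D.ht l F) (hj : 1 ≤ j)
    (h3 : 3 ≤ j + k) (hJ : D.J l F a) (h2 : 2 ≤ D.nJ l F) :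
    D.nJ l F ≤ D.nJ l (D.U.r c F) := by
  have := D.fin
  obtain ⟨a', hJ', hne⟩ := two_of h2 a
  obtain ⟨h4, h5, -⟩ := hp.big0 hF hj h3 hJ hJ' hne
  have hc : c ∉ {a | D.J l F a} := fun h => J.not_dn h (hp.dn.2 hj)
  rw [nJ, ← Set.ncard_exchange hc hJ]
  refine Set.ncard_le_ncard ?_ (Set.toFinite _)
  rintro g (rfl | ⟨h6, h7⟩)
  exacts [Or.inr ⟨up_r.2 (hp.dn.2 hj), h5⟩, h4 g h6 h7]

theorem small_t (hF : K < D.ht l F) (hb : ¬ D.Bg l F) (hJ : D.J l F a) (hc : D.Dn l F c) :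
    D.Act l F a ∧ D.DefT l F a c ∧
      (D.Ps l F c a 1 0 ∨ D.Ps l F c a 1 1 ∨ D.Ps l F c a 2 0) := by
  obtain ⟨j, k, hp, hj⟩ := typ_ex hF hJ hc
  have h3 : j + k ≤ 2 := by
    by_contra h
    exact hb ⟨a, c, j, k, hJ, hp, hj, by omega⟩
  have hm := D.cx.four _ _ hp.adj
  obtain ⟨h1, h2⟩ := hp.typ_t hj hF hJ (by omega)
  refine ⟨h1, h2, ?_⟩
  obtain ⟨rfl, rfl⟩ | ⟨rfl, rfl⟩ | ⟨rfl, rfl⟩ :
    (j = 1 ∧ k = 0) ∨ (j = 1 ∧ k = 1) ∨ (j = 2 ∧ k = 0) := by omega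
  exacts [Or.inl hp, Or.inr (Or.inl hp), Or.inr (Or.inr hp)]

theorem Ps.t20 (hp : D.Ps l F c a 2 0) (h1 : D.Act l F a) (h2 : D.DefT l F a c) :
    D.J l (D.U.r a (D.U.r c F)) a ∧ D.J l (D.U.r a (D.U.r c F)) c := by
  have q := (hp.down (by omega)).down le_rfl
  have hm := D.cx.four _ _ hp.adj
  obtain ⟨k1, k2⟩ := q.mu0 ((mu_pl h2.1.1 (D.hB.pl_swap' h2.1.1 (Pos.pl_r _ _ _))).2
    (hp.mu_down h1 h2))
  exact ⟨Or.inr ⟨q.up'.2 (by omega), k2⟩, Or.inr ⟨q.up.2 rfl, k1⟩⟩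

theorem t20_t20 (hF : K + 4 < D.ht l F) (hp : D.Ps l F c a 2 0) (h1 : D.Act l F a)
    (h2 : D.DefT l F a c) (hp' : D.Ps l F c a' 2 0) (h1' : D.Act l F a')
    (h2' : D.DefT l F a' c) : a' = a := by
  by_contra hne
  have hh := hp.ht_down (by omega)
  have key : ∀ a a', a' ≠ a → D.Ps l F c a 2 0 → D.Act l F a → D.DefT l F a c →
      D.Ps l F c a' 2 0 → D.DefT l (D.U.r a (D.U.r c F)) a' a ∧ M a' a = 4 := by
    intro a a' hne hp h1 h2 hp'
    obtain ⟨k1, k2⟩ := hp.t20 h1 h2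
    have q := two ((hp.down (by omega)).dn.2 le_rfl) ((hp'.down (by omega)).dn.2 le_rfl)
      (Ne.symm hne)
    have hm := D.cx.four _ _ q.adj
    have h3 := q.ht_down (by omega)
    obtain ⟨-, k3, -, k4⟩ := (q.down (by omega)).big (by omega) (by omega) (by omega) k1 k2
      hp.adj.1 fun h => by have := (q.down (by omega)).la'.1 h; omega
    exact ⟨defT_r.1 k4, k3⟩
  obtain ⟨k1, k2⟩ := key a a' hne hp h1 h2 hp'
  obtain ⟨k1', -⟩ := key a' a (Ne.symm hne) hp' h1' h2' hp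
  have hA := k1.1.1
  have hB := k1'.1.1
  have p1 : D.U.Pl (D.U.r c F) a' a (D.U.r a (D.U.r c F)) a' a :=
    ⟨D.hB.res_r hA (Or.inr rfl) _, Same.refl _ _⟩
  have p2 : D.U.Pl (D.U.r c F) a' a (D.U.r a' (D.U.r c F)) a a' :=
    ⟨D.hB.res_r hA (Or.inl rfl) _, Same.swap _ _⟩
  have h3 := (k1.pl (D.hB.pl_trans hA (D.hB.pl_symm hA p1) p2)).1 k1'
  rw [← Pos.Bas.cc_one, ← Pos.Bas.cc_one, D.hB.cc_rev hA _ 1 (by omega)] at h3
  have := D.hB.inj _ _ _ _ _ hA (by omega) (by omega) h3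
  omega

theorem t20_t11 (hF : K + 5 < D.ht l F) (hp : D.Ps l F c a 2 0) (h1 : D.Act l F a)
    (h2 : D.DefT l F a c) (hp' : D.Ps l F c a' 1 1) (h1' : D.Act l F a')
    (h2' : D.DefT l F a' c) : ∃ F', D.ht l F ≤ D.ht l F' + 4 ∧ 3 ≤ D.nJ l F' := by
  have := D.fin
  have hne : a' ≠ a := fun e => by have := hp.uniq (e ▸ hp'); omega
  have hm0 := D.cx.four _ _ hp.adj
  have hm1 := D.cx.four _ _ hp'.adj
  have n1 := hp.tmid (by omega) le_rfl (by omega) h2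
  have t1 := hp.ht_down (by omega)
  have q0 := hp.down (by omega)
  have q1 := hp'.down le_rfl
  have l1 := hp'.la_down
  have a1 : D.Act l (D.U.r a' (D.U.r c F)) c := by
    rcases q1.mu1 (hp'.mu_down h1' h2') with h | h | h
    exacts [(n1 h.1).elim, (n1 h.1).elim, h.2]
  obtain ⟨j1, j2⟩ := hp.t20 h1 h2
  generalize D.U.r c F = F1 at *
  obtain ⟨j, k, q2, hj⟩ := typ_ex (by omega) (Or.inl l1) (q0.dn.2 le_rfl)
  have hm2 := D.cx.four _ _ q2.adj
  have s2 := D.hB.big.symm a a'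
  have k1 := q2.la'.1 l1
  obtain rfl : k = 1 := by have := (q2.k_le hj).2 (by omega); omega
  have t2 := q2.ht_down hj
  have q3 := q2.down hj
  obtain ⟨b1, -, -⟩ := q3.big0 (by omega) (by omega) (by omega) j1 j2 hp.adj.1
  obtain ⟨-, m4, -, b2⟩ := q3.big (by omega) (by omega) (by omega) j1 j2 hp.adj.1
    fun h => by have := q3.la'.1 h; omega
  obtain rfl : j = 3 := by omega
  have t3 := q3.ht_down (by omega)
  have q4 := q3.down (by omega)
  have t4 := q4.ht_down le_rfl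
  have jc := b1 c j2 hp.adj.1
  have u1 : D.Up l (D.U.r a' F1) c := by
    have := q1.nf_ps1 (n := 1) (by omega) le_rfl (by have := D.hB.big.symm a' c; omega)
    rw [Pos.go_one, el_add_two a' c 0, el_zero, el_one] at this
    exact this.up'.2 (by have := D.hB.big.symm a' c; omega)
  have d1 : D.Dn l (D.U.r a' F1) a := by
    have e1 : D.U.col (D.U.r a' F1) a = D.U.cc F1 a a' 2 := by
      rw [← Pos.Bas.cc_one, D.hB.cc_rev q2.adj _ 1 (by omega)]
      congr 1; omega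
    rw [Dn, sep_r fun e => hne (D.hB.x2 _ _ _ (by rw [D.hB.col_r]; exact e)), e1,
      q2.sep 2 (by omega)]
    omega
  have t5 := ht_la (Or.inl l1)
  obtain ⟨j, k, q5, hj5⟩ := typ_ex (by omega) (Or.inl (la_r.2 l1)) d1
  have k5 := q5.la'.1 (la_r.2 l1)
  have a2 := (q5.big0 (by omega) hj5 (by omega) (Or.inl (la_r.2 l1)) (Or.inr ⟨u1, a1⟩)
    hp'.adj.1).2.1
  have t6 := q5.ht_down hj5
  have q6 := q5.down hj5
  have k6 := (q5.k_le hj5).2 (by omega)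
  have a3 : D.Act l (D.U.r a' (D.U.r a F1)) a := by
    rcases (q6.typ (by omega) (by omega) (Or.inr ⟨up_r.2 d1, a2⟩)).2 with h | h | h
    · omega
    · have := (a2.inv_o h.2.2.1).2
      rw [show M a a' = 4 by omega] at this
      simpa [Pos.go_succ, el, D.hB.rr, Nat.even_add_one] using this
    · omega
  have ja : D.J l (D.U.r a (D.U.r a' (D.U.r a F1))) a := Or.inr ⟨up_r.2 (q4.dn.2 le_rfl), a3.r⟩
  obtain ⟨j, k, q7, hj7⟩ := typ_ex (by omega) jc (q4.dn.2 le_rfl)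
  have k7 : j + k ≤ 2 := by
    by_contra h
    have := q7.al (by omega) hj7 (by omega) q4 hp'.adj.1.symm
    omega
  have hm7 := D.cx.four _ _ q7.adj
  obtain ⟨a7, b7⟩ := q7.typ_t hj7 (by omega) jc (by omega)
  obtain rfl : j = 1 := by
    by_contra h
    exact q7.tmid (by omega) (by omega) (by omega) b7 a3.r
  have jc' : D.J l (D.U.r a (D.U.r a' (D.U.r a F1))) c := by
    obtain rfl | rfl : k = 0 ∨ k = 1 := by omega
    exacts [(q7.t10 a7 b7).2, Or.inl q7.la_down]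
  refine ⟨D.U.r a (D.U.r a' (D.U.r a F1)), by omega, ?_⟩
  rw [nJ, ← Set.ncard_eq_three.2 ⟨a, a', c, hne.symm, hp.adj.1.symm, hp'.adj.1.symm, rfl⟩]
  refine Set.ncard_le_ncard ?_ (Set.toFinite _)
  rintro g (rfl | rfl | rfl)
  exacts [ja, Or.inl q4.la_down, jc']

theorem term_small (hF : K + 5 < D.ht l F) (h2 : 2 ≤ D.nJ l F) (hb : ¬ D.Bg l F) :
    ∃ F', D.ht l F ≤ D.ht l F' + 4 ∧ D.nJ l F < D.nJ l F' := by
  have := D.fin
  obtain ⟨a0, h0⟩ := Set.nonempty_of_ncard_ne_zero (show D.nJ l F ≠ 0 by omega)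
  obtain ⟨c, j0, k0, hp0, hj0, -⟩ := typ (by omega) h0
  have hc := hp0.dn.2 hj0
  have t1 := ht_dn hc
  by_cases h3 : ∃ a, D.J l F a ∧ D.Ps l F c a 2 0
  · obtain ⟨a, ja, pa⟩ := h3
    obtain ⟨a1, a2, -⟩ := small_t (by omega) hb ja hc
    have hm := D.cx.four _ _ pa.adj
    have key : ∀ g, D.J l F g → g ≠ a → D.Ps l F c g 1 1 := by
      intro g jg hne
      obtain ⟨g1, g2, h | h | h⟩ := small_t (by omega) hb jg hc
      · exact (pa.tmid (by omega) le_rfl (by omega) a2 (h.t10 g1 g2).1).elim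
      · exact h
      · exact (hne (t20_t20 (by omega) pa a1 a2 h g1 g2)).elim
    obtain ⟨a', ja', hne⟩ := two_of h2 a
    obtain ⟨b1, b2, -⟩ := small_t (by omega) hb ja' hc
    obtain ⟨F', h4, h5⟩ := t20_t11 hF pa a1 a2 (key a' ja' hne) b1 b2
    refine ⟨F', h4, lt_of_le_of_lt ?_ h5⟩
    rw [nJ, ← Set.ncard_pair hne]
    refine Set.ncard_le_ncard (fun g hg => ?_) (Set.toFinite _)
    by_cases e : g = a
    · exact Or.inr e
    · exact Or.inl (la_la (by omega) (key a' ja' hne).la_down (key g hg e).la_down)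
  have key : ∀ g, D.J l F g → (D.Act l (D.U.r c F) c ∧ D.J l (D.U.r c F) g) ∨
      D.La l (D.U.r c F) g := by
    intro g jg
    obtain ⟨g1, g2, h | h | h⟩ := small_t (by omega) hb jg hc
    exacts [Or.inl (h.t10 g1 g2), Or.inr h.la_down, (h3 ⟨g, jg, h⟩).elim]
  obtain ⟨a', ja', hne⟩ := two_of h2 a0
  have h4 : D.Act l (D.U.r c F) c := by
    rcases key a0 h0 with h | h
    · exact h.1
    rcases key a' ja' with h' | h'
    exacts [h'.1, (hne (la_la (by omega) h h')).elim]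
  refine ⟨D.U.r c F, by omega, Set.ncard_lt_ncard ⟨fun g hg => ?_, fun hs => ?_⟩ (Set.toFinite _)⟩
  · exact (key g hg).elim And.right Or.inl
  · exact J.not_dn (hs (Or.inr ⟨up_r.2 hc, h4⟩)) hc

theorem term_o (hp : D.Ps l F c a j k) (hF : K + 6 < D.ht l F) (hj : 1 ≤ j)
    (h3 : 3 ≤ j + k) (hJ : D.J l F a) (h2 : 2 ≤ D.nJ l F) (hl : ¬ D.La l F a) :
    ∃ F', D.ht l F ≤ D.ht l F' + 5 ∧ D.nJ l F < D.nJ l F' := by
  obtain ⟨a', hJ', hne⟩ := two_of h2 a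
  obtain ⟨-, -, h4, -⟩ := hp.big (by omega) hj h3 hJ hJ' hne hl
  have h5 := nJ_big hp (by omega) hj h3 hJ h2
  have t1 := hp.ht_down hj
  have k1 := (hp.k_le hj).2 (by omega)
  have q := hp.down hj
  obtain ⟨F', h6, h7⟩ := term_small (F := D.U.r c F) (by omega) (h2.trans h5) (by
    rintro ⟨b, d, j', k', jb, pb, hj', h6⟩
    obtain rfl := (pb.typ hj' (by omega) jb).1 a (q.dn.2 (by omega))
    by_cases e : c = b
    · subst e
      have := q.uniq pb; omega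
    · have := pb.al (by omega) hj' h6 q e; omega)
  exact ⟨F', by omega, by omega⟩

theorem term (hF : K + 9 ≤ D.ht l F) (h2 : 2 ≤ D.nJ l F) :
    ∃ F', D.ht l F ≤ D.ht l F' + 6 ∧ D.nJ l F < D.nJ l F' := by
  by_cases hb : D.Bg l F
  swap
  · obtain ⟨F', h3, h4⟩ := term_small (by omega) h2 hb
    exact ⟨F', by omega, h4⟩
  obtain ⟨a, c, j, k, hJ, hp, hj, h3⟩ := hb
  by_cases hl : D.La l F a
  swap
  · obtain ⟨F', h4, h5⟩ := term_o hp (by omega) hj h3 hJ h2 hl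
    exact ⟨F', by omega, h5⟩
  obtain ⟨a', hJ', hne⟩ := two_of h2 a
  have h4 := (hp.big0 (by omega) hj h3 hJ hJ' hne).2.1
  have h5 := nJ_big hp (by omega) hj h3 hJ h2
  have t1 := hp.ht_down hj
  have k1 := (hp.k_le hj).2 (by omega)
  have k2 := hp.la'.1 hl
  have hm := D.cx.four _ _ hp.adj
  have hu : D.Up l (D.U.r c F) c := up_r.2 (hp.dn.2 hj)
  obtain ⟨F', h6, h7⟩ := term_o (hp.down hj) (by omega) (by omega) (by omega) (Or.inr ⟨hu, h4⟩)
    (h2.trans h5) hu.not_la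
  exact ⟨F', by omega, by omega⟩

theorem jb (hF : H0 ι K ≤ D.ht l F) (h1 : D.J l F a) (h2 : D.J l F a') : a' = a := by
  have := D.fin
  have key : ∀ n F, K + 9 + 6 * n ≤ D.ht l F → 2 ≤ D.nJ l F → D.nJ l F + n < Nat.card ι := by
    intro n
    induction n with
    | zero =>
      intro F h3 h4
      obtain ⟨F', -, h5⟩ := term h3 h4
      have : D.nJ l F' ≤ Nat.card ι := Set.ncard_le_card {a | D.J l F' a}
      omega
    | succ n ih =>
      intro F h3 h4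
      obtain ⟨F', h5, h6⟩ := term (by omega) h4
      have := ih F' (by omega) (by omega)
      omega
  by_contra hne
  have := key _ F hF ((Set.one_lt_ncard (Set.toFinite _)).2 ⟨a', h2, a, h1, hne⟩)
  omega

theorem Mu.ht_bot (h : D.Mu l y a b) (ho : D.Off l y a b) (hz : D.U.Res y a b z)
    (hb : D.Bot l z a b) : D.ht l z < H0 ι K := by
  obtain ⟨x, g, g', k, hp, hn, hk, h2⟩ := nf ho
  have hg := hn.adj
  have hm := D.cx.four _ _ hg
  have h1 := (mu_pl ho.1 hp).2 h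
  rw [← bot_ht hg ((D.hB.pl_res ho.1 hp).2 hz) (hn.bot.2 rfl) ((bot_same ho.1 hp.2).2 hb)]
  by_contra h3
  push Not at h3
  obtain rfl | rfl | rfl : k = 0 ∨ k = 1 ∨ k = 2 := by omega
  · obtain ⟨k1, k2⟩ := hn.mu0 h1
    exact hg.1 (jb h3 (Or.inr ⟨hn.up'.2 (by omega), k2⟩) (Or.inr ⟨hn.up.2 rfl, k1⟩))
  · have l1 := hn.la.2 (by omega)
    have k1 : ¬ D.Act l x g' := fun h4 =>
      hg.1 (jb h3 (Or.inr ⟨hn.up'.2 (by omega), h4⟩) (Or.inl l1))
    have k2 : ¬ D.Act l (D.U.r g x) g' := fun h4 => by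
      have := hn.nf_ps1 (n := 1) (by omega) le_rfl (by omega)
      rw [Pos.go_one, el_add_two g g' 0, el_zero, el_one] at this
      exact hg.1 (jb (by rwa [ht_la (Or.inl l1)]) (Or.inr ⟨this.up'.2 (by omega), h4⟩)
        (Or.inl (la_r.2 l1)))
    rcases hn.mu1 h1 with h4 | h4 | h4
    exacts [k1 h4.1, k1 h4.1, k2 h4.2]
  · have := (h2 rfl).ht
    rw [ht_la (Or.inl (hn.la.2 (by omega)))] at this
    rw [H0] at h3
    omega

theorem ex_bot (ho : D.Off l y a b) : ∃ z, D.U.Res y a b z ∧ D.Bot l z a b := by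
  obtain ⟨x, g, g', k, hp, hn, -⟩ := nf ho
  exact ⟨x, hp.1, (bot_same ho.1 hp.2).1 (hn.bot.2 rfl)⟩

theorem Mu.ht (h : D.Mu l y a b) (ho : D.Off l y a b) : D.ht l y < H0 ι K + K := by
  obtain ⟨z, hz, hb⟩ := ex_bot ho
  have h1 := h.ht_bot ho hz hb
  have h2 := ht_res (l := l) ho.1 hz
  omega

theorem Mu.lo (h : D.Mu l y a b) (ho : D.Off l y a b) : D.Lo l y a b := fun z hz hb => by
  have := h.ht_bot ho hz hb
  rw [Hc]
  omega

theorem Act.ht (h : D.Act l y a) : D.ht l y ≤ Hc ι K + K := by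
  rcases h.cases with h1 | ⟨b, h1, h2⟩ | ⟨b, h1, h2, -⟩
  · rw [ht_che h1]; omega
  · have := h2.ht h1.1
    rw [Hc]
    omega
  · obtain ⟨z, hz, hb⟩ := ex_bot h1.1.1
    have h3 := h2 z hz hb
    have h4 := ht_res (l := l) h1.1.1.1 hz
    omega

end Wb

end Pool.Agent.P.MP_e794d7_al.Y
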