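import Pool.Agent.P.MP_e794d7_al.Y.WB5

/-! The walls of the caps meet nothing else. -/

set_option autoImplicit false

namespace Pool.Agent.P.MP_e794d7_al.Y

namespace Wb

variable {ι : Type} {M : ι → ι → ℕ} {K : ℕ} {T : Type} {D : Wb M K T} {l : D.Wl}
variable {F w x y z : D.U.X} {a a' b b' c g g' s : ι} {j k : ℕ} {σ : D.U.Col}

theorem h0_ge : K + 9 ≤ H0 ι K := by rw [H0]; omega

theorem Ps.typ2 (hp : D.Ps l F c a j k) (hj : 1 ≤ j) (hF : H0 ι K + K ≤ D.ht l F)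
    (hJ : D.J l F a) : 3 ≤ j + k ∧ (D.Up l F a → j + k + 1 = M c a) := by
  have h0 := h0_ge (ι := ι) (K := K)
  have hm := D.cx.four _ _ hp.adj
  rcases (hp.typ hj (by omega) hJ).2 with h | h | h
  · exact ⟨by omega, fun hu => (hu.not_la h.1).elim⟩
  · exact ⟨by omega, fun _ => h.2.2.2⟩
  · have := (h.2.1.inv_t h.2.2.1).ht h.2.2.1.1
    omega

theorem Ps.al2 (hp : D.Ps l F c a j k) (hj : 1 ≤ j) (h3 : 3 ≤ j + k)
    (hF : H0 ι K + K + 1 ≤ D.ht l F) (hJ : D.J l (D.U.r c F) g) : g = c := by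
  have h0 := h0_ge (ι := ι) (K := K)
  by_contra hne
  have t1 := hp.ht_down hj
  have k1 := (hp.k_le hj).2 (by omega)
  have q := hp.down hj
  obtain ⟨j', k', q', hj'⟩ := typ_ex (by omega) hJ (q.dn.2 (by omega))
  have := q'.al (by omega) hj' (q'.typ2 hj' (by omega) hJ).1 q (Ne.symm hne)
  omega

theorem Out.act (h : D.Out l y a b) (h1 : D.Act l y a) : D.Mu l y a b ∨
    (D.DefO l y a b ∧ D.Act l (D.U.go y a b (M a b)) (el a b (M a b))) := by
  by_cases h2 : D.DefT l y a b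
  exacts [Or.inl (h1.inv_t h2), Or.inr ⟨⟨h, h2⟩, (h1.inv_o ⟨h, h2⟩).2⟩]

theorem ant_ant (hab : Adj M a b) (y : D.U.X) :
    D.U.go (D.U.go y a b (M a b)) (el a b (M a b)) (el a b (M a b + 1))
        (M (el a b (M a b)) (el a b (M a b + 1))) = y ∧
      el (el a b (M a b)) (el a b (M a b + 1)) (M (el a b (M a b)) (el a b (M a b + 1))) = a := by
  rw [D.hB.big.M_el, ← Pos.go_add, ← two_mul, D.hB.go_two hab, el_el,
    el_congr a b (n' := 0) (by omega), el_zero]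
  exact ⟨rfl, rfl⟩

theorem In.act_ant (h : D.In l y a b) (h1 : D.Act l (D.U.go y a b (M a b)) (el a b (M a b))) :
    D.Act l y a ∨ D.Mu l y a b := by
  rcases ((in_ant h.1.1).1 h).act h1 with h2 | h2
  · exact Or.inr ((mu_pl h.1.1 (Pos.pl_go _ _ _ _)).1 h2)
  · have h3 := h2.2
    rw [(ant_ant h.1.1 y).1, (ant_ant h.1.1 y).2] at h3
    exact Or.inl h3

/-- two active panels of a highest chamber -/
theorem top_act (ho : D.Off l F a b) (ht : D.Top l F a b) (h1 : D.Act l F a) (h2 : D.Act l F b) :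
    D.Mu l F a b := by
  have hab := ho.1
  have hba := ho.swap.1
  rcases Out.act ⟨ho, Or.inl ht⟩ h1 with h3 | h3
  · exact h3
  rcases Out.act ⟨ho.swap, Or.inl ((top_same hab (Same.swap _ _)).2 ht)⟩ h2 with h4 | h4
  · exact (mu_pl hab (Pos.Pl.swap _ _ _)).1 h4
  exact ⟨_, _, _, _, _, _, Pos.pl_go _ _ _ _,
    D.hB.pl_trans hab (Pos.Pl.swap _ _ _) (Pos.pl_go _ _ _ _), (defO_ant hab).1 h3.1,
    (defO_ant hba).1 h4.1, by
      rw [D.hB.col_go_M hab, D.hB.col_go_M hba]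
      exact fun e => hab.1 (D.hB.x2 _ _ _ e), h3.2, h4.2⟩

/-- a vertex without lateral walls whose inputs are not active -/
theorem Ps.quiet (hp : D.Ps l F g g' 0 0) (h1 : ¬ D.Act l F g) (h2 : ¬ D.Act l F g')
    (hz : D.U.Pl F g g' z a b) : ¬ D.Act l z a := by
  have hg := hp.adj
  have key : ∀ z a b, D.U.Pl F g g' z a b → D.In l z a b → ¬ D.Act l z a := by
    intro z a b hz h3 h4
    obtain ⟨n, m1, -, -, -, -, m3⟩ := pl_ind (p := fun y a b => D.In l y a b ∧ D.Act l y a)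
      (fun _ _ _ => by rw [in_r, act_r]) hg hz
    obtain ⟨k1, k2⟩ := m3.1 ⟨h3, h4⟩
    rw [hp.nf_in (by omega) m1] at k1
    obtain rfl | rfl : n = 0 ∨ n = 2 * M g g' - 1 := by omega
    · exact h1 (by simpa using k2)
    · rw [(go_last hg F).1, (go_last hg F).2, act_r] at k2
      exact h2 k2
  intro h
  rcases h.role (hp.off.pl hz) with h3 | h3 | h3
  · exact key _ _ _ hz h3.1 h
  · exact h1 (hp.mu0 ((mu_pl hg hz).1 (h.inv_t h3))).1
  · exact key _ _ _ (D.hB.pl_trans hg hz (Pos.pl_go _ _ _ _)) ((out_ant h3.1.1.1).1 h3.1)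
      (h.inv_o h3).2

/-- a cap in normal form -/
structure CpN (D : Wb M K T) (l : D.Wl) (x : D.U.X) (a b : ι) (k : ℕ) : Prop where
  ps : D.Ps l x a b 0 k
  k1 : k ≤ 1
  hi : Hc ι K ≤ D.ht l x
  act : D.Act l x a

theorem Cp.nf (h : D.Cp l w a b) : ∃ x k, (x = w ∨ x = D.U.r a w) ∧ D.CpN l x a b k := by
  obtain ⟨h1, h2, h3⟩ := h
  have hab := h1.1.1
  have h0 := h0_ge (ι := ι) (K := K)
  obtain ⟨x, g, g', k, hp, hn, hk, h4⟩ := Wb.nf h1.1
  have hg := hn.adj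
  have hm := D.cx.four _ _ hg
  have hi : Hc ι K ≤ D.ht l x := by
    rw [Lo] at h3
    push Not at h3
    obtain ⟨z, hz, hb, h5⟩ := h3
    rwa [bot_ht hg ((D.hB.pl_res hab hp).2 hz) (hn.bot.2 rfl) ((bot_same hab hp.2).2 hb)]
  have hi' : H0 ι K ≤ D.ht l x := by rw [Hc] at hi; omega
  have k1 : k ≤ 1 := by
    by_contra h5
    have := (h4 (by omega)).ht
    rw [ht_la (Or.inl (hn.la.2 (by omega)))] at this
    omega
  obtain ⟨n, m1, rfl, rfl, m2, -, m3⟩ := pl_ind (p := fun y a b => D.In l y a b ∧ D.Act l y a)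
    (fun _ _ _ => by rw [in_r, act_r]) hg (D.hB.pl_symm hab hp)
  obtain ⟨i1, i2⟩ := m3.1 ⟨h1, h2⟩
  rw [hn.nf_in hk m1] at i1
  obtain rfl | ⟨rfl, rfl⟩ | rfl : n = 0 ∨ (n = 1 ∧ k = 1) ∨ n = 2 * M g g' - 1 := by omega
  · simp only [Pos.go_zero, zero_add, Pos.go_one, el_zero, el_one] at m2 i2 ⊢
    refine ⟨x, k, ?_, hn, k1, hi, i2⟩
    rcases m2 with rfl | rfl
    exacts [Or.inl rfl, Or.inr (D.hB.rr _ _).symm]
  · have l1 := hn.la.2 (by omega)
    have := hn.nf_ps1 (n := 1) (by omega) le_rfl (by omega)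
    rw [Pos.go_one, el_add_two g g' 0, el_zero, el_one] at this
    rw [Pos.go_one, el_one] at i2
    exact (hg.1 (jb (by rwa [ht_la (Or.inl l1)]) (Or.inr ⟨this.up'.2 (by omega), i2⟩)
      (Or.inl (la_r.2 l1)))).elim
  · obtain ⟨e1, e2⟩ := go_last hg x
    rw [e1, e2, act_r] at i2
    have e3 : 2 * M g g' - 1 + 1 = 2 * M g g' := by omega
    rw [e1, e3, D.hB.go_two hg] at m2
    rw [e2, e3, el_congr g g' (n' := 0) (by omega), el_zero]
    obtain rfl : k = 0 := by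
      by_contra h5
      exact hg.1 (jb hi' (Or.inr ⟨hn.up'.2 (by omega), i2⟩) (Or.inl (hn.la.2 (by omega))))
    refine ⟨x, 0, ?_, by simpa using hn.nf_back hk, k1, hi, i2⟩
    rcases m2 with rfl | rfl
    exacts [Or.inr (D.hB.rr _ _).symm, Or.inl rfl]

/-- the lower chamber of a panel of the wall of a cap at the vertex of the cap -/
structure Ini (D : Wb M K T) (l : D.Wl) (F : D.U.X) (c s : ι) (j k : ℕ) : Prop where
  one : j = 1 → D.J l (D.U.r c F) s ∧ D.Act l (D.U.r c F) s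
  two : j = 2 → k = 0 → D.Act l (D.U.r s (D.U.r c F)) s ∨ D.Act l (D.U.r s (D.U.r c F)) c

/-- the lower chamber of a panel of the wall of a cap -/
structure Cw (D : Wb M K T) (l : D.Wl) (x : D.U.X) (a b : ι) (F : D.U.X) (c s : ι) (j k : ℕ) :
    Prop where
  ps : D.Ps l F c s j k
  j1 : 1 ≤ j
  only : ∀ g, D.Dn l F g → g = c
  nact : ¬ D.Act l F s
  hi : Hc ι K ≤ D.ht l F
  ty : j + k + 1 = M c s ∨ (D.U.Pl x a b F s c ∧ D.Ini l F c s j k)

namespace CpN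

variable (h : D.CpN l x a b k)
include h

theorem adj : Adj M a b := h.ps.adj

theorem not_mu : ¬ D.Mu l x a b := fun hm => by
  have h1 := hm.ht_bot h.ps.off (Pos.Res.refl _ _ _) (h.ps.bot.2 rfl)
  have h2 := h.hi
  rw [Hc] at h2
  omega

theorem ip : D.Ip l x a b :=
  ⟨⟨h.ps.off, Or.inl (h.ps.bot.2 rfl)⟩, fun h1 => h.not_mu (h.act.inv_t h1)⟩

theorem lat0 {τ : D.U.Col} (ht : D.U.Thru x a b τ) (hl : D.Lat l τ) : τ = D.U.col x a := by
  obtain ⟨n, hn, rfl⟩ := D.hB.thru_lt h.adj ht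
  have h1 := (h.ps.lat n hn).1 hl
  have h2 := h.k1
  rw [show n = 0 by omega, Pos.cc_zero]

theorem act0 (hz : D.U.Pl x a b z g g') (h1 : D.Act l z g) :
    g = a ∧ g' = b ∧ (z = x ∨ z = D.U.r a x) := by
  have hm := D.cx.four _ _ h.adj
  have k1 := h.k1
  rcases h1.role (h.ps.off.pl hz) with h3 | h3 | h3
  · have h4 : D.U.col z g = D.U.col x a := by
      by_contra h4
      exact h.not_mu ⟨_, _, _, _, _, _, hz, Pos.Pl.refl _ _ _, h3, h.ip, h4, h1, h.act⟩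
    obtain ⟨n, m1, rfl, rfl, m2, m3, m4⟩ := pl_ind (p := D.In l) (fun _ _ _ => in_r) h.adj hz
    have h5 := m4.1 h3.1
    rw [h.ps.nf_in (by omega) m1] at h5
    rw [m3, ← Pos.cc_zero x a b, D.hB.cc_eq_iff h.adj, Nat.zero_mod] at h4
    obtain rfl : n = 0 := by
      rcases h5 with h5 | h5
      · rwa [Nat.mod_eq_of_lt (by omega)] at h4
      · rw [Nat.mod_eq_sub_mod (by omega), Nat.mod_eq_of_lt (by omega)] at h4; omega
    simpa using m2
  · exact (h.not_mu ((mu_pl h.adj hz).1 (h1.inv_t h3))).elim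
  · have := (lo_pl h.adj hz).1 (h1.inv_o h3).1 x (Pos.Res.refl _ _ _) (h.ps.bot.2 rfl)
    have h2 := h.hi
    omega

variable (hσ : D.U.Mid M x a b σ)
include hσ

theorem vert : σ ≠ l.1 ∧ ¬ D.Lat l σ :=
  ⟨h.ps.off.ne hσ.thru, fun h1 => D.hB.mid_ne h.adj hσ (Or.inl rfl) (h.lat0 hσ.thru h1)⟩

theorem up_of (hc : D.U.col y s = σ) : D.Up l y s ∨ D.Up l (D.U.r s y) s := by
  rcases four_cases (l := l) y s with h1 | h1 | h1 | h1
  · exact ((h.vert hσ).1 (hc ▸ h1)).elim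
  · exact ((h.vert hσ).2 (hc ▸ h1)).elim
  · exact Or.inr (up_r.2 h1)
  · exact Or.inl h1

theorem ini (hp : D.U.Pl x a b F s c) (hc : D.U.col F s = σ) (hu : D.Up l F s) :
    ∃ j k, D.Cw l x a b F c s j k := by
  have hab := h.adj
  have k1 := h.k1
  have h0 := h0_ge (ι := ι) (K := K)
  have hi : Hc ι K ≤ D.ht l F := h.hi.trans (bot_le hp.1 (h.ps.bot.2 rfl))
  have na : ¬ D.Act l F s := fun h1 => by
    obtain ⟨rfl, -, h2⟩ := h.act0 hp h1
    refine D.hB.mid_ne hab hσ (Or.inl rfl) ?_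
    rcases h2 with rfl | rfl
    exacts [hc.symm, by rw [← hc, D.hB.col_r]]
  have fin : ∀ j, D.Ps l F c s j k → 1 ≤ j → j < M c s → D.Ini l F c s j k →
      ∃ j k, D.Cw l x a b F c s j k := by
    intro j q hj hj' hI
    refine ⟨j, k, q, hj, fun g hg => ?_, na, hi, Or.inr ⟨hp, hI⟩⟩
    by_cases h1 : 2 ≤ j + k
    · exact q.only hj h1 hj' hg
    by_contra hne
    have q2 := two (q.dn.2 hj) hg (Ne.symm hne)
    have hm := D.cx.four _ _ q2.adj
    exact q.adj.1 (q2.al2 (by omega) (by omega) (by rw [Hc] at hi; omega) (hI.one (by omega)).1).symm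
  have jx : D.J l x a := by
    by_cases h1 : k = 0
    exacts [Or.inr ⟨h.ps.up.2 (by omega), h.act⟩, Or.inl (h.ps.la.2 (by omega))]
  obtain ⟨i, i1, i2, rfl⟩ := hσ
  obtain ⟨n, m1, rfl, rfl, m2, m3, -⟩ := pl_ind (p := fun _ _ _ => True) (fun _ _ _ => Iff.rfl)
    hab hp
  rw [Up, hc] at hu
  rw [m3, D.hB.cc_eq_iff hab, Nat.mod_eq_of_lt (show i < M a b by omega)] at hc
  have m5 : n = i ∨ n = i + M a b := by
    rcases Nat.lt_or_ge n (M a b) with h1 | h1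
    · rw [Nat.mod_eq_of_lt h1] at hc; omega
    · rw [Nat.mod_eq_sub_mod h1, Nat.mod_eq_of_lt (by omega)] at hc; omega
  have hM := D.hB.big.M_el a b n
  have hs := D.hB.big.symm (el a b n) (el a b (n + 1))
  rcases m5 with rfl | rfl <;> rcases m2 with rfl | rfl
  · refine fin _ (h.ps.nf_ps1 (by omega) (by omega) (by omega)) (by omega) (by omega)
      ⟨fun e => ?_, fun e e' => ?_⟩
    · obtain rfl : n = 2 := by omega
      have e1 : D.U.r (el a b (2 + 1)) (D.U.go x a b 2) = D.U.r a x := by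
        simp [Pos.go_succ, el, D.hB.rr, Nat.even_add_one]
      rw [e1, el_add_two a b 0, el_zero]
      exact ⟨Or.inl (la_r.2 (h.ps.la.2 (by omega))), h.act.r⟩
    · obtain rfl : n = 2 := by omega
      have e1 : D.U.r (el a b 2) (D.U.r (el a b (2 + 1)) (D.U.go x a b 2)) = x := by
        simp [Pos.go_succ, el, D.hB.rr, Nat.even_add_one]
      rw [e1, el_add_two a b 0, el_zero]
      exact Or.inl h.act
  · rw [h.ps.nf_low (by omega) (by omega)] at hu; omega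
  · rw [h.ps.nf_low (by omega) (by omega)] at hu; omega
  · have q := h.ps.nf_ps2 (n := i + M a b + 1) (by omega) (by omega)
    rw [el_add_two] at q
    refine fin _ q (by omega) (by omega) ⟨fun e => ?_, fun e e' => ?_⟩
    · rw [show i + M a b + 1 = 2 * M a b - 1 by omega, (go_last hab x).1, (go_last hab x).2,
        D.hB.rr, el_congr a b (n' := 0) (by omega), el_zero]
      exact ⟨jx, h.act⟩
    · have e1 := D.hB.go_rev hab x 2 (by omega)
      rw [show 2 * M a b - 2 = i + M a b + 1 by omega] at e1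
      rw [← e1, el_congr a b (n := i + M a b) (n' := 1) (by omega),
        el_congr a b (n := i + M a b + 1) (n' := 0) (by omega)]
      simpa [Pos.go_succ, el, D.hB.rr, Nat.even_add_one] using Or.inr h.act

theorem cw (hc : D.U.col F s = σ) (hu : D.Up l F s) : ∃ c j k, D.Cw l x a b F c s j k := by
  have hab := h.adj
  have h0 := h0_ge (ι := ι) (K := K)
  have key : ∀ y u, Rch M D.U D.e F s y u → D.Up l y u →
      ((∃ c, D.U.Pl x a b y u c) ∨ ∃ c, D.Out l y u c ∧ ¬ D.Act l y u ∧ Hc ι K ≤ D.ht l y ∧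
        D.e F (D.U.col y c) = D.e y (D.U.col y c)) → ∃ c j k, D.Cw l x a b F c s j k := by
    intro y u hr
    induction hr with
    | base =>
      rintro - (⟨c, hp⟩ | ⟨c, h1, h2, h3, -⟩)
      · exact ⟨c, h.ini hσ hp hc hu⟩
      · obtain ⟨j, k, q, -⟩ := hu.ps h1.1.1
        obtain ⟨h4, h5⟩ := ox h1 hu
        exact ⟨c, j, k, q, q.dn.1 h4, h5, h2, h3, Or.inl ((q.out_iff hu).1 h1)⟩
    | step y u b1 hb hs hr ih =>
      intro hy hI
      have e1 := D.hB.col_go_M' hb y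
      have hcy : D.U.col y u = σ := by rw [← e1, Cx.rch_col D.hB hr, hc]
      have hp1 := Pos.pl_go' y u b1 (M u b1)
      refine ih (by rw [Up, e1, low_congr (D.cx.e_op' hb (Or.inr rfl))]; exact hy) ?_
      have up : ¬ D.Dn l y b1 → ¬ D.Act l y u → Hc ι K ≤ D.ht l y →
          ∃ c, D.Out l (D.U.go y u b1 (M u b1 + 1)) (el u b1 (M u b1)) c ∧
            ¬ D.Act l (D.U.go y u b1 (M u b1 + 1)) (el u b1 (M u b1)) ∧
            Hc ι K ≤ D.ht l (D.U.go y u b1 (M u b1 + 1)) ∧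
            D.e F (D.U.col (D.U.go y u b1 (M u b1 + 1)) c) =
              D.e (D.U.go y u b1 (M u b1 + 1)) (D.U.col (D.U.go y u b1 (M u b1 + 1)) c) := by
        intro h1 h2 h3
        have h4 := (in_iff hy hb).2 h1
        have h5 : D.Bot l y u b1 := h4.2.resolve_right fun h6 =>
          h6 _ (Pos.thru_col _ _ _) (dn_r.2 hy)
        refine ⟨_, ((in_ant hb).1 h4).r, fun h6 => ?_, h3.trans (bot_le hp1.1 h5),
          D.cx.rch_back hb hs (D.hB.pl_col hb (D.hB.pl_swap' hb hp1)) fun e => ?_⟩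
        · rcases h4.act_ant (act_r.1 h6) with h7 | h7
          · exact h2 h7
          · have := h7.ht_bot h4.1 (Pos.Res.refl _ _ _) h5
            rw [Hc] at h3
            omega
        · exact (D.hB.pl_adj hb hp1).1 (D.hB.x2 _ _ _ (e1.trans e.symm))
      rcases hI with ⟨c, hp⟩ | ⟨c, h1, h2, h3, h4⟩
      · by_cases e : b1 = c
        · subst e
          exact Or.inl ⟨_, D.hB.pl_trans hab hp hp1⟩
        · obtain ⟨j, k, q⟩ := h.ini hσ hp hcy hy
          exact Or.inr (up (fun h1 => e (q.only _ h1)) q.nact q.hi)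
      · refine Or.inr (up (fun h5 => ?_) h2 h3)
        obtain rfl := (ox h1 hy).2 _ h5
        exact hs _ (D.hB.thru_col' hb y) (fun e => hb.1 (D.hB.x2 _ _ _ e).symm) h4
  obtain ⟨y, u, c, hp, h1, h2⟩ : ∃ y u c, D.U.Pl x a b y u c ∧ D.U.col y u = σ ∧ D.Up l y u := by
    obtain ⟨n, hn⟩ := hσ.thru
    rcases h.up_of hσ hn with h1 | h1
    · exact ⟨_, _, _, Pos.pl_go x a b n, hn, h1⟩
    · exact ⟨_, _, _, Pos.pl_go' x a b n, by rw [D.hB.col_go_succ, hn], h1⟩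
  refine key y u (D.cx.conn (h1.trans hc.symm) ?_) h2 (Or.inl ⟨c, hp⟩)
  by_contra h3
  rw [Up, hc, ← h1, ← sep_flip h3] at hu
  exact h2 hu.low

/-- the other vertices of the wall of a cap -/
theorem other (hab' : Adj M a' b') (ht : D.U.Thru y a' b' σ) : D.U.Pl x a b y a' b' ∨
    ∃ F s b1 c j k, D.U.Pl y a' b' F s b1 ∧ D.U.col F s = σ ∧ D.Cw l x a b F c s j k ∧
      D.Ps l F b1 s 0 0 ∧ ¬ D.Act l F b1 := by
  have h0 := h0_ge (ι := ι) (K := K)
  have key : ∀ z g g', D.U.Pl y a' b' z g g' → D.U.col z g = σ → ∃ F, D.U.Pl y a' b' F g g' ∧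
      D.U.col F g = σ ∧ D.Up l F g ∧ (D.In l z g g' → D.In l F g g') := by
    intro z g g' hp hc
    rcases h.up_of hσ hc with h1 | h1
    exacts [⟨z, hp, hc, h1, id⟩, ⟨_, D.hB.pl_r' hab' hp, by rw [D.hB.col_r, hc], h1, In.r⟩]
  by_cases hv : D.U.Pl x a b y a' b'
  · exact Or.inl hv
  obtain ⟨F, s, b1, hp, hc, hu, hi⟩ : ∃ F s b1, D.U.Pl y a' b' F s b1 ∧ D.U.col F s = σ ∧
      D.Up l F s ∧ D.In l F s b1 := by
    obtain ⟨n, hn⟩ := ht
    obtain ⟨F, hp, hc, hu, -⟩ := key _ _ _ (Pos.pl_go y a' b' n) hn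
    have hg := D.hB.pl_adj hab' hp
    obtain ⟨c, j, k, q⟩ := h.cw hσ hc hu
    by_cases e : D.Dn l F (el a' b' (n + 1))
    swap
    · exact ⟨F, _, _, hp, hc, hu, (in_iff hu hg).2 e⟩
    obtain rfl := q.only _ e
    rcases q.ty with h1 | h1
    · obtain ⟨F', hp', hc', hu', h2⟩ := key _ _ _ (D.hB.pl_trans hab' hp (Pos.pl_go _ _ _ _))
        ((D.hB.col_go_M hg F).trans hc)
      exact ⟨F', _, _, hp', hc', hu', h2 ((out_ant hg).1 ((q.ps.out_iff hu).2 h1))⟩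
    · exact (hv (D.hB.pl_trans h.adj h1.1 (D.hB.pl_symm hab' hp))).elim
  have hg := hi.1.1
  obtain ⟨c, j, k, q⟩ := h.cw hσ hc hu
  have hh := q.hi
  rw [Hc] at hh
  have nd := (in_iff hu hg).1 hi
  have nj : ¬ D.J l F b1 := fun hJ => by
    obtain ⟨j', k', q', hj'⟩ := typ_ex (by omega) hJ (q.ps.dn.2 q.j1)
    have h1 := (q'.typ2 hj' (by omega) hJ).1
    have h2 := q'.al (by omega) hj' h1 q.ps hg.1
    have hm := D.cx.four _ _ q.ps.adj
    rcases q.ty with h3 | h3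
    · omega
    · exact q.ps.adj.1 (q'.al2 hj' h1 (by omega) (h3.2.one h2.1).1).symm
  have u1 : D.Up l F b1 := by
    rcases four_cases (l := l) F b1 with h1 | h1 | h1 | h1
    exacts [(hi.1.ne (D.hB.thru_col' hg F) h1).elim, (nj (Or.inl h1)).elim, (nd h1).elim, h1]
  obtain ⟨j0, k0, q0, -⟩ := hu.ps hg
  have h1 := q0.up.1 u1
  refine Or.inr ⟨F, s, b1, c, j, k, hp, hc, q, ?_, fun h2 => nj (Or.inr ⟨u1, h2⟩)⟩
  rwa [show j0 = 0 by omega, show k0 = 0 by omega] at q0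

theorem d6a (hab' : Adj M a' b') (ht : D.U.Thru y a' b' σ) {τ : D.U.Col}
    (h1 : D.U.Thru y a' b' τ) (h2 : D.Lat l τ) : τ = D.U.col x a := by
  rcases h.other hσ hab' ht with h3 | ⟨F, s, b1, c, j, k, hp, -, -, q, -⟩
  · exact h.lat0 ((D.hB.pl_thru h.adj h3).1 h1) h2
  · obtain ⟨n, hn, rfl⟩ := D.hB.thru_lt q.adj
      ((D.hB.pl_thru hab' (D.hB.pl_swap' hab' hp)).2 h1)
    have := (q.lat n hn).1 h2
    omega

theorem d6b (hab' : Adj M a' b') (ht : D.U.Thru y a' b' σ) (h1 : D.Act l y a') :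
    a' = a ∧ b' = b ∧ (y = x ∨ y = D.U.r a x) := by
  rcases h.other hσ hab' ht with h3 | ⟨F, s, b1, c, j, k, hp, -, q, q0, h3⟩
  · exact h.act0 h3 h1
  · exact (q0.quiet h3 q.nact (D.hB.pl_symm hab' (D.hB.pl_swap' hab' hp)) h1).elim

end CpN

theorem cw_cw {x' : D.U.X} {s' : ι} {j' k' : ℕ} (q : D.Cw l x a b F c s j k)
    (q' : D.Cw l x' a' b' F c s' j' k') (hs : Adj M s s') : False := by
  have h0 := h0_ge (ι := ι) (K := K)
  have hh := q.hi
  rw [Hc] at hh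
  have small : ∀ {x x' : D.U.X} {a b a' b' s s' : ι} {j k j' k' : ℕ}, D.Cw l x a b F c s j k →
      D.Cw l x' a' b' F c s' j' k' → s ≠ s' → j + k ≤ 2 := by
    intro x x' a b a' b' s s' j k j' k' q q' hne
    by_contra h1
    have h2 := q.ps.al (by omega) q.j1 (by omega) q'.ps hne.symm
    have hm := D.cx.four _ _ q'.ps.adj
    rcases q'.ty with h3 | h3
    · omega
    · exact q'.ps.adj.1 (q.ps.al2 q.j1 (by omega) (by omega) (h3.2.one h2.1).1).symm
  have s1 := small q q' hs.1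
  have s2 := small q' q hs.1.symm
  have m1 := D.cx.four _ _ q.ps.adj
  have m2 := D.cx.four _ _ q'.ps.adj
  have i1 := (q.ty.resolve_left (by omega)).2
  have i2 := (q'.ty.resolve_left (by omega)).2
  have j1 := q.j1
  have j2 := q'.j1
  have t1 := q.ps.ht_down j1
  have step : ∀ {s s' : ι} {j' k' : ℕ}, D.Ps l F c s 2 0 → D.Ini l F c s 2 0 →
      D.Ps l (D.U.r c F) s s' j' k' → 1 ≤ j' → 3 ≤ j' + k' → D.Act l (D.U.r c F) s := by
    intro s s' j' k' p i p' h1 h2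
    rcases i.two rfl rfl with h3 | h3
    · exact act_r.1 h3
    · exact (p.adj.1 (p'.al2 h1 h2 (by omega)
        (Or.inr ⟨((p.down (by omega)).down le_rfl).up.2 rfl, h3⟩))).elim
  have mixed : ∀ {s s' : ι} {k' : ℕ}, Adj M s s' → D.Ps l F c s 2 0 → D.Ini l F c s 2 0 →
      D.Ini l F c s' 1 k' → False := by
    intro s s' k' hs p i i'
    obtain ⟨h1, h2⟩ := i'.one rfl
    obtain ⟨j2, k2, p2, h3⟩ := typ_ex (by omega) h1 ((p.down (by omega)).dn.2 le_rfl)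
    have h4 := (p2.typ2 h3 (by omega) h1).1
    have h5 := step p i p2 h3 h4
    have h6 := (p2.k_le h3).2 (by omega)
    have t2 := p2.ht_down h3
    have u := up_r.2 (p2.dn.2 h3)
    have h7 := ((p2.down h3).typ2 (by omega) (by omega) (Or.inr ⟨u, h5.r⟩)).2 u
    have h8 := D.hB.big.symm s s'
    have := (top_act p2.off (p2.top.2 (by omega)) h5 h2).ht p2.off
    omega
  obtain rfl | ⟨rfl, rfl⟩ : j = 1 ∨ (j = 2 ∧ k = 0) := by omega
  · obtain rfl | ⟨rfl, rfl⟩ : j' = 1 ∨ (j' = 2 ∧ k' = 0) := by omega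
    · exact hs.1 (jb (by omega) (i2.one rfl).1 (i1.one rfl).1)
    · exact mixed (D.hB.big.adj_symm hs) q'.ps i2 i1
  · obtain rfl | ⟨rfl, rfl⟩ : j' = 1 ∨ (j' = 2 ∧ k' = 0) := by omega
    · exact mixed hs q.ps i1 i2
    · have d1 := (q.ps.down (by omega)).dn.2 le_rfl
      have d2 := (q'.ps.down (by omega)).dn.2 le_rfl
      have p1 := two d1 d2 hs.1
      have p2 := two d2 d1 hs.1.symm
      have m3 := D.cx.four _ _ p1.adj
      have m4 := D.cx.four _ _ p2.adj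
      have := (top_act p1.off (p1.top.2 rfl) (step q.ps i1 p1 (by omega) (by omega))
        (step q'.ps i2 p2 (by omega) (by omega))).ht p1.off
      omega

theorem CpN.d6c {x' : D.U.X} {k' : ℕ} {σ' : D.U.Col} (h : D.CpN l x a b k)
    (hσ : D.U.Mid M x a b σ) (h' : D.CpN l x' a' b' k') (hσ' : D.U.Mid M x' a' b' σ')
    (hg : Adj M g g') (t : D.U.Thru y g g' σ) (t' : D.U.Thru y g g' σ') :
    a' = a ∧ b' = b ∧ (x' = x ∨ x' = D.U.r a x) := by
  by_cases c1 : D.U.Thru x' a' b' σ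
  · exact h.d6b hσ h'.adj c1 h'.act
  by_cases c2 : D.U.Thru x a b σ'
  · obtain ⟨rfl, rfl, h1⟩ := h'.d6b hσ' h.adj c2 h.act
    refine ⟨rfl, rfl, ?_⟩
    rcases h1 with rfl | rfl
    exacts [Or.inl rfl, Or.inr (D.hB.rr _ _).symm]
  exfalso
  rcases h.other hσ hg t with h3 | ⟨F, s, b1, c, j, k, hp, hc, q, q0, -⟩
  · exact c2 ((D.hB.pl_thru h.adj h3).1 t')
  rcases h'.other hσ' hg t' with h3 | ⟨F', s', b1', c', j', k', hp', hc', q', q0', -⟩
  · exact c1 ((D.hB.pl_thru h'.adj h3).1 t)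
  have pp := D.hB.pl_trans q0.adj (D.hB.pl_symm hg (D.hB.pl_swap' hg hp)) hp'
  obtain ⟨n, hn, e⟩ := D.hB.res_lt q0.adj pp.1
  have h1 := (q0.nf_bot (by omega) hn.le (pp.2.trans (Same.swap _ _))).1 (e ▸ q0'.bot.2 rfl)
  rw [show n = 0 by omega, Pos.go_zero] at e
  subst e
  obtain rfl := q.only _ (q'.ps.dn.2 q'.j1)
  rcases pp.2 with ⟨rfl, rfl⟩ | ⟨rfl, rfl⟩
  · exact cw_cw q q' q0'.adj
  · exact c2 (hc' ▸ hc ▸ hσ.thru)

/-! ### the properties of caps -/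

section
variable (h : D.Cp l w a b) (hσ : D.U.Mid M w a b σ)
include h hσ

theorem Cp.nf' : ∃ x k, (x = w ∨ x = D.U.r a w) ∧ D.CpN l x a b k ∧ D.U.Mid M x a b σ := by
  obtain ⟨x, k, h1, h2⟩ := h.nf
  refine ⟨x, k, h1, h2, ?_⟩
  rcases h1 with rfl | rfl
  exacts [hσ, D.hB.mid_r h2.adj hσ]

theorem Cp.d5 : D.U.NX M σ l.1 := by
  obtain ⟨x, k, -, h1, h2⟩ := h.nf' hσ
  exact nx_l (h1.vert h2).1 (h1.vert h2).2

theorem Cp.d6a (hab' : Adj M a' b') (ht : D.U.Thru y a' b' σ) {τ : D.U.Col}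
    (h1 : D.U.Thru y a' b' τ) (h2 : D.Lat l τ) : τ = D.U.col w a := by
  obtain ⟨x, k, h3, h4, h5⟩ := h.nf' hσ
  rw [h4.d6a h5 hab' ht h1 h2]
  rcases h3 with rfl | rfl
  exacts [rfl, D.hB.col_r _ _]

theorem Cp.d6b (hab' : Adj M a' b') (ht : D.U.Thru y a' b' σ) (h1 : D.Act l y a') :
    a' = a ∧ b' = b ∧ (y = w ∨ y = D.U.r a w) := by
  obtain ⟨x, k, h3, h4, h5⟩ := h.nf' hσ
  obtain ⟨k1, k2, k3⟩ := h4.d6b h5 hab' ht h1
  refine ⟨k1, k2, ?_⟩
  rcases h3 with rfl | rfl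
  · exact k3
  · rw [D.hB.rr] at k3; exact k3.symm

theorem Cp.d6c {w' : D.U.X} {σ' : D.U.Col} (h' : D.Cp l w' a' b') (hσ' : D.U.Mid M w' a' b' σ')
    (hn : ¬ D.U.NX M σ σ') : a' = a ∧ b' = b ∧ (w' = w ∨ w' = D.U.r a w) := by
  obtain ⟨x, k, h3, h4, h5⟩ := h.nf' hσ
  obtain ⟨x', k', h3', h4', h5'⟩ := h'.nf' hσ'
  obtain ⟨y, g, g', hg, t, t'⟩ : ∃ y g g', Adj M g g' ∧ D.U.Thru y g g' σ ∧ D.U.Thru y g g' σ' := by
    by_contra h6
    push Not at h6
    exact hn ⟨fun e => h6 x a b h4.adj h5.thru (e ▸ h5.thru), h6⟩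
  obtain ⟨rfl, rfl, k3⟩ := h4.d6c h5 h4' h5' hg t t'
  refine ⟨rfl, rfl, ?_⟩
  rcases h3 with rfl | rfl <;> rcases h3' with rfl | rfl
  · exact k3
  · rcases k3 with k3 | k3
    exacts [Or.inr (by rw [← k3, D.hB.rr]), Or.inl (D.hB.r_inj _ k3)]
  · rw [D.hB.rr] at k3; exact k3.symm
  · rcases k3 with k3 | k3
    exacts [Or.inl (D.hB.r_inj _ k3), Or.inr (D.hB.r_inj _ k3)]

end

end Wb

end Pool.Agent.P.MP_e794d7_al.Y
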