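import Pool.Agent.P.MP_e794d7_al.Y.WB6

/-! The labelling and the relation at a vertex. -/

set_option autoImplicit false

namespace Pool.Agent.P.MP_e794d7_al.Y

open scoped Classical

theorem fix_ex {A B : Type} [Nonempty B] (μ : A → ℕ) (Φ : (A → B) → A → B)
    (h : ∀ f f' x, (∀ y, μ y < μ x → f y = f' y) → Φ f x = Φ f' x) : ∃ f, ∀ x, f x = Φ f x := by
  let wf : WellFounded fun y x => μ y < μ x := (measure μ).wf
  refine ⟨wf.fix fun x rc => Φ (fun y => if h : μ y < μ x then rc y h else Classical.arbitrary B) x,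
    fun x => ?_⟩
  rw [WellFounded.fix_eq]
  exact h _ _ x fun y hy => dif_pos hy

theorem fix_uniq {A B : Type} (μ : A → ℕ) (Φ : (A → B) → A → B)
    (h : ∀ f f' x, (∀ y, μ y < μ x → f y = f' y) → Φ f x = Φ f' x) {f f' : A → B}
    (h1 : ∀ x, f x = Φ f x) (h2 : ∀ x, f' x = Φ f' x) (x : A) : f x = f' x := by
  induction hn : μ x using Nat.strong_induction_on generalizing x with
  | _ n ih => rw [h1, h2]; exact h _ _ x fun y hy => ih _ (hn ▸ hy) y rfl

theorem pr_single {Q : Type} [Group Q] {g : ℕ → Q} {i n : ℕ} (hi : i < n)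
    (h : ∀ j, j < n → j ≠ i → g j = 1) : pr g n = g i := by
  obtain ⟨k, rfl⟩ : ∃ k, n = i + 1 + k := ⟨n - (i + 1), by omega⟩
  rw [pr_add, pr, pr_one fun j hj => h j (by omega) (by omega),
    pr_one fun j hj => h _ (by omega) (by omega), one_mul, mul_one]

theorem pr_succ' {Q : Type} [Group Q] (g : ℕ → Q) (n : ℕ) :
    pr g (n + 1) = g 0 * pr (fun i => g (i + 1)) n := by
  rw [add_comm, pr_add, pr, pr, one_mul]
  simp only [add_comm]

theorem pr_cyc {Q : Type} [Group Q] {g : ℕ → Q} {m : ℕ} (h : ∀ n, g (n + m) = g n) : ∀ n,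
    pr (fun i => g (n + i)) m = 1 → pr g m = 1
  | 0, h1 => by simpa using h1
  | n + 1, h1 => by
    refine pr_cyc h n ?_
    have h2 := pr_succ' (fun i => g (n + i)) m
    rw [pr, h, add_zero, show (fun i => g (n + (i + 1))) = fun i => g (n + 1 + i) from
      funext fun i => by rw [add_assoc, add_comm 1], h1, mul_one] at h2
    exact mul_eq_right.1 h2

namespace Wb

variable {ι : Type} {M : ι → ι → ℕ} {K : ℕ} {T : Type} {D : Wb M K T} {l : D.Wl}
variable {Q : Type} [Group Q] {β : D.U.X → ι → Q} {y z : D.U.X} {a b g g' : ι}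

theorem eqn_congr (f f' : D.U.X → ι → Q) (y : D.U.X) (a : ι)
    (h : ∀ z g, D.ms l z g < D.ms l y a → f z g = f' z g) :
    D.Eqn l β f y a = D.Eqn l β f' y a := by
  unfold Eqn
  split_ifs with h1 h2 h3 h4 h5
  · rfl
  · congr 1
    refine pr_congr fun n _ => ?_
    unfold inp
    split_ifs with h4 h5
    · exact h _ _ (ms_t h3.choose_spec (Pos.pl_go _ _ _ _) h4)
    · exact h _ _ (ms_t h3.choose_spec (Pos.pl_go _ _ _ _) h5)
    · rfl
  · exact h _ _ (ms_o h4.choose_spec)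
  · exact h _ _ (by rw [Pos.go_succ, ms_r]; exact ms_o h4.choose_spec)
  · rfl
  · rfl

theorem lab_eq (y : D.U.X) (a : ι) : D.Lab l β y a = D.Eqn l β (D.Lab l β) y a := by
  refine Classical.epsilon_spec (p := fun f => ∀ y a, f y a = D.Eqn l β f y a) ?_ y a
  obtain ⟨f, hf⟩ := fix_ex (A := D.U.X × ι) (B := Q) (fun p => D.ms l p.1 p.2)
    (fun f p => D.Eqn l β (fun y a => f (y, a)) p.1 p.2)
    fun f f' p h => eqn_congr _ _ _ _ fun z g hz => h (z, g) hz
  exact ⟨fun y a => f (y, a), fun y a => hf (y, a)⟩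

theorem lab_uniq {f : D.U.X → ι → Q} (h : ∀ y a, f y a = D.Eqn l β f y a) (y : D.U.X) (a : ι) :
    f y a = D.Lab l β y a :=
  fix_uniq (A := D.U.X × ι) (fun p => D.ms l p.1 p.2)
    (fun f p => D.Eqn l β (fun y a => f (y, a)) p.1 p.2)
    (fun _ _ _ h => eqn_congr _ _ _ _ fun z g hz => h (z, g) hz)
    (f := fun p => f p.1 p.2) (f' := fun p => D.Lab l β p.1 p.2) (fun p => h p.1 p.2)
    (fun p => lab_eq p.1 p.2) (y, a)

theorem lab_che (h : D.U.ChE M l.1 y a) : D.Lab l β y a = β y a := by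
  rw [lab_eq, Eqn, if_pos h]

theorem lab_one (h : ¬ D.Act l y a) : D.Lab l β y a = 1 := by
  rw [lab_eq, Eqn, if_neg fun h1 => h (.ch _ _ h1), if_pos h]

theorem lab_t (h : D.Act l y a) (h1 : D.DefT l y a b) : D.Lab l β y a =
    (pr (fun n => D.inp l (D.Lab l β) y a b (n + 1)) (M a b - 1))⁻¹ := by
  have h2 : ∃ b, D.DefT l y a b := ⟨b, h1⟩
  rw [lab_eq, Eqn, if_neg (Df.not_che (Or.inl h1)), if_neg (not_not.2 h), dif_pos h2,
    Df.uniq (Or.inl h2.choose_spec) (Or.inl h1)]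

theorem lab_o (h : D.Act l y a) (h1 : D.DefO l y a b) : D.Lab l β y a =
    if D.Mu l y a b then D.Lab l β (D.U.go y a b (M a b)) (el a b (M a b))
    else D.Lab l β (D.U.go y a b (M a b + 1)) (el a b (M a b)) := by
  have h2 : ∃ b, D.DefO l y a b := ⟨b, h1⟩
  have h3 : ¬ ∃ b, D.DefT l y a b := fun ⟨b', h3⟩ =>
    h1.2 (Df.uniq (Or.inl h3) (Or.inr h1) ▸ h3)
  rw [lab_eq, Eqn, if_neg (Df.not_che (Or.inr h1)), if_neg (not_not.2 h), dif_neg h3, dif_pos h2,
    Df.uniq (Or.inr h2.choose_spec) (Or.inr h1)]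

theorem act_ant_iff (ho : D.Off l y a b) (h1 : ¬ D.DefT l y a b)
    (hl : ∀ z g g', D.U.Pl y a b z g g' → D.Ip l z g g' → D.Act l z g → D.Lo l y a b) :
    D.Act l (D.U.go y a b (M a b)) (el a b (M a b)) ↔ D.Act l y a := by
  have hab := ho.1
  have hp := Pos.pl_go y a b (M a b)
  constructor
  · intro h
    rcases h.role (ho.pl hp) with h2 | h2 | h2
    · exact .o _ _ b ((defO_ant hab).2 h2) (hl _ _ _ hp h2 h) h
    · exact (h1 ((defT_ant hab).2 h2)).elim
    · have := (h.inv_o h2).2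
      rwa [(ant_ant hab y).1, (ant_ant hab y).2] at this
  · intro h
    rcases h.role ho with h2 | h2 | h2
    · refine .o _ _ _ ((ip_ant hab).1 h2) ((lo_pl hab hp).2 (hl _ _ _ (Pos.Pl.refl _ _ _) h2 h)) ?_
      rwa [(ant_ant hab y).1, (ant_ant hab y).2]
    · exact (h1 h2).elim
    · exact (h.inv_o h2).2

theorem mu_ant (ho : D.Off l y a b) (hm : D.Mu l y a b) (h1 : ¬ D.DefT l y a b) :
    D.Lab l β (D.U.go y a b (M a b)) (el a b (M a b)) = D.Lab l β y a := by
  have hab := ho.1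
  have hi := act_ant_iff ho h1 fun _ _ _ _ _ _ => hm.lo ho
  by_cases h : D.Act l y a
  swap
  · rw [lab_one h, lab_one (mt hi.1 h)]
  rcases h.role ho with h2 | h2 | h2
  · rw [lab_o (hi.2 h) ((ip_ant hab).1 h2), if_pos ((mu_pl hab (Pos.pl_go _ _ _ _)).2 hm),
      (ant_ant hab y).1, (ant_ant hab y).2]
  · exact (h1 h2).elim
  · rw [lab_o h h2, if_pos hm]

theorem mu_inp (ho : D.Off l y a b) (hm : D.Mu l y a b) {n : ℕ}
    (h1 : ¬ D.DefT l (D.U.go y a b n) (el a b n) (el a b (n + 1))) :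
    D.inp l (D.Lab l β) y a b n = D.Lab l β (D.U.go y a b n) (el a b n) := by
  have hp := Pos.pl_go y a b n
  have hg := D.hB.pl_adj ho.1 hp
  have hM := D.hB.pl_M hp
  have e1 := mu_ant (β := β) (ho.pl hp) ((mu_pl ho.1 hp).2 hm) h1
  have e2 := defO_ant (l := l) (y := D.U.go y a b n) hg
  rw [hM, ← Pos.go_add, el_el] at e1 e2
  rw [el_el, ← add_assoc] at e2
  unfold inp
  split_ifs with h2 h3
  · rfl
  · exact e1
  · refine (lab_one fun h => ?_).symm
    rcases h.role (ho.pl hp) with h4 | h4 | h4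
    exacts [h2 h4, h1 h4, h3 (e2.1 h4)]

theorem mu_t (h : D.DefT l y a b) (hm : D.Mu l y a b) :
    pr (fun n => D.Lab l β (D.U.go y a b n) (el a b n)) (M a b) = 1 := by
  have hab := h.1.1
  have h4 := D.cx.four _ _ hab
  obtain ⟨k, hk⟩ : ∃ k, M a b = k + 1 := ⟨M a b - 1, by omega⟩
  rw [hk, pr_succ', Pos.go_zero, el_zero, lab_t (Act.of_mu h hm) h, hk, Nat.add_sub_cancel,
    pr_congr fun n hn => mu_inp h.1 hm fun h1 => ?_, inv_mul_cancel]
  have h2 := (h.pl (Pos.pl_go _ _ _ _)).1 h1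
  rw [← Pos.cc_zero y a b] at h2
  have := D.hB.inj y a b _ _ hab (by omega) (by omega) h2
  omega

theorem mu_prod (ho : D.Off l y a b) (hm : D.Mu l y a b) :
    pr (fun n => D.Lab l β (D.U.go y a b n) (el a b n)) (M a b) = 1 := by
  have hab := ho.1
  have h4 := D.cx.four _ _ hab
  have key : ∀ n, D.DefT l (D.U.go y a b n) (el a b n) (el a b (n + 1)) →
      pr (fun i => D.Lab l β (D.U.go y a b (n + i)) (el a b (n + i))) (M a b) = 1 := by
    intro n h
    have := mu_t (β := β) h ((mu_pl hab (Pos.pl_go y a b n)).2 hm)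
    rw [D.hB.big.M_el] at this
    simpa only [← Pos.go_add, el_el] using this
  have per : ∀ n, ¬ D.DefT l (D.U.go y a b n) (el a b n) (el a b (n + 1)) →
      D.Lab l β (D.U.go y a b (n + M a b)) (el a b (n + M a b)) =
        D.Lab l β (D.U.go y a b n) (el a b n) := by
    intro n h
    have hp := Pos.pl_go y a b n
    have := mu_ant (β := β) (ho.pl hp) ((mu_pl hab hp).2 hm) h
    rwa [D.hB.pl_M hp, ← Pos.go_add, el_el] at this
  obtain ⟨n0, -, h0⟩ := defT_ex ho
  refine pr_cyc (fun n => ?_) n0 (key n0 h0)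
  by_cases h : D.DefT l (D.U.go y a b n) (el a b n) (el a b (n + 1))
  swap
  · exact per n h
  have hp := D.hB.pl_symm hab (Pos.pl_go y a b n)
  have hg := h.1.1
  have k1 := key n h
  have k2 := key (n + M a b) ((h.pl (D.hB.pl_trans hg hp (Pos.pl_go _ _ _ _))).2
    (D.hB.cc_per hab y n))
  obtain ⟨k, hk⟩ : ∃ k, M a b = k + 1 := ⟨M a b - 1, by omega⟩
  have k3 : pr (fun i => D.Lab l β (D.U.go y a b (n + M a b + (i + 1)))
      (el a b (n + M a b + (i + 1)))) k =
      pr (fun i => D.Lab l β (D.U.go y a b (n + (i + 1))) (el a b (n + (i + 1)))) k := by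
    refine pr_congr fun i hi => ?_
    rw [add_right_comm]
    refine per _ fun h1 => ?_
    have h2 := (h.pl (D.hB.pl_trans hg hp (Pos.pl_go _ _ _ _))).1 h1
    rw [← Pos.cc, Pos.cc_add, ← Pos.cc_zero _ _ (el a b (n + 1))] at h2
    have := D.hB.inj _ _ _ (i + 1) 0 hg (by rw [D.hB.big.M_el]; omega)
      (by rw [D.hB.big.M_el]; omega) h2
    omega
  generalize n + M a b = n' at k2 k3 ⊢
  rw [hk, pr_succ'] at k1 k2
  rw [k3] at k2
  exact mul_right_cancel (k2.trans k1.symm)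

theorem alone_swap (ho : D.Off l y a b) (hm : ¬ D.Mu l y a b)
    (hc : ∀ z g g', D.U.Pl y a b z g g' → ¬ D.Cp l z g g') :
    D.Lab l β (D.U.go y a b (M a b + 1)) (el a b (M a b)) = D.Lab l β y a := by
  have hab := ho.1
  have hp := Pos.pl_go y a b (M a b)
  by_cases h1 : D.DefT l y a b
  · rw [Pos.go_succ, lab_one fun h => hm (h.inv_t h1), lab_one fun h => hm ((mu_pl hab hp).1
      ((act_r.1 h).inv_t ((defT_ant hab).1 h1)))]
  have hi := act_ant_iff ho h1 fun z g g' h2 h3 h4 => by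
    by_contra h5
    exact hc z g g' h2 ⟨h3.1, h4, by rwa [lo_pl hab h2]⟩
  by_cases h : D.Act l y a
  swap
  · rw [Pos.go_succ, lab_one h, lab_one fun h2 => h (hi.1 (act_r.1 h2))]
  rcases h.role ho with h2 | h2 | h2
  · rw [Pos.go_succ, lab_o (hi.2 h).r (defO_r.2 ((ip_ant hab).1 h2)),
      if_neg (by rwa [mu_pl hab (D.hB.pl_r' hab hp)]), D.hB.go_r_M' (D.hB.pl_adj hab hp),
      (ant_ant hab y).1, (ant_ant hab y).2]
  · exact (h1 h2).elim
  · rw [lab_o h h2, if_neg hm]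

/-- the relation at a vertex without a cap -/
theorem d4 (ho : D.Off l y a b) (hc : ∀ z g g', D.U.Pl y a b z g g' → ¬ D.Cp l z g g') :
    pr (fun n => D.Lab l β (D.U.go y a b n) (el a b n)) (M a b) =
      pr (fun n => D.Lab l β (D.U.go y b a n) (el b a n)) (M a b) := by
  have hab := ho.1
  have hs := D.hB.big.symm b a
  by_cases hm : D.Mu l y a b
  · rw [mu_prod ho hm, ← hs, mu_prod ho.swap ((mu_pl hab (Pos.Pl.swap _ _ _)).2 hm)]
  have rev : ∀ n, n < M a b → D.Lab l β (D.U.go y b a n) (el b a n) =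
      D.Lab l β (D.U.go y a b (M a b - 1 - n)) (el a b (M a b - 1 - n)) := by
    intro n hn
    have hp := Pos.pl_go y a b (M a b - 1 - n)
    rw [← alone_swap (ho.pl hp) (by rwa [mu_pl hab hp]) fun z g g' h =>
      hc z g g' (D.hB.pl_trans hab hp h), D.hB.pl_M hp, ← Pos.go_add, el_el,
      D.hB.go_rev hab y n (by omega), el_congr' b a (n' := M a b - 1 - n + M a b) (by omega)]
    congr 2
    omega
  have inp1 : ∀ z g g', D.U.Pl y a b z g g' → D.Act l z g → ∃ z' h h', D.U.Pl y a b z' h h' ∧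
      D.Ip l z' h h' ∧ D.Act l z' h ∧ D.U.col z' h = D.U.col z g := by
    intro z g g' hp h
    rcases h.role (ho.pl hp) with h2 | h2 | h2
    · exact ⟨z, g, g', hp, h2, h, rfl⟩
    · exact (hm ((mu_pl hab hp).1 (h.inv_t h2))).elim
    · exact ⟨_, _, _, D.hB.pl_trans hab hp (Pos.pl_go _ _ _ _), (defO_ant h2.1.1.1).1 h2,
        (h.inv_o h2).2, D.hB.col_go_M h2.1.1.1 z⟩
  by_cases h0 : ∃ i, i < M a b ∧ D.Act l (D.U.go y a b i) (el a b i)
  · obtain ⟨i, hi, h1⟩ := h0
    have one : ∀ j, j < M a b → j ≠ i → D.Lab l β (D.U.go y a b j) (el a b j) = 1 := by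
      intro j hj hne
      refine lab_one fun h2 => ?_
      obtain ⟨z, g, g', k1, k2, k3, k4⟩ := inp1 _ _ _ (Pos.pl_go y a b i) h1
      obtain ⟨z', h, h', k1', k2', k3', k4'⟩ := inp1 _ _ _ (Pos.pl_go y a b j) h2
      exact hm ⟨z, g, g', z', h, h', k1, k1', k2, k2', by
        rw [k4, k4']; exact fun e => hne (D.hB.inj y a b _ _ hab hi hj e).symm, k3, k3'⟩
    rw [pr_single hi one, pr_single (i := M a b - 1 - i) (by omega) fun j hj hne => by
      rw [rev j hj, one _ (by omega) (by omega)], rev _ (by omega),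
      show M a b - 1 - (M a b - 1 - i) = i by omega]
  · push Not at h0
    rw [pr_one fun j hj => lab_one (h0 j hj), pr_one fun j hj => by
      rw [rev j hj, lab_one (h0 _ (by omega))]]

end Wb

end Pool.Agent.P.MP_e794d7_al.Y
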