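import Pool.Agent.P.MP_e794d7_al.Y.WB7

/-! Invariance under automorphisms. -/

set_option autoImplicit false

namespace Pool.Agent.P.MP_e794d7_al.Y

open scoped Classical

variable {ι : Type} {M : ι → ι → ℕ}

namespace Aut

variable {U : Pos ι} (α : Aut U)

/-- the inverse automorphism -/
def symm : Aut U where
  f := α.f.symm
  t := α.t.symm
  f_r a w := α.f.injective (by rw [α.f_r, Equiv.apply_symm_apply, Equiv.apply_symm_apply])
  t_col w a := α.t.injective (by rw [α.t_col, Equiv.apply_symm_apply, Equiv.apply_symm_apply])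

theorem go (y : U.X) (a b : ι) : ∀ n, U.go (α.f y) a b n = α.f (U.go y a b n)
  | 0 => rfl
  | n + 1 => by rw [Pos.go_succ, Pos.go_succ, go y a b n, α.f_r]

theorem r (a : ι) (y : U.X) : U.r a (α.f y) = α.f (U.r a y) := (α.f_r a y).symm

theorem col (y : U.X) (a : ι) : U.col (α.f y) a = α.t (U.col y a) := (α.t_col y a).symm

theorem cc (y : U.X) (a b : ι) (n : ℕ) : U.cc (α.f y) a b n = α.t (U.cc y a b n) := by
  rw [Pos.cc, Pos.cc, α.go, α.col]

theorem thru (y : U.X) (a b : ι) (σ : U.Col) : U.Thru (α.f y) a b (α.t σ) ↔ U.Thru y a b σ := by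
  simp only [Pos.Thru, α.cc, EmbeddingLike.apply_eq_iff_eq]

theorem res (y : U.X) (a b : ι) (z : U.X) : U.Res (α.f y) a b (α.f z) ↔ U.Res y a b z := by
  simp only [Pos.Res, α.go, EmbeddingLike.apply_eq_iff_eq]

theorem pl (y : U.X) (a b : ι) (z : U.X) (g g' : ι) :
    U.Pl (α.f y) a b (α.f z) g g' ↔ U.Pl y a b z g g' := by rw [Pos.Pl, Pos.Pl, α.res]

theorem che (c : U.Col) (y : U.X) (a : ι) : U.ChE M (α.t c) (α.f y) a ↔ U.ChE M c y a := by
  simp only [Pos.ChE, α.col, α.thru, ne_eq, EmbeddingLike.apply_eq_iff_eq]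

end Aut

namespace Wb

variable {K : ℕ} {T : Type} {D : Wb M K T}

/-- an automorphism that keeps the names of the walls and maps `l` to `l'` -/
structure Eqv (D : Wb M K T) (α : Aut D.U) (l l' : D.Wl) : Prop where
  hl : l'.1 = α.t l.1
  hlb : ∀ w a, D.lb (α.t (D.U.col w a)) = D.lb (D.U.col w a)

namespace Eqv

variable {α : Aut D.U} {l l' : D.Wl} (h : D.Eqv α l l')
include h

theorem symm : D.Eqv α.symm l' l :=
  ⟨by rw [h.hl]; exact (α.t.symm_apply_apply _).symm, fun w a => by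
    obtain ⟨w, rfl⟩ := α.f.surjective w
    rw [α.col, h.hlb]
    exact congrArg D.lb (α.t.symm_apply_apply _)⟩

omit h in
theorem ne (w w' : D.U.X) (σ : D.U.Col) :
    D.e (α.f w) (α.t σ) ≠ D.e (α.f w') (α.t σ) ↔ D.e w σ ≠ D.e w' σ :=
  (D.cx.aut_e α w w' σ).not

theorem tch (y : D.U.X) : D.Tch l' (α.f y) ↔ D.Tch l y := by
  simp only [Tch, h.hl, α.col, EmbeddingLike.apply_eq_iff_eq]

theorem lat (σ : D.U.Col) : D.Lat l' (α.t σ) ↔ D.Lat l σ := by
  rw [Lat, Lat, α.f.surjective.exists]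
  simp only [h.hl, α.thru, ne_eq, EmbeddingLike.apply_eq_iff_eq]

theorem sep (σ : D.U.Col) (w : D.U.X) : D.Sep l' (α.t σ) (α.f w) ↔ D.Sep l σ w := by
  rw [Sep, Sep, α.f.surjective.forall]
  simp only [h.tch, ne]

theorem low (σ : D.U.Col) (w : D.U.X) : D.Low l' (α.t σ) (α.f w) ↔ D.Low l σ w := by
  rw [Low, Low, α.f.surjective.exists]
  simp only [h.tch, ne]

theorem ht (w : D.U.X) : D.ht l' (α.f w) = D.ht l w := by
  rw [Wb.ht, Wb.ht, ← Set.ncard_image_of_injective {σ | D.Sep l σ w} α.t.injective]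
  congr 1
  ext σ
  obtain ⟨σ, rfl⟩ := α.t.surjective σ
  rw [α.t.injective.mem_set_image]
  exact h.sep σ w

variable (y : D.U.X) (a b : ι)

theorem dn : D.Dn l' (α.f y) a ↔ D.Dn l y a := by rw [Dn, Dn, α.col, h.sep]

theorem up : D.Up l' (α.f y) a ↔ D.Up l y a := by rw [Up, Up, α.col, h.low]

theorem la : D.La l' (α.f y) a ↔ D.La l y a := by rw [La, La, α.col, h.lat]

theorem off : D.Off l' (α.f y) a b ↔ D.Off l y a b := by rw [Off, Off, h.hl, α.thru]

theorem bot : D.Bot l' (α.f y) a b ↔ D.Bot l y a b := by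
  rw [Bot, Bot, α.t.surjective.forall]
  simp only [α.thru, h.sep]

theorem top : D.Top l' (α.f y) a b ↔ D.Top l y a b := by
  rw [Top, Top, α.t.surjective.forall]
  simp only [α.thru, h.low]

theorem inn : D.In l' (α.f y) a b ↔ D.In l y a b := by
  rw [In, In, α.r, h.off, h.bot, h.bot]

theorem out : D.Out l' (α.f y) a b ↔ D.Out l y a b := by
  rw [Out, Out, α.r, h.off, h.top, h.top]

theorem apx : D.Apx l' (α.f y) a b ↔ D.Apx l y a b := by
  rw [Apx, Apx, α.f.surjective.exists]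
  simp only [α.res, h.la]

theorem adm (σ : D.U.Col) : D.Adm l' (α.f y) a b (α.t σ) ↔ D.Adm l y a b σ := by
  rw [Adm, Adm, α.f.surjective.forall]
  simp only [α.thru, h.lat, h.apx, α.pl, α.col, EmbeddingLike.apply_eq_iff_eq, h.inn, h.up, h.dn]

theorem tn : D.tn l' (α.f y) a b = D.tn l y a b := by
  have : (fun t => ∃ τ, D.Adm l' (α.f y) a b τ ∧ D.lb τ = t) =
      fun t => ∃ τ, D.Adm l y a b τ ∧ D.lb τ = t := by
    funext t
    rw [α.t.surjective.exists]
    refine propext (exists_congr fun τ => ?_)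
    rw [h.adm]
    refine and_congr_right fun h1 => ?_
    obtain ⟨n, rfl⟩ := h1.1
    rw [Pos.cc, h.hlb]
  rw [Wb.tn, Wb.tn, this]

theorem defT : D.DefT l' (α.f y) a b ↔ D.DefT l y a b := by
  rw [DefT, DefT, h.off, α.col, h.adm, h.hlb, h.tn]

theorem defO : D.DefO l' (α.f y) a b ↔ D.DefO l y a b := by rw [DefO, DefO, h.out, h.defT]

theorem ip : D.Ip l' (α.f y) a b ↔ D.Ip l y a b := by rw [Ip, Ip, h.inn, h.defT]

theorem lo : D.Lo l' (α.f y) a b ↔ D.Lo l y a b := by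
  rw [Lo, Lo, α.f.surjective.forall]
  simp only [α.res, h.bot, h.ht]

theorem che : D.U.ChE M l'.1 (α.f y) a ↔ D.U.ChE M l.1 y a := by rw [h.hl, α.che]

variable {y a} in
theorem act_of (h1 : D.Act l y a) : D.Act l' (α.f y) a := by
  induction h1 with
  | ch y a h1 => exact .ch _ _ ((h.che y a).2 h1)
  | t y a b z g g' z' k k' h1 h2 h3 h4 h5 h6 _ _ i1 i2 =>
    exact .t _ _ b _ g g' _ k k' ((h.defT y a b).2 h1) ((α.pl _ _ _ _ _ _).2 h2)
      ((α.pl _ _ _ _ _ _).2 h3) ((h.ip _ _ _).2 h4) ((h.ip _ _ _).2 h5)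
      (by rw [α.col, α.col]; exact α.t.injective.ne h6) i1 i2
  | o y a b h1 h2 _ ih =>
    exact .o _ _ b ((h.defO y a b).2 h1) ((h.lo y a b).2 h2) (by rw [α.go]; exact ih)

theorem act : D.Act l' (α.f y) a ↔ D.Act l y a :=
  ⟨fun h1 => by
    have := h.symm.act_of h1
    rwa [show α.symm.f (α.f y) = y from α.f.symm_apply_apply y] at this, h.act_of⟩

theorem mu : D.Mu l' (α.f y) a b ↔ D.Mu l y a b := by
  rw [Mu, Mu, α.f.surjective.exists]
  refine exists_congr fun z => exists_congr fun g => exists_congr fun g' => ?_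
  rw [α.f.surjective.exists]
  simp only [α.pl, h.ip, h.act, α.col, ne_eq, EmbeddingLike.apply_eq_iff_eq]

theorem cp : D.Cp l' (α.f y) a b ↔ D.Cp l y a b := by rw [Cp, Cp, h.inn, h.act, h.lo]

variable {Q : Type} [Group Q]

theorem inp (f : D.U.X → ι → Q) (n : ℕ) :
    D.inp l' f (α.f y) a b n = D.inp l (fun w => f (α.f w)) y a b n := by
  unfold Wb.inp
  rw [α.go, α.go]
  exact if_congr (h.ip _ _ _) rfl (if_congr (h.ip _ _ _) rfl rfl)

theorem lab (β : D.U.X → ι → Q) :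
    D.Lab l' β (α.f y) a = D.Lab l (fun w => β (α.f w)) y a := by
  refine lab_uniq (f := fun w => D.Lab l' β (α.f w)) (fun y a => ?_) y a
  by_cases h1 : D.U.ChE M l.1 y a
  · rw [Eqn, if_pos h1, lab_che ((h.che y a).2 h1)]
  by_cases h2 : D.Act l y a
  swap
  · rw [Eqn, if_neg h1, if_pos h2, lab_one (mt (h.act y a).1 h2)]
  have h2' := (h.act y a).2 h2
  rw [Eqn, if_neg h1, if_neg (not_not.2 h2)]
  by_cases h3 : ∃ b, D.DefT l y a b
  · rw [dif_pos h3, lab_t h2' ((h.defT y a _).2 h3.choose_spec)]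
    simp only [h.inp]
  rw [dif_neg h3]
  have h4 : ∃ b, D.DefO l y a b := by
    obtain ⟨b, h4 | h4⟩ := h2.df.resolve_left h1
    exacts [(h3 ⟨b, h4⟩).elim, ⟨b, h4⟩]
  rw [dif_pos h4, lab_o h2' ((h.defO y a _).2 h4.choose_spec), α.go, α.go]
  exact if_congr (h.mu _ _ _) rfl rfl

end Eqv

end Wb

end Pool.Agent.P.MP_e794d7_al.Y
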