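import Pool.Agent.P.MP_e794d7_al.Y.WB8

/-! The panel of the wall that the gates assign to a chamber. -/

set_option autoImplicit false

namespace Pool.Agent.P.MP_e794d7_al.Y

namespace Wb

variable {ι : Type} {M : ι → ι → ℕ} {K : ℕ} {T : Type} {D : Wb M K T} {l : D.Wl}
variable {w y y' : D.U.X} {a b s s' : ι}

theorem gt_thru (hb : Adj M s b) (y : D.U.X) : D.U.Thru y s b (D.gt y s b) :=
  (D.gt_mid y s b hb).thru

theorem gt_ne (hb : Adj M s b) (y : D.U.X) : D.gt y s b ≠ D.U.col y s :=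
  D.hB.mid_ne hb (D.gt_mid y s b hb) (Or.inl rfl)

theorem gt_lat (h : D.U.col y s = l.1) (hb : Adj M s b) : D.Lat l (D.gt y s b) :=
  ⟨h ▸ gt_ne hb y, y, s, b, hb, h ▸ Pos.thru_col _ _ _, gt_thru hb y⟩

theorem gt_op' (hb : Adj M s b) (y : D.U.X) :
    D.gt (D.U.go y s b (M s b + 1)) (el s b (M s b)) (el s b (M s b + 1)) = D.gt y s b := by
  rw [Pos.go_succ, D.gt_r _ _ _ (D.hB.big.adj_el hb _), D.gt_op y s b hb]

theorem Sy.step (h : D.Sy l w y s) (ha : ∀ b, Adj M s b → D.U.col w a ≠ D.gt y s b) :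
    D.Sy l (D.U.r a w) y s :=
  ⟨h.1, fun b hb => by rw [Pos.Bas.e_r_ne D.he (ha b hb), h.2 b hb]⟩

theorem Sy.gate (h : D.Sy l w y s) (hb : Adj M s b) (ha : D.U.col w a = D.gt y s b) :
    D.Sy l (D.U.r a w) (D.U.go y s b (M s b)) (el s b (M s b)) := by
  have hp := Pos.pl_go y s b (M s b)
  have hg := D.hB.pl_adj hb hp
  have e1 := D.gt_op y s b hb
  have e2 := D.cx.e_M hb (gt_thru hb y)
  refine ⟨(D.hB.col_go_M hb y).trans h.1, fun b' hb' => ?_⟩
  by_cases e : b' = el s b (M s b + 1)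
  · rw [e, e1, ← ha]
    exact bne_of (D.cx.e_flip w a) (by rw [ha, h.2 b hb]; exact e2)
  · have t1 := gt_thru hg (D.U.go y s b (M s b))
    have n1 := gt_ne hg (D.U.go y s b (M s b))
    rw [e1] at t1 n1
    rw [Pos.Bas.e_r_ne D.he (by
      rw [ha]; exact (D.cx.mid_nx hb' hg e (D.gt_mid _ _ _ hb') t1 n1).1.symm)]
    refine (D.cx.mid_far hb' hg e (D.gt_mid _ _ _ hb') t1 n1 w).resolve_right ?_
    rw [h.2 b hb]
    exact e2.symm

theorem sy_ex (hab : Adj M a b) (ht : D.U.Thru w a b l.1) : ∃ y s, D.Sy l w y s := by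
  obtain ⟨y, s, c, hp, h1, h2⟩ : ∃ y s c, D.U.Pl w a b y s c ∧ D.U.col y s = l.1 ∧
      D.e w (D.gt y s c) = D.e y (D.gt y s c) := by
    obtain ⟨n, hn⟩ := ht
    have hp := Pos.pl_go w a b n
    have hg := D.hB.pl_adj hab hp
    by_cases e : D.e w (D.gt (D.U.go w a b n) (el a b n) (el a b (n + 1))) =
      D.e (D.U.go w a b n) (D.gt (D.U.go w a b n) (el a b n) (el a b (n + 1)))
    · exact ⟨_, _, _, hp, hn, e⟩
    · refine ⟨_, _, _, D.hB.pl_trans hab hp (Pos.pl_go _ _ _ _), (D.hB.col_go_M hg _).trans hn, ?_⟩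
      rw [D.gt_op _ _ _ hg]
      exact bne_of e (D.cx.e_M hg (gt_thru hg _))
  refine ⟨y, s, h1, fun b' hb' => ?_⟩
  by_cases e : b' = c
  · rw [e, h2]
  have hg := D.hB.pl_adj hab hp
  refine (Pos.Bas.e_res D.he hp.1 fun h3 => ?_).symm
  exact (D.cx.mid_nx hb' hg e (D.gt_mid _ _ _ hb') ((D.hB.pl_thru hab hp).2 h3) (gt_ne hb' y)).1 rfl

theorem sy_far {y : D.U.X} {s : ι} (hr : Rch M D.U D.e y' s' y s) : ∀ b, Adj M s b →
    D.e w (D.gt y s b) ≠ D.e y (D.gt y s b) → D.e y' (D.U.col y b) = D.e y (D.U.col y b) →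
    ∃ b', Adj M s' b' ∧ D.e w (D.gt y' s' b') ≠ D.e y' (D.gt y' s' b') := by
  induction hr with
  | base => exact fun b hb h _ => ⟨b, hb, h⟩
  | step y s b1 hb1 hs _ ih =>
    intro b hb h1 h2
    have hne : b ≠ b1 := by
      rintro rfl
      exact hs _ (D.hB.thru_col' hb y) (fun e => hb.1 (D.hB.x2 _ _ _ e).symm) h2
    have hp := Pos.pl_go' y s b1 (M s b1)
    have hg := D.hB.pl_adj hb1 hp
    refine ih _ hg ?_ (D.cx.rch_back hb1 hs (D.hB.pl_col hb1 (D.hB.pl_swap' hb1 hp)) fun e =>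
      hg.1 (D.hB.x2 _ _ _ ((D.hB.col_go_M' hb1 y).trans e.symm)))
    rw [gt_op' hb1, (D.cx.mid_far hb hb1 hne (D.gt_mid _ _ _ hb) (gt_thru hb1 y) (gt_ne hb1 y)
      w).resolve_left h1]
    exact (D.cx.e_op hb1 (gt_thru hb1 y) (gt_ne hb1 y)).symm

theorem Sy.uniq (h : D.Sy l w y s) (h' : D.Sy l w y' s') :
    s' = s ∧ (y' = y ∨ y' = D.U.r s y) := by
  have key : ∀ y, D.Sy l w y s → D.e y l.1 = D.e y' l.1 → s' = s ∧ y' = y := by
    intro y h h1
    have hr := D.cx.conn (h.1.trans h'.1.symm) (by rw [h.1, h1])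
    cases hr with
    | base => exact ⟨rfl, rfl⟩
    | step _ _ b hb hs hr =>
      have hp := Pos.pl_go' y s b (M s b)
      have hg := D.hB.pl_adj hb hp
      obtain ⟨b', h2, h3⟩ := sy_far (w := w) hr _ hg (by
        rw [gt_op' hb, h.2 b hb]
        exact (D.cx.e_op hb (gt_thru hb y) (gt_ne hb y)).symm)
        (D.cx.rch_back hb hs (D.hB.pl_col hb (D.hB.pl_swap' hb hp)) fun e =>
          hg.1 (D.hB.x2 _ _ _ ((D.hB.col_go_M' hb y).trans e.symm)))
      exact (h3 (h'.2 b' h2)).elim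
  by_cases h1 : D.e y l.1 = D.e y' l.1
  · exact (key y h h1).imp_right Or.inl
  · refine (key _ h.r (bne_of ?_ (Ne.symm h1))).imp_right Or.inr
    rw [← h.1]
    exact D.cx.e_flip y s

/-- a wall that crosses the way along a wall is nested in the first gate -/
theorem nest {τ : D.U.Col} {y : D.U.X} {s : ι} (hr : Rch M D.U D.e y' s' y s) :
    τ ≠ D.U.col y s → D.e y' τ ≠ D.e y τ → D.e w τ ≠ D.e y τ → ∃ b, Adj M s b ∧
      D.e y' (D.U.col y b) ≠ D.e y (D.U.col y b) ∧ (D.U.Thru y s b τ ∨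
        D.e w (D.gt y s b) ≠ D.e y (D.gt y s b)) := by
  induction hr with
  | base => exact fun _ h _ => (h rfl).elim
  | step y s b hb hs _ ih =>
    intro h1 h2 h3
    refine ⟨b, hb, hs _ (D.hB.thru_col' hb y) fun e => hb.1 (D.hB.x2 _ _ _ e).symm, ?_⟩
    by_cases ht : D.U.Thru y s b τ
    · exact Or.inl ht
    have e1 := D.cx.e_op' hb (Or.inl ht)
    have e2 := D.hB.col_go_M' hb y
    have hp := Pos.pl_go' y s b (M s b)
    have hg := D.hB.pl_adj hb hp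
    obtain ⟨b1, hb1, h4, h5⟩ := ih (by rwa [e2]) (by rwa [e1]) (by rwa [e1])
    have hne : el s b (M s b + 1) ≠ b1 := by
      rintro rfl
      exact h4 (D.cx.rch_back hb hs (D.hB.pl_col hb (D.hB.pl_swap' hb hp)) fun e =>
        hg.1 (D.hB.x2 _ _ _ (e2.trans e.symm)))
    have hm := D.gt_mid (D.U.go y s b (M s b + 1)) _ _ hg
    rw [gt_op' hb] at hm
    have h6 : D.e w (D.gt y s b) = D.e (D.U.go y s b (M s b + 1)) (D.gt y s b) := by
      rcases h5 with h5 | h5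
      · exact (D.cx.mid_far hg hb1 hne hm h5 (by rwa [e2]) w).resolve_right (by rwa [e1])
      · exact (D.cx.mid_far hg hb1 hne hm (gt_thru hb1 _) (gt_ne hb1 _) w).resolve_right h5
    rw [h6]
    exact Or.inr (D.cx.e_op hb (gt_thru hb y) (gt_ne hb y))

theorem Sy.dst (h : D.Sy l w y s) : dst D.e w y ≤ D.ht l w + Nat.card ι * K + 1 := by
  have := D.fin
  let S : Set D.U.Col := (fun p : ι × Fin K => D.U.cc y s p.1 p.2) '' Set.univ
  have hS : S.Finite := Set.finite_univ.image _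
  have h1 : S.ncard ≤ Nat.card ι * K := by
    refine (Set.ncard_image_le Set.finite_univ).trans ?_
    rw [Set.ncard_univ, Nat.card_prod, Nat.card_eq_fintype_card (α := Fin K), Fintype.card_fin]
  have h2 : {σ | D.e y σ ≠ D.e w σ} ⊆ ({σ | D.Sep l σ w} ∪ S) ∪ {l.1} := by
    intro σ hσ
    rcases low_iff.1 (⟨y, ⟨s, h.1⟩, hσ⟩ : D.Low l σ w) with h3 | h3 | h3
    · exact Or.inr h3
    swap
    · exact Or.inl (Or.inl h3)
    obtain ⟨z, t, k1, k2, k3⟩ := h3.both (D.e y l.1) (D.e w σ)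
    obtain ⟨b, hb, -, h4 | h4⟩ := nest (w := w) (τ := σ)
      (D.cx.conn (h.1.trans k1.symm) (by rw [h.1, k2])) (h.1 ▸ h3.1)
      (by rw [k3]; exact Ne.symm hσ) (Ne.symm hσ)
    · obtain ⟨n, hn, e⟩ := D.hB.thru_lt hb h4
      exact Or.inl (Or.inr ⟨(b, ⟨n, hn.trans_le (D.hK _ _)⟩), trivial, e⟩)
    · exact (h4 (h.2 b hb)).elim
  have h3 := Set.ncard_le_ncard h2 (((sep_fin w).union hS).union (Set.finite_singleton _))
  have h4 := Set.ncard_union_le ({σ | D.Sep l σ w} ∪ S) {l.1}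
  have h5 := Set.ncard_union_le {σ | D.Sep l σ w} S
  rw [Set.ncard_singleton] at h4
  rw [Y.dst, Wb.ht]
  omega

theorem Eqv.sy {α : Aut D.U} {l' : D.Wl} (h : D.Eqv α l l')
    (hg : ∀ b, Adj M s b → D.gt (α.f y) s b = α.t (D.gt y s b)) (h1 : D.Sy l w y s) :
    D.Sy l' (α.f w) (α.f y) s :=
  ⟨by rw [α.col, h1.1, h.hl], fun b hb => by
    rw [hg b hb, D.cx.aut_e]; exact h1.2 b hb⟩

end Wb

end Pool.Agent.P.MP_e794d7_al.Y
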