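import Pool.Agent.P.MP_e794d7_al.Y.WDef

/-! Invariance of the notions under a change of description of panels and vertices. -/

set_option autoImplicit false

namespace Pool.Agent.P.MP_e794d7_al.Y

variable {ι : Type} {M : ι → ι → ℕ}

theorem NC.symm {a b b' : ι} {n n' : ℕ} (h : NC M a b b' n n') : NC M a b' b n' n :=
  ⟨h.ab', h.ab, h.ne.symm, h.n1', h.nm', h.n1, h.nm, fun e => h.fst e.symm, fun e => h.lst e.symm⟩

theorem grun_r (U : Pos ι) (y : U.X) (a b : ι) : ∀ n, grun U.r y a b n = U.go y a b n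
  | 0 => rfl
  | n + 1 => by rw [grun, grun_r U y a b n, Pos.go_succ]

theorem glab_pr {S Q : Type} [Group Q] (st : ι → S → S) (κ : ι → S → Q) (s : S) (a b : ι) :
    ∀ n, glab st κ s a b n = pr (fun i => κ (el a b i) (grun st s a b i)) n
  | 0 => rfl
  | n + 1 => by rw [glab, pr, glab_pr st κ s a b n]

theorem pr_congr {Q : Type} [Group Q] {g g' : ℕ → Q} : ∀ {n : ℕ}, (∀ i, i < n → g i = g' i) →
    pr g n = pr g' n
  | 0, _ => rfl
  | n + 1, h => by rw [pr, pr, pr_congr fun i hi => h i (by omega), h n (by omega)]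

theorem pr_add {Q : Type} [Group Q] (g : ℕ → Q) (j : ℕ) : ∀ n,
    pr g (j + n) = pr g j * pr (fun i => g (j + i)) n
  | 0 => by simp [pr]
  | n + 1 => by rw [← add_assoc, pr, pr, pr_add g j n, mul_assoc]

theorem pr_one {Q : Type} [Group Q] {g : ℕ → Q} : ∀ {n : ℕ}, (∀ i, i < n → g i = 1) → pr g n = 1
  | 0, _ => rfl
  | n + 1, h => by rw [pr, pr_one fun i hi => h i (by omega), h n (by omega), mul_one]

namespace Pos

variable {U : Pos ι}

theorem Mid.thru {y : U.X} {a b : ι} {σ : U.Col} (h : U.Mid M y a b σ) : U.Thru y a b σ := by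
  obtain ⟨k, -, -, rfl⟩ := h
  exact ⟨k, rfl⟩

theorem Pl.refl (y : U.X) (a b : ι) : U.Pl y a b y a b := ⟨Res.refl _ _ _, Same.refl _ _⟩

theorem Pl.swap (y : U.X) (a b : ι) : U.Pl y a b y b a := ⟨Res.refl _ _ _, Same.swap _ _⟩

theorem pl_go (y : U.X) (a b : ι) (n : ℕ) :
    U.Pl y a b (U.go y a b n) (el a b n) (el a b (n + 1)) := ⟨res_go _ _ _ _, same_el _ _ _⟩

theorem pl_go' (y : U.X) (a b : ι) (n : ℕ) :
    U.Pl y a b (U.go y a b (n + 1)) (el a b n) (el a b (n + 1)) := ⟨res_go _ _ _ _, same_el _ _ _⟩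

theorem pl_r (y : U.X) (a b : ι) : U.Pl y a b (U.r a y) a b := ⟨⟨1, go_one _ _ _⟩, Same.refl _ _⟩

namespace Bas

variable (h : U.Bas M)
include h

theorem pl_adj {y z : U.X} {a b g g' : ι} (hab : Adj M a b) (hp : U.Pl y a b z g g') :
    Adj M g g' := h.big.adj_same hab hp.2

theorem pl_M {y z : U.X} {a b g g' : ι} (hp : U.Pl y a b z g g') : M g g' = M a b :=
  h.big.M_same hp.2

theorem pl_symm {y z : U.X} {a b g g' : ι} (hab : Adj M a b) (hp : U.Pl y a b z g g') :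
    U.Pl z g g' y a b := ⟨h.res_same hab hp.2 (h.res_symm hab hp.1), hp.2.symm⟩

theorem pl_trans {y z x : U.X} {a b g g' u u' : ι} (hab : Adj M a b) (hp : U.Pl y a b z g g')
    (hq : U.Pl z g g' x u u') : U.Pl y a b x u u' :=
  ⟨h.res_trans hab hp.1 (h.res_same (h.pl_adj hab hp) hp.2.symm hq.1), hp.2.trans hq.2⟩

theorem pl_res {y z x : U.X} {a b g g' : ι} (hab : Adj M a b) (hp : U.Pl y a b z g g') :
    U.Res z g g' x ↔ U.Res y a b x :=
  ⟨fun hx => (h.pl_trans hab hp ⟨hx, Same.refl _ _⟩).1, fun hx =>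
    (h.pl_trans (h.pl_adj hab hp) (h.pl_symm hab hp) ⟨hx, Same.refl _ _⟩).1⟩

theorem pl_pl {y z x : U.X} {a b g g' u u' : ι} (hab : Adj M a b) (hp : U.Pl y a b z g g') :
    U.Pl z g g' x u u' ↔ U.Pl y a b x u u' :=
  ⟨h.pl_trans hab hp, h.pl_trans (h.pl_adj hab hp) (h.pl_symm hab hp)⟩

theorem pl_thru {y z : U.X} {a b g g' : ι} (hab : Adj M a b) (hp : U.Pl y a b z g g')
    {σ : U.Col} : U.Thru z g g' σ ↔ U.Thru y a b σ := by
  rw [h.thru_res hab hp.1]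
  exact ⟨h.thru_same (h.pl_adj hab hp) hp.2.symm, h.thru_same hab hp.2⟩

theorem pl_col {y z : U.X} {a b g g' : ι} (hab : Adj M a b) (hp : U.Pl y a b z g g') :
    U.Thru y a b (U.col z g) := (h.pl_thru hab hp).1 (thru_col _ _ _)

theorem pl_r' {y z : U.X} {a b g g' : ι} (hab : Adj M a b) (hp : U.Pl y a b z g g') :
    U.Pl y a b (U.r g z) g g' := h.pl_trans hab hp (pl_r _ _ _)

theorem pl_swap' {y z : U.X} {a b g g' : ι} (hab : Adj M a b) (hp : U.Pl y a b z g g') :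
    U.Pl y a b z g' g := h.pl_trans hab hp (Pl.swap _ _ _)

/-- every flag at a vertex is one of the flags of the walk -/
theorem pl_idx {y z : U.X} {a b g g' : ι} (hab : Adj M a b) (hp : U.Pl y a b z g g') :
    ∃ n, n < 2 * M a b ∧ g = el a b n ∧ g' = el a b (n + 1) ∧
      (z = U.go y a b n ∨ z = U.go y a b (n + 1)) := by
  have hg : g = a ∨ g = b := by
    rcases hp.2 with ⟨h1, -⟩ | ⟨-, h1⟩
    exacts [Or.inl h1.symm, Or.inr h1.symm]
  obtain ⟨n, hn, h1, h2⟩ := h.panel_idx hab hp.1 hg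
  refine ⟨n, hn, h1, ?_, h2⟩
  have h3 := hp.2.symm.trans (same_el a b n)
  rw [← h1] at h3
  rcases h3 with ⟨-, h4⟩ | ⟨h4, h5⟩
  · exact h4
  · exact ((h.pl_adj hab hp).1 h5.symm).elim

theorem go_r_M {a b : ι} (hab : Adj M a b) (y : U.X) :
    U.go (U.r a y) a b (M a b) = U.go y a b (M a b + 1) := by
  have hm := h.big.three a b hab
  obtain ⟨k, hk⟩ : ∃ k, M a b = k + 1 := ⟨M a b - 1, by omega⟩
  rw [h.go_add_M hab y 1 (by omega), hk, go_succ', h.rr, Nat.add_sub_cancel]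

theorem go_r_M' {a b : ι} (hab : Adj M a b) (y : U.X) :
    U.go (U.r a y) a b (M a b + 1) = U.go y a b (M a b) := by
  rw [← h.go_r_M hab, h.rr]

theorem col_go_M {a b : ι} (hab : Adj M a b) (y : U.X) :
    U.col (U.go y a b (M a b)) (el a b (M a b)) = U.col y a := h.per y a b hab

theorem col_go_M' {a b : ι} (hab : Adj M a b) (y : U.X) :
    U.col (U.go y a b (M a b + 1)) (el a b (M a b)) = U.col y a := by
  rw [h.col_go_succ, h.per y a b hab]

omit h in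
theorem cc_one (y : U.X) (a b : ι) : U.cc y a b 1 = U.col (U.r a y) b := by
  rw [cc_succ', cc_zero]

theorem che_r {c : U.Col} {y : U.X} {a : ι} (hc : U.ChE M c y a) : U.ChE M c (U.r a y) a := by
  obtain ⟨h1, b, hab, ht⟩ := hc
  exact ⟨by rwa [h.col_r], b, hab, (h.pl_thru hab (pl_r y a b)).2 ht⟩

theorem mid_r {a b : ι} (hab : Adj M a b) {y : U.X} {σ : U.Col} (hd : U.Mid M y a b σ) :
    U.Mid M (U.r a y) a b σ := by
  obtain ⟨k, h1, h2, rfl⟩ := hd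
  exact ⟨M a b - k, by omega, by omega, by
    rw [h.cc_r hab y _ (by omega)]; congr 1; omega⟩

/-- a middle wall touches no chamber of the panel -/
theorem mid_ne {a b g : ι} (hab : Adj M a b) {y : U.X} {σ : U.Col} (hd : U.Mid M y a b σ)
    (hg : g = a ∨ g = b) : σ ≠ U.col y g := by
  obtain ⟨k, h1, h2, rfl⟩ := hd
  intro e
  rcases hg with rfl | rfl
  · rw [← cc_zero y g b] at e
    have := h.inj y g b _ _ hab (by omega) (by omega) e
    omega
  · rw [← h.cc_last hab] at e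
    have := h.inj y a g _ _ hab (by omega) (by omega) e
    omega

end Bas

end Pos

namespace Wb

variable {K : ℕ} {T : Type} {D : Wb M K T} {l : D.Wl}

theorem hB (D : Wb M K T) : D.U.Bas M := D.cx.hB

theorem he (D : Wb M K T) : D.U.Eps D.e := D.cx.he

theorem ex_tch (l : D.Wl) : ∃ y, D.Tch l y := by
  obtain ⟨y, s, h⟩ := l.2
  exact ⟨y, s, h⟩

theorem sep_congr {σ : D.U.Col} {w w' : D.U.X} (h : D.e w σ = D.e w' σ) :
    D.Sep l σ w ↔ D.Sep l σ w' := by simp only [Sep, h]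

theorem low_congr {σ : D.U.Col} {w w' : D.U.X} (h : D.e w σ = D.e w' σ) :
    D.Low l σ w ↔ D.Low l σ w' := by simp only [Low, h]

theorem sep_r {σ : D.U.Col} {w : D.U.X} {a : ι} (h : D.U.col w a ≠ σ) :
    D.Sep l σ (D.U.r a w) ↔ D.Sep l σ w := sep_congr (Pos.Bas.e_r_ne D.he h)

theorem low_r {σ : D.U.Col} {w : D.U.X} {a : ι} (h : D.U.col w a ≠ σ) :
    D.Low l σ (D.U.r a w) ↔ D.Low l σ w := low_congr (Pos.Bas.e_r_ne D.he h)

theorem Sep.low {σ : D.U.Col} {w : D.U.X} (h : D.Sep l σ w) : D.Low l σ w := by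
  obtain ⟨y, hy⟩ := ex_tch l
  exact ⟨y, hy, h y hy⟩

/-- on the other side of a wall -/
theorem sep_flip {σ : D.U.Col} {w w' : D.U.X} (h : D.e w' σ ≠ D.e w σ) :
    D.Sep l σ w' ↔ ¬ D.Low l σ w := by
  simp only [Sep, Low, not_exists, not_and]
  refine forall_congr' fun y => imp_congr_right fun _ => ?_
  revert h
  cases D.e w' σ <;> cases D.e w σ <;> cases D.e y σ <;> simp

theorem e_r_ne' (w : D.U.X) (a : ι) : D.e (D.U.r a w) (D.U.col w a) ≠ D.e w (D.U.col w a) := by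
  rw [Pos.Bas.e_r_col D.he]
  cases D.e w (D.U.col w a) <;> simp

theorem dn_r {w : D.U.X} {a : ι} : D.Dn l (D.U.r a w) a ↔ D.Up l w a := by
  rw [Dn, D.hB.col_r]
  exact sep_flip (e_r_ne' w a)

theorem up_r {w : D.U.X} {a : ι} : D.Up l (D.U.r a w) a ↔ D.Dn l w a := by
  rw [← dn_r, D.hB.rr]

theorem la_r {w : D.U.X} {a : ι} : D.La l (D.U.r a w) a ↔ D.La l w a := by
  rw [La, La, D.hB.col_r]

theorem Dn.not_up {w : D.U.X} {a : ι} (h : D.Dn l w a) : ¬ D.Up l w a := fun h' => h' h.low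

theorem che_la {y : D.U.X} {a : ι} (h : D.U.ChE M l.1 y a) : D.La l y a := by
  obtain ⟨h1, b, hab, ht⟩ := h
  exact ⟨h1, y, a, b, hab, ht, Pos.thru_col _ _ _⟩

section
variable {y z : D.U.X} {a b g g' : ι}

theorem off_pl (hab : Adj M a b) (hp : D.U.Pl y a b z g g') : D.Off l z g g' ↔ D.Off l y a b := by
  rw [Off, Off, D.hB.pl_thru hab hp]
  exact ⟨fun h => ⟨hab, h.2⟩, fun h => ⟨D.hB.pl_adj hab hp, h.2⟩⟩

theorem Off.pl (h : D.Off l y a b) (hp : D.U.Pl y a b z g g') : D.Off l z g g' :=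
  (off_pl h.1 hp).2 h

theorem bot_same (hab : Adj M a b) (hs : Same a b g g') : D.Bot l y g g' ↔ D.Bot l y a b := by
  simp only [Bot, D.hB.pl_thru hab (⟨Pos.Res.refl _ _ _, hs⟩ : D.U.Pl y a b y g g')]

theorem top_same (hab : Adj M a b) (hs : Same a b g g') : D.Top l y g g' ↔ D.Top l y a b := by
  simp only [Top, D.hB.pl_thru hab (⟨Pos.Res.refl _ _ _, hs⟩ : D.U.Pl y a b y g g')]

theorem In.r (h : D.In l y a b) : D.In l (D.U.r a y) a b :=
  ⟨h.1.pl (Pos.pl_r _ _ _), by rw [D.hB.rr]; exact h.2.symm⟩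

theorem in_r : D.In l (D.U.r a y) a b ↔ D.In l y a b :=
  ⟨fun h => by simpa only [D.hB.rr] using h.r, In.r⟩

theorem Out.r (h : D.Out l y a b) : D.Out l (D.U.r a y) a b :=
  ⟨h.1.pl (Pos.pl_r _ _ _), by rw [D.hB.rr]; exact h.2.symm⟩

theorem out_r : D.Out l (D.U.r a y) a b ↔ D.Out l y a b :=
  ⟨fun h => by simpa only [D.hB.rr] using h.r, Out.r⟩

theorem Apx.pl (h : D.Apx l y a b) (hab : Adj M a b) (hp : D.U.Pl y a b z g g') :
    D.Apx l z g g' := by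
  obtain ⟨x, h1, h2, h3⟩ := h
  refine ⟨x, (D.hB.pl_res hab hp).2 h1, ?_⟩
  rcases hp.2 with ⟨rfl, rfl⟩ | ⟨rfl, rfl⟩
  exacts [⟨h2, h3⟩, ⟨h3, h2⟩]

theorem apx_pl (hab : Adj M a b) (hp : D.U.Pl y a b z g g') : D.Apx l z g g' ↔ D.Apx l y a b :=
  ⟨fun h => h.pl (D.hB.pl_adj hab hp) (D.hB.pl_symm hab hp), fun h => h.pl hab hp⟩

theorem adm_pl (hab : Adj M a b) (hp : D.U.Pl y a b z g g') {σ : D.U.Col} :
    D.Adm l z g g' σ ↔ D.Adm l y a b σ := by
  simp only [Adm, D.hB.pl_thru hab hp, D.hB.pl_M hp, apx_pl hab hp, D.hB.pl_pl hab hp]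

theorem tn_pl (hab : Adj M a b) (hp : D.U.Pl y a b z g g') : D.tn l z g g' = D.tn l y a b := by
  simp only [tn, adm_pl hab hp]

theorem lo_pl (hab : Adj M a b) (hp : D.U.Pl y a b z g g') : D.Lo l z g g' ↔ D.Lo l y a b := by
  simp only [Lo, D.hB.pl_res hab hp, bot_same hab hp.2]

theorem mu_pl (hab : Adj M a b) (hp : D.U.Pl y a b z g g') : D.Mu l z g g' ↔ D.Mu l y a b := by
  simp only [Mu, D.hB.pl_pl hab hp]

/-- the chosen wall is determined by its colour -/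
theorem DefT.pl (h : D.DefT l y a b) (hp : D.U.Pl y a b z g g') :
    D.DefT l z g g' ↔ D.U.col z g = D.U.col y a := by
  have hab := h.1.1
  constructor
  · intro h'
    exact D.lb_inj y a b _ _ hab (D.hB.pl_col hab hp) (Pos.thru_col _ _ _)
      (by rw [h'.2.2, h.2.2, tn_pl hab hp])
  · intro e1
    exact ⟨h.1.pl hp, by rw [e1, adm_pl hab hp]; exact h.2.1, by rw [e1, tn_pl hab hp, h.2.2]⟩

theorem DefT.r (h : D.DefT l y a b) : D.DefT l (D.U.r a y) a b :=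
  (h.pl (Pos.pl_r _ _ _)).2 (D.hB.col_r _ _)

theorem defT_r : D.DefT l (D.U.r a y) a b ↔ D.DefT l y a b :=
  ⟨fun h => by simpa only [D.hB.rr] using h.r, DefT.r⟩

theorem DefT.not_la (h : D.DefT l y a b) : ¬ D.La l y a := h.2.1.2.1

theorem defO_r : D.DefO l (D.U.r a y) a b ↔ D.DefO l y a b := by rw [DefO, DefO, out_r, defT_r]

theorem ip_r : D.Ip l (D.U.r a y) a b ↔ D.Ip l y a b := by rw [Ip, Ip, in_r, defT_r]

theorem Act.r (h : D.Act l y a) : D.Act l (D.U.r a y) a := by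
  induction h with
  | ch y a h => exact .ch _ _ (D.hB.che_r h)
  | t y a b z g g' z' h h' h1 h2 h3 h4 h5 h6 h7 h8 _ _ =>
    have hp := D.hB.pl_symm h1.1.1 (Pos.pl_r y a b)
    exact .t _ _ b z g g' z' h h' h1.r (D.hB.pl_trans h1.1.1 hp h2) (D.hB.pl_trans h1.1.1 hp h3)
      h4 h5 h6 h7 h8
  | o y a b h1 h2 _ ih =>
    refine .o _ _ b (defO_r.2 h1) ((lo_pl h1.1.1.1 (Pos.pl_r y a b)).2 h2) ?_
    rw [D.hB.go_r_M h1.1.1.1]
    exact ih

theorem act_r : D.Act l (D.U.r a y) a ↔ D.Act l y a :=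
  ⟨fun h => by simpa only [D.hB.rr] using h.r, Act.r⟩

theorem Act.of_mu (h : D.DefT l y a b) (hm : D.Mu l y a b) : D.Act l y a := by
  obtain ⟨z, g, g', z', k, k', h1, h2, h3, h4, h5, h6, h7⟩ := hm
  exact .t _ _ b z g g' z' k k' h h1 h2 h3 h4 h5 h6 h7

theorem Act.cases (h : D.Act l y a) : D.U.ChE M l.1 y a ∨
    (∃ b, D.DefT l y a b ∧ D.Mu l y a b) ∨
    ∃ b, D.DefO l y a b ∧ D.Lo l y a b ∧ D.Act l (D.U.go y a b (M a b)) (el a b (M a b)) := by
  cases h with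
  | ch _ _ h => exact Or.inl h
  | t _ _ b z g g' z' k k' h1 h2 h3 h4 h5 h6 h7 h8 =>
    exact Or.inr (Or.inl ⟨b, h1, z, g, g', z', k, k', h2, h3, h4, h5, h6, h7, h8⟩)
  | o _ _ b h1 h2 h3 => exact Or.inr (Or.inr ⟨b, h1, h2, h3⟩)

theorem Act.ne (h : D.Act l y a) : D.U.col y a ≠ l.1 := by
  rcases h.cases with h1 | ⟨b, h1, -⟩ | ⟨b, h1, -⟩
  · exact h1.1
  · exact fun e1 => h1.1.2 (e1 ▸ Pos.thru_col _ _ _)
  · exact fun e1 => h1.1.1.2 (e1 ▸ Pos.thru_col _ _ _)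

theorem Cp.r (h : D.Cp l y a b) : D.Cp l (D.U.r a y) a b :=
  ⟨h.1.r, h.2.1.r, by rw [lo_pl h.1.1.1 (Pos.pl_r y a b)]; exact h.2.2⟩

theorem ms_r : D.ms l (D.U.r a y) a = D.ms l y a := by
  have h : (∃ b, D.DefT l (D.U.r a y) a b) = ∃ b, D.DefT l y a b := by simp only [defT_r]
  rw [ms, ms, D.hB.rr, min_comm, h]

theorem sy_self {s : ι} (h : D.U.col y s = l.1) : D.Sy l y y s := ⟨h, fun _ _ => rfl⟩

theorem Sy.r {w : D.U.X} {s : ι} (h : D.Sy l w y s) : D.Sy l w (D.U.r s y) s := by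
  refine ⟨by rw [D.hB.col_r, h.1], fun b hb => ?_⟩
  rw [D.gt_r y s b hb, h.2 b hb, Pos.Bas.e_r_ne D.he]
  exact (D.hB.mid_ne hb (D.gt_mid y s b hb) (Or.inl rfl)).symm

end

end Wb

end Pool.Agent.P.MP_e794d7_al.Y
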