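import Pool.Agent.P.MP_e794d7_al.Y.MDef

/-! The universal complex and the labelling near a wall: definitions. -/

set_option autoImplicit false

namespace Pool.Agent.P.MP_e794d7_al.Y

open scoped Classical

noncomputable section

variable {ι : Type}

/-- automorphisms of a position system -/
structure Aut (U : Pos ι) where
  f : U.X ≃ U.X
  t : U.Col ≃ U.Col
  f_r : ∀ a w, f (U.r a w) = U.r a (f w)
  t_col : ∀ w a, t (U.col w a) = U.col (f w) a

/-- indices of two walls at two vertices of one panel that do not meet -/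
structure NC (M : ι → ι → ℕ) (a b b' : ι) (n n' : ℕ) : Prop where
  ab : Adj M a b
  ab' : Adj M a b'
  ne : b ≠ b'
  n1 : 1 ≤ n
  nm : n < M a b
  n1' : 1 ≤ n'
  nm' : n' < M a b'
  fst : ¬ (n = 1 ∧ n' = 1)
  lst : ¬ (n + 1 = M a b ∧ n' + 1 = M a b')

/-- the properties of the universal complex -/
structure Cx (M : ι → ι → ℕ) (U : Pos ι) (e : U.X → U.Col → Bool) : Prop where
  hB : U.Bas M
  he : U.Eps e
  four : ∀ a b, Adj M a b → 4 ≤ M a b
  nc1 : ∀ y a b b' n n' D, NC M a b b' n n' →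
    e D (U.cc y a b n) = e y (U.cc y a b n) ∨ e D (U.cc y a b' n') = e y (U.cc y a b' n')
  nc3 : ∀ y a b D, a ≠ b → M a b = 0 →
    e D (U.col y a) = e y (U.col y a) ∨ e D (U.col y b) = e y (U.col y b)
  prj : ∀ D y a b, Adj M a b → ∃ z, U.Res y a b z ∧ ∀ σ, U.Thru y a b σ → e D σ = e z σ
  geo : ∀ y D, y ≠ D → ∃ a, e D (U.col y a) ≠ e y (U.col y a)
  fin : ∀ y D, {σ | e D σ ≠ e y σ}.Finite
  hom : ∀ u u', ∃ α : Aut U, α.f u = u'

/-- the number of walls that separate two chambers -/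
def dst {U : Pos ι} (e : U.X → U.Col → Bool) (y D : U.X) : ℕ := {σ | e D σ ≠ e y σ}.ncard

/-- the way along a wall from the edge `(y, a)` to the edge `(y', a')` -/
inductive Rch (M : ι → ι → ℕ) (U : Pos ι) (e : U.X → U.Col → Bool) (y' : U.X) (a' : ι) :
    U.X → ι → Prop
  | base : Rch M U e y' a' y' a'
  | step (y : U.X) (a b : ι) : Adj M a b →
      (∀ σ, U.Thru y a b σ → σ ≠ U.col y a → e y' σ ≠ e y σ) →
      Rch M U e y' a' (U.go y a b (M a b + 1)) (el a b (M a b)) → Rch M U e y' a' y a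

/-- a map of position systems that is faithful on pairs of walls at distance at most `ρ` -/
structure Cov (M : ι → ι → ℕ) (U : Pos ι) (e : U.X → U.Col → Bool) (P : Pos ι) (ρ : ℕ) where
  φ : U.X → P.X
  ψ : U.Col → P.Col
  φ_r : ∀ a w, φ (U.r a w) = P.r a (φ w)
  ψ_col : ∀ w a, ψ (U.col w a) = P.col (φ w) a
  inj : ∀ u g u' g', dst e u u' ≤ ρ → ψ (U.col u g) = ψ (U.col u' g') → U.col u g = U.col u' g'
  nx : ∀ u g u' g', dst e u u' ≤ ρ → U.NX M (U.col u g) (U.col u' g') →
    P.NX M (ψ (U.col u g)) (ψ (U.col u' g'))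

/-- the flag `(z; g, g')` lies at the vertex `(y; a, b)` -/
def Pos.Pl (U : Pos ι) (y : U.X) (a b : ι) (z : U.X) (g g' : ι) : Prop :=
  U.Res y a b z ∧ Same a b g g'

/-- ordered product -/
def pr {Q : Type} [Group Q] (g : ℕ → Q) : ℕ → Q
  | 0 => 1
  | n + 1 => pr g n * g n

/-- the universal complex with names of the walls and gates -/
structure Wb (M : ι → ι → ℕ) (K : ℕ) (T : Type) where
  U : Pos ι
  e : U.X → U.Col → Bool
  cx : Cx M U e
  fin : Finite ι
  hK : ∀ a b, M a b ≤ K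
  lb : U.Col → T
  lb_inj : ∀ y a b σ τ, Adj M a b → U.Thru y a b σ → U.Thru y a b τ → lb σ = lb τ → σ = τ
  gt : U.X → ι → ι → U.Col
  gt_mid : ∀ y s b, Adj M s b → U.Mid M y s b (gt y s b)
  gt_r : ∀ y s b, Adj M s b → gt (U.r s y) s b = gt y s b
  gt_op : ∀ y s b, Adj M s b →
    gt (U.go y s b (M s b)) (el s b (M s b)) (el s b (M s b + 1)) = gt y s b

/-- above this height no two active panels meet -/
def H0 (ι : Type) (K : ℕ) : ℕ := K + 9 + 6 * Nat.card ι

/-- the height of the caps -/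
def Hc (ι : Type) (K : ℕ) : ℕ := H0 ι K + K + 2

namespace Wb

variable {M : ι → ι → ℕ} {K : ℕ} {T : Type} (D : Wb M K T)

/-- the walls -/
def Wl : Type := {σ : D.U.Col // ∃ y s, D.U.col y s = σ}

variable (l : D.Wl)

/-- the chamber touches the wall `l` -/
def Tch (y : D.U.X) : Prop := ∃ s, D.U.col y s = l.1

/-- lateral walls cross `l` -/
def Lat (σ : D.U.Col) : Prop :=
  σ ≠ l.1 ∧ ∃ x a b, Adj M a b ∧ D.U.Thru x a b l.1 ∧ D.U.Thru x a b σ

/-- `σ` separates `w` from `l` -/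
def Sep (σ : D.U.Col) (w : D.U.X) : Prop := ∀ y, D.Tch l y → D.e y σ ≠ D.e w σ

/-- `σ` separates `w` from some chamber that touches `l` -/
def Low (σ : D.U.Col) (w : D.U.X) : Prop := ∃ y, D.Tch l y ∧ D.e y σ ≠ D.e w σ

/-- the height -/
def ht (w : D.U.X) : ℕ := {σ | D.Sep l σ w}.ncard

/-- descents -/
def Dn (w : D.U.X) (a : ι) : Prop := D.Sep l (D.U.col w a) w

/-- ascents -/
def Up (w : D.U.X) (a : ι) : Prop := ¬ D.Low l (D.U.col w a) w

/-- lateral letters -/
def La (w : D.U.X) (a : ι) : Prop := D.Lat l (D.U.col w a)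

/-- a vertex that is not on `l` -/
def Off (y : D.U.X) (a b : ι) : Prop := Adj M a b ∧ ¬ D.U.Thru y a b l.1

/-- a lowest chamber of the vertex -/
def Bot (y : D.U.X) (a b : ι) : Prop := ∀ σ, D.U.Thru y a b σ → ¬ D.Sep l σ y

/-- a highest chamber of the vertex -/
def Top (y : D.U.X) (a b : ι) : Prop := ∀ σ, D.U.Thru y a b σ → D.Low l σ y

/-- the panel `[y, a]` touches a lowest chamber of the vertex `(y; a, b)` -/
def In (y : D.U.X) (a b : ι) : Prop :=
  D.Off l y a b ∧ (D.Bot l y a b ∨ D.Bot l (D.U.r a y) a b)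

/-- the panel `[y, a]` touches a highest chamber of the vertex `(y; a, b)` -/
def Out (y : D.U.X) (a b : ι) : Prop :=
  D.Off l y a b ∧ (D.Top l y a b ∨ D.Top l (D.U.r a y) a b)

/-- a vertex with two lateral walls -/
def Apx (y : D.U.X) (a b : ι) : Prop := ∃ z, D.U.Res y a b z ∧ D.La l z a ∧ D.La l z b

/-- walls through the vertex that may carry the correction -/
def Adm (y : D.U.X) (a b : ι) (σ : D.U.Col) : Prop :=
  D.U.Thru y a b σ ∧ ¬ D.Lat l σ ∧ ((M a b = 4 ∧ D.Apx l y a b) ∨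
    ∀ z g g', D.U.Pl y a b z g g' → D.U.col z g = σ →
      ¬ D.In l z g g' ∧ (D.Up l z g → ∀ c, D.Dn l z c → c = g'))

/-- the name of the chosen wall of the vertex -/
def tn (y : D.U.X) (a b : ι) : T :=
  @Classical.epsilon _ ⟨D.lb l.1⟩ fun t => ∃ τ, D.Adm l y a b τ ∧ D.lb τ = t

/-- the panel `[y, a]` lies on the chosen wall of the vertex `(y; a, b)` -/
def DefT (y : D.U.X) (a b : ι) : Prop :=
  D.Off l y a b ∧ D.Adm l y a b (D.U.col y a) ∧ D.lb (D.U.col y a) = D.tn l y a b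

/-- output panels -/
def DefO (y : D.U.X) (a b : ι) : Prop := D.Out l y a b ∧ ¬ D.DefT l y a b

/-- input panels -/
def Ip (y : D.U.X) (a b : ι) : Prop := D.In l y a b ∧ ¬ D.DefT l y a b

/-- a vertex below the caps -/
def Lo (y : D.U.X) (a b : ι) : Prop := ∀ z, D.U.Res y a b z → D.Bot l z a b → D.ht l z < Hc ι K

/-- active panels -/
inductive Act : D.U.X → ι → Prop
  | ch (y : D.U.X) (a : ι) : D.U.ChE M l.1 y a → Act y a
  | t (y : D.U.X) (a b : ι) (z : D.U.X) (g g' : ι) (z' : D.U.X) (h h' : ι) : D.DefT l y a b →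
      D.U.Pl y a b z g g' → D.U.Pl y a b z' h h' → D.Ip l z g g' → D.Ip l z' h h' →
      D.U.col z g ≠ D.U.col z' h → Act z g → Act z' h → Act y a
  | o (y : D.U.X) (a b : ι) : D.DefO l y a b → D.Lo l y a b →
      Act (D.U.go y a b (M a b)) (el a b (M a b)) → Act y a

/-- two active inputs -/
def Mu (y : D.U.X) (a b : ι) : Prop :=
  ∃ z g g' z' h h', D.U.Pl y a b z g g' ∧ D.U.Pl y a b z' h h' ∧ D.Ip l z g g' ∧ D.Ip l z' h h' ∧
    D.U.col z g ≠ D.U.col z' h ∧ D.Act l z g ∧ D.Act l z' h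

/-- caps: the active input `[w, a]` is stopped at the vertex `(w; a, b)` -/
def Cp (w : D.U.X) (a b : ι) : Prop := D.In l w a b ∧ D.Act l w a ∧ ¬ D.Lo l w a b

/-- lateral letters and active ascents -/
def J (F : D.U.X) (a : ι) : Prop := D.La l F a ∨ (D.Up l F a ∧ D.Act l F a)

/-- the position of `F` at the vertex `(F; c, a)`: `j` walls below, then `k` lateral walls -/
structure Ps (F : D.U.X) (c a : ι) (j k : ℕ) : Prop where
  off : D.Off l F c a
  le : j + k ≤ M c a
  sep : ∀ n, n < M c a → (D.Sep l (D.U.cc F c a n) F ↔ n < j)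
  lat : ∀ n, n < M c a → (D.Lat l (D.U.cc F c a n) ↔ j ≤ n ∧ n < j + k)

/-- the measure of the recursion -/
def ms (y : D.U.X) (a : ι) : ℕ :=
  2 * min (D.ht l y) (D.ht l (D.U.r a y)) + if ∃ b, D.DefT l y a b then 1 else 0

variable {Q : Type} [Group Q]

/-- the label of the edge number `n` of the walk, read from the inputs -/
def inp (f : D.U.X → ι → Q) (y : D.U.X) (a b : ι) (n : ℕ) : Q :=
  if D.Ip l (D.U.go y a b n) (el a b n) (el a b (n + 1)) then f (D.U.go y a b n) (el a b n)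
  else if D.Ip l (D.U.go y a b (n + M a b)) (el a b (n + M a b)) (el a b (n + M a b + 1)) then
    f (D.U.go y a b (n + M a b)) (el a b (n + M a b))
  else 1

/-- the recursion -/
def Eqn (β f : D.U.X → ι → Q) (y : D.U.X) (a : ι) : Q :=
  if D.U.ChE M l.1 y a then β y a
  else if ¬ D.Act l y a then 1
  else if h : ∃ b, D.DefT l y a b then
    (pr (fun n => D.inp l f y a h.choose (n + 1)) (M a h.choose - 1))⁻¹
  else if h : ∃ b, D.DefO l y a b then
    (if D.Mu l y a h.choose then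
      f (D.U.go y a h.choose (M a h.choose)) (el a h.choose (M a h.choose))
    else f (D.U.go y a h.choose (M a h.choose + 1)) (el a h.choose (M a h.choose)))
  else 1

/-- the labelling that extends the labelling `β` of the chain -/
def Lab (β : D.U.X → ι → Q) : D.U.X → ι → Q :=
  Classical.epsilon fun f => ∀ y a, f y a = D.Eqn l β f y a

/-- the panel `[y, s]` of `l` is the one that the gates assign to `w` -/
def Sy (w y : D.U.X) (s : ι) : Prop :=
  D.U.col y s = l.1 ∧ ∀ b, Adj M s b → D.e w (D.gt y s b) = D.e y (D.gt y s b)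

end Wb

end

end Pool.Agent.P.MP_e794d7_al.Y
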